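import Mathlib

/-!
Definitions for the library UCF (captain helper23): if `M/K` is a finite abelian extension of
number fields of odd degree, unramified at all finite places, then `[M : K]` divides the class
number of `K`. No reciprocity law is used: the cyclic case comes from the Herbrand quotient of the
units and the ambiguous class number formula, the general case from Dirichlet densities.
-/

open NumberField IsDedekindDomain
open scoped Pointwise nonZeroDivisors

namespace Pool.Agent.Work.MP_59f3ad_nt.UCF

universe u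

section classes

variable (K : Type u) [Field K] [NumberField K] (M : Type u) [Field M] [NumberField M] [Algebra K M]

open Classical in
/-- The class of an ideal; the zero ideal is sent to `1`. -/
noncomputable def cls (I : Ideal (𝓞 K)) : ClassGroup (𝓞 K) :=
  if h : I = ⊥ then 1 else ClassGroup.mk0 ⟨I, mem_nonZeroDivisors_iff_ne_zero.mpr h⟩

/-- `M/K` is unramified at all finite places. -/
def Unram : Prop := ∀ P : Ideal (𝓞 M), P.IsPrime → P ≠ ⊥ → P.ramificationIdx (𝓞 K) = 1

/-- `X(M/K)`: the characters of the class group of `K` which are trivial on the classes of the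
norms of ideals of `M`. -/
noncomputable def XX : Subgroup (ClassGroup (𝓞 K) →* ℂˣ) where
  carrier := {ψ | ∀ I : Ideal (𝓞 M), I ≠ ⊥ → ψ (cls K (Ideal.relNorm (𝓞 K) I)) = 1}
  mul_mem' := by
    intro a b ha hb I hI
    simp [ha I hI, hb I hI]
  one_mem' := by
    intro I hI
    simp
  inv_mem' := by
    intro a ha I hI
    simp [ha I hI]

/-- The primes of `K` which have a prime of `M` above them with `e = f = 1` (for `M/K` Galois: the
primes that split completely). -/
def Spl : Set (HeightOneSpectrum (𝓞 K)) :=
  {v | ∃ P : Ideal (𝓞 M), P.IsPrime ∧ P.LiesOver v.asIdeal ∧ P.ramificationIdx (𝓞 K) = 1 ∧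
    P.inertiaDeg (𝓞 K) = 1}

open Classical in
/-- `∑ N(v)^(-s)` over the primes `v` in a set `S`. -/
noncomputable def PS (S : Set (HeightOneSpectrum (𝓞 K))) (s : ℝ) : ℝ :=
  ∑' v : HeightOneSpectrum (𝓞 K), if v ∈ S then (v.asIdeal.absNorm : ℝ) ^ (-s) else 0

end classes

section zeta

variable (K : Type u) [Field K] [NumberField K]

/-- The absolute value of the norm of an algebraic integer. -/
noncomputable def nrm (x : 𝓞 K) : ℝ := (Ideal.absNorm (Ideal.span {x}) : ℝ)

open Classical in
/-- The size of an algebraic integer: the norm of its image in the mixed space, the maximum of its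
absolute values at the infinite places. -/
noncomputable def sz (x : 𝓞 K) : ℝ := ‖mixedEmbedding K (x : K)‖

open Classical in
/-- Logarithmic coordinates of an algebraic integer, in the basis of the unit lattice. -/
noncomputable def lc (x : 𝓞 K) (i : Fin (Units.rank K)) : ℝ :=
  ((Units.basisUnitLattice K).ofZLatticeBasis ℝ (Units.unitLattice K)).repr
    (mixedEmbedding.logMap (mixedEmbedding K (x : K))) i

/-- The weight: a partition of unity for the action of the units modulo torsion. -/
noncomputable def wt (x : 𝓞 K) : ℝ := ∏ i : Fin (Units.rank K), max 0 (1 - |lc K x i|)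

open Classical in
/-- `∑ wt(x) |N x|^(-s)` over the nonzero elements `x` of an ideal `J`. -/
noncomputable def SJ (J : Ideal (𝓞 K)) (s : ℝ) : ℝ :=
  ∑' x : 𝓞 K, if x ∈ J ∧ x ≠ 0 then wt K x * nrm K x ^ (-s) else 0

open Classical in
/-- The zeta function of an ideal class. -/
noncomputable def zc (C : ClassGroup (𝓞 K)) (s : ℝ) : ℝ :=
  ∑' I : Ideal (𝓞 K), if I ≠ ⊥ ∧ cls K I = C then (I.absNorm : ℝ) ^ (-s) else 0

open Classical in
/-- The Dedekind zeta function on the real line, as a sum over the nonzero ideals. -/
noncomputable def zK (s : ℝ) : ℝ :=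
  ∑' I : Ideal (𝓞 K), if I ≠ ⊥ then (I.absNorm : ℝ) ^ (-s) else 0

open Classical in
/-- The term at `I` of the `L`-series of a character of the class group. -/
noncomputable def lt (ψ : ClassGroup (𝓞 K) →* ℂˣ) (s : ℝ) (I : Ideal (𝓞 K)) : ℂ :=
  if I ≠ ⊥ then ((ψ (cls K I) : ℂˣ) : ℂ) * (((I.absNorm : ℝ) ^ (-s) : ℝ) : ℂ) else 0

/-- The `L`-series of a character of the class group on the real line. -/
noncomputable def LL (ψ : ClassGroup (𝓞 K) →* ℂˣ) (s : ℝ) : ℂ := ∑' I : Ideal (𝓞 K), lt K ψ s I

end zeta

section herbrand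

variable {A : Type u} [AddCommGroup A]

/-- `1 - σ`. -/
def dd (σ : AddMonoid.End A) : AddMonoid.End A := 1 - σ

/-- `1 + σ + ... + σ^(n-1)`. -/
def nn (n : ℕ) (σ : AddMonoid.End A) : AddMonoid.End A := ∑ i ∈ Finset.range n, σ ^ i

/-- The order of `ker (1 - σ) / im N`. -/
noncomputable def h0 (n : ℕ) (σ : AddMonoid.End A) : ℕ :=
  (AddMonoidHom.range (nn n σ : A →+ A)).relIndex (AddMonoidHom.ker (dd σ : A →+ A))

/-- The order of `ker N / im (1 - σ)`. -/
noncomputable def h1 (n : ℕ) (σ : AddMonoid.End A) : ℕ :=
  (AddMonoidHom.range (dd σ : A →+ A)).relIndex (AddMonoidHom.ker (nn n σ : A →+ A))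

end herbrand

section galois

variable {K : Type u} [Field K] {M : Type u} [Field M] [NumberField M] [Algebra K M]

/-- The action of a field automorphism on the units of the ring of integers. -/
noncomputable def ug (g : Gal(M/K)) : (𝓞 M)ˣ →* (𝓞 M)ˣ :=
  Units.map (MulSemiringAction.toRingHom Gal(M/K) (𝓞 M) g : 𝓞 M →* 𝓞 M)

/-- The same, additively. -/
noncomputable def ue (g : Gal(M/K)) : AddMonoid.End (Additive (𝓞 M)ˣ) :=
  MonoidHom.toAdditive (ug g)

end galois

end Pool.Agent.Work.MP_59f3ad_nt.UCF
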