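import Pool.Agent.Work.MP_59f3ad_nt.UCF.Defs

/-!
Statements of the library UCF (captain helper23). The docstring of each statement is its complete
proof. Nothing here is a theorem; each item `Xx` proves `StXx` in the file `I_Xx.lean`.
-/

open NumberField IsDedekindDomain Filter Topology
open scoped Pointwise nonZeroDivisors

namespace Pool.Agent.Work.MP_59f3ad_nt.UCF

universe u

/-! ### Block UB: analysis of the partial zeta functions and densities -/

/-- (Sm) Summability over the ring of integers. The image of `𝓞 K` in the mixed space is a lattice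
(`mixedEmbedding.integerLattice`, instances in `CanonicalEmbedding/Basic`) of rank `n = [K : ℚ]`
(`mixedEmbedding.finrank`), and `ZLattice.summable_norm_rpow` applies. The term at `x = 0` is
`0 ^ (-t) = 0`. -/
def StSm : Prop := ∀ (K : Type u) [Field K] [NumberField K] (t : ℝ), (Module.finrank ℚ K : ℝ) < t →
  Summable (fun x : 𝓞 K => sz K x ^ (-t))

/-- (Wz) Where the weight is not zero, the norm is comparable with the size. If `wt x ≠ 0` and
`x ≠ 0` then all coordinates `lc x i` have absolute value `< 1`, so `logMap (mixedEmbedding x)` lies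
in a fixed bounded set: `|mult w (log |x|_w - (1/n) log |N x|)| ≤ B` for `w ≠ w₀`. As
`∑ mult w log |x|_w = log |N x|` over all places and `∑ mult w = n`, the same holds at `w₀` with
another constant. So `|x|_w ≤ e^B |N x|^(1/n)` for all `w`, and `‖mixedEmbedding x‖` is the maximum
of the `|x|_w` (`mixedEmbedding.norm_eq_sup'_normAtPlace`). -/
def StWz : Prop := ∀ (K : Type u) [Field K] [NumberField K], ∃ c : ℝ, 0 < c ∧ ∀ x : 𝓞 K, x ≠ 0 →
  wt K x ≠ 0 → (∀ w : InfinitePlace K, c * sz K x ≤ w (x : K)) ∧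
    c * sz K x ^ (Module.finrank ℚ K) ≤ nrm K x

/-- (Wu) The weight is a partition of unity. `logMap (mixedEmbedding (u x)) = logEmbedding u +
logMap (mixedEmbedding x)` (`mixedEmbedding.logMap_unit_smul` or `logMap_mul`). Every unit is
uniquely `ζ ∏ ε_i^(m_i)` with `ζ` in the torsion and `m ∈ ℤ^r`
(`Units.exist_unique_eq_mul_prod`), the coordinates of `logEmbedding` of it are the `m_i`
(`logEmbedding_fundSystem`, `Basis.ofZLatticeBasis_repr_apply`). So the sum is
`torsionOrder * ∏_i ∑_(m ∈ ℤ) max 0 (1 - |m + c_i|)`, and `∑_(m ∈ ℤ) max 0 (1 - |m + c|) = 1` for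
every real `c` (two nonzero terms, `m = -⌊c⌋` and `m = -⌊c⌋ - 1`). -/
def StWu : Prop := ∀ (K : Type u) [Field K] [NumberField K] (x : 𝓞 K), x ≠ 0 →
  HasSum (fun u : (𝓞 K)ˣ => wt K ((u : 𝓞 K) * x)) (Units.torsionOrder K : ℝ)

/-- (Wd) The difference bound. Put `f_s(x) = wt(x) |N x|^(-s)`; `0 ≤ wt ≤ 1` and `|N x| ≥ 1` for
`x ≠ 0`, so `|f_s(x + r) - f_s(x)| ≤ 1` always, which is enough for `‖x‖ ≤ R`, `R` any constant
depending on `r` and `K`. Let `‖x‖ > R`. If both weights are zero, nothing to prove. Otherwise let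
`y` be one of `x`, `x + r` with `wt y ≠ 0` and `z` the other one, `z = y ± r`. By `StWz`,
`|y|_w ≥ c ‖y‖` for all `w`, `‖y‖ ≥ ‖x‖/2`, and `|z - y|_w ≤ ‖r‖ ≤ (c/2) ‖y‖` if `R` is large; so
`| log |z|_w - log |y|_w | ≤ 2 ‖r‖ / (c ‖y‖)` for all `w`. Hence all the coordinates `lc` differ
by at most `C / ‖y‖` (linear functions of the logarithms), so do the weights (a product of numbers
in `[0,1]`, each a `1`-Lipschitz function of the coordinate), and `log |N z| - log |N y|` is at
most `C / ‖y‖` (`|N x| = ∏ |x|_w^(mult w)`); finally `|N y|^(-s) ≤ (c ‖y‖^n)^(-s) ≤ C ‖y‖^(-n)`. -/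
def StWd : Prop := ∀ (K : Type u) [Field K] [NumberField K] (r : 𝓞 K), ∃ C : ℝ,
  ∀ s ∈ Set.Icc (1 : ℝ) 2, ∀ x : 𝓞 K, x ≠ 0 → x + r ≠ 0 →
    |wt K (x + r) * nrm K (x + r) ^ (-s) - wt K x * nrm K x ^ (-s)| ≤
      C * sz K x ^ (-(Module.finrank ℚ K : ℝ) - 1)

/-- (We) The difference bound, uniform version (this implies `StWd`, see there for the argument;
`A` is chosen so large that `|z - y|_w ≤ (c/2) |y|_w` in the notation there). -/
def StWe : Prop := ∀ (K : Type u) [Field K] [NumberField K], ∃ A C : ℝ, 0 < A ∧ 0 < C ∧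
  ∀ s ∈ Set.Icc (1 : ℝ) 2, ∀ x y : 𝓞 K, x ≠ 0 → y ≠ 0 → A * sz K (y - x) ≤ sz K x →
    |wt K y * nrm K y ^ (-s) - wt K x * nrm K x ^ (-s)| ≤
      C * sz K (y - x) * sz K x ^ (-(Module.finrank ℚ K : ℝ) - 1)

/-- (Cp) Comparison of the lattices `𝓞 K` and `J`. Choose representatives `r_1, ..., r_m` of
`𝓞 K / J`, `m = absNorm J`, with `r_1 = 0`. Every `x ∈ 𝓞 K` is uniquely `y + r_i`, `y ∈ J`. With
`f = wt * nrm^(-s)` on nonzero elements (summable for `s > 1` by `StWz` and `StSm`),
`SJ ⊤ - m SJ J = ∑_i (∑_(y ∈ J, y ≠ 0, y + r_i ≠ 0) (f(y + r_i) - f(y)) + [r_i ≠ 0] f(r_i))`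
(`y + r_i = 0` with `y ∈ J` forces `r_i = 0`), and by `StWd` and `StSm` each inner sum is bounded
independently of `s`; `0 ≤ f ≤ 1`. -/
def StCp : Prop := ∀ (K : Type u) [Field K] [NumberField K] (J : Ideal (𝓞 K)), J ≠ ⊥ →
  ∃ C : ℝ, ∀ s ∈ Set.Ioc (1 : ℝ) 2, |SJ K ⊤ s - (J.absNorm : ℝ) * SJ K J s| ≤ C

/-- (Si) Summability over the ideals: from `NumberField.tendsto_sub_one_mul_dedekindZeta_nhdsGT`
(the limit is not `0`, so the series is summable for `s` near `1`, hence for all larger `s`), or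
from `Ideal.tendsto_norm_le_div_atTop` by partial summation; `Ideal.finite_setOf_absNorm_eq`. -/
def StSi : Prop := ∀ (K : Type u) [Field K] [NumberField K] (s : ℝ), 1 < s →
  Summable (fun I : Ideal (𝓞 K) => (I.absNorm : ℝ) ^ (-s))

/-- (Uf) Unfolding. Partition the nonzero `x ∈ J` by the ideal `(x)`: the fibre over `(x)` is
`{u x : u unit}` (the units act freely), `nrm` is constant on it and the sum of the weights is
`torsionOrder K` (`StWu`). The nonzero principal ideals contained in `J` are the `J I` with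
`cls I = (cls J)⁻¹` (`I ↦ J I` is injective), `absNorm (J I) = absNorm J * absNorm I`. Everything
is nonnegative and summable for `s > 1` (`StWz` and `StSm`, or `StSi`). -/
def StUf : Prop := ∀ (K : Type u) [Field K] [NumberField K] (J : Ideal (𝓞 K)), J ≠ ⊥ →
  ∀ s : ℝ, 1 < s →
    SJ K J s = (Units.torsionOrder K : ℝ) * (J.absNorm : ℝ) ^ (-s) * zc K (cls K J)⁻¹ s

/-- (Rs) Residue. `zK K s` is the value of `dedekindZeta K` at the real point `s` (an `LSeries`
whose `n`-th coefficient is the number of ideals of norm `n`), and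
`NumberField.tendsto_sub_one_mul_dedekindZeta_nhdsGT` gives the two bounds near `1`; away from `1`
use that `zK` is decreasing and `zK ≥ 1`. -/
def StRs : Prop := ∀ (K : Type u) [Field K] [NumberField K], ∃ a b : ℝ, 0 < a ∧
  ∀ s ∈ Set.Ioc (1 : ℝ) 2, a / (s - 1) ≤ zK K s ∧ zK K s ≤ b / (s - 1)

/-- (Zc) The zeta functions of two ideal classes differ by a bounded function. It is enough to
compare `C` with `1`. Let `J` be a nonzero ideal with `cls J = C⁻¹`, `m = absNorm J`. `StUf` for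
`⊤` and `J` and `StCp` give `|zc 1 s - m^(1-s) zc C s| ≤ B`. Also `0 ≤ 1 - m^(1-s) ≤ (s-1) log m`
and `zc C s ≤ zK s ≤ b/(s-1)` (`StRs`), so `|zc 1 s - zc C s| ≤ B + b log m`. -/
def StZc : Prop := ∀ (K : Type u) [Field K] [NumberField K] (C₁ C₂ : ClassGroup (𝓞 K)), ∃ B : ℝ,
  ∀ s ∈ Set.Ioc (1 : ℝ) 2, |zc K C₁ s - zc K C₂ s| ≤ B

/-- (Ep) Euler product over the primes of a Dedekind domain, for a completely multiplicative
function. For a finite set `F` of primes, `∏_(v ∈ F) (1 - f v)⁻¹` is the sum of `f` over the ideals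
all whose prime factors are in `F` (induction on `F`, geometric series; `‖f v‖ < 1` because the
powers of `v` are distinct and `f` is summable), and the rest of the sum tends to `0`. Compare
`Mathlib.NumberTheory.EulerProduct.Basic`. -/
def StEp : Prop := ∀ (R : Type u) [CommRing R] [IsDedekindDomain R] (f : Ideal R →*₀ ℂ),
  Summable (fun I : Ideal R => ‖f I‖) →
    Tendsto (fun F : Finset (HeightOneSpectrum R) => ∏ v ∈ F, (1 - f v.asIdeal)⁻¹) atTop
      (𝓝 (∑' I : Ideal R, f I))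

/-- (Lg) Logarithm of the Euler product. `lt K ψ s` is completely multiplicative, `‖lt K ψ s I‖ =
N(I)^(-s)` for `I ≠ ⊥`; at a prime this is at most `1/2`, and `| log |1 - z|⁻¹ - Re z | ≤ |z|²` for
`|z| ≤ 1/2`. By `StEp` and `StSi` the finite products have absolute values
`exp (∑_(v ∈ F) Re (lt v) + O(B))` with `B = ∑_v N(v)^(-2)` independent of `s > 1` and `F`. So
the limit is not `0` and the estimate passes to the limit. -/
def StLg : Prop := ∀ (K : Type u) [Field K] [NumberField K] (ψ : ClassGroup (𝓞 K) →* ℂˣ),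
  ∃ B : ℝ, ∀ s ∈ Set.Ioc (1 : ℝ) 2, LL K ψ s ≠ 0 ∧
    |(∑' v : HeightOneSpectrum (𝓞 K), (lt K ψ s v.asIdeal).re) - Real.log ‖LL K ψ s‖| ≤ B

/-- (Lb) `L(s, ψ)` is bounded for `ψ ≠ 1`: `LL ψ s = ∑_C ψ(C) zc C s = ∑_C ψ(C) (zc C s - zc 1 s)`
because `∑_C ψ(C) = 0`, and `StZc`. -/
def StLb : Prop := ∀ (K : Type u) [Field K] [NumberField K] (ψ : ClassGroup (𝓞 K) →* ℂˣ), ψ ≠ 1 →
  ∃ B : ℝ, ∀ s ∈ Set.Ioc (1 : ℝ) 2, ‖LL K ψ s‖ ≤ B

/-- (P0) The sum over all primes: `StLg` for `ψ = 1` (then `LL K 1 s = zK K s`) and `StRs`. -/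
def StP0 : Prop := ∀ (K : Type u) [Field K] [NumberField K], ∃ B : ℝ, ∀ s ∈ Set.Ioc (1 : ℝ) 2,
  |PS K Set.univ s - Real.log (1 / (s - 1))| ≤ B

/-- (D1) Upper density of the primes killed by a group `Y` of characters. For a prime `v` the sum
`∑_(ψ ∈ Y) ψ(v)` is `|Y|` if all `ψ ∈ Y` are `1` at `v`, and `0` otherwise. So `|Y| PS(...) s =
∑_(ψ ∈ Y) ∑_v Re (lt ψ s v)`, at most `log ‖LL 1 s‖ + ∑_(ψ ≠ 1) log ‖LL ψ s‖ + B`, and
`LL 1 s = zK s ≤ b/(s-1)`, while `‖LL ψ s‖` is bounded for `ψ ≠ 1` (`StLg`, `StLb`, `StRs`). -/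
def StD1 : Prop := ∀ (K : Type u) [Field K] [NumberField K]
  (Y : Subgroup (ClassGroup (𝓞 K) →* ℂˣ)), ∃ B : ℝ, ∀ s ∈ Set.Ioc (1 : ℝ) 2,
    PS K {v | ∀ ψ ∈ Y, ψ (cls K v.asIdeal) = 1} s ≤
      (1 / (Nat.card Y : ℝ)) * Real.log (1 / (s - 1)) + B

/-- (Fi) Only finitely many primes of `M` are ramified over `K`: they divide the different ideal
(`not_dvd_differentIdeal_iff` and the like in `RingTheory/DedekindDomain/Different`), which is not
zero; `Ideal.finite_factors`. -/
def StFi : Prop := ∀ (K M : Type u) [Field K] [NumberField K] [Field M] [NumberField M]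
  [Algebra K M], {P : HeightOneSpectrum (𝓞 M) | P.asIdeal.ramificationIdx (𝓞 K) ≠ 1}.Finite

/-- (D2) Density of the primes that split completely. `StP0` for `M`: the sum over the primes `P`
of `M`. Those with `f(P/K) ≥ 2` contribute at most `∑_v [M : K] N(v)^(-2)`. Those with `e > 1` are
finite in number (`StFi`). The remaining ones lie over the primes `v ∈ Spl K M`, with `N P = N v`, and there
are exactly `[M : K]` of them above each `v ∈ Spl K M` (`M/K` Galois:
`Ideal.ncard_primesOver_mul_ramificationIdxIn_mul_inertiaDegIn`). -/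
def StD2 : Prop := ∀ (K M : Type u) [Field K] [NumberField K] [Field M] [NumberField M]
  [Algebra K M] [IsGalois K M], ∃ B : ℝ, ∀ s ∈ Set.Ioc (1 : ℝ) 2,
    |PS K (Spl K M) s - (1 / (Module.finrank K M : ℝ)) * Real.log (1 / (s - 1))| ≤ B

/-! ### Block UC: combination -/

/-- (Sp) A prime that splits completely in `E₁` and in `E₂` splits completely in `E₁ ⊔ E₂`.
Let `G = Gal(L/F)` (commutative), `P` a prime of `𝓞 L` over `v`, `D` its stabilizer. `v ∈ Spl F E`
for `E = E₁, E₂` means that the stabilizer of `P ∩ 𝓞 E` in `Gal(E/F)` is trivial (its order is `e f`,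
`Ideal.card_stabilizer_eq`; all primes of `E` over `v` have the same `e`, `f`), so `D` acts
trivially on `E`. So `D` acts trivially on `E₁ ⊔ E₂`, and so does the stabilizer of
`P ∩ 𝓞 (E₁ ⊔ E₂)` in `Gal(E₁ ⊔ E₂ / F)` (each element of it lifts to an element of `D` times
an element of `Gal(L/E₁ ⊔ E₂)`, by transitivity), so its order is `1 = e f`. One may also work with
`L` replaced by `E₁ ⊔ E₂`. -/
def StSp : Prop := ∀ (F L : Type u) [Field F] [NumberField F] [Field L] [NumberField L]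
  [Algebra F L] [IsGalois F L], (∀ σ τ : Gal(L/F), σ * τ = τ * σ) →
  ∀ E₁ E₂ : IntermediateField F L, Spl F E₁ ∩ Spl F E₂ ⊆ Spl F ↥(E₁ ⊔ E₂)

/-- (Nv) Characters in `X(M/K)` are `1` at the primes of `Spl K M`: if `P` lies over `v` with
`f = 1` then `relNorm P = v` (`Ideal.relNorm_eq_pow_of_isMaximal`). -/
def StNv : Prop := ∀ (K M : Type u) [Field K] [NumberField K] [Field M] [NumberField M]
  [Algebra K M], ∀ ψ ∈ XX K M, ∀ v ∈ Spl K M, ψ (cls K v.asIdeal) = 1

/-- (Ex) Exponent and monotonicity. `relNorm (I.map) = I^[M:K]` (`Ideal.relNorm_algebraMap`), so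
`ψ^[M:K] = 1`. For `f : E →ₐ[K] E'` make `E'` an `E`-algebra by `f`; then
`relNorm_K = relNorm_K (relNorm_E)` (`Ideal.relNorm_relNorm`), so a character trivial on norms from
`E` is trivial on norms from `E'`. -/
def StEx : Prop :=
  (∀ (K M : Type u) [Field K] [NumberField K] [Field M] [NumberField M] [Algebra K M],
    ∀ ψ ∈ XX K M, ψ ^ (Module.finrank K M) = 1) ∧
  (∀ (K E E' : Type u) [Field K] [NumberField K] [Field E] [NumberField E] [Algebra K E]
    [Field E'] [NumberField E'] [Algebra K E'] (_ : E →ₐ[K] E'), XX K E ≤ XX K E')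

/-- (Cg) Homomorphisms of class groups from homomorphisms of ideals: `ClassGroup` is the quotient
of the monoid of nonzero ideals: `ClassGroup.mk0_surjective`, `ClassGroup.mk0_eq_mk0_iff` (`(a) I =
(b) J`). Define `F` by choice of representatives; well defined because `f` maps `(a) I` to
`f((a)) f(I)` with `f((a))` principal, and multiplicative. -/
def StCg : Prop := ∀ (A B : Type u) [CommRing A] [IsDedekindDomain A] [CommRing B]
  [IsDedekindDomain B] (f : (Ideal A)⁰ →* (Ideal B)⁰),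
  (∀ I : (Ideal A)⁰, (I : Ideal A).IsPrincipal → (f I : Ideal B).IsPrincipal) →
  ∃ F : ClassGroup A →* ClassGroup B, ∀ I : (Ideal A)⁰,
    F (ClassGroup.mk0 I) = ClassGroup.mk0 (f I)

/-- (Nm) The norm, the extension map and the action of an automorphism on class groups: `StCg` for
`relNorm` (`Ideal.relNorm_singleton`), `Ideal.map (algebraMap (𝓞 K) (𝓞 M))` and `I ↦ g • I`. -/
def StNm : Prop := ∀ (K M : Type u) [Field K] [NumberField K] [Field M] [NumberField M]
  [Algebra K M],
  (∃ N : ClassGroup (𝓞 M) →* ClassGroup (𝓞 K), ∀ I : Ideal (𝓞 M), I ≠ ⊥ →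
    N (cls M I) = cls K (Ideal.relNorm (𝓞 K) I)) ∧
  (∃ J : ClassGroup (𝓞 K) →* ClassGroup (𝓞 M), ∀ I : Ideal (𝓞 K), I ≠ ⊥ →
    J (cls K I) = cls M (I.map (algebraMap (𝓞 K) (𝓞 M)))) ∧
  (∀ g : Gal(M/K), ∃ S : ClassGroup (𝓞 M) →* ClassGroup (𝓞 M), ∀ I : Ideal (𝓞 M), I ≠ ⊥ →
    S (cls M I) = cls M (g • I))

/-- (Bc) Base change. For a tower `K, F, E` and `ψ ∈ X(E/K)` the character `ψ ∘ N_(F/K)` of
`Cl_F` is in `X(E/F)` (`Ideal.relNorm_relNorm`), and it is `1` if and only if `ψ ∈ X(F/K)`. Here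
`N` is any homomorphism as in `StNm`. -/
def StBc : Prop := ∀ (K F E : Type u) [Field K] [NumberField K] [Field F] [NumberField F]
  [Field E] [NumberField E] [Algebra K F] [Algebra F E] [Algebra K E] [IsScalarTower K F E]
  (N : ClassGroup (𝓞 F) →* ClassGroup (𝓞 K)),
  (∀ I : Ideal (𝓞 F), I ≠ ⊥ → N (cls F I) = cls K (Ideal.relNorm (𝓞 K) I)) →
  ∀ ψ : ClassGroup (𝓞 K) →* ℂˣ, (ψ ∈ XX K E → ψ.comp N ∈ XX F E) ∧
    (ψ.comp N = 1 → ψ ∈ XX K F)

/-- (Kl) Key lemma. `E = E₂`, `ℓ = [E₁ : F]` prime, `E₁ ⊄ E₂`, so `[E₁ ⊔ E₂ : F] = ℓ e`,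
`e = [E₂ : F]` (`Gal(L/F)` is commutative, so all intermediate fields are Galois over `F`, and
`[E₁ ⊔ E₂ : E₂]` divides `ℓ` and is not `1`). Suppose `χ ≠ 1`. By `StEx` the order of `χ` is `ℓ`.
By `StNv`, `χ = 1` on `Spl F E₁ ∪ Spl F E₂`. By `StD2` and `StSp` the sum over that set is at least
`(1/ℓ + 1/e - 1/(ℓ e)) log (1/(s-1)) - B`; by `StD1` with `Y = zpowers χ` it is at most
`(1/ℓ) log (1/(s-1)) + B`. As `(1/e)(1 - 1/ℓ) > 0` this is a contradiction for `s → 1`. -/
def StKl : Prop := ∀ (F L : Type u) [Field F] [NumberField F] [Field L] [NumberField L]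
  [Algebra F L] [IsGalois F L], (∀ σ τ : Gal(L/F), σ * τ = τ * σ) →
  ∀ E₁ E₂ : IntermediateField F L, (Module.finrank F E₁).Prime → ¬ E₁ ≤ E₂ →
    ∀ χ ∈ XX F E₁, χ ∈ XX F E₂ → χ = 1

/-- (Tw) Towers. Induction on `[K₁ : K]`. If it is `1`, `χ ∈ X(K₁/K)` gives `χ = 1` (every ideal of
`K` is a norm). Otherwise there is `K ≤ F ≤ K₁` with `[K₁ : F] = ℓ` prime (`Gal(L/K)` is
commutative). Let `N : Cl_F → Cl_K` be the norm (`StNm`). By `StBc` (with `E₁ = K₁` and with
`E₂ = F ⊔ K₂`, seen as intermediate fields of `L/F`, `IntermediateField.extendScalars`; use the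
monotonicity in `StEx` for `K₂ ≤ F ⊔ K₂` and for the identification of `K₁` with its
`extendScalars`) `χ ∘ N` is in `X(K₁/F)` and in `X(F ⊔ K₂ / F)`. `K₁ ⊄ F ⊔ K₂`: with subgroups
`H₁ < H_F` of index `ℓ` and `H₂` of the commutative group `Gal(L/K)`, `H₁ ⊔ H₂ = ⊤`, and
`H_F ⊓ H₂ ≤ H₁` would give `H_F = H₁ ⊔ (H_F ⊓ H₂) = H₁` (modular law). So `StKl` over `F` gives
`χ ∘ N = 1`, that is `χ ∈ X(F/K)` (`StBc`), and `F ⊓ K₂ = ⊥`: induction. -/
def StTw : Prop := ∀ (K L : Type u) [Field K] [NumberField K] [Field L] [NumberField L]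
  [Algebra K L] [IsGalois K L], (∀ σ τ : Gal(L/K), σ * τ = τ * σ) →
  ∀ K₁ K₂ : IntermediateField K L, K₁ ⊓ K₂ = ⊥ → ∀ χ ∈ XX K K₁, χ ∈ XX K K₂ → χ = 1

/-- (Ut) Unramifiedness passes to an intermediate extension: ramification indices are
multiplicative in towers (`Ideal.ramificationIdx_tower`) and there is a prime of `M` above every
prime of `E`. -/
def StUt : Prop := ∀ (K M : Type u) [Field K] [NumberField K] [Field M] [NumberField M]
  [Algebra K M], Unram K M → ∀ E : IntermediateField K M, Unram K E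

/-- (Ab) The first inequality for abelian extensions. Strong induction on `[M : K]`. If
`A = Gal(M/K)` is cyclic, `StCy`. Otherwise `A = B × C` (internally: `B ⊓ C = ⊥`, `B ⊔ C = ⊤`)
with `B` cyclic and `B`, `C` nontrivial (structure theorem). Let `K₁ = M^C`, `K₂ = M^B`;
`K₁ ⊓ K₂ = ⊥`, `[K₁ : K] = |B|`, `[K₂ : K] = |C|`, `Gal(K₁/K) = A/C` is cyclic. By `StCy` and
the induction hypothesis (`StUt`) `|X(K₁/K)| ≥ |B|`, `|X(K₂/K)| ≥ |C|`; both are contained in
`X(M/K)` (`StEx`), with trivial intersection (`StTw`), so `|X(M/K)| ≥ |B| |C|`. -/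
def StAb : Prop := ∀ (K M : Type u) [Field K] [NumberField K] [Field M] [NumberField M]
  [Algebra K M] [IsGalois K M], (∀ σ τ : Gal(M/K), σ * τ = τ * σ) →
  Odd (Module.finrank K M) → Unram K M → Module.finrank K M ≤ Nat.card (XX K M)

/-- (UCF) The theorem. `StAb`, and `|X(M/K)| ≤ [M : K]`: the primes of `Spl K M` are killed by
`X(M/K)` (`StNv`), so `(1/[M : K]) log (1/(s-1)) - B ≤ (1/|X|) log (1/(s-1)) + B` by `StD1` with
`Y = X(M/K)` and `StD2`. `X(M/K)` is a subgroup of the dual group of `Cl_K`, which has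
`h(K)` elements. -/
def StUCF : Prop := ∀ (K M : Type u) [Field K] [NumberField K] [Field M] [NumberField M]
  [Algebra K M] [IsGalois K M], (∀ σ τ : Gal(M/K), σ * τ = τ * σ) →
  Odd (Module.finrank K M) → Unram K M →
  Nat.card (XX K M) = Module.finrank K M ∧ Module.finrank K M ∣ classNumber K

/-- (Ix) Duality. For a subgroup `Y` of the dual of the finite commutative group `Cl_K` the group
`H = {c | ψ c = 1 for all ψ ∈ Y}` has index `|Y|`: `Y` embeds in the dual of `Cl_K / H`, which has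
`[Cl_K : H]` elements, and `Cl_K / H` embeds in the dual of `Y`, which has `|Y|` elements
(`CommGroup.card_monoidHom_of_hasEnoughRootsOfUnity`). -/
def StIx : Prop := ∀ (K : Type u) [Field K] [NumberField K]
  (Y : Subgroup (ClassGroup (𝓞 K) →* ℂˣ)), ∃ H : Subgroup (ClassGroup (𝓞 K)),
    H.index = Nat.card Y ∧ ∀ c : ClassGroup (𝓞 K), c ∈ H ↔ ∀ ψ ∈ Y, ψ c = 1

/-! ### Block UA: the cyclic case, algebra -/

/-- (Hi) Herbrand quotients and subgroups of finite index. Write `f = 1 - τ`, `g = 1 + ... +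
τ^(n-1)`, `f g = g f = 0`, and `f_R`, `g_R` for the restrictions. All indices are finite.
`[ker g : f E][f E : f R] = [ker g : f R] = [ker g : ker g_R][ker g_R : f R]`, so
`h1(E) [fE : fR] = [ker g : ker g_R] h1(R)`, in the same way
`h0(E) [gE : gR] = [ker f : ker f_R] h0(R)`, and `[fE : fR][ker f : ker f_R] = [E : R] =
[gE : gR][ker g : ker g_R]`. -/
def StHi : Prop := ∀ (E : Type u) [AddCommGroup E] (n : ℕ) (τ : AddMonoid.End E), 0 < n →
  τ ^ n = 1 → ∀ (R : AddSubgroup E) (ρ : AddMonoid.End R), (∀ x : R, ((ρ x : R) : E) = τ (x : E)) →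
  R.index ≠ 0 → h0 n ρ ≠ 0 → h1 n ρ ≠ 0 → h1 n τ * h0 n ρ = h0 n τ * h1 n ρ ∧ h0 n τ ≠ 0

/-- (Hk) Quotient of a cohomologically trivial module by a trivial `ℤ`. `h0(R) = 1`: let
`y = Φ x`, `τ y = y`; `x - σ x = k x₀`, apply the norm: `0 = k n x₀`, so `k = 0`, `x = N x'`,
`y = N (Φ x')`. `h1(R) = n`: for `y = Φ x` with `N y = 0` let `N x = k x₀`; `y ↦ k mod n` is well
defined and additive on `ker N`; surjective because `k x₀` is fixed by `σ`, so a norm; its kernel
is the image of `1 - ρ`: if `k = n m` then `N (x - m x₀) = 0`, so `x - m x₀ = (1 - σ) z`. -/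
def StHk : Prop := ∀ (P R : Type u) [AddCommGroup P] [AddCommGroup R] (n : ℕ)
  (σ : AddMonoid.End P) (ρ : AddMonoid.End R) (Φ : P →+ R), 0 < n → σ ^ n = 1 → ρ ^ n = 1 →
  (∀ x : P, Φ (σ x) = ρ (Φ x)) → Function.Surjective Φ →
  (∃ x₀ : P, Φ.ker = AddSubgroup.zmultiples x₀ ∧ (∀ k : ℤ, k • x₀ = 0 → k = 0) ∧ σ x₀ = x₀) →
  h0 n σ = 1 → h1 n σ = 1 → h0 n ρ = 1 ∧ h1 n ρ = n

/-- (Pm) Free permutation modules are cohomologically trivial. `π` permutes the finite set `X`,
`π^n = 1` and `π^i` has no fixed point for `0 < i < n`, so every orbit has exactly `n` elements.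
`σ f = f ∘ π⁻¹`. If `σ f = f`, `f` is constant on the orbits and `f = N g`, `g = f` on a set of
representatives and `0` elsewhere. If `N f = 0`, the sum of `f` over every orbit is `0`, and
`f = (1 - σ) g` with `g (π^i x) = ∑_(j ≤ i) f (π^j x)` for `x` a representative, `0 ≤ i < n`. -/
def StPm : Prop := ∀ (X : Type u) [Finite X] (n : ℕ) (π : Equiv.Perm X), 0 < n → π ^ n = 1 →
  (∀ i : ℕ, 0 < i → i < n → ∀ x : X, (π ^ i) x ≠ x) →
  ∀ σ : AddMonoid.End (X → ℤ), (∀ (f : X → ℤ) (x : X), σ f x = f (π.symm x)) →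
  h0 n σ = 1 ∧ h1 n σ = 1

/-- (Un) An equivariant family of Minkowski units. Let `ε v` be a unit with `|ε v|_w < 1` for all
`w ≠ v` (`Units.dirichletUnitTheorem.exists_unit`) and `e v = ∏_σ σ⁻¹ (ε (σ v))`. Then
`|e v|_w = ∏_σ |ε (σ v)|_(σ w)`, every factor is `< 1` for `w ≠ v`, and `e (τ v) = τ (e v)`. -/
def StUn : Prop := ∀ (K M : Type u) [Field K] [NumberField K] [Field M] [NumberField M]
  [Algebra K M], ∃ e : InfinitePlace M → (𝓞 M)ˣ,
    (∀ (σ : Gal(M/K)) (v : InfinitePlace M), e (σ • v) = ug σ (e v)) ∧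
    (∀ v w : InfinitePlace M, w ≠ v → Real.log (w (((e v : 𝓞 M) : M))) < 0)

/-- (Rk) Rank of a Minkowski family. Put `a v w = mult w * log |e v|_w`: negative for `v ≠ w`, and
`∑_w a v w = 0` (`Units.sum_mult_mul_log` or the product formula). `x` is in the kernel iff
`∑_v x_v a v w = 0` for all `w` up to torsion (a unit with all absolute values `1` is a root of
unity; so the kernel of `Φ` has finite index in the kernel `Z` of `x ↦ (∑_v x_v a v w)_w` on
`ℤ^places`, both are of the same rank). For `x ∈ Z`: `|x_w| a w w ≤ ∑_(v ≠ w) |x_v| |a v w|`;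
summing over `w` gives equality everywhere, so `|x| ∈ Z`, so `x⁺ = (|x| + x)/2` and
`x⁻ = (|x| - x)/2` satisfy the linear relations, and a nonzero solution with nonnegative
coordinates has only positive coordinates. So a nonzero `x ∈ Z` has all coordinates positive or
all negative, and two elements of `Z` are proportional (subtract a rational multiple to make one
coordinate zero): `Z` has rank at most `1`. The rank of the unit group is the number of places
minus one, so the rank of the image of `Φ` is at most that, the kernel has rank exactly `1`, it is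
`ℤ x₀` with `x₀ > 0`, and the image has full rank, hence finite index (the unit group is finitely
generated). -/
def StRk : Prop := ∀ (M : Type u) [Field M] [NumberField M] (e : InfinitePlace M → (𝓞 M)ˣ),
  (∀ v w : InfinitePlace M, w ≠ v → Real.log (w (((e v : 𝓞 M) : M))) < 0) →
  ∀ Φ : (InfinitePlace M → ℤ) →+ Additive (𝓞 M)ˣ,
    (∀ x : InfinitePlace M → ℤ, Φ x = ∑ v, x v • Additive.ofMul (e v)) →
    Φ.range.index ≠ 0 ∧ ∃ x₀ : InfinitePlace M → ℤ, (∀ v, 0 < x₀ v) ∧
      Φ.ker = AddSubgroup.zmultiples x₀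

/-- (Hu) Herbrand quotient of the units, `n = [M : K]` odd, `g` a generator. `StUn`, `StRk`. The
group of order `n` generated by `g` acts freely on the infinite places of `M` (stabilizers have
order `1` or `2`, `InfinitePlace.nat_card_stabilizer_eq_one_or_two`), so `StPm` applies to
`X = InfinitePlace M`. `σ x₀` is again a generator of the kernel with positive coordinates, so
`σ x₀ = x₀`. `StHk` for `Φ` onto its range `R`, then `StHi` for `R` in the group of units. -/
def StHu : Prop := ∀ (K M : Type u) [Field K] [NumberField K] [Field M] [NumberField M]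
  [Algebra K M] [IsGalois K M] (g : Gal(M/K)), (∀ x, x ∈ Subgroup.zpowers g) →
  Odd (Module.finrank K M) →
  h1 (Module.finrank K M) (ue g) = Module.finrank K M * h0 (Module.finrank K M) (ue g) ∧
    h0 (Module.finrank K M) (ue g) ≠ 0

/-- (Iv) Invariant ideals of an unramified Galois extension are extended ideals. Induction on the
number of prime factors of `I`: if `P` divides `I` then all the conjugates `σ P` do, with the same
exponent; these are all the primes above `v = P ∩ 𝓞 K`, and `v 𝓞 M` is their product (all `e = 1`).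
So `v 𝓞 M` divides `I`, and the quotient is again invariant. -/
def StIv : Prop := ∀ (K M : Type u) [Field K] [NumberField K] [Field M] [NumberField M]
  [Algebra K M] [IsGalois K M], Unram K M → ∀ I : Ideal (𝓞 M), I ≠ ⊥ →
  (∀ σ : Gal(M/K), σ • I = I) → ∃ J : Ideal (𝓞 K), J.map (algebraMap (𝓞 K) (𝓞 M)) = I

/-- (Kj) Capitulation. `J` is the extension map on classes. For a unit `ε` of norm `1` Hilbert 90
gives `β ∈ 𝓞 M`, `β ≠ 0`, `ε = β / g β` (`exists_mul_galRestrict_of_norm_eq_one` or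
`groupCohomology.exists_div_of_norm_eq_one`); `(β)` is invariant, so `(β) = b 𝓞 M` (`StIv`) with
`cls b ∈ ker J`. If `ε`, `ε'` give the same class, `a b = a' b'` with `a, a' ∈ 𝓞 K` nonzero, so
`a β = u a' β'` with a unit `u`, and `ε = (u / g u) ε'`. So the classes of `ker N / im (1 - g)`
inject into `ker J`. (`ker (nn n (ue g))` are the units of norm `1` because the powers of `g` are
the elements of the Galois group.) -/
def StKj : Prop := ∀ (K M : Type u) [Field K] [NumberField K] [Field M] [NumberField M]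
  [Algebra K M] [IsGalois K M] (g : Gal(M/K)), (∀ x, x ∈ Subgroup.zpowers g) → Unram K M →
  ∀ J : ClassGroup (𝓞 K) →* ClassGroup (𝓞 M),
    (∀ I : Ideal (𝓞 K), I ≠ ⊥ → J (cls K I) = cls M (I.map (algebraMap (𝓞 K) (𝓞 M)))) →
    h1 (Module.finrank K M) (ue g) ≤ Nat.card J.ker

/-- (Am) Ambiguous classes. Let `S c = c`, `c = cls I`. Then `α (g I) = β I` with nonzero
`α, β ∈ 𝓞 M`; `x = β/α`, `g I = x I`, and `I = g^n I = N(x) I`, so `N(x) = ∏ g^i x` is a unit of
`𝓞 M` fixed by `g`. Map `c` to the class of `N(x)` in `ker (1 - g) / im N`. If `c = cls I`,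
`c' = cls I'` have the same image, `N(x) = N(x') N(ε)`, Hilbert 90 gives `x/(x' ε) = y / g y`; the
fractional ideal `y I / I'` is invariant under `g`; after multiplication by a nonzero integer of
`K` (for instance a multiple of the norm of `I'` and of a denominator of `y`) it is an ideal of
`𝓞 M`, extended from `K` by `StIv`. So `c / c'` is in the image of `J`: the fibres have at most
`|im J|` elements. (`h0 ≠ 0` is `StHu`; here it is a hypothesis.) -/
def StAm : Prop := ∀ (K M : Type u) [Field K] [NumberField K] [Field M] [NumberField M]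
  [Algebra K M] [IsGalois K M] (g : Gal(M/K)), (∀ x, x ∈ Subgroup.zpowers g) → Unram K M →
  h0 (Module.finrank K M) (ue g) ≠ 0 →
  ∀ J : ClassGroup (𝓞 K) →* ClassGroup (𝓞 M),
    (∀ I : Ideal (𝓞 K), I ≠ ⊥ → J (cls K I) = cls M (I.map (algebraMap (𝓞 K) (𝓞 M)))) →
  ∀ S : ClassGroup (𝓞 M) →* ClassGroup (𝓞 M),
    (∀ I : Ideal (𝓞 M), I ≠ ⊥ → S (cls M I) = cls M (g • I)) →
    Nat.card {c : ClassGroup (𝓞 M) // S c = c} ≤
      Nat.card J.range * h0 (Module.finrank K M) (ue g)

/-- (Cy) The cyclic case. Let `n = [M : K]`, `J`, `S`, `N` as in `StNm`. `n |{S c = c}| ≤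
n |im J| h0 = |im J| h1 ≤ |im J| |ker J| = h(K)` (`StAm`, `StHu`, `StKj`). `N (S c) = N c`
(`Ideal.relNorm_smul`), so the norm factors through `Cl_M / {c / S c}`, whose order is
`|{S c = c}|`; so `n |im N| ≤ h(K)`, the index of `im N` in `Cl_K` is at least `n`, and `X(M/K)`
consists of the characters of `Cl_K / im N`: it has `[Cl_K : im N]` elements
(`CommGroup.card_monoidHom_of_hasEnoughRootsOfUnity`). -/
def StCy : Prop := ∀ (K M : Type u) [Field K] [NumberField K] [Field M] [NumberField M]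
  [Algebra K M] [IsGalois K M], IsCyclic Gal(M/K) → Odd (Module.finrank K M) → Unram K M →
  Module.finrank K M ≤ Nat.card (XX K M)

/-! ### Block UD: minus part -/

/-- (Fr) Let `F ⊂ K ⊂ M` with `M/F` Galois, `[K : F] = 2`, `[M : K]` odd, and let every element of
`Gal(M/F)` not in `Gal(M/K)` invert `Gal(M/K)` by conjugation. Let `v` be a prime of `K` which is
the only prime above its restriction `q` to `F`, with residue degree `2` over `q`, `M/K`
unramified. Then `v ∈ Spl K M`. Proof: let `P` be a prime of `M` over `v` and `D` its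
stabilizer in `Gal(M/F)`. The inertia group is trivial (its order is `e(P/q)`, equal to
`e(P/v) e(v/q) = 1`; `e(v/q) = 1` as `e f g = 2`), so `D` is isomorphic to the Galois group of the
residue field extension, which is cyclic. `|D| = f(P/q) = 2 f(P/v)`, so `D` is not contained in
`Gal(M/K)` (odd order): let `τ ∈ D` be outside. `D` is commutative, so `τ` commutes with
`D ⊓ Gal(M/K)`, and it inverts it: all its elements satisfy `σ² = 1`, so `σ = 1`. So the stabilizer
of `P` in `Gal(M/K)` is trivial and `e f = 1`. -/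
def StFr : Prop := ∀ (F K M : Type u) [Field F] [NumberField F] [Field K] [NumberField K]
  [Field M] [NumberField M] [Algebra F K] [Algebra K M] [Algebra F M] [IsScalarTower F K M]
  [IsGalois F M] [IsGalois K M], Module.finrank F K = 2 → Odd (Module.finrank K M) →
  (∀ (c : Gal(M/F)) (σ : Gal(M/K)), (∃ x : K, c (algebraMap K M x) ≠ algebraMap K M x) →
    ∀ y : M, c (σ (c⁻¹ y)) = σ⁻¹ y) →
  Unram K M → ∀ q : HeightOneSpectrum (𝓞 F), ∀ v : HeightOneSpectrum (𝓞 K),
    v.asIdeal.LiesOver q.asIdeal → v.asIdeal.ramificationIdx (𝓞 F) = 1 →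
    v.asIdeal.inertiaDeg (𝓞 F) = 2 → v ∈ Spl K M

/-- (Mi) Under the hypotheses of `StFr` the characters in `X(M/K)` are trivial on the classes
extended from `F`. Let `ψ ∈ X(M/K)` and `ψ' = ψ ∘ J` on `Cl_F`; its order divides `[M : K]`
(`StEx`), so it is odd. Let `q` be a prime of `F`, unramified in `K` and not in `Spl F K`: there is
only one prime `v = q 𝓞 K` above it, with `f = 2`, so `v ∈ Spl K M` (`StFr`) and
`ψ'(q) = ψ(v) = 1` (`StNv`). By `StP0`, `StD2` for `K/F` the sum over these `q` is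
`(1/2) log (1/(s-1)) + O(1)` (finitely many `q` are ramified, `StFi`). By `StD1` with
`Y = zpowers ψ'` it is at most
`(1/m) log (1/(s-1)) + O(1)`, `m` the order of `ψ'`. So `m ≤ 2`, `m = 1`. -/
def StMi : Prop := ∀ (F K M : Type u) [Field F] [NumberField F] [Field K] [NumberField K]
  [Field M] [NumberField M] [Algebra F K] [Algebra K M] [Algebra F M] [IsScalarTower F K M]
  [IsGalois F M] [IsGalois K M], Module.finrank F K = 2 → Odd (Module.finrank K M) →
  (∀ (c : Gal(M/F)) (σ : Gal(M/K)), (∃ x : K, c (algebraMap K M x) ≠ algebraMap K M x) →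
    ∀ y : M, c (σ (c⁻¹ y)) = σ⁻¹ y) →
  Unram K M → ∀ ψ ∈ XX K M, ∀ I : Ideal (𝓞 F), I ≠ ⊥ →
    ψ (cls K (I.map (algebraMap (𝓞 F) (𝓞 K)))) = 1

end Pool.Agent.Work.MP_59f3ad_nt.UCF
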