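import Mathlib
import Pool.Agent.Work.MP_59f3ad_nt.UCF.Stmts

/-!
Item Ab of the library UCF: the first inequality for abelian extensions, from the cyclic case.
-/

open NumberField IsDedekindDomain
open scoped Pointwise nonZeroDivisors

namespace Pool.Agent.Work.MP_59f3ad_nt.UCF

universe u

namespace IAb

/-- A finite commutative group which is not cyclic has a nontrivial cyclic direct factor, with
nontrivial complement. -/
theorem split_comm {G : Type*} [CommGroup G] [Finite G] (hG : ¬ IsCyclic G) :
    ∃ B C : Subgroup G, B ⊔ C = ⊤ ∧ IsCyclic (G ⧸ C) ∧ 1 < Nat.card B ∧ 1 < Nat.card C ∧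
      Nat.card B * Nat.card C = Nat.card G := by
  classical
  obtain ⟨ι, _, n, h1, ⟨e⟩⟩ := CommGroup.equiv_prod_multiplicative_zmod_of_finite G
  have hι : Nonempty ι := by
    by_contra hne
    rw [not_nonempty_iff] at hne
    have : Subsingleton G := e.toEquiv.subsingleton
    exact hG inferInstance
  obtain ⟨i⟩ := hι
  have : NeZero (n i) := ⟨by have := h1 i; omega⟩
  let φ : G →* Multiplicative (ZMod (n i)) :=
    (Pi.evalMonoidHom (fun i => Multiplicative (ZMod (n i))) i).comp e.toMonoidHom
  let s : Multiplicative (ZMod (n i)) →* G :=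
    e.symm.toMonoidHom.comp (MonoidHom.mulSingle (fun i => Multiplicative (ZMod (n i))) i)
  have hφs : ∀ y, φ (s y) = y := by
    intro y
    simp [φ, s]
  have hsinj : Function.Injective s := Function.LeftInverse.injective hφs
  have hφsurj : Function.Surjective φ := Function.RightInverse.surjective hφs
  have hcZ : Nat.card (Multiplicative (ZMod (n i))) = n i := by
    simp [Nat.card_eq_fintype_card, ZMod.card]
  have hcB : Nat.card s.range = n i := by
    exact (Nat.card_congr (MonoidHom.ofInjective hsinj).toEquiv).symm.trans hcZ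
  have hidx : φ.ker.index = n i := by
    exact (Nat.card_congr
      (QuotientGroup.quotientKerEquivOfSurjective φ hφsurj).toEquiv).trans hcZ
  refine ⟨s.range, φ.ker, ?_, ?_, ?_, ?_, ?_⟩
  · rw [eq_top_iff]
    intro g _
    have h2 : g = s (φ g) * ((s (φ g))⁻¹ * g) := by group
    rw [h2]
    refine Subgroup.mul_mem_sup ⟨φ g, rfl⟩ ?_
    rw [MonoidHom.mem_ker, map_mul, map_inv, hφs]
    simp
  · exact isCyclic_of_injective
      (QuotientGroup.quotientKerEquivOfSurjective φ hφsurj).toMonoidHom
      (QuotientGroup.quotientKerEquivOfSurjective φ hφsurj).injective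
  · rw [hcB]
    exact h1 i
  · by_contra hle
    have hpos : 0 < Nat.card φ.ker := Nat.card_pos
    have h3 : Nat.card φ.ker = 1 := by omega
    rw [Subgroup.card_eq_one] at h3
    exact hG (isCyclic_of_injective φ ((MonoidHom.ker_eq_bot_iff φ).1 h3))
  · have h4 := Subgroup.card_mul_index φ.ker
    rw [hidx] at h4
    rw [hcB, mul_comm]
    exact h4

/-- The same, with commutativity as a hypothesis. -/
theorem split_grp {G : Type*} [hg : Group G] [Finite G] (hc : ∀ a b : G, a * b = b * a)
    (hG : ¬ IsCyclic G) :
    ∃ B C : Subgroup G, B ⊔ C = ⊤ ∧ (∀ _ : C.Normal, IsCyclic (G ⧸ C)) ∧ 1 < Nat.card B ∧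
      1 < Nat.card C ∧ Nat.card B * Nat.card C = Nat.card G := by
  let _ : CommGroup G := { hg with mul_comm := hc }
  obtain ⟨B, C, h1, h2, h3⟩ := split_comm hG
  exact ⟨B, C, h1, fun _ => h2, h3⟩

/-- The dual group of the class group is finite. -/
theorem finite_dual (K : Type u) [Field K] [NumberField K] :
    Finite (ClassGroup (𝓞 K) →* ℂˣ) := by
  have : NeZero ((Monoid.exponent (ClassGroup (𝓞 K)) : ℕ) : ℂ) :=
    ⟨Nat.cast_ne_zero.mpr Monoid.exponent_ne_zero_of_finite⟩
  have : HasEnoughRootsOfUnity ℂ (Monoid.exponent (ClassGroup (𝓞 K))) := inferInstance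
  obtain ⟨e⟩ := CommGroup.monoidHom_mulEquiv_of_hasEnoughRootsOfUnity (ClassGroup (𝓞 K)) ℂ
  exact Finite.of_equiv _ e.toEquiv.symm

end IAb

theorem pr_Ab (hCy : StCy.{u}) (hUt : StUt.{u}) (hEx : StEx.{u}) (hTw : StTw.{u}) : StAb.{u} := by
  intro K M iK nK
  suffices H : ∀ n : ℕ, ∀ (M : Type u) [Field M] [NumberField M]
      [Algebra K M] [IsGalois K M], Module.finrank K M = n → (∀ σ τ : Gal(M/K), σ * τ = τ * σ) →
      Odd (Module.finrank K M) → Unram K M → Module.finrank K M ≤ Nat.card (XX K M) by
    intro _ _ _ _ h1 h2 h3
    exact H _ M rfl h1 h2 h3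
  intro n
  induction n using Nat.strong_induction_on with
  | _ n IH =>
    intro M _ _ _ _ hn hcomm hodd hun
    by_cases hcyc : IsCyclic Gal(M/K)
    · exact hCy K M hcyc hodd hun
    obtain ⟨B, C, hBC, hCq, hB, hC, hcard⟩ := IAb.split_grp hcomm hcyc
    have hnorm : ∀ H : Subgroup Gal(M/K), H.Normal := by
      intro H
      refine ⟨fun a ha g => ?_⟩
      rw [hcomm g a, mul_assoc, mul_inv_cancel, mul_one]
      exact ha
    have := hnorm B
    have := hnorm C
    have hCq' := hCq inferInstance
    have hG : Nat.card Gal(M/K) = Module.finrank K M := IsGalois.card_aut_eq_finrank K M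
    have hf1 : Module.finrank K (IntermediateField.fixedField C) = Nat.card B := by
      have h1 := Module.finrank_mul_finrank K (IntermediateField.fixedField C) M
      rw [IntermediateField.finrank_fixedField_eq_card, ← hG, ← hcard] at h1
      exact Nat.eq_of_mul_eq_mul_right (by omega) h1
    have hf2 : Module.finrank K (IntermediateField.fixedField B) = Nat.card C := by
      have h1 := Module.finrank_mul_finrank K (IntermediateField.fixedField B) M
      rw [IntermediateField.finrank_fixedField_eq_card, ← hG, ← hcard,
        mul_comm (Nat.card B)] at h1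
      exact Nat.eq_of_mul_eq_mul_right (by omega) h1
    have hodd1 : Odd (Module.finrank K (IntermediateField.fixedField C)) :=
      Odd.of_dvd_nat hodd ⟨_, (Module.finrank_mul_finrank K (IntermediateField.fixedField C) M).symm⟩
    have hodd2 : Odd (Module.finrank K (IntermediateField.fixedField B)) :=
      Odd.of_dvd_nat hodd ⟨_, (Module.finrank_mul_finrank K (IntermediateField.fixedField B) M).symm⟩
    have hcyc1 : IsCyclic Gal((IntermediateField.fixedField C)/K) :=
      isCyclic_of_injective (IsGalois.normalAutEquivQuotient C).symm.toMonoidHom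
        (IsGalois.normalAutEquivQuotient C).symm.injective
    have hcomm2 : ∀ σ τ : Gal((IntermediateField.fixedField B)/K), σ * τ = τ * σ := by
      intro σ τ
      obtain ⟨σ', rfl⟩ := AlgEquiv.restrictNormalHom_surjective (F := K)
        (K₁ := IntermediateField.fixedField B) M σ
      obtain ⟨τ', rfl⟩ := AlgEquiv.restrictNormalHom_surjective (F := K)
        (K₁ := IntermediateField.fixedField B) M τ
      rw [← map_mul, ← map_mul, hcomm]
    have hx1 := hCy K (IntermediateField.fixedField C) hcyc1 hodd1
      (hUt K M hun (IntermediateField.fixedField C))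
    have hlt : Module.finrank K (IntermediateField.fixedField B) < n := by
      rw [hf2, ← hn, ← hG, ← hcard]
      nlinarith
    have hx2 := IH _ hlt (IntermediateField.fixedField B) rfl hcomm2 hodd2
      (hUt K M hun (IntermediateField.fixedField B))
    have hle1 : XX K (IntermediateField.fixedField C) ≤ XX K M :=
      hEx.2 K (IntermediateField.fixedField C) M (IntermediateField.fixedField C).val
    have hle2 : XX K (IntermediateField.fixedField B) ≤ XX K M :=
      hEx.2 K (IntermediateField.fixedField B) M (IntermediateField.fixedField B).val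
    have hinf : IntermediateField.fixedField C ⊓ IntermediateField.fixedField B =
        (⊥ : IntermediateField K M) := by
      rw [eq_bot_iff, ← IsGalois.fixedField_top, IntermediateField.le_iff_le, ← hBC]
      refine sup_le ?_ ?_
      · exact (IntermediateField.le_iff_le _ _).1 inf_le_right
      · exact (IntermediateField.le_iff_le _ _).1 inf_le_left
    have hdisj : Disjoint (XX K (IntermediateField.fixedField C))
        (XX K (IntermediateField.fixedField B)) := by
      rw [Subgroup.disjoint_def]
      intro χ h1 h2
      exact hTw K M hcomm _ _ hinf χ h1 h2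
    have := IAb.finite_dual K
    have hinj := Subgroup.mul_injective_of_disjoint hdisj
    have hle : Nat.card (XX K (IntermediateField.fixedField C) ×
        XX K (IntermediateField.fixedField B)) ≤ Nat.card (XX K M) := by
      refine Nat.card_le_card_of_injective
        (fun g => (⟨g.1 * g.2, (XX K M).mul_mem (hle1 g.1.2) (hle2 g.2.2)⟩ : XX K M)) ?_
      intro a b hab
      exact hinj (congrArg Subtype.val hab)
    rw [Nat.card_prod] at hle
    calc Module.finrank K M = Nat.card B * Nat.card C := by rw [hcard, hG]
      _ ≤ _ := Nat.mul_le_mul (hf1 ▸ hx1) (hf2 ▸ hx2)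
      _ ≤ _ := hle

end Pool.Agent.Work.MP_59f3ad_nt.UCF
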