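import Mathlib
import Pool.Agent.Work.MP_59f3ad_nt.UCF.Stmts

/-!
Item Am of the library UCF: ambiguous classes of an unramified cyclic extension.
-/

open NumberField IsDedekindDomain
open scoped Pointwise nonZeroDivisors

namespace Pool.Agent.Work.MP_59f3ad_nt.UCF

universe u

namespace IAm

section basic

variable {K : Type u} [Field K] [NumberField K]

lemma cls_mk (I : Ideal (𝓞 K)) (h : I ≠ ⊥) :
    cls K I = ClassGroup.mk0 ⟨I, mem_nonZeroDivisors_iff_ne_zero.mpr h⟩ := dif_neg h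

lemma cls_mul (I J : Ideal (𝓞 K)) (hI : I ≠ ⊥) (hJ : J ≠ ⊥) :
    cls K (I * J) = cls K I * cls K J := by
  have h : I * J ≠ ⊥ := mul_ne_zero hI hJ
  rw [cls_mk _ h, cls_mk _ hI, cls_mk _ hJ, ← map_mul]
  rfl

lemma cls_surj (c : ClassGroup (𝓞 K)) : ∃ I : Ideal (𝓞 K), I ≠ ⊥ ∧ cls K I = c := by
  obtain ⟨I, rfl⟩ := ClassGroup.mk0_surjective c
  refine ⟨I, mem_nonZeroDivisors_iff_ne_zero.mp I.2, ?_⟩
  rw [cls_mk _ (mem_nonZeroDivisors_iff_ne_zero.mp I.2)]

lemma cls_span (x : 𝓞 K) (hx : x ≠ 0) : cls K (Ideal.span {x}) = 1 := by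
  have h : Ideal.span {x} ≠ ⊥ := by simpa using hx
  rw [cls_mk _ h, ClassGroup.mk0_eq_one_iff]
  exact ⟨⟨x, rfl⟩⟩

lemma cls_eq (I J : Ideal (𝓞 K)) (hI : I ≠ ⊥) (hJ : J ≠ ⊥) (h : cls K I = cls K J) :
    ∃ x y : 𝓞 K, x ≠ 0 ∧ y ≠ 0 ∧ Ideal.span {x} * I = Ideal.span {y} * J := by
  rw [cls_mk _ hI, cls_mk _ hJ, ClassGroup.mk0_eq_mk0_iff] at h
  obtain ⟨x, y, hx, hy, h⟩ := h
  exact ⟨x, y, hx, hy, h⟩

end basic

section gal

variable {K M : Type u} [Field K] [NumberField K] [Field M] [NumberField M] [Algebra K M]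

omit [NumberField K] [NumberField M] in
lemma smul_coe (g : Gal(M/K)) (x : 𝓞 M) : ((g • x : 𝓞 M) : M) = g (x : M) := rfl

omit [NumberField K] [NumberField M] in
lemma ug_coe (g : Gal(M/K)) (η : (𝓞 M)ˣ) : ((ug g η : (𝓞 M)ˣ) : 𝓞 M) = g • (η : 𝓞 M) := rfl

omit [NumberField K] [NumberField M] in
lemma ue_pow (g : Gal(M/K)) (i : ℕ) (x : Additive (𝓞 M)ˣ) :
    ((Additive.toMul ((ue g ^ i) x) : (𝓞 M)ˣ) : 𝓞 M) =
      g ^ i • ((Additive.toMul x : (𝓞 M)ˣ) : 𝓞 M) := by
  induction i with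
  | zero => simp
  | succ i ih =>
    rw [pow_succ', pow_succ', mul_smul, ← ih]
    rfl

omit [NumberField K] [NumberField M] in
lemma nn_coe (g : Gal(M/K)) (n : ℕ) (x : Additive (𝓞 M)ˣ) :
    ((Additive.toMul ((nn n (ue g)) x) : (𝓞 M)ˣ) : 𝓞 M) =
      ∏ i ∈ Finset.range n, g ^ i • ((Additive.toMul x : (𝓞 M)ˣ) : 𝓞 M) := by
  have h : (nn n (ue g)) x = ∑ i ∈ Finset.range n, (ue g ^ i) x := by
    unfold nn
    exact AddMonoidHom.finsetSum_apply _ _ _
  rw [h, toMul_sum, Units.coe_prod]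
  exact Finset.prod_congr rfl fun i _ => ue_pow g i x

omit [NumberField K] [NumberField M] in
lemma dd_ker (g : Gal(M/K)) (v : (𝓞 K)ˣ) :
    Additive.ofMul (Units.map (algebraMap (𝓞 K) (𝓞 M) : 𝓞 K →* 𝓞 M) v) ∈
      AddMonoidHom.ker (dd (ue g) : Additive (𝓞 M)ˣ →+ Additive (𝓞 M)ˣ) := by
  change Additive.ofMul _ - ue g (Additive.ofMul _) = 0
  rw [sub_eq_zero]
  apply Additive.toMul.injective
  apply Units.ext
  apply RingOfIntegers.ext
  change algebraMap K M (v : K) = g (algebraMap K M (v : K))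
  simp

variable [IsGalois K M]

lemma prod_pow' (g : Gal(M/K)) (hg : ∀ x, x ∈ Subgroup.zpowers g) (x : M) :
    ∏ i ∈ Finset.range (Module.finrank K M), (g ^ i) x = algebraMap K M (Algebra.norm K x) := by
  classical
  rw [Algebra.norm_eq_prod_automorphisms, ← IsCyclic.image_range_card hg,
    Finset.prod_image, IsGalois.card_aut_eq_finrank]
  · rw [← orderOf_eq_card_of_forall_mem_zpowers hg]
    intro a ha b hb hab
    exact pow_injOn_Iio_orderOf (by simpa using ha) (by simpa using hb) hab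

/-- Hilbert 90 for cyclic extensions, in every universe. -/
lemma hilbert90 (g : Gal(M/K)) (hg : ∀ x, x ∈ Subgroup.zpowers g) (x : M)
    (hx : Algebra.norm K x = 1) : ∃ y : Mˣ, (y : M) / g (y : M) = x := by
  classical
  have hx0 : x ≠ 0 := by
    rw [← Algebra.norm_ne_zero_iff (R := K), hx]
    exact one_ne_zero
  set xu : Mˣ := Units.mk0 x hx0 with hxu
  have hord : orderOf g = Module.finrank K M := by
    rw [orderOf_eq_card_of_forall_mem_zpowers hg, IsGalois.card_aut_eq_finrank]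
  let c : ℕ → Mˣ := fun i => ∏ j ∈ Finset.range i, g ^ j • xu
  have c_add : ∀ i j, c (i + j) = c i * g ^ i • c j := by
    intro i j
    change ∏ k ∈ Finset.range (i + j), g ^ k • xu = _
    rw [Finset.prod_range_add]
    congr 1
    rw [Finset.smul_prod']
    refine Finset.prod_congr rfl fun k _ => ?_
    rw [pow_add, mul_smul]
  have c_n : c (Module.finrank K M) = 1 := by
    apply Units.ext
    change ((∏ j ∈ Finset.range (Module.finrank K M), g ^ j • xu : Mˣ) : M) = 1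
    rw [Units.coe_prod]
    have := prod_pow' g hg x
    rw [hx, map_one] at this
    exact this
  have g_n : g ^ Module.finrank K M = 1 := by rw [← hord]; exact pow_orderOf_eq_one g
  have c_mul : ∀ q r, c (Module.finrank K M * q + r) = c r := by
    intro q r
    induction q with
    | zero => simp
    | succ q ih =>
      rw [Nat.mul_succ, add_comm (Module.finrank K M * q), add_assoc, c_add, c_n, g_n, one_smul,
        one_mul, ih]
  have c_eq : ∀ a b, g ^ a = g ^ b → c a = c b := by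
    intro a b hab
    rw [pow_eq_pow_iff_modEq, hord] at hab
    have e : ∀ m, c m = c (m % Module.finrank K M) := by
      intro m
      conv_lhs => rw [← Nat.div_add_mod m (Module.finrank K M)]
      exact c_mul _ _
    rw [e a, e b, hab]
  have hpow : ∀ σ : Gal(M/K), ∃ k : ℕ, g ^ k = σ := by
    intro σ
    have := hg σ
    rw [← mem_powers_iff_mem_zpowers] at this
    exact this
  choose k hk using hpow
  have hcoc : groupCohomology.IsMulCocycle₁ (fun σ : Gal(M/K) => c (k σ)) := by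
    intro σ τ
    have e1 : c (k (σ * τ)) = c (k σ + k τ) := by
      apply c_eq
      rw [hk, pow_add, hk, hk]
    change c (k (σ * τ)) = σ • c (k τ) * c (k σ)
    rw [e1, c_add, hk, mul_comm]
  obtain ⟨β, hβ⟩ := groupCohomology.isMulCoboundary₁_of_isMulCocycle₁_of_aut_to_units _ hcoc
  have h1 : g • β / β = xu := by
    rw [hβ g]
    have : c (k g) = c 1 := by
      apply c_eq
      rw [hk, pow_one]
    change c (k g) = xu
    rw [this]
    change ∏ j ∈ Finset.range 1, g ^ j • xu = xu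
    rw [Finset.prod_range_one, pow_zero, one_smul]
  refine ⟨β⁻¹, ?_⟩
  have h2 := congrArg (fun t : Mˣ => (t : M)) h1
  have h3 : g (β : M) / (β : M) = x := by
    have := h2
    simpa [hxu] using this
  rw [← h3]
  have hb : (β : M) ≠ 0 := β.ne_zero
  have hgb : g (β : M) ≠ 0 := by simp
  rw [Units.val_inv_eq_inv_val, map_inv₀]
  field_simp

lemma prod_pow (g : Gal(M/K)) (hg : ∀ x, x ∈ Subgroup.zpowers g) (x : 𝓞 M) :
    ∏ i ∈ Finset.range (Module.finrank K M), g ^ i • x =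
      algebraMap (𝓞 K) (𝓞 M) (Algebra.intNorm (𝓞 K) (𝓞 M) x) := by
  classical
  apply RingOfIntegers.ext
  have h1 : ((algebraMap (𝓞 K) (𝓞 M) (Algebra.intNorm (𝓞 K) (𝓞 M) x) : 𝓞 M) : M) =
      algebraMap K M (Algebra.norm K (x : M)) := by
    rw [← Algebra.algebraMap_intNorm (A := 𝓞 K) (B := 𝓞 M) (K := K) (L := M)]
    rfl
  rw [h1, ← prod_pow' g hg]
  exact map_prod (algebraMap (𝓞 M) M) _ _

lemma h90 (g : Gal(M/K)) (hg : ∀ x, x ∈ Subgroup.zpowers g) (x y : 𝓞 M) (hx : x ≠ 0)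
    (h : Algebra.intNorm (𝓞 K) (𝓞 M) x = Algebra.intNorm (𝓞 K) (𝓞 M) y) :
    ∃ z : 𝓞 M, z ≠ 0 ∧ y * g • z = x * z := by
  have hx' : (x : M) ≠ 0 := by simpa using hx
  have h1 : Algebra.norm K (x : M) = Algebra.norm K (y : M) := by
    have e1 := Algebra.algebraMap_intNorm (A := 𝓞 K) (B := 𝓞 M) (K := K) (L := M) x
    have e2 := Algebra.algebraMap_intNorm (A := 𝓞 K) (B := 𝓞 M) (K := K) (L := M) y
    rw [← e1, ← e2, h]
  have h2 : Algebra.norm K ((y : M) / (x : M)) = 1 := by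
    have hn : Algebra.norm K (x : M) ≠ 0 := Algebra.norm_ne_zero_iff.mpr hx'
    have e1 : (y : M) = (y : M) / (x : M) * (x : M) := by field_simp
    have e2 : Algebra.norm K (y : M) = Algebra.norm K ((y : M) / (x : M)) * Algebra.norm K (x : M) := by
      rw [← map_mul, ← e1]
    rw [← h1] at e2
    exact (mul_left_eq_self₀.mp e2.symm).resolve_right hn
  obtain ⟨w, hw⟩ := hilbert90 g hg _ h2
  have : IsLocalization (Algebra.algebraMapSubmonoid (𝓞 M) (𝓞 K)⁰) M :=
    IsIntegralClosure.isLocalization (𝓞 K) K M (𝓞 M)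
  obtain ⟨a, b, hab⟩ :=
    IsLocalization.exists_mk'_eq (Algebra.algebraMapSubmonoid (𝓞 M) (𝓞 K)⁰) (w : M)
  obtain ⟨t, ht, ht'⟩ := b.prop
  have e : (w : M) * (algebraMap K M (t : K)) = (a : M) := by
    rw [← hab]
    have : (algebraMap K M (t : K)) = algebraMap (𝓞 M) M (b : 𝓞 M) := by
      rw [← ht']
      rfl
    rw [this, IsLocalization.mk'_spec]
  have ht0 : algebraMap K M (t : K) ≠ 0 := by
    have : t ≠ 0 := nonZeroDivisors.ne_zero ht
    simpa using this
  have hw0 : (w : M) ≠ 0 := w.ne_zero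
  have hgw0 : g (w : M) ≠ 0 := by simp
  refine ⟨a, ?_, ?_⟩
  · rintro rfl
    have : (w : M) * (algebraMap K M (t : K)) = 0 := by simpa using e
    exact (mul_ne_zero hw0 ht0) this
  · apply RingOfIntegers.ext
    change (y : M) * g (a : M) = (x : M) * (a : M)
    rw [← e, map_mul, AlgEquiv.commutes]
    have h3 : (w : M) * (x : M) = (y : M) * g (w : M) := by
      have := hw
      rw [div_eq_div_iff hgw0 hx'] at this
      exact this
    linear_combination (-(algebraMap K M (t : K))) * h3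

omit [NumberField K] [NumberField M] [IsGalois K M] in
lemma smul_span (g : Gal(M/K)) (z : 𝓞 M) :
    g • (Ideal.span {z} : Ideal (𝓞 M)) = Ideal.span {g • z} := by
  rw [Ideal.pointwise_smul_def, Ideal.map_span, Set.image_singleton]
  rfl

lemma key (hIv : StIv.{u}) (g : Gal(M/K)) (hg : ∀ x, x ∈ Subgroup.zpowers g) (hU : Unram K M)
    (J : ClassGroup (𝓞 K) →* ClassGroup (𝓞 M))
    (hJ : ∀ I : Ideal (𝓞 K), I ≠ ⊥ → J (cls K I) = cls M (I.map (algebraMap (𝓞 K) (𝓞 M))))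
    (I I' : Ideal (𝓞 M)) (hI : I ≠ ⊥) (hI' : I' ≠ ⊥) (α β α' β' : 𝓞 M)
    (hα : α ≠ 0) (hβ' : β' ≠ 0)
    (h1 : Ideal.span {α} * (g • I) = Ideal.span {β} * I)
    (h2 : Ideal.span {α'} * (g • I') = Ideal.span {β'} * I')
    (v v' : 𝓞 K) (hv : Algebra.intNorm (𝓞 K) (𝓞 M) β = v * Algebra.intNorm (𝓞 K) (𝓞 M) α)
    (hv' : Algebra.intNorm (𝓞 K) (𝓞 M) β' = v' * Algebra.intNorm (𝓞 K) (𝓞 M) α')
    (η : (𝓞 M)ˣ) (hη : v = v' * Algebra.intNorm (𝓞 K) (𝓞 M) (η : 𝓞 M)) :
    cls M I * (cls M I')⁻¹ ∈ J.range := by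
  have hη0 : (η : 𝓞 M) ≠ 0 := η.ne_zero
  obtain ⟨z, hz, hz'⟩ := h90 g hg ((η : 𝓞 M) * α * β') (β * α')
    (mul_ne_zero (mul_ne_zero hη0 hα) hβ') (by
      simp only [map_mul]
      rw [hv, hv', hη]
      ring)
  have hm : ((Ideal.absNorm I' : ℕ) : 𝓞 M) ∈ I' := Ideal.absNorm_mem I'
  have hm0 : ((Ideal.absNorm I' : ℕ) : 𝓞 M) ≠ 0 := by
    simpa [Ideal.absNorm_eq_zero_iff] using hI'
  obtain ⟨I'', hI''⟩ := Ideal.dvd_iff_le.mpr
    ((Ideal.span_singleton_le_iff_mem (I := I')).mpr hm)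
  set m : 𝓞 M := ((Ideal.absNorm I' : ℕ) : 𝓞 M) with hmdef
  have hgm : g • m = m := by
    apply RingOfIntegers.ext
    change g (m : M) = (m : M)
    simp [hmdef]
  have hI''0 : I'' ≠ ⊥ := by
    rintro rfl
    apply hm0
    rw [Ideal.mul_bot] at hI''
    simpa using hI''
  have A3 : (g • I') * (g • I'') = Ideal.span {m} := by
    rw [← smul_mul', ← hI'', smul_span, hgm]
  have A4 : Ideal.span {α'} * Ideal.span {g • z} * Ideal.span {β} =
      Ideal.span {α} * Ideal.span {β'} * Ideal.span {z} := by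
    have e1 : Ideal.span {α'} * Ideal.span {g • z} * Ideal.span {β} =
        (Ideal.span {β * α' * g • z} : Ideal (𝓞 M)) := by
      rw [Ideal.span_singleton_mul_span_singleton, Ideal.span_singleton_mul_span_singleton]
      congr 2
      ring
    have e2 : Ideal.span {α} * Ideal.span {β'} * Ideal.span {z} =
        (Ideal.span {α * β' * z} : Ideal (𝓞 M)) := by
      rw [Ideal.span_singleton_mul_span_singleton, Ideal.span_singleton_mul_span_singleton]
    rw [e1, e2, hz']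
    have : (η : 𝓞 M) * α * β' * z = (α * β' * z) * (η : 𝓞 M) := by ring
    rw [this]
    exact Ideal.span_singleton_mul_right_unit η.isUnit _
  set A : Ideal (𝓞 M) := Ideal.span {z} * I * I'' with hA
  have hz0 : (Ideal.span {z} : Ideal (𝓞 M)) ≠ ⊥ := by simpa using hz
  have hA0 : A ≠ ⊥ := mul_ne_zero (mul_ne_zero hz0 hI) hI''0
  have hgA : g • A = A := by
    have hα0 : (Ideal.span {α} : Ideal (𝓞 M)) ≠ 0 := by simpa using hα
    have hβ0 : (Ideal.span {β'} : Ideal (𝓞 M)) ≠ 0 := by simpa using hβ'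
    have hc : Ideal.span {α} * Ideal.span {β'} * I' ≠ 0 :=
      mul_ne_zero (mul_ne_zero hα0 hβ0) hI'
    apply mul_left_cancel₀ hc
    calc Ideal.span {α} * Ideal.span {β'} * I' * (g • A)
        = Ideal.span {α} * Ideal.span {β'} * I' * (Ideal.span {g • z} * (g • I) * (g • I'')) := by
          rw [hA, smul_mul', smul_mul', smul_span]
      _ = Ideal.span {α} * (Ideal.span {β'} * I') * Ideal.span {g • z} * (g • I) * (g • I'') := by
          ring
      _ = Ideal.span {α} * (Ideal.span {α'} * (g • I')) * Ideal.span {g • z} * (g • I) *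
            (g • I'') := by rw [h2]
      _ = Ideal.span {α'} * Ideal.span {g • z} * (Ideal.span {α} * (g • I)) *
            ((g • I') * (g • I'')) := by ring
      _ = Ideal.span {α'} * Ideal.span {g • z} * (Ideal.span {β} * I) * Ideal.span {m} := by
          rw [h1, A3]
      _ = (Ideal.span {α'} * Ideal.span {g • z} * Ideal.span {β}) * I * Ideal.span {m} := by ring
      _ = (Ideal.span {α} * Ideal.span {β'} * Ideal.span {z}) * I * (I' * I'') := by
          rw [A4, hI'']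
      _ = Ideal.span {α} * Ideal.span {β'} * I' * (Ideal.span {z} * I * I'') := by ring
  have hst : ∀ σ : Gal(M/K), σ • A = A := by
    intro σ
    have : Subgroup.zpowers g ≤ MulAction.stabilizer Gal(M/K) A := by
      rw [Subgroup.zpowers_le]
      exact hgA
    exact this (hg σ)
  obtain ⟨B, hB⟩ := hIv K M hU A hA0 hst
  have hB0 : B ≠ ⊥ := by
    rintro rfl
    apply hA0
    rw [← hB, Ideal.map_bot]
  refine ⟨cls K B, ?_⟩
  rw [hJ B hB0, hB, eq_mul_inv_iff_mul_eq, ← cls_mul A I' hA0 hI']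
  have e : A * I' = Ideal.span {z} * Ideal.span {m} * I := by
    rw [hA, hI'']
    ring
  have hm00 : (Ideal.span {m} : Ideal (𝓞 M)) ≠ ⊥ := by simpa using hm0
  rw [e, cls_mul _ _ (mul_ne_zero hz0 hm00) hI, cls_mul _ _ hz0 hm00, cls_span _ hz,
    cls_span _ hm0, one_mul, one_mul]

end gal

end IAm

open IAm in
theorem pr_Am (hIv : StIv.{u}) : StAm.{u} := by
  classical
  intro K M _ _ _ _ _ _ g hg hU hh0 J hJ S hS
  have data : ∀ c : {c : ClassGroup (𝓞 M) // S c = c}, ∃ (I : Ideal (𝓞 M)) (α β : 𝓞 M)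
      (v : (𝓞 K)ˣ), I ≠ ⊥ ∧ cls M I = c ∧ α ≠ 0 ∧ β ≠ 0 ∧
      Ideal.span {α} * (g • I) = Ideal.span {β} * I ∧
      Algebra.intNorm (𝓞 K) (𝓞 M) β = v * Algebra.intNorm (𝓞 K) (𝓞 M) α := by
    rintro ⟨c, hc⟩
    obtain ⟨I, hI, rfl⟩ := cls_surj c
    have hgI : g • I ≠ ⊥ := by
      intro h
      apply hI
      have := congrArg (fun t => g⁻¹ • t) h
      simpa using this
    rw [hS I hI] at hc
    obtain ⟨α, β, hα, hβ, h⟩ := cls_eq _ _ hgI hI hc
    have hr : Ideal.relNorm (𝓞 K) (g • I) = Ideal.relNorm (𝓞 K) I := Ideal.relNorm_smul _ _ _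
    have h1 := congrArg (Ideal.relNorm (𝓞 K)) h
    rw [map_mul, map_mul, hr, Ideal.relNorm_singleton, Ideal.relNorm_singleton] at h1
    have hI0 : Ideal.relNorm (𝓞 K) I ≠ 0 := by
      intro h0
      apply hI
      exact Ideal.relNorm_eq_bot_iff.mp h0
    have h2 := mul_right_cancel₀ hI0 h1
    rw [Ideal.span_singleton_eq_span_singleton] at h2
    obtain ⟨v, hv⟩ := h2
    exact ⟨I, α, β, v, hI, rfl, hα, hβ, h, by rw [← hv, mul_comm]⟩
  choose I α β v hI hc hα hβ h1 h2 using data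
  set Kf : AddSubgroup (Additive (𝓞 M)ˣ) :=
    AddMonoidHom.ker (dd (ue g) : Additive (𝓞 M)ˣ →+ Additive (𝓞 M)ˣ) with hKf
  set Rn : AddSubgroup (Additive (𝓞 M)ˣ) :=
    AddMonoidHom.range (nn (Module.finrank K M) (ue g) : Additive (𝓞 M)ˣ →+ Additive (𝓞 M)ˣ)
    with hRn
  have hcard : Nat.card (Kf ⧸ Rn.addSubgroupOf Kf) = h0 (Module.finrank K M) (ue g) := rfl
  have hfin : Finite (Kf ⧸ Rn.addSubgroupOf Kf) := by
    apply Nat.finite_of_card_ne_zero
    rw [hcard]
    exact hh0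
  let F : {c : ClassGroup (𝓞 M) // S c = c} → Kf ⧸ Rn.addSubgroupOf Kf := fun c =>
    QuotientAddGroup.mk ⟨_, dd_ker g (v c)⟩
  have hF : ∀ c c', F c = F c' → (c : ClassGroup (𝓞 M)) * (c' : ClassGroup (𝓞 M))⁻¹ ∈ J.range := by
    intro c c' h
    have h3 := (QuotientAddGroup.eq).mp h.symm
    rw [AddSubgroup.mem_addSubgroupOf] at h3
    obtain ⟨t, ht⟩ := h3
    have ht1 : (nn (Module.finrank K M) (ue g)) t =
        -Additive.ofMul (Units.map (algebraMap (𝓞 K) (𝓞 M) : 𝓞 K →* 𝓞 M) (v c')) +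
          Additive.ofMul (Units.map (algebraMap (𝓞 K) (𝓞 M) : 𝓞 K →* 𝓞 M) (v c)) := ht
    have ht2 : Additive.ofMul (Units.map (algebraMap (𝓞 K) (𝓞 M) : 𝓞 K →* 𝓞 M) (v c')) +
        (nn (Module.finrank K M) (ue g)) t =
          Additive.ofMul (Units.map (algebraMap (𝓞 K) (𝓞 M) : 𝓞 K →* 𝓞 M) (v c)) := by
      rw [ht1]
      abel
    have ht3 := congrArg (fun a : Additive (𝓞 M)ˣ => ((Additive.toMul a : (𝓞 M)ˣ) : 𝓞 M)) ht2
    have ht4 : algebraMap (𝓞 K) (𝓞 M) (v c' : 𝓞 K) *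
        ((Additive.toMul ((nn (Module.finrank K M) (ue g)) t) : (𝓞 M)ˣ) : 𝓞 M) =
        algebraMap (𝓞 K) (𝓞 M) (v c : 𝓞 K) := ht3
    rw [nn_coe, prod_pow g hg, ← map_mul] at ht4
    have ht5 := FaithfulSMul.algebraMap_injective (𝓞 K) (𝓞 M) ht4
    have := key hIv g hg hU J hJ (I c) (I c') (hI c) (hI c') (α c) (β c) (α c') (β c')
      (hα c) (hβ c') (h1 c) (h1 c') (v c) (v c') (h2 c) (h2 c') (Additive.toMul t) ht5.symm
    rw [hc c, hc c'] at this
    exact this
  have : Nonempty {c : ClassGroup (𝓞 M) // S c = c} := ⟨⟨1, map_one S⟩⟩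
  have hr : ∀ c, F (Function.invFun F (F c)) = F c := fun c => Function.invFun_eq ⟨c, rfl⟩
  let Ψ : {c : ClassGroup (𝓞 M) // S c = c} → J.range × (Kf ⧸ Rn.addSubgroupOf Kf) := fun c =>
    (⟨_, hF c (Function.invFun F (F c)) (hr c).symm⟩, F c)
  have hΨ : Function.Injective Ψ := by
    intro c c' h
    have e2 : F c = F c' := congrArg Prod.snd h
    have e1 : (c : ClassGroup (𝓞 M)) * ((Function.invFun F (F c) : _) : ClassGroup (𝓞 M))⁻¹ =
        (c' : ClassGroup (𝓞 M)) * ((Function.invFun F (F c') : _) : ClassGroup (𝓞 M))⁻¹ :=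
      congrArg Subtype.val (congrArg Prod.fst h)
    rw [e2] at e1
    exact Subtype.ext (mul_right_cancel e1)
  have := Nat.card_le_card_of_injective Ψ hΨ
  rw [Nat.card_prod, hcard] at this
  exact this

end Pool.Agent.Work.MP_59f3ad_nt.UCF
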