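import Mathlib
import Pool.Agent.Work.MP_59f3ad_nt.UCF.Stmts

/-!
Library UCF, item Bc: base change of characters.
-/

open NumberField IsDedekindDomain Filter Topology
open scoped Pointwise nonZeroDivisors

namespace Pool.Agent.Work.MP_59f3ad_nt.UCF

universe u

theorem pr_Bc : StBc.{u} := by
  intro K F E _ _ _ _ _ _ _ _ _ _ N hN ψ
  constructor
  · intro h I hI
    have h1 : Ideal.relNorm (𝓞 F) I ≠ ⊥ := fun h => hI (Ideal.relNorm_eq_bot_iff.1 h)
    rw [MonoidHom.comp_apply, hN _ h1, Ideal.relNorm_relNorm]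
    exact h I hI
  · intro h I hI
    rw [← hN I hI]
    exact DFunLike.congr_fun h (cls F I)

end Pool.Agent.Work.MP_59f3ad_nt.UCF
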