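import Mathlib
import Pool.Agent.Work.MP_59f3ad_nt.UCF.Stmts

/-!
# Item Cg of the library UCF: homomorphisms of class groups
-/

set_option autoImplicit false

open NumberField IsDedekindDomain
open scoped Pointwise nonZeroDivisors

namespace Pool.Agent.Work.MP_59f3ad_nt.UCF

universe u

namespace ICg

variable {A B : Type u} [CommRing A] [IsDedekindDomain A] [CommRing B] [IsDedekindDomain B]

theorem wd (f : (Ideal A)⁰ →* (Ideal B)⁰)
    (hf : ∀ I : (Ideal A)⁰, (I : Ideal A).IsPrincipal → (f I : Ideal B).IsPrincipal)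
    {I J : (Ideal A)⁰} (h : ClassGroup.mk0 I = ClassGroup.mk0 J) :
    ClassGroup.mk0 (f I) = ClassGroup.mk0 (f J) := by
  rw [ClassGroup.mk0_eq_mk0_iff] at h
  obtain ⟨x, y, hx, hy, h⟩ := h
  have hX : Ideal.span {x} ∈ (Ideal A)⁰ := mem_nonZeroDivisors_iff_ne_zero.2 (by
    rw [Ideal.zero_eq_bot, Ne, Ideal.span_singleton_eq_bot]
    exact hx)
  have hY : Ideal.span {y} ∈ (Ideal A)⁰ := mem_nonZeroDivisors_iff_ne_zero.2 (by
    rw [Ideal.zero_eq_bot, Ne, Ideal.span_singleton_eq_bot]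
    exact hy)
  obtain ⟨X, hXd⟩ : ∃ X : (Ideal A)⁰, X = ⟨Ideal.span {x}, hX⟩ := ⟨_, rfl⟩
  obtain ⟨Y, hYd⟩ : ∃ Y : (Ideal A)⁰, Y = ⟨Ideal.span {y}, hY⟩ := ⟨_, rfl⟩
  have h1 : X * I = Y * J := by
    apply Subtype.ext
    rw [hXd, hYd]
    exact h
  have hXp : ClassGroup.mk0 (f X) = 1 := by
    rw [ClassGroup.mk0_eq_one_iff (f X).2]
    exact hf X (by
      rw [hXd]
      exact ⟨⟨x, rfl⟩⟩)
  have hYp : ClassGroup.mk0 (f Y) = 1 := by
    rw [ClassGroup.mk0_eq_one_iff (f Y).2]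
    exact hf Y (by
      rw [hYd]
      exact ⟨⟨y, rfl⟩⟩)
  have h2 := congrArg (fun t => ClassGroup.mk0 (f t)) h1
  simp only [map_mul, hXp, hYp, one_mul] at h2
  exact h2

end ICg

open ICg in
/-- Item Cg. -/
theorem pr_Cg : StCg.{u} := by
  intro A B _ _ _ _ f hf
  choose r hr using ClassGroup.mk0_surjective (R := A)
  refine ⟨MonoidHom.mk' (fun c => ClassGroup.mk0 (f (r c))) ?_, ?_⟩
  · intro a b
    rw [← map_mul, ← map_mul]
    apply wd f hf
    rw [hr, map_mul, hr, hr]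
  · intro I
    change ClassGroup.mk0 (f (r (ClassGroup.mk0 I))) = ClassGroup.mk0 (f I)
    apply wd f hf
    rw [hr]

end Pool.Agent.Work.MP_59f3ad_nt.UCF
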