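import Mathlib
import Pool.Agent.Work.MP_59f3ad_nt.UCF.Stmts

/-!
Item Cp of the library UCF: comparison of the lattices `𝓞 K` and `J`.
-/

open NumberField IsDedekindDomain Filter Topology
open scoped Pointwise nonZeroDivisors

namespace Pool.Agent.Work.MP_59f3ad_nt.UCF

universe u

namespace ICp

variable {K : Type u} [Field K] [NumberField K]

open Classical in
/-- The summand, extended by zero. -/
noncomputable def ff (s : ℝ) (x : 𝓞 K) : ℝ := if x ≠ 0 then wt K x * nrm K x ^ (-s) else 0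

lemma wt_nonneg (x : 𝓞 K) : 0 ≤ wt K x :=
  Finset.prod_nonneg fun i _ => le_max_left _ _

lemma wt_le_one (x : 𝓞 K) : wt K x ≤ 1 :=
  Finset.prod_le_one (fun i _ => le_max_left _ _) fun i _ =>
    max_le zero_le_one (by linarith [abs_nonneg (lc K x i)])

lemma one_le_nrm {x : 𝓞 K} (hx : x ≠ 0) : 1 ≤ nrm K x := by
  have h : Ideal.absNorm (Ideal.span {x}) ≠ 0 := by
    intro h
    rw [Ideal.absNorm_eq_zero_iff, Ideal.span_singleton_eq_bot] at h
    exact hx h
  unfold nrm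
  exact_mod_cast Nat.one_le_iff_ne_zero.2 h

open Classical in
lemma sz_nonneg (x : 𝓞 K) : 0 ≤ sz K x := by
  have h : 0 ≤ ‖(mixedEmbedding K (x : K) : mixedEmbedding.mixedSpace K)‖ := norm_nonneg _
  exact h

open Classical in
lemma sz_pos {x : 𝓞 K} (hx : x ≠ 0) : 0 < sz K x := by
  have h : mixedEmbedding K (x : K) ≠ 0 := by
    rw [Ne, map_eq_zero_iff _ (mixedEmbedding_injective K)]
    exact fun h => hx (RingOfIntegers.ext h)
  refine lt_of_le_of_ne (sz_nonneg x) fun h0 => h ?_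
  have h1 : ‖(mixedEmbedding K (x : K) : mixedEmbedding.mixedSpace K)‖ = 0 := h0.symm
  exact norm_eq_zero.1 h1

lemma ff_nonneg (s : ℝ) (x : 𝓞 K) : 0 ≤ ff s x := by
  unfold ff
  split_ifs with h
  · exact mul_nonneg (wt_nonneg x) (Real.rpow_nonneg (zero_le_one.trans (one_le_nrm h)) _)
  · exact le_rfl

lemma ff_le_one {s : ℝ} (hs : 0 ≤ s) (x : 𝓞 K) : ff s x ≤ 1 := by
  unfold ff
  split_ifs with h
  · refine mul_le_one₀ (wt_le_one x) (Real.rpow_nonneg (zero_le_one.trans (one_le_nrm h)) _) ?_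
    exact Real.rpow_le_one_of_one_le_of_nonpos (one_le_nrm h) (by linarith)
  · exact zero_le_one

lemma ff_summable (hSm : StSm.{u}) (hWz : StWz.{u}) {s : ℝ} (hs : 1 < s) :
    Summable (fun x : 𝓞 K => ff s x) := by
  obtain ⟨c, hc, hcx⟩ := hWz K
  set n := Module.finrank ℚ K with hn
  have hn0 : (0 : ℝ) < n := by exact_mod_cast Module.finrank_pos
  have h1 := (hSm K ((n : ℝ) * s) (by nlinarith)).mul_left (c ^ (-s))
  refine h1.of_nonneg_of_le (fun x => ff_nonneg s x) fun x => ?_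
  have h0 : 0 ≤ c ^ (-s) * sz K x ^ (-((n : ℝ) * s)) :=
    mul_nonneg (Real.rpow_nonneg hc.le _) (Real.rpow_nonneg (sz_nonneg x) _)
  unfold ff
  split_ifs with hx
  · by_cases hw : wt K x = 0
    · rw [hw, zero_mul]
      exact h0
    · obtain ⟨_, h2⟩ := hcx x hx hw
      have hz := sz_pos hx
      have h3 : 0 < c * sz K x ^ n := by positivity
      have h4 : nrm K x ^ (-s) ≤ (c * sz K x ^ n) ^ (-s) :=
        Real.rpow_le_rpow_of_nonpos h3 h2 (by linarith)
      have h5 : (c * sz K x ^ n) ^ (-s) = c ^ (-s) * sz K x ^ (-((n : ℝ) * s)) := by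
        rw [Real.mul_rpow hc.le (by positivity), ← Real.rpow_natCast, ← Real.rpow_mul hz.le]
        congr 2
        ring
      calc wt K x * nrm K x ^ (-s) ≤ 1 * nrm K x ^ (-s) :=
            mul_le_mul_of_nonneg_right (wt_le_one x)
              (Real.rpow_nonneg (zero_le_one.trans (one_le_nrm hx)) _)
        _ ≤ _ := by rw [one_mul, ← h5]; exact h4
  · exact h0

/-- The decomposition of `𝓞 K` into the classes modulo `J`. -/
noncomputable def eqv (J : Ideal (𝓞 K)) (r : 𝓞 K ⧸ J → 𝓞 K)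
    (hr : ∀ q, Ideal.Quotient.mk J (r q) = q) : (𝓞 K ⧸ J) × J ≃ 𝓞 K where
  toFun p := (p.2 : 𝓞 K) + r p.1
  invFun x := (Ideal.Quotient.mk J x, ⟨x - r (Ideal.Quotient.mk J x), by
    rw [← Ideal.Quotient.eq, hr]⟩)
  left_inv p := by
    obtain ⟨q, y, hy⟩ := p
    have h1 : Ideal.Quotient.mk J (y + r q) = q := by
      rw [map_add, Ideal.Quotient.eq_zero_iff_mem.2 hy, zero_add, hr]
    simp only [h1, Prod.mk.injEq, Subtype.mk.injEq, true_and]
    ring
  right_inv x := by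
    simp

omit [NumberField K] in
lemma eqv_apply (J : Ideal (𝓞 K)) (r : 𝓞 K ⧸ J → 𝓞 K)
    (hr : ∀ q, Ideal.Quotient.mk J (r q) = q) (p : (𝓞 K ⧸ J) × J) :
    eqv J r hr p = (p.2 : 𝓞 K) + r p.1 := rfl

lemma SJ_eq (J : Ideal (𝓞 K)) (s : ℝ) : SJ K J s = ∑' y : J, ff s (y : 𝓞 K) := by
  classical
  have h := tsum_subtype (J : Set (𝓞 K)) (fun x : 𝓞 K => ff s x)
  have h1 : ∑' y : J, ff s (y : 𝓞 K) = ∑' y : (J : Set (𝓞 K)), ff s (y : 𝓞 K) := rfl
  rw [h1, h]
  unfold SJ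
  refine tsum_congr fun x => ?_
  unfold ff
  by_cases hx : x ∈ J
  · rw [Set.indicator_of_mem (by exact hx)]
    by_cases h0 : x ≠ 0
    · rw [if_pos ⟨hx, h0⟩, if_pos h0]
    · rw [if_neg (fun h => h0 h.2), if_neg h0]
  · rw [Set.indicator_of_notMem (by exact hx), if_neg (fun h => hx h.1)]

lemma SJ_top (s : ℝ) : SJ K ⊤ s = ∑' x : 𝓞 K, ff s x := by
  unfold SJ
  refine tsum_congr fun x => ?_
  unfold ff
  by_cases h0 : x ≠ 0
  · rw [if_pos ⟨Submodule.mem_top, h0⟩, if_pos h0]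
  · rw [if_neg (fun h => h0 h.2), if_neg h0]

end ICp

open ICp in
theorem pr_Cp (hSm : StSm.{u}) (hWz : StWz.{u}) (hWd : StWd.{u}) : StCp.{u} := by
  intro K _ _ J hJ
  classical
  have : Finite (𝓞 K ⧸ J) := Ideal.finiteQuotientOfFreeOfNeBot J hJ
  have : Fintype (𝓞 K ⧸ J) := Fintype.ofFinite _
  set r : 𝓞 K ⧸ J → 𝓞 K := Function.surjInv Ideal.Quotient.mk_surjective with hrdef
  have hr : ∀ q, Ideal.Quotient.mk J (r q) = q := Function.surjInv_eq _
  set n := Module.finrank ℚ K with hn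
  choose C hC using fun q => hWd K (r q)
  set B : 𝓞 K ⧸ J → J → ℝ := fun q y => |C q| * sz K (y : 𝓞 K) ^ (-((n : ℝ) + 1)) +
    ((if (y : 𝓞 K) = 0 then 1 else 0) + (if (y : 𝓞 K) = -r q then 1 else 0)) with hB
  have hsz : Summable (fun x : 𝓞 K => sz K x ^ (-((n : ℝ) + 1))) :=
    hSm K ((n : ℝ) + 1) (by linarith)
  have hBs : ∀ q, Summable (B q) := by
    intro q
    have h1 : Summable (fun y : J => sz K (y : 𝓞 K) ^ (-((n : ℝ) + 1))) :=
      hsz.comp_injective Subtype.val_injective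
    have h2 : ∀ z : 𝓞 K, Summable (fun y : J => if (y : 𝓞 K) = z then (1 : ℝ) else 0) := by
      intro z
      have h3 : Summable (fun y : 𝓞 K => if y = z then (1 : ℝ) else 0) :=
        (hasSum_ite_eq z (1 : ℝ)).summable
      exact h3.comp_injective Subtype.val_injective
    exact (h1.mul_left _).add ((h2 0).add (h2 (-r q)))
  refine ⟨∑ q, ∑' y, B q y, ?_⟩
  intro s hs
  have hs1 : 1 < s := hs.1
  have hs0 : 0 ≤ s := by linarith
  have hsum : Summable (fun x : 𝓞 K => ff s x) := ff_summable hSm hWz hs1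
  have hsumJ : Summable (fun y : J => ff s (y : 𝓞 K)) := hsum.comp_injective Subtype.val_injective
  have hsumq : ∀ q, Summable (fun y : J => ff s ((y : 𝓞 K) + r q)) := by
    intro q
    refine hsum.comp_injective (i := fun y : J => (y : 𝓞 K) + r q) ?_
    intro y y' h
    exact Subtype.ext (add_right_cancel h)
  have htop : SJ K ⊤ s = ∑ q, ∑' y : J, ff s ((y : 𝓞 K) + r q) := by
    rw [SJ_top, ← (eqv J r hr).tsum_eq]
    have h1 : Summable (fun p : (𝓞 K ⧸ J) × J => ff s (eqv J r hr p)) :=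
      hsum.comp_injective (eqv J r hr).injective
    rw [h1.tsum_prod, tsum_fintype]
    rfl
  have hm : (J.absNorm : ℝ) * SJ K J s = ∑ _q : 𝓞 K ⧸ J, ∑' y : J, ff s (y : 𝓞 K) := by
    rw [Finset.sum_const, Finset.card_univ, nsmul_eq_mul, SJ_eq, Ideal.absNorm_apply,
      Submodule.cardQuot_apply, Nat.card_eq_fintype_card]
  rw [htop, hm, ← Finset.sum_sub_distrib]
  refine (Finset.abs_sum_le_sum_abs _ _).trans (Finset.sum_le_sum fun q _ => ?_)
  rw [← (hsumq q).tsum_sub hsumJ]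
  have hbd : ∀ y : J, |ff s ((y : 𝓞 K) + r q) - ff s (y : 𝓞 K)| ≤ B q y := by
    intro y
    have h0 : 0 ≤ |C q| * sz K (y : 𝓞 K) ^ (-((n : ℝ) + 1)) :=
      mul_nonneg (abs_nonneg _) (Real.rpow_nonneg (sz_nonneg _) _)
    have h1 : |ff s ((y : 𝓞 K) + r q) - ff s (y : 𝓞 K)| ≤ 1 := by
      rw [abs_le]
      have a1 := ff_nonneg s ((y : 𝓞 K) + r q)
      have a2 := ff_nonneg s (y : 𝓞 K)
      have a3 := ff_le_one hs0 ((y : 𝓞 K) + r q)
      have a4 := ff_le_one hs0 (y : 𝓞 K)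
      constructor <;> linarith
    have i1 : (0 : ℝ) ≤ if (y : 𝓞 K) = 0 then 1 else 0 := by split_ifs <;> norm_num
    have i2 : (0 : ℝ) ≤ if (y : 𝓞 K) = -r q then 1 else 0 := by split_ifs <;> norm_num
    simp only [hB]
    by_cases hy : (y : 𝓞 K) = 0
    · rw [if_pos hy] at *
      linarith
    · by_cases hy2 : (y : 𝓞 K) = -r q
      · rw [if_pos hy2] at *
        linarith
      · have hy3 : (y : 𝓞 K) + r q ≠ 0 := fun h => hy2 (eq_neg_of_add_eq_zero_left h)
        have h2 := hC q s ⟨hs.1.le, hs.2⟩ (y : 𝓞 K) hy hy3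
        have h3 : ff s ((y : 𝓞 K) + r q) = wt K ((y : 𝓞 K) + r q) * nrm K ((y : 𝓞 K) + r q) ^ (-s) :=
          if_pos hy3
        have h4 : ff s (y : 𝓞 K) = wt K (y : 𝓞 K) * nrm K (y : 𝓞 K) ^ (-s) := if_pos hy
        rw [h3, h4]
        refine h2.trans ?_
        have e1 : -(n : ℝ) - 1 = -((n : ℝ) + 1) := by ring
        rw [e1]
        have h5 : C q * sz K (y : 𝓞 K) ^ (-((n : ℝ) + 1)) ≤
            |C q| * sz K (y : 𝓞 K) ^ (-((n : ℝ) + 1)) :=
          mul_le_mul_of_nonneg_right (le_abs_self _) (Real.rpow_nonneg (sz_nonneg _) _)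
        linarith
  have hds : Summable (fun y : J => |ff s ((y : 𝓞 K) + r q) - ff s (y : 𝓞 K)|) :=
    (hBs q).of_nonneg_of_le (fun y => abs_nonneg _) hbd
  calc |∑' y : J, (ff s ((y : 𝓞 K) + r q) - ff s (y : 𝓞 K))|
      ≤ ∑' y : J, |ff s ((y : 𝓞 K) + r q) - ff s (y : 𝓞 K)| := by
        have := norm_tsum_le_tsum_norm (f := fun y : J => ff s ((y : 𝓞 K) + r q) -
          ff s (y : 𝓞 K)) (by simpa only [Real.norm_eq_abs] using hds)
        simpa only [Real.norm_eq_abs] using this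
    _ ≤ ∑' y, B q y := hds.tsum_le_tsum hbd (hBs q)

end Pool.Agent.Work.MP_59f3ad_nt.UCF
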