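import Mathlib
import Pool.Agent.Work.MP_59f3ad_nt.UCF.Stmts

/-!
# Library UCF, item Cy: the cyclic case
-/

set_option autoImplicit false

open NumberField IsDedekindDomain Filter Topology
open scoped Pointwise nonZeroDivisors

namespace Pool.Agent.Work.MP_59f3ad_nt.UCF

universe u

namespace ICy

/-- a homomorphism which is invariant under an endomorphism with few fixed points has a small
image -/
theorem range_le {A B : Type u} [CommGroup A] [Finite A] [CommGroup B] (N : A →* B)
    (S : A →* A) (hNS : ∀ c, N (S c) = N c) :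
    Nat.card N.range ≤ Nat.card {c : A // S c = c} := by
  let φ : A →* A := MonoidHom.id A / S
  have hφ : ∀ c, φ c = c / S c := fun c => rfl
  have h1 : Nat.card φ.range * Nat.card φ.ker = Nat.card A := by
    rw [← Subgroup.card_mul_index φ.ker, Subgroup.index_ker, mul_comm]
  have h2 : Nat.card N.range * Nat.card N.ker = Nat.card A := by
    rw [← Subgroup.card_mul_index N.ker, Subgroup.index_ker, mul_comm]
  have h3 : φ.range ≤ N.ker := by
    rintro _ ⟨c, rfl⟩
    rw [MonoidHom.mem_ker, hφ, map_div, hNS, div_self']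
  have h4 : Nat.card φ.range ≤ Nat.card N.ker := Subgroup.card_le_of_le h3
  have h5 : Nat.card φ.ker = Nat.card {c : A // S c = c} := by
    refine Nat.card_congr (Equiv.subtypeEquivRight fun c => ?_)
    rw [MonoidHom.mem_ker, hφ, div_eq_one, eq_comm]
  rw [← h5]
  have h6 : 0 < Nat.card N.ker := Nat.card_pos
  refine Nat.le_of_mul_le_mul_right ?_ h6
  rw [h2, ← h1, mul_comm]
  exact Nat.mul_le_mul_left _ h4

/-- the index of the image -/
theorem index_ge {A B : Type u} [CommGroup A] [Finite A] [CommGroup B] [Finite B] (N : A →* B)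
    (S : A →* A) (hNS : ∀ c, N (S c) = N c) (n : ℕ)
    (h : n * Nat.card {c : A // S c = c} ≤ Nat.card B) : n ≤ N.range.index := by
  have h1 := range_le N S hNS
  have h2 : Nat.card N.range * N.range.index = Nat.card B := Subgroup.card_mul_index _
  have h3 : 0 < Nat.card N.range := Nat.card_pos
  refine Nat.le_of_mul_le_mul_left ?_ h3
  rw [h2]
  refine le_trans ?_ h
  rw [mul_comm]
  exact Nat.mul_le_mul_left _ h1

/-- the annihilator has at least the expected order -/
theorem card_ann {G : Type u} [CommGroup G] [Finite G] (H : Subgroup G)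
    (Y : Subgroup (G →* ℂˣ)) (hY : ∀ ψ : G →* ℂˣ, (∀ h ∈ H, ψ h = 1) → ψ ∈ Y) :
    H.index ≤ Nat.card Y := by
  have h1 : Nat.card ((G ⧸ H) →* ℂˣ) = H.index :=
    CommGroup.card_monoidHom_of_hasEnoughRootsOfUnity (G ⧸ H) ℂ
  have h2 : Finite (G →* ℂˣ) := by
    refine Nat.finite_of_card_ne_zero ?_
    rw [CommGroup.card_monoidHom_of_hasEnoughRootsOfUnity G ℂ]
    exact Nat.card_pos.ne'
  rw [← h1]
  refine Nat.card_le_card_of_injective
    (fun ψ : (G ⧸ H) →* ℂˣ => (⟨ψ.comp (QuotientGroup.mk' H), hY _ fun h hh => ?_⟩ : Y)) ?_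
  · rw [MonoidHom.comp_apply]
    have : QuotientGroup.mk' H h = 1 := (QuotientGroup.eq_one_iff h).2 hh
    rw [this, map_one]
  · intro ψ ψ' h
    have h3 : ψ.comp (QuotientGroup.mk' H) = ψ'.comp (QuotientGroup.mk' H) :=
      congrArg Subtype.val h
    refine MonoidHom.ext fun x => ?_
    obtain ⟨g, rfl⟩ := QuotientGroup.mk'_surjective H x
    exact DFunLike.congr_fun h3 g

variable (K : Type u) [Field K] [NumberField K]

theorem cls_of_ne {I : Ideal (𝓞 K)} (h : I ≠ ⊥) :
    cls K I = ClassGroup.mk0 ⟨I, mem_nonZeroDivisors_iff_ne_zero.mpr h⟩ := by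
  unfold cls
  rw [dif_neg h]

theorem exists_cls (C : ClassGroup (𝓞 K)) : ∃ J : Ideal (𝓞 K), J ≠ ⊥ ∧ cls K J = C := by
  obtain ⟨J, hJ⟩ := ClassGroup.mk0_surjective C
  have h : (J : Ideal (𝓞 K)) ≠ ⊥ := mem_nonZeroDivisors_iff_ne_zero.mp J.2
  refine ⟨J, h, ?_⟩
  rw [cls_of_ne K h]
  exact hJ

end ICy

/-- Item Cy. -/
theorem pr_Cy (hNm : StNm.{u}) (hHu : StHu.{u}) (hKj : StKj.{u}) (hAm : StAm.{u}) :
    StCy.{u} := by
  intro K M _ _ _ _ _ _ hcyc hodd hun
  obtain ⟨g, hg⟩ := hcyc.exists_generator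
  obtain ⟨⟨N, hN⟩, ⟨J, hJ⟩, hS⟩ := hNm K M
  obtain ⟨S, hS⟩ := hS g
  obtain ⟨h1, h2⟩ := hHu K M g hg hodd
  have h3 := hKj K M g hg hun J hJ
  have h4 := hAm K M g hg hun h2 J hJ S hS
  have hNS : ∀ c, N (S c) = N c := by
    intro c
    obtain ⟨I, hI, rfl⟩ := ICy.exists_cls M c
    have hgI : g • I ≠ ⊥ := by
      intro h
      apply hI
      have h0 : g⁻¹ • (0 : Ideal (𝓞 M)) = 0 := smul_zero g⁻¹
      rw [← inv_smul_smul g I, h]
      exact h0
    rw [hS I hI, hN _ hgI, hN I hI, Ideal.relNorm_smul]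
  have h5 : Nat.card J.range * Nat.card J.ker = Nat.card (ClassGroup (𝓞 K)) := by
    rw [← Subgroup.card_mul_index J.ker, Subgroup.index_ker, mul_comm]
  have h6 : Module.finrank K M * Nat.card {c : ClassGroup (𝓞 M) // S c = c} ≤
      Nat.card (ClassGroup (𝓞 K)) := by
    calc Module.finrank K M * Nat.card {c : ClassGroup (𝓞 M) // S c = c}
        ≤ Module.finrank K M * (Nat.card J.range * h0 (Module.finrank K M) (ue g)) :=
          Nat.mul_le_mul_left _ h4
      _ = Nat.card J.range * UCF.h1 (Module.finrank K M) (ue g) := by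
          rw [h1]
          ring
      _ ≤ Nat.card J.range * Nat.card J.ker := Nat.mul_le_mul_left _ h3
      _ = _ := h5
  refine (ICy.index_ge N S hNS _ h6).trans ?_
  refine ICy.card_ann N.range (XX K M) fun ψ hψ I hI => ?_
  rw [← hN I hI]
  exact hψ _ ⟨_, rfl⟩

end Pool.Agent.Work.MP_59f3ad_nt.UCF
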