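import Mathlib
import Pool.Agent.Work.MP_59f3ad_nt.UCF.Stmts

/-!
# Item D1 of the library UCF: upper density of the primes killed by a group of characters
-/

set_option autoImplicit false

open NumberField IsDedekindDomain
open scoped Pointwise nonZeroDivisors

namespace Pool.Agent.Work.MP_59f3ad_nt.UCF

universe u

namespace ID1

variable {K : Type u} [Field K] [NumberField K]

theorem asIdeal_inj : Function.Injective (fun v : HeightOneSpectrum (𝓞 K) => v.asIdeal) := by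
  intro v w h
  exact HeightOneSpectrum.ext h

theorem lt_re (ψ : ClassGroup (𝓞 K) →* ℂˣ) (s : ℝ) (v : HeightOneSpectrum (𝓞 K)) :
    (lt K ψ s v.asIdeal).re =
      ((ψ (cls K v.asIdeal) : ℂˣ) : ℂ).re * (v.asIdeal.absNorm : ℝ) ^ (-s) := by
  unfold lt
  rw [if_pos v.ne_bot, Complex.re_mul_ofReal]

theorem norm_char (ψ : ClassGroup (𝓞 K) →* ℂˣ) (c : ClassGroup (𝓞 K)) :
    ‖((ψ c : ℂˣ) : ℂ)‖ = 1 := by
  have h1 : c ^ Nat.card (ClassGroup (𝓞 K)) = 1 := pow_card_eq_one'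
  have h2 : ((ψ c : ℂˣ) : ℂ) ^ Nat.card (ClassGroup (𝓞 K)) = 1 := by
    rw [← Units.val_pow_eq_pow_val, ← map_pow, h1, map_one, Units.val_one]
  exact Complex.norm_eq_one_of_pow_eq_one h2 Nat.card_pos.ne'

theorem summable_re (hSi : StSi.{u}) (ψ : ClassGroup (𝓞 K) →* ℂˣ) {s : ℝ} (hs : 1 < s) :
    Summable (fun v : HeightOneSpectrum (𝓞 K) => (lt K ψ s v.asIdeal).re) := by
  have h1 := (hSi K s hs).comp_injective (asIdeal_inj (K := K))
  refine Summable.of_norm_bounded h1 ?_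
  intro v
  rw [lt_re, Real.norm_eq_abs, abs_mul]
  have h2 : |((ψ (cls K v.asIdeal) : ℂˣ) : ℂ).re| ≤ 1 :=
    (Complex.abs_re_le_norm _).trans (norm_char ψ _).le
  have h3 : (0 : ℝ) ≤ (v.asIdeal.absNorm : ℝ) ^ (-s) := by positivity
  rw [abs_of_nonneg h3]
  simp only [Function.comp]
  nlinarith

theorem LL_one (s : ℝ) : LL K 1 s = ((zK K s : ℝ) : ℂ) := by
  classical
  unfold LL zK
  rw [Complex.ofReal_tsum]
  congr 1
  funext I
  unfold lt
  by_cases h : I ≠ ⊥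
  · simp only [if_pos h, MonoidHom.one_apply, Units.val_one, one_mul]
  · simp only [if_neg h, Complex.ofReal_zero]

/-- the bound for one character -/
theorem one_char (hLg : StLg.{u}) (hLb : StLb.{u}) (hRs : StRs.{u})
    (ψ : ClassGroup (𝓞 K) →* ℂˣ) : ∃ B : ℝ, ∀ s ∈ Set.Ioc (1 : ℝ) 2,
      (∑' v : HeightOneSpectrum (𝓞 K), (lt K ψ s v.asIdeal).re) ≤
        (open Classical in if ψ = 1 then Real.log (1 / (s - 1)) else 0) + B := by
  classical
  obtain ⟨B1, hB1⟩ := hLg K ψ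
  by_cases hψ : ψ = 1
  · obtain ⟨a, b, ha, hab⟩ := hRs K
    refine ⟨B1 + Real.log b, fun s hs => ?_⟩
    obtain ⟨h0, h1⟩ := hB1 s hs
    have h2 := (abs_le.1 h1).2
    obtain ⟨h3, h4⟩ := hab s hs
    have hs1 : 0 < s - 1 := by linarith [hs.1]
    have h5 : 0 < zK K s := lt_of_lt_of_le (by positivity) h3
    have hb : 0 < b := by
      have : 0 < b / (s - 1) := lt_of_lt_of_le h5 h4
      by_contra hneg
      push Not at hneg
      have := div_nonpos_of_nonpos_of_nonneg hneg hs1.le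
      linarith
    have h6 : ‖LL K ψ s‖ = zK K s := by
      rw [hψ, LL_one, Complex.norm_real, Real.norm_eq_abs, abs_of_pos h5]
    rw [h6] at h2
    have h7 : Real.log (zK K s) ≤ Real.log (1 / (s - 1)) + Real.log b := by
      rw [← Real.log_mul (by positivity) hb.ne']
      apply Real.log_le_log h5
      calc zK K s ≤ b / (s - 1) := h4
        _ = 1 / (s - 1) * b := by ring
    rw [if_pos hψ]
    linarith
  · obtain ⟨B2, hB2⟩ := hLb K ψ hψ
    refine ⟨B1 + B2, fun s hs => ?_⟩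
    obtain ⟨h0, h1⟩ := hB1 s hs
    have h2 := (abs_le.1 h1).2
    have h3 := hB2 s hs
    have h4 : 0 < ‖LL K ψ s‖ := norm_pos_iff.2 h0
    have h5 : Real.log ‖LL K ψ s‖ ≤ ‖LL K ψ s‖ := (Real.log_le_sub_one_of_pos h4).trans (by linarith)
    rw [if_neg hψ]
    linarith

theorem finite_dual : Finite (ClassGroup (𝓞 K) →* ℂˣ) := by
  haveI : NeZero (Monoid.exponent (ClassGroup (𝓞 K))) := ⟨Monoid.exponent_ne_zero_of_finite⟩
  obtain ⟨e⟩ := CommGroup.monoidHom_mulEquiv_of_hasEnoughRootsOfUnity (ClassGroup (𝓞 K)) ℂ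
  exact Finite.of_equiv _ e.symm.toEquiv

theorem orth (Y : Subgroup (ClassGroup (𝓞 K) →* ℂˣ)) [Fintype Y] (c : ClassGroup (𝓞 K)) :
    ∑ ψ : Y, ((((ψ : ClassGroup (𝓞 K) →* ℂˣ) c : ℂˣ) : ℂ)) =
      (open Classical in if ∀ ψ ∈ Y, ψ c = 1 then (Fintype.card Y : ℂ) else 0) := by
  classical
  by_cases h : ∀ ψ ∈ Y, ψ c = 1
  · rw [if_pos h]
    have h1 : ∀ ψ : Y, ((((ψ : ClassGroup (𝓞 K) →* ℂˣ) c : ℂˣ) : ℂ)) = 1 := by
      intro ψ
      rw [h ψ ψ.2, Units.val_one]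
    simp [h1]
  · rw [if_neg h]
    push Not at h
    obtain ⟨φ, hφ, hne⟩ := h
    obtain ⟨S, hS⟩ : ∃ S : ℂ, S = ∑ ψ : Y, ((((ψ : ClassGroup (𝓞 K) →* ℂˣ) c : ℂˣ) : ℂ)) :=
      ⟨_, rfl⟩
    have h1 : ((φ c : ℂˣ) : ℂ) * S = S := by
      rw [hS, Finset.mul_sum]
      refine Fintype.sum_equiv (Equiv.mulLeft (⟨φ, hφ⟩ : Y)) _ _ ?_
      intro ψ
      simp [Subgroup.coe_mul, MonoidHom.mul_apply]
    rw [← hS]
    have h2 : (((φ c : ℂˣ) : ℂ) - 1) * S = 0 := by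
      rw [sub_mul, h1, one_mul, sub_self]
    rcases mul_eq_zero.1 h2 with h3 | h3
    · exfalso
      apply hne
      apply Units.ext
      rw [Units.val_one]
      exact sub_eq_zero.1 h3
    · exact h3

end ID1

open ID1 in
/-- Item D1. -/
theorem pr_D1 (hLg : StLg.{u}) (hLb : StLb.{u}) (hRs : StRs.{u}) (hSi : StSi.{u}) :
    StD1.{u} := by
  classical
  intro K _ _ Y
  choose B hB using fun ψ : ClassGroup (𝓞 K) →* ℂˣ => one_char hLg hLb hRs ψ
  haveI := finite_dual (K := K)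
  haveI : Fintype Y := Fintype.ofFinite Y
  have hcard : 0 < (Nat.card Y : ℝ) := by exact_mod_cast Nat.card_pos
  refine ⟨(∑ ψ : Y, B ψ) / Nat.card Y, ?_⟩
  intro s hs
  have key : (Nat.card Y : ℝ) * PS K {v | ∀ ψ ∈ Y, ψ (cls K v.asIdeal) = 1} s =
      ∑ ψ : Y, ∑' v : HeightOneSpectrum (𝓞 K),
        (lt K (ψ : ClassGroup (𝓞 K) →* ℂˣ) s v.asIdeal).re := by
    rw [← Summable.tsum_finsetSum (fun ψ _ => summable_re hSi _ hs.1)]
    unfold PS
    rw [← tsum_mul_left]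
    congr 1
    funext v
    simp only [lt_re]
    rw [← Finset.sum_mul, ← Complex.re_sum, orth Y (cls K v.asIdeal), Nat.card_eq_fintype_card]
    by_cases h : ∀ ψ ∈ Y, ψ (cls K v.asIdeal) = 1
    · rw [if_pos h, if_pos (show v ∈ {v | ∀ ψ ∈ Y, ψ (cls K v.asIdeal) = 1} from h)]
      simp
    · rw [if_neg h, if_neg (show v ∉ {v | ∀ ψ ∈ Y, ψ (cls K v.asIdeal) = 1} from h)]
      simp
  have h1 : ∑ ψ : Y, ∑' v : HeightOneSpectrum (𝓞 K),
        (lt K (ψ : ClassGroup (𝓞 K) →* ℂˣ) s v.asIdeal).re ≤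
      ∑ ψ : Y, ((if (ψ : ClassGroup (𝓞 K) →* ℂˣ) = 1 then Real.log (1 / (s - 1)) else 0) + B ψ) :=
    Finset.sum_le_sum (fun ψ _ => hB ψ s hs)
  have h2 : ∑ ψ : Y, (if (ψ : ClassGroup (𝓞 K) →* ℂˣ) = 1 then Real.log (1 / (s - 1)) else 0) =
      Real.log (1 / (s - 1)) := by
    rw [Finset.sum_eq_single (1 : Y)]
    · simp
    · intro ψ _ hne
      rw [if_neg]
      intro h
      exact hne (Subtype.ext h)
    · intro h
      exact absurd (Finset.mem_univ _) h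
  rw [← key, Finset.sum_add_distrib, h2] at h1
  rw [one_div, inv_mul_eq_div, ← add_div, le_div_iff₀ hcard]
  linarith

end Pool.Agent.Work.MP_59f3ad_nt.UCF
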