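import Mathlib
import Pool.Agent.Work.MP_59f3ad_nt.UCF.Stmts

/-!
Library UCF, item D2: density of the primes that split completely.
-/

set_option autoImplicit false

open NumberField IsDedekindDomain Filter Topology
open scoped Pointwise nonZeroDivisors

namespace Pool.Agent.Work.MP_59f3ad_nt.UCF

universe u

namespace ID2

section

variable (K M : Type u) [Field K] [NumberField K] [Field M] [NumberField M] [Algebra K M]

/-- the prime below -/
noncomputable def un (P : HeightOneSpectrum (𝓞 M)) : HeightOneSpectrum (𝓞 K) where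
  asIdeal := P.asIdeal.under (𝓞 K)
  isPrime := inferInstance
  ne_bot := fun h => P.ne_bot (Ideal.eq_bot_of_comap_eq_bot (R := 𝓞 K) h)

variable {K M}

omit [NumberField K] [NumberField M] in
theorem un_lies (P : HeightOneSpectrum (𝓞 M)) : P.asIdeal.LiesOver (un K M P).asIdeal := ⟨rfl⟩

theorem un_eq_iff (P : HeightOneSpectrum (𝓞 M)) (v : HeightOneSpectrum (𝓞 K)) :
    un K M P = v ↔ P.asIdeal.LiesOver v.asIdeal := by
  constructor
  · rintro rfl
    exact un_lies P
  · intro h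
    exact HeightOneSpectrum.ext h.over.symm

/-- norms -/
theorem norm_eq (P : HeightOneSpectrum (𝓞 M)) :
    P.asIdeal.absNorm = (un K M P).asIdeal.absNorm ^ (P.asIdeal.inertiaDeg (𝓞 K)) := by
  have h1 := un_lies (K := K) P
  have h2 : (un K M P).asIdeal.IsMaximal := (un K M P).isMaximal
  have h3 : P.asIdeal.IsMaximal := P.isMaximal
  rw [Ideal.absNorm_eq_pow_inertiaDeg'_of_liesOver P.asIdeal (un K M P).asIdeal
    (un K M P).isPrime (un K M P).ne_bot, Ideal.inertiaDeg'_eq_inertiaDeg]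

theorem fib_image (v : HeightOneSpectrum (𝓞 K)) :
    HeightOneSpectrum.asIdeal '' ((un K M) ⁻¹' {v}) = v.asIdeal.primesOver (𝓞 M) := by
  ext P
  constructor
  · rintro ⟨Q, hQ, rfl⟩
    exact ⟨Q.isPrime, (un_eq_iff Q v).1 hQ⟩
  · rintro ⟨hP, hPv⟩
    have hP0 : P ≠ ⊥ := Ideal.ne_bot_of_liesOver_of_ne_bot v.ne_bot P
    exact ⟨⟨P, hP, hP0⟩, (un_eq_iff ⟨P, hP, hP0⟩ v).2 hPv, rfl⟩

theorem fib_card (v : HeightOneSpectrum (𝓞 K)) :
    Nat.card ((un K M) ⁻¹' {v}) = (v.asIdeal.primesOver (𝓞 M)).ncard := by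
  rw [← fib_image, Set.ncard_image_of_injective _ (fun P Q h => HeightOneSpectrum.ext h)]
  rfl

instance fib_fin (v : HeightOneSpectrum (𝓞 K)) : Finite ((un K M) ⁻¹' {v}) := by
  have h1 : (v.asIdeal.primesOver (𝓞 M)).Finite := by
    have := v.isPrime
    exact Algebra.QuasiFinite.finite_primesOver v.asIdeal
  rw [← fib_image] at h1
  exact (h1.of_finite_image (fun P _ Q _ h => HeightOneSpectrum.ext h)).to_subtype

theorem card_pos' (v : HeightOneSpectrum (𝓞 K)) : 1 ≤ v.asIdeal.absNorm := by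
  rw [Nat.one_le_iff_ne_zero, Ne, Ideal.absNorm_eq_zero_iff]
  exact v.ne_bot

section gal

variable [IsGalois K M]

theorem fib_le (v : HeightOneSpectrum (𝓞 K)) :
    Nat.card ((un K M) ⁻¹' {v}) ≤ Module.finrank K M := by
  have := v.isPrime
  have h1 := Ideal.ncard_primesOver_mul_ramificationIdxIn_mul_inertiaDegIn v.asIdeal (𝓞 M)
    Gal(M/K)
  rw [IsGaloisGroup.card_eq_finrank Gal(M/K) K M] at h1
  have h2 := Ideal.ramificationIdxIn_ne_zero (B := 𝓞 M) Gal(M/K) (p := v.asIdeal)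
  have h3 := Ideal.inertiaDegIn_ne_zero (B := 𝓞 M) Gal(M/K) (p := v.asIdeal)
  rw [fib_card, ← h1]
  exact Nat.le_mul_of_pos_right _ (Nat.mul_pos (Nat.pos_of_ne_zero h2) (Nat.pos_of_ne_zero h3))

theorem fib_spl (v : HeightOneSpectrum (𝓞 K)) (hv : v ∈ Spl K M) :
    Nat.card ((un K M) ⁻¹' {v}) = Module.finrank K M ∧
      ∀ P : HeightOneSpectrum (𝓞 M), un K M P = v → P.asIdeal.inertiaDeg (𝓞 K) = 1 := by
  have := v.isPrime
  obtain ⟨P, hP, hPv, he, hf⟩ := hv
  have h1 := Ideal.ncard_primesOver_mul_ramificationIdxIn_mul_inertiaDegIn v.asIdeal (𝓞 M)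
    Gal(M/K)
  rw [IsGaloisGroup.card_eq_finrank Gal(M/K) K M,
    Ideal.ramificationIdxIn_eq_ramificationIdx v.asIdeal P Gal(M/K),
    Ideal.inertiaDegIn_eq_inertiaDeg v.asIdeal P Gal(M/K), he, hf, mul_one, mul_one] at h1
  refine ⟨by rw [fib_card, h1], fun Q hQ => ?_⟩
  have hQv := (un_eq_iff Q v).1 hQ
  have := Q.isPrime
  rw [← hf]
  exact Ideal.inertiaDeg_eq_of_isGaloisGroup v.asIdeal Q.asIdeal P Gal(M/K)

end gal

theorem sum_primes (hSi : StSi.{u}) (s : ℝ) (hs : 1 < s) :
    Summable fun v : HeightOneSpectrum (𝓞 K) => (v.asIdeal.absNorm : ℝ) ^ (-s) :=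
  (hSi K s hs).comp_injective (i := HeightOneSpectrum.asIdeal)
    (fun _ _ h => HeightOneSpectrum.ext h)

end

end ID2

open ID2 in
/-- density of the primes that split completely -/
theorem pr_D2 (hP0 : StP0.{u}) (hFi : StFi.{u}) (hSi : StSi.{u}) : StD2.{u} := by
  intro K M _ _ _ _ _ _
  classical
  obtain ⟨B₂, hB₂⟩ := hP0 M
  set n : ℕ := Module.finrank K M with hn
  have hn0 : 0 < n := Module.finrank_pos
  have hn0' : (0 : ℝ) < n := by exact_mod_cast hn0
  -- the ramified primes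
  have hR := (hFi K M).image (un K M)
  set R : Set (HeightOneSpectrum (𝓞 K)) :=
    un K M '' {P : HeightOneSpectrum (𝓞 M) | P.asIdeal.ramificationIdx (𝓞 K) ≠ 1} with hRd
  set t : HeightOneSpectrum (𝓞 K) → ℝ := fun v =>
    (if v ∈ R then 1 else 0) + (v.asIdeal.absNorm : ℝ) ^ (-(2 : ℝ)) with ht
  have ht0 : ∀ v, 0 ≤ t v := fun v => by
    rw [ht]
    have h1 : (0 : ℝ) ≤ (v.asIdeal.absNorm : ℝ) ^ (-(2 : ℝ)) := by positivity
    have h2 : (0 : ℝ) ≤ (if v ∈ R then 1 else 0) := by split_ifs <;> norm_num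
    exact add_nonneg h2 h1
  have hts : Summable t := by
    refine Summable.add ?_ (sum_primes hSi 2 (by norm_num))
    refine summable_of_hasFiniteSupport (hR.subset fun v hv => ?_)
    by_contra h
    exact hv (if_neg h)
  set B₁ : ℝ := n * ∑' v, t v with hB₁
  refine ⟨(B₁ + B₂) / n, fun s hs => ?_⟩
  have hs1 : 1 < s := hs.1
  -- the sum over the primes of `M`, by fibres
  have hG := sum_primes (K := M) hSi s hs1
  have hPM : PS M Set.univ s = ∑' P : HeightOneSpectrum (𝓞 M), (P.asIdeal.absNorm : ℝ) ^ (-s) := by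
    unfold PS
    simp
  have hH := hG.hasSum.tsum_fiberwise (un K M)
  rw [← hPM] at hH
  set h : HeightOneSpectrum (𝓞 K) → ℝ := fun v =>
    ∑' P : (un K M) ⁻¹' {v}, ((P : HeightOneSpectrum (𝓞 M)).asIdeal.absNorm : ℝ) ^ (-s) with hh
  -- the split part
  have hK := sum_primes (K := K) hSi s hs1
  have hgs : Summable fun v : HeightOneSpectrum (𝓞 K) =>
      if v ∈ Spl K M then (v.asIdeal.absNorm : ℝ) ^ (-s) else 0 := by
    refine Summable.of_nonneg_of_le (fun v => ?_) (fun v => ?_) hK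
    · split_ifs
      · positivity
      · exact le_rfl
    · split_ifs
      · exact le_rfl
      · positivity
  have hgS := (hgs.hasSum).mul_left (n : ℝ)
  have hPK : PS K (Spl K M) s = ∑' v : HeightOneSpectrum (𝓞 K),
      if v ∈ Spl K M then (v.asIdeal.absNorm : ℝ) ^ (-s) else 0 := by
    unfold PS
    exact tsum_congr fun v => by congr
  rw [← hPK] at hgS
  have hd := hH.sub hgS
  -- the difference
  have hd0 : ∀ v, |h v - n * (if v ∈ Spl K M then (v.asIdeal.absNorm : ℝ) ^ (-s) else 0)| ≤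
      n * t v := by
    intro v
    by_cases hv : v ∈ Spl K M
    · obtain ⟨h1, h2⟩ := fib_spl v hv
      have h3 : h v = n * (v.asIdeal.absNorm : ℝ) ^ (-s) := by
        have h4 : ∀ P : (un K M) ⁻¹' {v},
            ((P : HeightOneSpectrum (𝓞 M)).asIdeal.absNorm : ℝ) ^ (-s) =
              (v.asIdeal.absNorm : ℝ) ^ (-s) := by
          rintro ⟨P, hP⟩
          have hP' : un K M P = v := hP
          rw [norm_eq (K := K) P, h2 P hP', pow_one, hP']
        exact (tsum_congr h4).trans (by rw [tsum_const, h1, nsmul_eq_mul])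
      rw [if_pos hv, h3, sub_self, abs_zero]
      exact mul_nonneg hn0'.le (ht0 v)
    · rw [if_neg hv, mul_zero, sub_zero]
      have h4 : ∀ P : (un K M) ⁻¹' {v},
          ((P : HeightOneSpectrum (𝓞 M)).asIdeal.absNorm : ℝ) ^ (-s) ≤ t v := by
        rintro ⟨P, hP⟩
        have hP' : un K M P = v := hP
        have hPv := (un_eq_iff P v).1 hP'
        have hN1 : (1 : ℝ) ≤ (v.asIdeal.absNorm : ℝ) := by exact_mod_cast card_pos' v
        have hN2 : (1 : ℝ) ≤ (P.asIdeal.absNorm : ℝ) := by exact_mod_cast card_pos' P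
        by_cases he : P.asIdeal.ramificationIdx (𝓞 K) = 1
        · have hf : P.asIdeal.inertiaDeg (𝓞 K) ≠ 1 := fun hf => hv ⟨P.asIdeal, P.isPrime, hPv, he, hf⟩
          have hf1 : 0 < P.asIdeal.inertiaDeg (𝓞 K) := by
            have := P.isPrime
            exact P.asIdeal.inertiaDeg_pos (𝓞 K)
          have hf2 : 2 ≤ P.asIdeal.inertiaDeg (𝓞 K) := by omega
          have h5 : ((P.asIdeal.absNorm : ℕ) : ℝ) ^ (-s) ≤ (v.asIdeal.absNorm : ℝ) ^ (-(2 : ℝ)) := by
            have h6 : (P.asIdeal.absNorm : ℝ) =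
                (v.asIdeal.absNorm : ℝ) ^ ((P.asIdeal.inertiaDeg (𝓞 K) : ℕ) : ℝ) := by
              rw [Real.rpow_natCast, norm_eq (K := K) P, hP']
              push_cast
              rfl
            rw [h6, ← Real.rpow_mul (by linarith)]
            refine Real.rpow_le_rpow_of_exponent_le hN1 ?_
            have h7 : (2 : ℝ) ≤ (P.asIdeal.inertiaDeg (𝓞 K) : ℝ) := by exact_mod_cast hf2
            nlinarith
          have h8 : (0 : ℝ) ≤ (if v ∈ R then 1 else 0) := by split_ifs <;> norm_num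
          change ((P.asIdeal.absNorm : ℕ) : ℝ) ^ (-s) ≤ _
          rw [ht]
          linarith
        · have hvR : v ∈ R := ⟨P, he, hP'⟩
          change ((P.asIdeal.absNorm : ℕ) : ℝ) ^ (-s) ≤ _
          rw [ht]
          simp only [if_pos hvR]
          have h5 : ((P.asIdeal.absNorm : ℕ) : ℝ) ^ (-s) ≤ 1 :=
            Real.rpow_le_one_of_one_le_of_nonpos hN2 (by linarith)
          have h6 : (0 : ℝ) ≤ (v.asIdeal.absNorm : ℝ) ^ (-(2 : ℝ)) := by positivity
          linarith
      have h5 : 0 ≤ h v := tsum_nonneg fun P => by positivity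
      rw [abs_of_nonneg h5]
      have := Fintype.ofFinite ((un K M) ⁻¹' {v})
      have h6 : h v ≤ ∑' _ : (un K M) ⁻¹' {v}, t v :=
        Summable.tsum_le_tsum h4 (hasSum_fintype _).summable (hasSum_fintype _).summable
      rw [tsum_const, nsmul_eq_mul] at h6
      refine h6.trans (mul_le_mul_of_nonneg_right ?_ (ht0 v))
      exact_mod_cast fib_le v
  have h1 : |PS M Set.univ s - n * PS K (Spl K M) s| ≤ B₁ := by
    rw [← hd.tsum_eq]
    have h2 : Summable fun v => (n : ℝ) * t v := hts.mul_left _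
    have h3 := tsum_of_norm_bounded (f := fun v => h v -
      n * (if v ∈ Spl K M then (v.asIdeal.absNorm : ℝ) ^ (-s) else 0)) h2.hasSum hd0
    rw [Real.norm_eq_abs] at h3
    rw [hB₁, ← tsum_mul_left]
    exact h3
  have h2 := hB₂ s hs
  have h3 : PS K (Spl K M) s - 1 / (n : ℝ) * Real.log (1 / (s - 1)) =
      -((PS M Set.univ s - n * PS K (Spl K M) s) - (PS M Set.univ s - Real.log (1 / (s - 1)))) / n := by
    field_simp
    ring
  rw [h3, abs_div, abs_neg, abs_of_pos hn0']
  refine div_le_div_of_nonneg_right ?_ hn0'.le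
  exact (abs_sub _ _).trans (add_le_add h1 h2)

end Pool.Agent.Work.MP_59f3ad_nt.UCF
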