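import Mathlib
import Pool.Agent.Work.MP_59f3ad_nt.UCF.Stmts

set_option autoImplicit false

/-!
Item Ep of the library UCF: Euler product over the primes of a Dedekind domain.
-/

open NumberField IsDedekindDomain Filter Topology
open scoped Pointwise nonZeroDivisors

namespace Pool.Agent.Work.MP_59f3ad_nt.UCF

universe u

namespace IEp

variable {R : Type u} [CommRing R] [IsDedekindDomain R]

/-- the ideals all whose prime factors are in `F` -/
def SF (F : Finset (HeightOneSpectrum R)) : Set (Ideal R) :=
  {I | I ≠ ⊥ ∧ ∀ w : HeightOneSpectrum R, I ≤ w.asIdeal → w ∈ F}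

omit [IsDedekindDomain R] in
theorem ne_top (v : HeightOneSpectrum R) : v.asIdeal ≠ ⊤ := v.isPrime.ne_top

theorem le_iff (v w : HeightOneSpectrum R) (h : v.asIdeal ≤ w.asIdeal) : w = v := by
  have := v.isMaximal.eq_of_le w.isPrime.ne_top h
  exact HeightOneSpectrum.ext this.symm

theorem norm_lt_one (f : Ideal R →*₀ ℂ) (hf : Summable (fun I : Ideal R => ‖f I‖))
    (v : HeightOneSpectrum R) : ‖f v.asIdeal‖ < 1 := by
  have h1 : Function.Injective (fun k : ℕ => v.asIdeal ^ k) :=
    (Ideal.pow_right_strictAnti v.asIdeal v.ne_bot (ne_top v)).injective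
  have h2 := hf.comp_injective h1
  have h3 : Summable (fun k : ℕ => ‖f v.asIdeal‖ ^ k) := by
    refine h2.congr fun k => ?_
    simp only [Function.comp, map_pow, norm_pow]
  have h4 := summable_geometric_iff_norm_lt_one.1 h3
  simpa using h4

theorem empty (f : Ideal R →*₀ ℂ) :
    HasSum ((SF (∅ : Finset (HeightOneSpectrum R))).indicator f) 1 := by
  have h1 : (SF (∅ : Finset (HeightOneSpectrum R))).indicator f (⊤ : Ideal R) = 1 := by
    rw [Set.indicator_of_mem]
    · rw [← Ideal.one_eq_top, map_one]
    · refine ⟨bot_ne_top.symm, fun w hw => ?_⟩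
      exact absurd (top_le_iff.1 hw) (ne_top w)
  rw [← h1]
  apply hasSum_single
  intro I hI
  rw [Set.indicator_of_notMem]
  rintro ⟨hb, hall⟩
  obtain ⟨m, hm, hIm⟩ := Ideal.exists_le_maximal I hI
  have hm0 : m ≠ ⊥ := by
    rintro rfl
    exact hb (le_bot_iff.1 hIm)
  have := hall ⟨m, hm.isPrime, hm0⟩ hIm
  simp at this

theorem step (f : Ideal R →*₀ ℂ) (hf : Summable (fun I : Ideal R => ‖f I‖))
    (v : HeightOneSpectrum R) (F : Finset (HeightOneSpectrum R)) (hv : v ∉ F) (P : ℂ)
    [DecidableEq (HeightOneSpectrum R)]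
    (hP : HasSum ((SF F).indicator f) P) :
    HasSum ((SF (insert v F)).indicator f) ((1 - f v.asIdeal)⁻¹ * P) := by
  have hlt := norm_lt_one f hf v
  have hg := hasSum_geometric_of_norm_lt_one hlt
  have hgn : Summable (fun k : ℕ => ‖f v.asIdeal ^ k‖) := by
    simp only [norm_pow]
    exact summable_geometric_of_lt_one (norm_nonneg _) hlt
  have hPn : Summable (fun I : Ideal R => ‖(SF F).indicator f I‖) := by
    refine hf.of_nonneg_of_le (fun I => norm_nonneg _) (fun I => ?_)
    exact norm_indicator_le_norm_self _ _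
  have hprod : HasSum (fun p : ℕ × Ideal R => f v.asIdeal ^ p.1 * (SF F).indicator f p.2)
      ((1 - f v.asIdeal)⁻¹ * P) := by
    have h1 := summable_mul_of_summable_norm hgn hPn
    exact hg.mul hP h1
  have hnd : ∀ I ∈ SF F, ¬ I ≤ v.asIdeal := fun I hI h => hv (hI.2 v h)
  have hv0 : v.asIdeal ≠ 0 := v.ne_bot
  refine (hasSum_iff_hasSum_of_ne_zero_bij (g := fun p : ℕ × Ideal R =>
    f v.asIdeal ^ p.1 * (SF F).indicator f p.2) (fun x => v.asIdeal ^ x.1.1 * x.1.2) ?_ ?_ ?_).2 hprod
  · rintro ⟨⟨k, I⟩, hx⟩ ⟨⟨l, J⟩, hy⟩ h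
    have hI : I ∈ SF F := by
      by_contra hc
      apply hx
      simp only
      rw [Set.indicator_of_notMem hc, mul_zero]
    have hJ : J ∈ SF F := by
      by_contra hc
      apply hy
      simp only
      rw [Set.indicator_of_notMem hc, mul_zero]
    simp only at h
    have key : ∀ (k l : ℕ) (I J : Ideal R), I ∈ SF F → v.asIdeal ^ k * I = v.asIdeal ^ l * J → l ≤ k := by
      intro k l I J hI h
      by_contra hkl
      rw [not_le] at hkl
      obtain ⟨m, rfl⟩ := Nat.exists_eq_add_of_lt hkl
      rw [show k + m + 1 = k + (m + 1) by ring, pow_add, mul_assoc] at h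
      have h2 := mul_left_cancel₀ (pow_ne_zero _ hv0) h
      apply hnd I hI
      rw [h2, pow_succ', mul_assoc]
      exact Ideal.mul_le_left
    have hkl : k = l := le_antisymm (key l k J I hJ h.symm) (key k l I J hI h)
    subst hkl
    have h2 := mul_left_cancel₀ (pow_ne_zero _ hv0) h
    subst h2
    rfl
  · intro I hI
    have hIS : I ∈ SF (insert v F) := by
      by_contra hc
      apply hI
      rw [Set.indicator_of_notMem hc]
    have hfI : f I ≠ 0 := by
      intro hc
      apply hI
      rw [Set.indicator_of_mem hIS, hc]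
    have hfm : FiniteMultiplicity v.asIdeal I := by
      refine FiniteMultiplicity.of_not_isUnit ?_ hIS.1
      rw [Ideal.isUnit_iff]
      exact ne_top v
    obtain ⟨J, hJ, hJv⟩ := hfm.exists_eq_pow_mul_and_not_dvd
    set k := multiplicity v.asIdeal I with hk
    have hJS : J ∈ SF F := by
      refine ⟨?_, fun w hw => ?_⟩
      · rintro rfl
        apply hIS.1
        rw [hJ]
        exact mul_zero _
      · have h1 : I ≤ w.asIdeal := by
          rw [hJ]
          exact Ideal.mul_le_right.trans hw
        rcases Finset.mem_insert.1 (hIS.2 w h1) with h2 | h2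
        · exfalso
          apply hJv
          rw [Ideal.dvd_iff_le, ← h2]
          exact hw
        · exact h2
    refine ⟨⟨(k, J), ?_⟩, hJ.symm⟩
    rw [Function.mem_support]
    simp only
    rw [Set.indicator_of_mem hJS, ← map_pow, ← map_mul, ← hJ]
    exact hfI
  · rintro ⟨⟨k, I⟩, hx⟩
    have hI : I ∈ SF F := by
      by_contra hc
      apply hx
      simp only
      rw [Set.indicator_of_notMem hc, mul_zero]
    simp only
    rw [Set.indicator_of_mem hI, Set.indicator_of_mem, map_mul, map_pow]
    refine ⟨mul_ne_zero (pow_ne_zero _ hv0) hI.1, fun w hw => ?_⟩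
    rw [Finset.mem_insert]
    rcases (Ideal.IsPrime.mul_le w.isPrime).1 hw with h1 | h1
    · left
      have h2 : v.asIdeal ≤ w.asIdeal := by
        haveI := w.isPrime
        exact Ideal.IsPrime.le_of_pow_le h1
      exact le_iff v w h2
    · right
      exact hI.2 w h1

theorem fin (f : Ideal R →*₀ ℂ) (hf : Summable (fun I : Ideal R => ‖f I‖))
    (F : Finset (HeightOneSpectrum R)) :
    HasSum ((SF F).indicator f) (∏ v ∈ F, (1 - f v.asIdeal)⁻¹) := by
  classical
  induction F using Finset.induction_on with
  | empty => simpa using empty f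
  | insert v F hv ih =>
    rw [Finset.prod_insert hv]
    exact step f hf v F hv _ ih

end IEp

open IEp in
theorem pr_Ep : StEp.{u} := by
  intro R _ _ f hf
  have h1 : (fun F : Finset (HeightOneSpectrum R) => ∏ v ∈ F, (1 - f v.asIdeal)⁻¹) =
      fun F => ∑' I : Ideal R, (SF F).indicator f I := by
    funext F
    exact (fin f hf F).tsum_eq.symm
  rw [h1]
  refine tendsto_tsum_of_dominated_convergence hf ?_ ?_
  · intro I
    by_cases hI : I = ⊥
    · have h2 : ∀ F : Finset (HeightOneSpectrum R), (SF F).indicator f I = f I := by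
        intro F
        rw [Set.indicator_of_notMem]
        · rw [hI]
          exact (map_zero f).symm
        · intro hc
          exact hc.1 hI
      simp only [h2]
      exact tendsto_const_nhds
    · have hfin := Ideal.finite_factors (I := I) hI
      refine tendsto_const_nhds.congr' ?_
      filter_upwards [eventually_ge_atTop hfin.toFinset] with F hF
      rw [Set.indicator_of_mem]
      refine ⟨hI, fun w hw => hF ?_⟩
      rw [Set.Finite.mem_toFinset]
      exact Ideal.dvd_iff_le.2 hw
  · filter_upwards with F I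
    exact norm_indicator_le_norm_self _ _

end Pool.Agent.Work.MP_59f3ad_nt.UCF
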