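import Mathlib
import Pool.Agent.Work.MP_59f3ad_nt.UCF.Stmts

/-! Library UCF, item Fi: only finitely many primes are ramified. -/

set_option autoImplicit false

open NumberField IsDedekindDomain Filter Topology
open scoped Pointwise nonZeroDivisors

namespace Pool.Agent.Work.MP_59f3ad_nt.UCF

universe u

theorem pr_Fi : StFi.{u} := by
  intro K M _ _ _ _ _
  refine Set.Finite.subset (Ideal.finite_factors
    (differentIdeal_ne_bot (A := 𝓞 K) (B := 𝓞 M))) ?_
  intro P hP
  have hPr : P.asIdeal.IsPrime := P.isPrime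
  by_contra hnd
  have hun : Algebra.IsUnramifiedAt (𝓞 K) P.asIdeal := not_dvd_differentIdeal_iff.1 hnd
  exact hP Ideal.ramificationIdx_eq_one_of_isUnramifiedAt

end Pool.Agent.Work.MP_59f3ad_nt.UCF
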