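import Mathlib
import Pool.Agent.Work.MP_59f3ad_nt.UCF.Stmts

/-!
Item Fr of the library UCF: primes inert in a quadratic extension `K/F` split completely in an
extension `M/K` of odd degree which is dihedral over `F` in the generalised sense.
-/

open NumberField IsDedekindDomain
open scoped Pointwise

namespace Pool.Agent.Work.MP_59f3ad_nt.UCF

universe u

namespace IFr

/-- The decomposition group of an unramified prime is commutative. -/
theorem stab_comm {F M : Type u} [Field F] [NumberField F] [Field M] [NumberField M] [Algebra F M]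
    [IsGalois F M] (q : Ideal (𝓞 F)) [hq : q.IsPrime] (hq0 : q ≠ ⊥) (P : Ideal (𝓞 M))
    [hP : P.IsPrime] [hPq : P.LiesOver q] (he : P.ramificationIdx (𝓞 F) = 1)
    (a b : Gal(M/F)) (ha : a • P = P) (hb : b • P = P) : a * b = b * a := by
  have hqm : q.IsMaximal := hq.isMaximal hq0
  have hP0 : P ≠ ⊥ := Ideal.ne_bot_of_liesOver_of_ne_bot hq0 P
  have hPm : P.IsMaximal := hP.isMaximal hP0
  have hfinP : Finite (𝓞 M ⧸ P) := Ideal.finiteQuotientOfFreeOfNeBot P hP0
  have hI : Nat.card (P.inertia Gal(M/F)) = 1 := by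
    rw [Ideal.card_inertia_eq_ramificationIdxIn (G := Gal(M/F)) q P,
      Ideal.ramificationIdxIn_eq_ramificationIdx q P Gal(M/F), he]
  let _ : Field (𝓞 F ⧸ q) := Ideal.Quotient.field q
  let _ : Field (𝓞 M ⧸ P) := Ideal.Quotient.field P
  let f := Ideal.Quotient.stabilizerHom P q Gal(M/F)
  let a' : MulAction.stabilizer Gal(M/F) P := ⟨a, ha⟩
  let b' : MulAction.stabilizer Gal(M/F) P := ⟨b, hb⟩
  have hcyc : IsCyclic (Gal((𝓞 M ⧸ P)/(𝓞 F ⧸ q))) := inferInstance
  have hcomm : f a' * f b' = f b' * f a' := by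
    obtain ⟨g, hg⟩ := hcyc.exists_generator
    obtain ⟨m, hm⟩ := Subgroup.mem_zpowers_iff.mp (hg (f a'))
    obtain ⟨n, hn⟩ := Subgroup.mem_zpowers_iff.mp (hg (f b'))
    rw [← hm, ← hn, ← zpow_add, ← zpow_add, add_comm]
  have hmem : a' * b' * (b' * a')⁻¹ ∈ f.ker := by
    rw [MonoidHom.mem_ker, map_mul, map_inv, map_mul, map_mul, hcomm, mul_inv_cancel]
  have h1 : a * b * (b * a)⁻¹ ∈ P.inertia Gal(M/F) := by
    rw [← Ideal.Quotient.map_ker_stabilizer_subtype P q Gal(M/F)]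
    exact ⟨_, hmem, rfl⟩
  have h2 : a * b * (b * a)⁻¹ = 1 := by
    have h3 : Subsingleton (P.inertia Gal(M/F)) := (Nat.card_eq_one_iff_unique.mp hI).1
    have h4 := Subsingleton.elim (⟨_, h1⟩ : P.inertia Gal(M/F)) 1
    exact congrArg Subtype.val h4
  exact mul_inv_eq_one.mp h2

end IFr

theorem pr_Fr : StFr.{u} := by
  intro F K M _ _ _ _ _ _ _ _ _ _ _ _ hFK hodd hinv hU q v hvq he hf
  have hv := v.isPrime
  have hq := q.isPrime
  have hvm : v.asIdeal.IsMaximal := v.isMaximal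
  obtain ⟨P, hPm, hPv⟩ : ∃ P : Ideal (𝓞 M), P.IsMaximal ∧ P.LiesOver v.asIdeal :=
    Ideal.exists_maximal_ideal_liesOver_of_isIntegral v.asIdeal
  have hPp : P.IsPrime := hPm.isPrime
  have hP0 : P ≠ ⊥ := Ideal.ne_bot_of_liesOver_of_ne_bot v.ne_bot P
  have hPq : P.LiesOver q.asIdeal := Ideal.LiesOver.trans P v.asIdeal q.asIdeal
  have heP : P.ramificationIdx (𝓞 K) = 1 := hU P hPp hP0
  have heq : P.ramificationIdx (𝓞 F) = 1 := by
    rw [Ideal.ramificationIdx_tower v.asIdeal P, he, heP]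
  have hfq : P.inertiaDeg (𝓞 F) = 2 * P.inertiaDeg (𝓞 K) := by
    rw [Ideal.inertiaDeg_tower v.asIdeal P, hf]
  refine ⟨P, hPp, hPv, heP, ?_⟩
  -- an element of the decomposition group which moves `K`
  have hcardD : Nat.card (MulAction.stabilizer Gal(M/F) P) = 2 * P.inertiaDeg (𝓞 K) := by
    rw [Ideal.card_stabilizer_eq (G := Gal(M/F)) q.asIdeal P,
      Ideal.ramificationIdxIn_eq_ramificationIdx q.asIdeal P Gal(M/F),
      Ideal.inertiaDegIn_eq_inertiaDeg q.asIdeal P Gal(M/F), heq, hfq, one_mul]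
  have hcardE : Nat.card (MulAction.stabilizer Gal(M/K) P) = P.inertiaDeg (𝓞 K) := by
    rw [Ideal.card_stabilizer_eq (G := Gal(M/K)) v.asIdeal P,
      Ideal.ramificationIdxIn_eq_ramificationIdx v.asIdeal P Gal(M/K),
      Ideal.inertiaDegIn_eq_inertiaDeg v.asIdeal P Gal(M/K), heP, one_mul]
  have hpos : 0 < P.inertiaDeg (𝓞 K) := P.inertiaDeg_pos (𝓞 K)
  obtain ⟨τ, hτ, x, hx⟩ : ∃ τ : Gal(M/F), τ • P = P ∧
      ∃ x : K, τ (algebraMap K M x) ≠ algebraMap K M x := by
    by_contra hcon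
    push Not at hcon
    let φ : MulAction.stabilizer Gal(M/F) P → MulAction.stabilizer Gal(M/K) P := fun τ =>
      ⟨AlgEquiv.ofRingEquiv (f := (τ.1 : M ≃+* M)) (fun x => hcon τ.1 τ.2 x), by
        rw [MulAction.mem_stabilizer_iff]
        conv_rhs => rw [← τ.2]
        rfl⟩
    have hφ : Function.Injective φ := by
      intro s t hst
      apply Subtype.ext
      ext y
      have := congrArg (fun z => z.1 y) hst
      exact this
    have := Nat.card_le_card_of_injective φ hφ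
    rw [hcardD, hcardE] at this
    omega
  have htriv : ∀ σ : Gal(M/K), σ • P = P → σ = 1 := by
    intro σ hσ
    have hσ' : (σ.restrictScalars F) • P = P := hσ
    have hc := IFr.stab_comm q.asIdeal q.ne_bot P heq τ (σ.restrictScalars F) hτ hσ'
    have h2 : ∀ y : M, σ y = σ⁻¹ y := by
      intro y
      rw [← hinv τ σ ⟨x, hx⟩ y]
      have h3 := DFunLike.congr_fun hc (τ⁻¹ y)
      have h4 : τ (σ (τ⁻¹ y)) = σ (τ (τ⁻¹ y)) := h3
      rw [h4]
      have h5 : τ (τ⁻¹ y) = y := by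
        rw [← AlgEquiv.mul_apply, mul_inv_cancel]
        rfl
      rw [h5]
    have h3 : σ ^ 2 = 1 := by
      have h4 : σ = σ⁻¹ := AlgEquiv.ext h2
      rw [pow_two]
      nth_rewrite 2 [h4]
      exact mul_inv_cancel σ
    have h4 : orderOf σ ∣ 2 := orderOf_dvd_of_pow_eq_one h3
    have h5 : orderOf σ ∣ Module.finrank K M := by
      rw [← IsGalois.card_aut_eq_finrank K M]
      exact orderOf_dvd_natCard σ
    have h6 : Odd (orderOf σ) := hodd.of_dvd_nat h5
    rcases (Nat.dvd_prime Nat.prime_two).mp h4 with h | h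
    · exact orderOf_eq_one_iff.mp h
    · rw [h] at h6
      exact absurd h6 (by decide)
  rw [← hcardE]
  refine Nat.card_eq_one_iff_unique.mpr ⟨⟨fun s t => ?_⟩, ⟨1⟩⟩
  apply Subtype.ext
  rw [htriv s.1 s.2, htriv t.1 t.2]

end Pool.Agent.Work.MP_59f3ad_nt.UCF
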