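import Mathlib
import Pool.Agent.Work.MP_59f3ad_nt.UCF.Stmts

/-!
Library UCF, item Hi: Herbrand quotients and subgroups of finite index.
-/

set_option autoImplicit false

open NumberField IsDedekindDomain
open scoped Pointwise nonZeroDivisors

namespace Pool.Agent.Work.MP_59f3ad_nt.UCF

universe u

namespace IHi

variable {E : Type u} [AddCommGroup E]

theorem pow_restr {τ : AddMonoid.End E} {R : AddSubgroup E} {ρ : AddMonoid.End R}
    (h : ∀ x : R, ((ρ x : R) : E) = τ (x : E)) (i : ℕ) (x : R) :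
    (((ρ ^ i) x : R) : E) = (τ ^ i) (x : E) := by
  induction i generalizing x with
  | zero => rfl
  | succ i ih =>
    have h1 : (ρ ^ (i + 1)) x = (ρ ^ i) (ρ x) := by
      rw [pow_succ]
      rfl
    have h2 : (τ ^ (i + 1)) (x : E) = (τ ^ i) (τ x) := by
      rw [pow_succ]
      rfl
    rw [h1, h2, ih, h]

theorem dd_restr {τ : AddMonoid.End E} {R : AddSubgroup E} {ρ : AddMonoid.End R}
    (h : ∀ x : R, ((ρ x : R) : E) = τ (x : E)) (x : R) :
    (((dd ρ) x : R) : E) = (dd τ) (x : E) := by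
  have h1 : (dd ρ) x = x - ρ x := rfl
  have h2 : (dd τ) (x : E) = (x : E) - τ x := rfl
  rw [h1, h2, AddSubgroup.coe_sub, h]

theorem nn_restr {τ : AddMonoid.End E} {R : AddSubgroup E} {ρ : AddMonoid.End R}
    (h : ∀ x : R, ((ρ x : R) : E) = τ (x : E)) (n : ℕ) (x : R) :
    (((nn n ρ) x : R) : E) = (nn n τ) (x : E) := by
  induction n with
  | zero => rfl
  | succ n ih =>
    have h1 : nn (n + 1) ρ = nn n ρ + ρ ^ n := Finset.sum_range_succ _ _
    have h2 : nn (n + 1) τ = nn n τ + τ ^ n := Finset.sum_range_succ _ _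
    have h3 : (nn n ρ + ρ ^ n) x = (nn n ρ) x + (ρ ^ n) x := rfl
    have h4 : (nn n τ + τ ^ n) (x : E) = (nn n τ) (x : E) + (τ ^ n) (x : E) := rfl
    rw [h1, h2, h3, h4, AddSubgroup.coe_add, ih, pow_restr h]

theorem map_range {f : E →+ E} {R : AddSubgroup E} {f' : R →+ R}
    (h : ∀ x : R, ((f' x : R) : E) = f (x : E)) :
    (AddMonoidHom.range f').map R.subtype = R.map f := by
  ext y
  constructor
  · rintro ⟨z, ⟨x, rfl⟩, rfl⟩
    exact ⟨x, x.2, (h x).symm⟩
  · rintro ⟨x, hx, rfl⟩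
    exact ⟨f' ⟨x, hx⟩, ⟨⟨x, hx⟩, rfl⟩, h ⟨x, hx⟩⟩

theorem map_ker {f : E →+ E} {R : AddSubgroup E} {f' : R →+ R}
    (h : ∀ x : R, ((f' x : R) : E) = f (x : E)) :
    (AddMonoidHom.ker f').map R.subtype = AddMonoidHom.ker f ⊓ R := by
  ext y
  constructor
  · rintro ⟨x, hx, rfl⟩
    refine ⟨?_, x.2⟩
    have h1 : f' x = 0 := hx
    have h2 : f (x : E) = 0 := by
      rw [← h, h1]
      rfl
    exact h2
  · rintro ⟨h1, h2⟩
    refine ⟨⟨y, h2⟩, ?_, rfl⟩
    have h3 : f y = 0 := h1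
    have h4 : f' ⟨y, h2⟩ = 0 := by
      refine Subtype.ext ?_
      rw [h]
      exact h3
    exact h4

theorem restr {f g : E →+ E} {R : AddSubgroup E} {f' g' : R →+ R}
    (hf : ∀ x : R, ((f' x : R) : E) = f (x : E)) (hg : ∀ x : R, ((g' x : R) : E) = g (x : E)) :
    (AddMonoidHom.range f').relIndex (AddMonoidHom.ker g') =
      (R.map f).relIndex (AddMonoidHom.ker g ⊓ R) := by
  rw [← map_range hf, ← map_ker hg]
  exact (AddSubgroup.relIndex_map_map_of_injective _ _ R.subtype_injective).symm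

theorem idx (f : E →+ E) (R : AddSubgroup E) :
    (R.map f).relIndex (AddMonoidHom.range f) * R.relIndex (AddMonoidHom.ker f) = R.index := by
  have h1 : (R.map f).relIndex (AddMonoidHom.range f) = (R ⊔ AddMonoidHom.ker f).index := by
    rw [AddMonoidHom.range_eq_map, AddSubgroup.relIndex_map_map, top_sup_eq,
      AddSubgroup.relIndex_top_right]
  have h2 : R.relIndex (AddMonoidHom.ker f) = R.relIndex (R ⊔ AddMonoidHom.ker f) := by
    rw [AddSubgroup.relIndex_sup_left]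
  rw [h1, h2, mul_comm, AddSubgroup.relIndex_mul_index le_sup_left]

theorem main {f g : E →+ E} (hgf : ∀ x, g (f x) = 0) {R : AddSubgroup E} {f' g' : R →+ R}
    (hf : ∀ x : R, ((f' x : R) : E) = f (x : E)) (hg : ∀ x : R, ((g' x : R) : E) = g (x : E)) :
    (AddMonoidHom.range f).relIndex (AddMonoidHom.ker g) *
        (R.map f).relIndex (AddMonoidHom.range f) =
      R.relIndex (AddMonoidHom.ker g) *
        (AddMonoidHom.range f').relIndex (AddMonoidHom.ker g') := by
  have hle1 : AddMonoidHom.range f ≤ AddMonoidHom.ker g := by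
    rintro _ ⟨x, rfl⟩
    exact hgf x
  have hle2 : R.map f ≤ AddMonoidHom.range f := by
    rintro _ ⟨x, _, rfl⟩
    exact ⟨x, rfl⟩
  have hle3 : R.map f ≤ AddMonoidHom.ker g ⊓ R := by
    refine le_inf (hle2.trans hle1) ?_
    rintro _ ⟨x, hx, rfl⟩
    have h1 : f x = ((f' ⟨x, hx⟩ : R) : E) := (hf ⟨x, hx⟩).symm
    rw [h1]
    exact (f' ⟨x, hx⟩).2
  rw [restr hf hg, mul_comm, AddSubgroup.relIndex_mul_relIndex _ _ _ hle2 hle1, mul_comm,
    ← AddSubgroup.inf_relIndex_left (AddMonoidHom.ker g) R,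
    AddSubgroup.relIndex_mul_relIndex _ _ _ hle3 inf_le_left]

theorem arith {a b c d a' b' c' d' i : ℕ} (h1 : a * b = c * d) (h2 : a' * b' = c' * d')
    (h3 : b * c' = i) (h4 : b' * c = i) (hi : i ≠ 0) (hd' : d' ≠ 0) :
    a * d' = a' * d ∧ a' ≠ 0 := by
  have hb : b ≠ 0 := by
    rintro rfl
    exact hi (by rw [← h3, zero_mul])
  have hb' : b' ≠ 0 := by
    rintro rfl
    exact hi (by rw [← h4, zero_mul])
  have hc' : c' ≠ 0 := by
    rintro rfl
    exact hi (by rw [← h3, mul_zero])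
  constructor
  · have h5 : (a * d') * (b * b') = (a' * d) * (b * b') := by
      calc (a * d') * (b * b') = (a * b) * (d' * b') := by ring
        _ = (c * d) * (d' * b') := by rw [h1]
        _ = (b' * c) * (d * d') := by ring
        _ = (b * c') * (d * d') := by rw [h3, h4]
        _ = (c' * d') * (d * b) := by ring
        _ = (a' * b') * (d * b) := by rw [h2]
        _ = (a' * d) * (b * b') := by ring
    exact Nat.eq_of_mul_eq_mul_right (Nat.pos_of_ne_zero (mul_ne_zero hb hb')) h5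
  · rintro rfl
    rw [zero_mul] at h2
    exact mul_ne_zero hc' hd' h2.symm

end IHi

theorem pr_Hi : StHi.{u} := by
  intro E _ n τ _ hτ R ρ hρ hR h0 _
  have hd : ∀ x : R, (((dd ρ : R →+ R) x : R) : E) = (dd τ : E →+ E) (x : E) := IHi.dd_restr hρ
  have hn : ∀ x : R, (((nn n ρ : R →+ R) x : R) : E) = (nn n τ : E →+ E) (x : E) :=
    IHi.nn_restr hρ n
  have e1 : nn n τ * dd τ = 0 := by
    unfold nn dd
    rw [geom_sum_mul_neg, hτ, sub_self]
  have e2 : dd τ * nn n τ = 0 := by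
    unfold nn dd
    rw [mul_neg_geom_sum, hτ, sub_self]
  have f1 : ∀ x : E, (nn n τ : E →+ E) ((dd τ : E →+ E) x) = 0 := fun x =>
    DFunLike.congr_fun e1 x
  have f2 : ∀ x : E, (dd τ : E →+ E) ((nn n τ : E →+ E) x) = 0 := fun x =>
    DFunLike.congr_fun e2 x
  exact IHi.arith (IHi.main f1 hd hn) (IHi.main f2 hn hd) (IHi.idx _ R) (IHi.idx _ R) hR h0

end Pool.Agent.Work.MP_59f3ad_nt.UCF
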