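import Mathlib
import Pool.Agent.Work.MP_59f3ad_nt.UCF.Stmts

/-!
Item Hk of the library UCF: quotient of a cohomologically trivial module by a trivial `ℤ`.
-/

open NumberField IsDedekindDomain Filter Topology
open scoped Pointwise nonZeroDivisors

namespace Pool.Agent.Work.MP_59f3ad_nt.UCF

universe u

namespace IHk

variable {A : Type u} [AddCommGroup A]

theorem dd_apply (σ : AddMonoid.End A) (x : A) : dd σ x = x - σ x := rfl

theorem nn_apply (n : ℕ) (σ : AddMonoid.End A) (x : A) :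
    nn n σ x = ∑ i ∈ Finset.range n, (σ ^ i) x := by
  unfold nn
  induction n with
  | zero => rfl
  | succ n ih =>
    rw [Finset.sum_range_succ, Finset.sum_range_succ, ← ih]
    rfl

theorem nn_fix (n : ℕ) (σ : AddMonoid.End A) (x : A) (hx : σ x = x) : nn n σ x = n • x := by
  have h : ∀ i : ℕ, (σ ^ i) x = x := by
    intro i
    induction i with
    | zero => rfl
    | succ i ih =>
      rw [pow_succ]
      change (σ ^ i) (σ x) = x
      rw [hx, ih]
  rw [nn_apply]
  simp [h]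

theorem nn_dd (n : ℕ) (σ : AddMonoid.End A) (hσ : σ ^ n = 1) (x : A) : nn n σ (dd σ x) = 0 := by
  have h : nn n σ * dd σ = 0 := by
    unfold nn dd
    rw [geom_sum_mul_neg, hσ, sub_self]
  have h2 : (nn n σ * dd σ) x = 0 := by
    rw [h]
    rfl
  exact h2

/-- first part, in elements -/
theorem h0_one (n : ℕ) (σ : AddMonoid.End A) : h0 n σ = 1 ↔ ∀ x, dd σ x = 0 → ∃ y, nn n σ y = x := by
  unfold h0
  rw [AddSubgroup.relIndex_eq_one]
  rfl

theorem h1_one (n : ℕ) (σ : AddMonoid.End A) : h1 n σ = 1 ↔ ∀ x, nn n σ x = 0 → ∃ y, dd σ y = x := by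
  unfold h1
  rw [AddSubgroup.relIndex_eq_one]
  rfl

end IHk

open IHk in
theorem pr_Hk : StHk.{u} := by
  intro P R _ _ n σ ρ Φ hn hσ hρ hΦ hsurj hx0 hh0 hh1
  obtain ⟨x₀, hker, hfree, hfix⟩ := hx0
  rw [h0_one] at hh0 ⊢
  rw [h1_one] at hh1
  have hΦi : ∀ (i : ℕ) (x : P), Φ ((σ ^ i) x) = (ρ ^ i) (Φ x) := by
    intro i
    induction i with
    | zero => intro x; rfl
    | succ i ih =>
      intro x
      rw [pow_succ, pow_succ]
      change Φ ((σ ^ i) (σ x)) = (ρ ^ i) (ρ (Φ x))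
      rw [ih, hΦ]
  have hΦN : ∀ x : P, Φ (nn n σ x) = nn n ρ (Φ x) := by
    intro x
    rw [nn_apply, nn_apply, map_sum]
    exact Finset.sum_congr rfl fun i _ => hΦi i x
  have hΦd : ∀ x : P, Φ (dd σ x) = dd ρ (Φ x) := by
    intro x
    rw [dd_apply, dd_apply, map_sub, hΦ]
  have hkx : ∀ x : P, Φ x = 0 → ∃ k : ℤ, k • x₀ = x := by
    intro x hx
    have h : x ∈ Φ.ker := hx
    rw [hker] at h
    exact AddSubgroup.mem_zmultiples_iff.1 h
  have hΦ0 : ∀ k : ℤ, Φ (k • x₀) = 0 := by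
    intro k
    have h : k • x₀ ∈ Φ.ker := by
      rw [hker]
      exact AddSubgroup.mem_zmultiples_iff.2 ⟨k, rfl⟩
    exact h
  have hNk : ∀ k : ℤ, nn n σ (k • x₀) = ((n : ℤ) * k) • x₀ := by
    intro k
    rw [map_zsmul, nn_fix n σ x₀ hfix, ← natCast_zsmul, smul_smul, mul_comm]
  have hfix' : ∀ k : ℤ, dd σ (k • x₀) = 0 := by
    intro k
    rw [dd_apply, map_zsmul, hfix, sub_self]
  have hinj : ∀ k k' : ℤ, k • x₀ = k' • x₀ → k = k' := by
    intro k k' h
    have := hfree (k - k') (by rw [sub_smul, h, sub_self])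
    omega
  have hnz : (n : ℤ) ≠ 0 := by exact_mod_cast hn.ne'
  refine ⟨?_, ?_⟩
  · intro y hy
    obtain ⟨x, rfl⟩ := hsurj y
    rw [← hΦd] at hy
    obtain ⟨k, hk⟩ := hkx _ hy
    have h1 : nn n σ (dd σ x) = 0 := nn_dd n σ hσ x
    rw [← hk, hNk] at h1
    have h2 := hfree _ h1
    have hk0 : k = 0 := by
      rcases mul_eq_zero.1 h2 with h | h
      · exact absurd h hnz
      · exact h
    rw [hk0, zero_smul] at hk
    obtain ⟨x', hx'⟩ := hh0 x hk.symm
    exact ⟨Φ x', by rw [← hΦN, hx']⟩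
  · -- the map from the kernel of the norm to the integers modulo n
    have key : ∀ (x x' : P) (k k' : ℤ), Φ x = Φ x' → nn n σ x = k • x₀ → nn n σ x' = k' • x₀ →
        (k : ZMod n) = (k' : ZMod n) := by
      intro x x' k k' h1 h2 h3
      obtain ⟨m, hm⟩ := hkx (x - x') (by rw [map_sub, h1, sub_self])
      have h4 : nn n σ (x - x') = (k - k') • x₀ := by
        rw [map_sub, h2, h3, sub_smul]
      rw [← hm, hNk] at h4
      have h5 := hinj _ _ h4
      have h6 : ((k - k' : ℤ) : ZMod n) = 0 := by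
        rw [← h5]
        simp
      push_cast at h6
      exact sub_eq_zero.1 h6
    have hex : ∀ y : AddMonoidHom.ker (nn n ρ : R →+ R), ∃ (x : P) (k : ℤ), Φ x = y ∧
        nn n σ x = k • x₀ := by
      rintro ⟨y, hy⟩
      obtain ⟨x, rfl⟩ := hsurj y
      have h1 : Φ (nn n σ x) = 0 := by
        rw [hΦN]
        exact hy
      obtain ⟨k, hk⟩ := hkx _ h1
      exact ⟨x, k, rfl, hk.symm⟩
    choose xx kk hx hk using hex
    let f : AddMonoidHom.ker (nn n ρ : R →+ R) →+ ZMod n :=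
      AddMonoidHom.mk' (fun y => (kk y : ZMod n)) (by
        intro y y'
        have h1 := key (xx (y + y')) (xx y + xx y') (kk (y + y')) (kk y + kk y')
          (by rw [hx, map_add, hx, hx]; rfl) (hk _) (by rw [map_add, hk, hk, add_smul])
        rw [h1]
        push_cast
        rfl)
    have hf : ∀ y, f y = (kk y : ZMod n) := fun y => rfl
    have hker2 : (AddMonoidHom.range (dd ρ : R →+ R)).addSubgroupOf
        (AddMonoidHom.ker (nn n ρ : R →+ R)) = f.ker := by
      ext y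
      rw [AddSubgroup.mem_addSubgroupOf, AddMonoidHom.mem_ker, hf]
      constructor
      · rintro ⟨w, hw⟩
        obtain ⟨z, rfl⟩ := hsurj w
        have h1 := key (xx y) (dd σ z) (kk y) 0 (by
          rw [hx, hΦd]
          exact hw.symm) (hk y) (by rw [nn_dd n σ hσ, zero_smul])
        rw [h1]
        simp
      · intro h
        obtain ⟨m, hm⟩ := (ZMod.intCast_zmod_eq_zero_iff_dvd (kk y) n).1 h
        have h1 : nn n σ (xx y - m • x₀) = 0 := by
          rw [map_sub, hk, hNk, hm, sub_self]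
        obtain ⟨z, hz⟩ := hh1 _ h1
        refine ⟨Φ z, ?_⟩
        have h2 := congrArg Φ hz
        rw [hΦd, map_sub, hx, hΦ0, sub_zero] at h2
        exact h2
    have hsf : Function.Surjective f := by
      intro c
      obtain ⟨k, hkc⟩ := ZMod.intCast_surjective c
      obtain ⟨x, hxk⟩ := hh0 (k • x₀) (hfix' k)
      have hmem : Φ x ∈ AddMonoidHom.ker (nn n ρ : R →+ R) := by
        have : nn n ρ (Φ x) = 0 := by rw [← hΦN, hxk, hΦ0]
        exact this
      refine ⟨⟨Φ x, hmem⟩, ?_⟩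
      rw [hf, ← hkc]
      exact key _ x _ k (hx _) (hk _) hxk
    show (AddMonoidHom.range (dd ρ : R →+ R)).relIndex (AddMonoidHom.ker (nn n ρ : R →+ R)) = n
    rw [AddSubgroup.relIndex, hker2, AddSubgroup.index_ker, AddMonoidHom.range_eq_top.2 hsf,
      AddSubgroup.card_top, Nat.card_zmod]

end Pool.Agent.Work.MP_59f3ad_nt.UCF
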