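import Mathlib
import Pool.Agent.Work.MP_59f3ad_nt.UCF.Stmts

/-!
Library UCF, item Hu: the Herbrand quotient of the units of a cyclic extension of odd degree.
-/

open NumberField IsDedekindDomain Filter Topology
open scoped Pointwise nonZeroDivisors

namespace Pool.Agent.Work.MP_59f3ad_nt.UCF

universe u

namespace IHu

theorem end_mul {A : Type u} [AddCommGroup A] (f g : AddMonoid.End A) (x : A) :
    (f * g) x = f (g x) := rfl

section

variable {K : Type u} [Field K] {M : Type u} [Field M] [NumberField M] [Algebra K M]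

theorem ug_one (x : (𝓞 M)ˣ) : ug (K := K) (1 : Gal(M/K)) x = x := by
  refine Units.ext ?_
  show (1 : Gal(M/K)) • (x : 𝓞 M) = x
  exact one_smul _ _

theorem ug_mul (g h : Gal(M/K)) (x : (𝓞 M)ˣ) : ug (g * h) x = ug g (ug h x) := by
  refine Units.ext ?_
  show (g * h) • (x : 𝓞 M) = g • (h • (x : 𝓞 M))
  exact mul_smul _ _ _

theorem ue_apply (g : Gal(M/K)) (x : (𝓞 M)ˣ) :
    ue g (Additive.ofMul x) = Additive.ofMul (ug g x) := rfl

theorem ue_pow_apply (g : Gal(M/K)) (i : ℕ) (x : Additive (𝓞 M)ˣ) :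
    (ue g ^ i) x = ue (g ^ i) x := by
  induction i with
  | zero =>
    rw [pow_zero, pow_zero]
    exact (congrArg Additive.ofMul (ug_one (K := K) (Additive.toMul x))).symm
  | succ i ih =>
    rw [pow_succ', pow_succ', end_mul, ih]
    exact (congrArg Additive.ofMul (ug_mul g (g ^ i) (Additive.toMul x))).symm

theorem ue_pow (g : Gal(M/K)) (n : ℕ) (h : g ^ n = 1) : ue g ^ n = 1 := by
  ext1 x
  rw [ue_pow_apply, h]
  exact congrArg Additive.ofMul (ug_one (K := K) (Additive.toMul x))

end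

/-- the action of a permutation on the functions -/
def sg {X : Type u} (π : Equiv.Perm X) : AddMonoid.End (X → ℤ) where
  toFun f := fun x => f (π.symm x)
  map_zero' := rfl
  map_add' _ _ := rfl

theorem sg_apply {X : Type u} (π : Equiv.Perm X) (f : X → ℤ) (x : X) :
    sg π f x = f (π.symm x) := rfl

theorem sg_pow_apply {X : Type u} (π : Equiv.Perm X) (i : ℕ) (f : X → ℤ) (x : X) :
    (sg π ^ i) f x = f ((π ^ i).symm x) := by
  induction i generalizing f x with
  | zero => rfl
  | succ i ih =>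
    rw [pow_succ, end_mul, ih, sg_apply, pow_succ]
    rfl

theorem sg_pow {X : Type u} (π : Equiv.Perm X) (n : ℕ) (h : π ^ n = 1) : sg π ^ n = 1 := by
  ext1 f
  funext x
  rw [sg_pow_apply, h]
  rfl

/-- the homomorphism defined by a family of units -/
noncomputable def Ph {M : Type u} [Field M] [NumberField M] (e : InfinitePlace M → (𝓞 M)ˣ) :
    (InfinitePlace M → ℤ) →+ Additive (𝓞 M)ˣ where
  toFun x := ∑ v, x v • Additive.ofMul (e v)
  map_zero' := by simp
  map_add' x y := by
    rw [← Finset.sum_add_distrib]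
    exact Finset.sum_congr rfl fun v _ => add_zsmul _ _ _

theorem Ph_apply {M : Type u} [Field M] [NumberField M] (e : InfinitePlace M → (𝓞 M)ˣ)
    (x : InfinitePlace M → ℤ) : Ph e x = ∑ v, x v • Additive.ofMul (e v) := rfl

end IHu

open IHu

theorem pr_Hu (hUn : StUn.{u}) (hRk : StRk.{u}) (hPm : StPm.{u}) (hHk : StHk.{u})
    (hHi : StHi.{u}) : StHu.{u} := by
  intro K M _ _ _ _ _ _ g hg hodd
  have : FiniteDimensional K M := Module.Finite.of_restrictScalars_finite ℚ K M
  set n := Module.finrank K M with hn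
  have hcard : Nat.card Gal(M/K) = n := IsGalois.card_aut_eq_finrank K M
  have hord : orderOf g = n := by
    rw [← hcard]
    exact orderOf_eq_card_of_forall_mem_zpowers hg
  have hn0 : 0 < n := hodd.pos
  have hgn : g ^ n = 1 := by
    rw [← hord]
    exact pow_orderOf_eq_one g
  obtain ⟨e, he1, he2⟩ := hUn K M
  obtain ⟨hidx, x₀, hx₀, hker⟩ := hRk M e he2 (Ph e) (fun x => rfl)
  -- the permutation
  set π : Equiv.Perm (InfinitePlace M) := MulAction.toPerm g with hπ
  have hπi : ∀ (i : ℕ) (v : InfinitePlace M), (π ^ i) v = g ^ i • v := by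
    intro i v
    induction i with
    | zero => simp
    | succ i ih =>
      rw [pow_succ', Equiv.Perm.mul_apply, ih, pow_succ', mul_smul]
      rfl
  have hπn : π ^ n = 1 := by
    ext v
    rw [hπi, hgn, one_smul]
    rfl
  have hfree : ∀ i : ℕ, 0 < i → i < n → ∀ v : InfinitePlace M, (π ^ i) v ≠ v := by
    intro i hi hin v hv
    rw [hπi] at hv
    have h1 : g ^ i ∈ MulAction.stabilizer Gal(M/K) v := hv
    have h2 : Nat.card (MulAction.stabilizer Gal(M/K) v) ∣ n := by
      rw [← hcard]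
      exact Subgroup.card_subgroup_dvd_card _
    have h3 : Nat.card (MulAction.stabilizer Gal(M/K) v) = 1 := by
      rcases InfinitePlace.nat_card_stabilizer_eq_one_or_two K v with h | h
      · exact h
      · rw [h] at h2
        exact absurd h2 hodd.not_two_dvd_nat
    have h4 : g ^ i = 1 := by
      rw [Subgroup.card_eq_one] at h3
      rw [h3] at h1
      exact Subgroup.mem_bot.1 h1
    have h5 := Nat.le_of_dvd hi (orderOf_dvd_of_pow_eq_one h4)
    rw [hord] at h5
    omega
  obtain ⟨hs0, hs1⟩ := hPm (InfinitePlace M) n π hn0 hπn hfree (sg π) (sg_apply π)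
  -- equivariance
  have heq : ∀ x : InfinitePlace M → ℤ, Ph e (sg π x) = ue g (Ph e x) := by
    intro x
    rw [Ph_apply, Ph_apply, map_sum, ← Equiv.sum_comp π]
    refine Finset.sum_congr rfl fun v _ => ?_
    rw [sg_apply, Equiv.symm_apply_apply, map_zsmul, ue_apply, ← he1]
    rfl
  -- the restriction to the range
  have hmem : ∀ y : (Ph e).range, ue g (y : Additive (𝓞 M)ˣ) ∈ (Ph e).range := by
    rintro ⟨_, x, rfl⟩
    exact ⟨sg π x, heq x⟩
  let ρ : AddMonoid.End (Ph e).range :=
    AddMonoidHom.codRestrict ((ue g : Additive (𝓞 M)ˣ →+ Additive (𝓞 M)ˣ).comp (Ph e).range.subtype)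
      (Ph e).range hmem
  have hρ : ∀ x : (Ph e).range, ((ρ x : (Ph e).range) : Additive (𝓞 M)ˣ) =
      ue g (x : Additive (𝓞 M)ˣ) := fun x => rfl
  have hρi : ∀ (i : ℕ) (x : (Ph e).range), (((ρ ^ i) x : (Ph e).range) : Additive (𝓞 M)ˣ) =
      (ue g ^ i) (x : Additive (𝓞 M)ˣ) := by
    intro i x
    induction i with
    | zero => rfl
    | succ i ih =>
      rw [pow_succ', pow_succ', end_mul, end_mul, hρ, ih]
  have hρn : ρ ^ n = 1 := by
    ext1 x
    refine Subtype.ext ?_
    rw [hρi, ue_pow g n hgn]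
    rfl
  have hx0k : Ph e x₀ = 0 := by
    have : x₀ ∈ (Ph e).ker := by
      rw [hker]
      exact AddSubgroup.mem_zmultiples x₀
    exact this
  have hx0s : sg π x₀ = x₀ := by
    have h1 : sg π x₀ ∈ (Ph e).ker := by
      rw [AddMonoidHom.mem_ker, heq, hx0k, map_zero]
    rw [hker, AddSubgroup.mem_zmultiples_iff] at h1
    obtain ⟨k, hk⟩ := h1
    have h2 : ∑ v, (k • x₀) v = ∑ v, x₀ v := by
      rw [hk, ← Equiv.sum_comp π]
      refine Finset.sum_congr rfl fun v _ => ?_
      rw [sg_apply, Equiv.symm_apply_apply]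
    have h3 : 0 < ∑ v, x₀ v := Finset.sum_pos (fun v _ => hx₀ v) Finset.univ_nonempty
    have h4 : k = 1 := by
      simp only [Pi.smul_apply, smul_eq_mul, ← Finset.mul_sum] at h2
      have h5 : k * ∑ v, x₀ v = 1 * ∑ v, x₀ v := by rw [h2, one_mul]
      exact mul_right_cancel₀ h3.ne' h5
    rw [← hk, h4, one_smul]
  have hker' : (Ph e).rangeRestrict.ker = AddSubgroup.zmultiples x₀ := by
    rw [AddMonoidHom.ker_rangeRestrict, hker]
  obtain ⟨hr0, hr1⟩ := hHk (InfinitePlace M → ℤ) (Ph e).range n (sg π) ρ (Ph e).rangeRestrict hn0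
    (sg_pow π n hπn) hρn (fun x => Subtype.ext (heq x)) (AddMonoidHom.rangeRestrict_surjective _)
    ⟨x₀, hker', fun k hk => by
      obtain ⟨v⟩ : Nonempty (InfinitePlace M) := inferInstance
      have h1 := congrFun hk v
      simp only [Pi.smul_apply, smul_eq_mul, Pi.zero_apply, mul_eq_zero] at h1
      exact h1.resolve_right (hx₀ v).ne', hx0s⟩ hs0 hs1
  obtain ⟨h1, h2⟩ := hHi (Additive (𝓞 M)ˣ) n (ue g) hn0 (ue_pow g n hgn) (Ph e).range ρ hρ hidx
    (by rw [hr0]; exact one_ne_zero) (by rw [hr1]; exact hn0.ne')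
  rw [hr0, hr1, mul_one] at h1
  exact ⟨h1.trans (mul_comm _ _), h2⟩

end Pool.Agent.Work.MP_59f3ad_nt.UCF
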