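import Mathlib
import Pool.Agent.Work.MP_59f3ad_nt.UCF.Stmts

/-!
Item Iv of the library UCF: the invariant ideals of an unramified Galois extension are extended
ideals.
-/

set_option autoImplicit false

open NumberField IsDedekindDomain
open scoped Pointwise nonZeroDivisors

namespace Pool.Agent.Work.MP_59f3ad_nt.UCF

universe u

namespace IIv

variable {K M : Type u} [Field K] [NumberField K] [Field M] [NumberField M] [Algebra K M]

/-- An extended ideal is invariant. -/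
theorem smul_map [IsGalois K M] (σ : Gal(M/K)) (p : Ideal (𝓞 K)) :
    σ • p.map (algebraMap (𝓞 K) (𝓞 M)) = p.map (algebraMap (𝓞 K) (𝓞 M)) := by
  rw [Ideal.pointwise_smul_def, Ideal.map_map]
  congr 1
  ext x
  have h := (inferInstance : IsGaloisGroup Gal(M/K) (𝓞 K) (𝓞 M))
  have : SMulCommClass Gal(M/K) (𝓞 K) (𝓞 M) := h.commutes
  rw [RingHom.comp_apply, MulSemiringAction.toRingHom_apply, smul_algebraMap]

/-- If an invariant ideal is contained in a prime ideal above `p`, the extension of `p` divides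
it. -/
theorem map_dvd [IsGalois K M] (hU : Unram K M) (I P : Ideal (𝓞 M)) (hI : I ≠ ⊥)
    (hinv : ∀ σ : Gal(M/K), σ • I = I) [hP : P.IsMaximal] (hIP : I ≤ P) :
    (P.under (𝓞 K)).map (algebraMap (𝓞 K) (𝓞 M)) ∣ I ∧ P.under (𝓞 K) ≠ ⊥ := by
  have hPb : P ≠ ⊥ := ne_bot_of_le_ne_bot hI hIP
  have hpb : P.under (𝓞 K) ≠ ⊥ := Ideal.under_ne_bot (𝓞 K) hPb
  refine ⟨?_, hpb⟩
  rw [Ideal.map_algebraMap_eq_finsetProd_pow hpb]
  have h1 : ∏ Q ∈ ((P.under (𝓞 K)).primesOver (𝓞 M)).toFinset, Q ^ Q.ramificationIdx (𝓞 K) =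
      ∏ Q ∈ ((P.under (𝓞 K)).primesOver (𝓞 M)).toFinset, Q := by
    refine Finset.prod_congr rfl fun Q hQ => ?_
    rw [Set.mem_toFinset] at hQ
    obtain ⟨hQ1, hQ2⟩ := hQ
    have hQb : Q ≠ ⊥ := Ideal.ne_bot_of_liesOver_of_ne_bot hpb Q
    rw [hU Q hQ1 hQb, pow_one]
  rw [h1]
  refine Finset.prod_primes_dvd _ ?_ ?_
  · intro Q hQ
    rw [Set.mem_toFinset] at hQ
    obtain ⟨hQ1, hQ2⟩ := hQ
    exact Ideal.prime_of_isPrime (Ideal.ne_bot_of_liesOver_of_ne_bot hpb Q) hQ1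
  · intro Q hQ
    rw [Set.mem_toFinset] at hQ
    obtain ⟨hQ1, hQ2⟩ := hQ
    obtain ⟨σ, hσ⟩ := Ideal.exists_smul_eq_of_isGaloisGroup (P.under (𝓞 K)) P Q Gal(M/K)
    rw [Ideal.dvd_iff_le, ← hσ, ← hinv σ]
    exact Ideal.pointwise_smul_le_pointwise_smul_iff.mpr hIP

end IIv

/-- Item Iv. -/
theorem pr_Iv : StIv.{u} := by
  intro K M _ _ _ _ _ _ hU I
  induction I using WellFoundedGT.induction with
  | ind I ih =>
    intro hI hinv
    by_cases htop : I = ⊤
    · exact ⟨⊤, by rw [htop, Ideal.map_top]⟩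
    obtain ⟨P, hP, hIP⟩ := Ideal.exists_le_maximal I htop
    obtain ⟨⟨I', hI'⟩, hpb⟩ := IIv.map_dvd hU I P hI hinv hIP
    set p := P.under (𝓞 K) with hp
    have hmb : p.map (algebraMap (𝓞 K) (𝓞 M)) ≠ ⊥ := Ideal.map_ne_bot_of_ne_bot hpb
    have hI'b : I' ≠ ⊥ := by
      rintro rfl
      exact hI (by rw [hI', Ideal.mul_bot])
    have hlt : I < I' := by
      refine lt_of_le_of_ne (by rw [hI']; exact Ideal.mul_le_right) ?_
      intro h
      have h2 : p.map (algebraMap (𝓞 K) (𝓞 M)) * I' = 1 * I' := by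
        rw [one_mul, ← hI', h]
      have h3 := mul_right_cancel₀ hI'b h2
      have h4 : p.map (algebraMap (𝓞 K) (𝓞 M)) ≤ P := Ideal.map_comap_le
      rw [h3, Ideal.one_eq_top, top_le_iff] at h4
      exact hP.ne_top h4
    have hinv' : ∀ σ : Gal(M/K), σ • I' = I' := by
      intro σ
      have h1 := hinv σ
      rw [hI', smul_mul', IIv.smul_map] at h1
      exact mul_left_cancel₀ hmb h1
    obtain ⟨J, hJ⟩ := ih I' hlt hI'b hinv'
    exact ⟨p * J, by rw [Ideal.map_mul, hJ, ← hI']⟩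

end Pool.Agent.Work.MP_59f3ad_nt.UCF
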