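import Mathlib
import Pool.Agent.Work.MP_59f3ad_nt.UCF.Stmts

/-!
# Library UCF, item Ix: duality for subgroups of the dual of the class group
-/

set_option autoImplicit false

open NumberField IsDedekindDomain Filter Topology
open scoped Pointwise nonZeroDivisors

namespace Pool.Agent.Work.MP_59f3ad_nt.UCF

universe u

/-- Item Ix. -/
theorem pr_Ix : StIx.{u} := by
  intro K _ _ Y
  refine ⟨(CommGroup.subgroupOrderIsoSubgroupMonoidHom (ClassGroup (𝓞 K)) ℂ).symm
    (OrderDual.toDual Y), ?_, fun c =>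
    CommGroup.mem_subgroupOrderIsoSubgroupMonoidHom_symm_iff ℂ Y c⟩
  have h := CommGroup.card_subgroupOrderIsoSubgroupMonoidHom ℂ
    ((CommGroup.subgroupOrderIsoSubgroupMonoidHom (ClassGroup (𝓞 K)) ℂ).symm
      (OrderDual.toDual Y))
  rw [OrderIso.apply_symm_apply, OrderDual.ofDual_toDual] at h
  exact h.symm

end Pool.Agent.Work.MP_59f3ad_nt.UCF
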