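import Mathlib
import Pool.Agent.Work.MP_59f3ad_nt.UCF.Stmts

/-!
UCF, item Kj: capitulation.
-/

open NumberField IsDedekindDomain Filter Topology
open scoped Pointwise nonZeroDivisors

namespace Pool.Agent.Work.MP_59f3ad_nt.UCF

universe u

namespace IKj

section

variable {K M : Type u} [Field K] [Field M] [NumberField M] [Algebra K M]

omit [NumberField M] in
theorem coe_smul' (g : Gal(M/K)) (x : 𝓞 M) : ((g • x : 𝓞 M) : M) = g (x : M) := rfl

omit [NumberField M] in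
theorem smul_span' (g : Gal(M/K)) (x : 𝓞 M) : g • (Ideal.span {x}) = Ideal.span {g • x} := by
  rw [Ideal.pointwise_smul_def, Ideal.map_span, Set.image_singleton]
  rfl

omit [NumberField M] in
theorem ug_coe (g : Gal(M/K)) (e : (𝓞 M)ˣ) : ((ug g e : (𝓞 M)ˣ) : 𝓞 M) = g • (e : 𝓞 M) := rfl

omit [NumberField M] in
theorem ue_pow (g : Gal(M/K)) (i : ℕ) (e : Additive (𝓞 M)ˣ) :
    ((ue g) ^ i) e = Additive.ofMul (ug (g ^ i) e.toMul) := by
  induction i with
  | zero =>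
    rw [pow_zero, pow_zero]
    change e = Additive.ofMul (ug 1 e.toMul)
    have : ug (1 : Gal(M/K)) e.toMul = e.toMul := by
      apply Units.ext
      rw [ug_coe, one_smul]
    rw [this]
    rfl
  | succ i ih =>
    rw [pow_succ' (ue g)]
    change ue g (((ue g) ^ i) e) = _
    rw [ih]
    change Additive.ofMul (ug g (ug (g ^ i) e.toMul)) = _
    congr 1
    apply Units.ext
    rw [ug_coe, ug_coe, ug_coe, smul_smul, pow_succ']

omit [NumberField M] in
theorem nn_apply (g : Gal(M/K)) (n : ℕ) (e : Additive (𝓞 M)ˣ) :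
    (nn n (ue g)) e = Additive.ofMul (∏ i ∈ Finset.range n, ug (g ^ i) e.toMul) := by
  induction n with
  | zero =>
    unfold nn
    rw [Finset.sum_range_zero, Finset.prod_range_zero]
    rfl
  | succ n ih =>
    unfold nn at ih ⊢
    rw [Finset.sum_range_succ, Finset.prod_range_succ]
    change (∑ i ∈ Finset.range n, ue g ^ i) e + ((ue g) ^ n) e = _
    rw [ih, ue_pow]
    rfl

end

variable {K M : Type u} [Field K] [NumberField K] [Field M] [NumberField M] [Algebra K M]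
  [IsGalois K M]

theorem order_eq (g : Gal(M/K)) (hg : ∀ x, x ∈ Subgroup.zpowers g) :
    orderOf g = Module.finrank K M := by
  rw [← IsGalois.card_aut_eq_finrank K M]
  exact orderOf_eq_card_of_forall_mem_zpowers hg

/-- The characters `z ↦ g^k z` of the multiplicative monoid of `𝓞 M`. -/
noncomputable def ch (g : Gal(M/K)) (k : ℕ) : 𝓞 M →* M where
  toFun z := (g ^ k) (z : M)
  map_one' := by simp
  map_mul' x y := by simp

omit [NumberField K] [IsGalois K M] in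
theorem ch_inj (g : Gal(M/K)) {n : ℕ} (hn : orderOf g = n) :
    Function.Injective (fun k : Fin n => ch g (k : ℕ)) := by
  intro k l h
  have h1 : g ^ (k : ℕ) = g ^ (l : ℕ) := by
    refine AlgEquiv.ext fun y => ?_
    obtain ⟨a, b, hab⟩ := IsFractionRing.div_surjective (A := 𝓞 M) y
    have ha : (g ^ (k : ℕ)) ((a : 𝓞 M) : M) = (g ^ (l : ℕ)) ((a : 𝓞 M) : M) :=
      congrArg (fun f : 𝓞 M →* M => f a) h
    have hb : (g ^ (k : ℕ)) ((b : 𝓞 M) : M) = (g ^ (l : ℕ)) ((b : 𝓞 M) : M) :=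
      congrArg (fun f : 𝓞 M →* M => f b) h
    have e1 : y = (a : M) / (b : M) := hab.2.symm
    rw [e1, map_div₀, map_div₀, ha, hb]
  have h2 := pow_injOn_Iio_orderOf (x := g) (by rw [hn]; exact k.2) (by rw [hn]; exact l.2) h1
  exact Fin.ext h2

theorem h90 (g : Gal(M/K)) (hg : ∀ x, x ∈ Subgroup.zpowers g) (e : (𝓞 M)ˣ)
    (he : ∏ i ∈ Finset.range (Module.finrank K M), ug (g ^ i) e = 1) :
    ∃ β : 𝓞 M, β ≠ 0 ∧ (e : 𝓞 M) * g • β = β := by
  have hn := order_eq g hg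
  have hn0 : 0 < Module.finrank K M := Module.finrank_pos
  obtain ⟨n, hndef⟩ : ∃ n, n = Module.finrank K M := ⟨_, rfl⟩
  rw [← hndef] at hn hn0 he
  obtain ⟨c, hcdef⟩ : ∃ c : ℕ → (𝓞 M)ˣ, ∀ k, c k = ∏ i ∈ Finset.range k, ug (g ^ i) e :=
    ⟨_, fun _ => rfl⟩
  have hc0 : c 0 = 1 := by rw [hcdef, Finset.prod_range_zero]
  have hcn : c n = 1 := by rw [hcdef, he]
  have hcs : ∀ k, c (k + 1) = e * ug g (c k) := by
    intro k
    rw [hcdef, hcdef, Finset.prod_range_succ', map_prod, mul_comm e]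
    refine congrArg₂ (· * ·) ?_ ?_
    · refine Finset.prod_congr rfl fun i _ => ?_
      apply Units.ext
      rw [ug_coe, ug_coe, ug_coe, smul_smul, pow_succ']
    · apply Units.ext
      rw [ug_coe, pow_zero, one_smul]
  have hli : LinearIndependent M (fun k : Fin n => (ch g (k : ℕ) : 𝓞 M → M)) :=
    (linearIndependent_monoidHom (𝓞 M) M).comp _ (ch_inj g hn)
  have hex : ∃ z : 𝓞 M, ∑ k ∈ Finset.range n, (c k : 𝓞 M) * (g ^ k) • z ≠ 0 := by
    by_contra hcon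
    have hcon' : ∀ z : 𝓞 M, ∑ k ∈ Finset.range n, (c k : 𝓞 M) * (g ^ k) • z = 0 := by
      intro z
      by_contra hz
      exact hcon ⟨z, hz⟩
    rw [Fintype.linearIndependent_iff] at hli
    have h0 := hli (fun k => ((c (k : ℕ) : 𝓞 M) : M)) (by
      funext z
      rw [Finset.sum_apply, Pi.zero_apply]
      have h1 := congrArg (fun y : 𝓞 M => algebraMap (𝓞 M) M y) (hcon' z)
      simp only [map_zero, map_sum, map_mul] at h1
      rw [← h1, ← Fin.sum_univ_eq_sum_range (fun k => algebraMap (𝓞 M) M (c k : 𝓞 M) *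
        algebraMap (𝓞 M) M ((g ^ k) • z)) n]
      rfl) ⟨0, hn0⟩
    simp only [hc0, Units.val_one, map_one] at h0
    exact one_ne_zero h0
  obtain ⟨z, hz⟩ := hex
  refine ⟨_, hz, ?_⟩
  have h1 : (e : 𝓞 M) * g • ∑ k ∈ Finset.range n, (c k : 𝓞 M) * (g ^ k) • z =
      ∑ k ∈ Finset.range n, (c (k + 1) : 𝓞 M) * (g ^ (k + 1)) • z := by
    rw [Finset.smul_sum, Finset.mul_sum]
    refine Finset.sum_congr rfl fun k _ => ?_
    rw [smul_mul', hcs, Units.val_mul, ug_coe, smul_smul, pow_succ']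
    ring
  rw [h1]
  have h2 := Finset.sum_range_succ (fun k => (c k : 𝓞 M) * (g ^ k) • z) n
  have h3 := Finset.sum_range_succ' (fun k => (c k : 𝓞 M) * (g ^ k) • z) n
  have h4 : g ^ n = 1 := by rw [← hn]; exact pow_orderOf_eq_one g
  rw [h2] at h3
  simp only [hcn, hc0, h4, pow_zero] at h3
  exact (add_right_cancel h3).symm

theorem exists_b (hIv : StIv.{u}) (hU : Unram K M) (g : Gal(M/K))
    (hg : ∀ x, x ∈ Subgroup.zpowers g) (e : Additive (𝓞 M)ˣ)
    (he : (nn (Module.finrank K M) (ue g)) e = 0) :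
    ∃ (β : 𝓞 M) (b : Ideal (𝓞 K)), β ≠ 0 ∧ (e.toMul : 𝓞 M) * g • β = β ∧
      b.map (algebraMap (𝓞 K) (𝓞 M)) = Ideal.span {β} := by
  rw [nn_apply] at he
  obtain ⟨β, hβ0, hβ1⟩ := h90 g hg e.toMul he
  have hgI : g • Ideal.span {β} = Ideal.span {β} := by
    rw [smul_span', Ideal.span_singleton_eq_span_singleton]
    refine ⟨e.toMul, ?_⟩
    rw [mul_comm]
    exact hβ1
  have hinv : ∀ σ : Gal(M/K), σ • Ideal.span {β} = Ideal.span {β} := by
    intro σ
    have h1 : g ∈ MulAction.stabilizer Gal(M/K) (Ideal.span {β}) := hgI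
    have h2 : Subgroup.zpowers g ≤ MulAction.stabilizer Gal(M/K) (Ideal.span {β}) := by
      rw [Subgroup.zpowers_le]
      exact h1
    exact h2 (hg σ)
  obtain ⟨b, hb⟩ := hIv K M hU (Ideal.span {β}) (by
    rw [Ne, Ideal.span_singleton_eq_bot]; exact hβ0) hinv
  exact ⟨β, b, hβ0, hβ1, hb⟩

omit [NumberField M] [IsGalois K M] in
theorem same (g : Gal(M/K)) {e e' : (𝓞 M)ˣ} {β β' : 𝓞 M} {b b' : Ideal (𝓞 K)} (h0 : β ≠ 0)
    (h0' : β' ≠ 0) (h1 : (e : 𝓞 M) * g • β = β) (h1' : (e' : 𝓞 M) * g • β' = β')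
    (hb : b.map (algebraMap (𝓞 K) (𝓞 M)) = Ideal.span {β})
    (hb' : b'.map (algebraMap (𝓞 K) (𝓞 M)) = Ideal.span {β'})
    (hc : cls K b = cls K b') : ∃ u : (𝓞 M)ˣ, e' * ug g u = e * u := by
  have hbb : b ≠ ⊥ := by
    rintro rfl
    rw [Ideal.map_bot, eq_comm, Ideal.span_singleton_eq_bot] at hb
    exact h0 hb
  have hbb' : b' ≠ ⊥ := by
    rintro rfl
    rw [Ideal.map_bot, eq_comm, Ideal.span_singleton_eq_bot] at hb'
    exact h0' hb'
  unfold cls at hc
  rw [dif_neg hbb, dif_neg hbb', ClassGroup.mk0_eq_mk0_iff] at hc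
  obtain ⟨x, y, hx, hy, hxy⟩ := hc
  have h2 := congrArg (Ideal.map (algebraMap (𝓞 K) (𝓞 M))) hxy
  simp only [Ideal.map_mul, Ideal.map_span, Set.image_singleton] at h2
  rw [hb, hb', Ideal.span_singleton_mul_span_singleton, Ideal.span_singleton_mul_span_singleton,
    Ideal.span_singleton_eq_span_singleton] at h2
  obtain ⟨u, hu⟩ := h2
  have hinj : Function.Injective (algebraMap (𝓞 K) (𝓞 M)) :=
    FaithfulSMul.algebraMap_injective (𝓞 K) (𝓞 M)
  have hX : algebraMap (𝓞 K) (𝓞 M) x ≠ 0 := by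
    rw [Ne, map_eq_zero_iff _ hinj]; exact hx
  have hgx : ∀ t : 𝓞 K, g • (algebraMap (𝓞 K) (𝓞 M) t) = algebraMap (𝓞 K) (𝓞 M) t := by
    intro t
    apply RingOfIntegers.ext
    rw [coe_smul']
    exact g.commutes (t : K)
  have hu2 := congrArg (fun z : 𝓞 M => g • z) hu
  simp only [smul_mul', hgx] at hu2
  have hgβ : g • β ≠ 0 := by
    intro h
    rw [h, mul_zero] at h1
    exact h0 h1.symm
  refine ⟨u, Units.ext ?_⟩
  rw [Units.val_mul, Units.val_mul, ug_coe]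
  have h3 : algebraMap (𝓞 K) (𝓞 M) x * g • β ≠ 0 := mul_ne_zero hX hgβ
  apply mul_left_cancel₀ h3
  have e1 : algebraMap (𝓞 K) (𝓞 M) x * g • β * ((e : 𝓞 M) * (u : 𝓞 M)) =
      algebraMap (𝓞 K) (𝓞 M) x * β * (u : 𝓞 M) := by
    linear_combination (algebraMap (𝓞 K) (𝓞 M) x * (u : 𝓞 M)) * h1
  have e2 : algebraMap (𝓞 K) (𝓞 M) x * g • β * ((e' : 𝓞 M) * g • (u : 𝓞 M)) =
      algebraMap (𝓞 K) (𝓞 M) y * β' := by
    linear_combination (e' : 𝓞 M) * hu2 + (algebraMap (𝓞 K) (𝓞 M) y) * h1'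
  rw [e1, e2, hu]

end IKj

open IKj in
theorem pr_Kj (hIv : StIv.{u}) : StKj.{u} := by
  intro K M _ _ _ _ _ _ g hg hU J hJ
  have hmem : ∀ e : (AddMonoidHom.ker (nn (Module.finrank K M) (ue g) :
      Additive (𝓞 M)ˣ →+ Additive (𝓞 M)ˣ)), (nn (Module.finrank K M) (ue g)) e.1 = 0 :=
    fun e => e.2
  choose β b hβ0 hβ hb using fun e : (AddMonoidHom.ker (nn (Module.finrank K M) (ue g) :
      Additive (𝓞 M)ˣ →+ Additive (𝓞 M)ˣ)) => exists_b hIv hU g hg e.1 (hmem e)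
  have hker : ∀ e, cls K (b e) ∈ J.ker := by
    intro e
    have hbb : b e ≠ ⊥ := by
      intro h
      have h2 := hb e
      rw [h, Ideal.map_bot, eq_comm, Ideal.span_singleton_eq_bot] at h2
      exact hβ0 e h2
    have hs : Ideal.span {β e} ≠ ⊥ := by
      rw [Ne, Ideal.span_singleton_eq_bot]
      exact hβ0 e
    rw [MonoidHom.mem_ker, hJ _ hbb, hb e]
    unfold cls
    rw [dif_neg hs, ClassGroup.mk0_eq_one_iff]
    exact ⟨⟨β e, rfl⟩⟩
  unfold h1 AddSubgroup.relIndex AddSubgroup.index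
  refine Nat.card_le_card_of_injective (fun q => (⟨cls K (b q.out), hker q.out⟩ : J.ker)) ?_
  intro q q' h
  have hc : cls K (b q.out) = cls K (b q'.out) := congrArg Subtype.val h
  obtain ⟨u, hu⟩ := same g (hβ0 _) (hβ0 _) (hβ _) (hβ _) (hb _) (hb _) hc
  rw [← QuotientAddGroup.out_eq' q, ← QuotientAddGroup.out_eq' q', QuotientAddGroup.eq,
    AddSubgroup.mem_addSubgroupOf]
  refine ⟨Additive.ofMul u, ?_⟩
  apply Additive.toMul.injective
  change u / ug g u = (q.out.1.toMul)⁻¹ * q'.out.1.toMul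
  rw [div_eq_iff_eq_mul, mul_assoc, hu, inv_mul_cancel_left]

end Pool.Agent.Work.MP_59f3ad_nt.UCF
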