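import Mathlib
import Pool.Agent.Work.MP_59f3ad_nt.UCF.Stmts

/-! Item Kl of the library UCF: the key lemma of the combination. -/

open NumberField IsDedekindDomain Filter Topology
open scoped Pointwise nonZeroDivisors

namespace Pool.Agent.Work.MP_59f3ad_nt.UCF

universe u

namespace IKl

lemma summ (hSi : StSi.{u}) (K : Type u) [Field K] [NumberField K] (s : ℝ) (hs : 1 < s) :
    Summable (fun v : HeightOneSpectrum (𝓞 K) => (v.asIdeal.absNorm : ℝ) ^ (-s)) := by
  have h := (hSi K s hs).comp_injective (i := fun v : HeightOneSpectrum (𝓞 K) => v.asIdeal)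
    (fun v w hvw => HeightOneSpectrum.ext hvw)
  exact h

open Classical in
lemma summ' (hSi : StSi.{u}) (K : Type u) [Field K] [NumberField K] (s : ℝ) (hs : 1 < s)
    (S : Set (HeightOneSpectrum (𝓞 K))) :
    Summable (fun v : HeightOneSpectrum (𝓞 K) =>
      if v ∈ S then (v.asIdeal.absNorm : ℝ) ^ (-s) else 0) := by
  refine Summable.of_nonneg_of_le (fun v => ?_) (fun v => ?_) (summ hSi K s hs)
  · split_ifs
    · positivity
    · exact le_rfl
  · split_ifs
    · exact le_rfl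
    · positivity

/-- Inclusion and exclusion for the sums over sets of primes. -/
lemma incl (hSi : StSi.{u}) (K : Type u) [Field K] [NumberField K] (s : ℝ) (hs : 1 < s)
    (A B C T : Set (HeightOneSpectrum (𝓞 K))) (hA : A ⊆ T) (hB : B ⊆ T) (hC : A ∩ B ⊆ C) :
    PS K A s + PS K B s ≤ PS K T s + PS K C s := by
  classical
  unfold PS
  rw [← (summ' hSi K s hs A).tsum_add (summ' hSi K s hs B),
    ← (summ' hSi K s hs T).tsum_add (summ' hSi K s hs C)]
  refine ((summ' hSi K s hs A).add (summ' hSi K s hs B)).tsum_le_tsum (fun v => ?_)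
    ((summ' hSi K s hs T).add (summ' hSi K s hs C))
  have h0 : (0 : ℝ) ≤ (v.asIdeal.absNorm : ℝ) ^ (-s) := by positivity
  by_cases h1 : v ∈ A
  · by_cases h2 : v ∈ B
    · rw [if_pos h1, if_pos h2, if_pos (hA h1), if_pos (hC ⟨h1, h2⟩)]
    · rw [if_pos h1, if_neg h2, if_pos (hA h1)]
      split_ifs
      · linarith
      · exact le_rfl
  · by_cases h2 : v ∈ B
    · rw [if_neg h1, if_pos h2, if_pos (hB h2)]
      split_ifs
      · linarith
      · linarith
    · rw [if_neg h1, if_neg h2]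
      split_ifs
      · linarith
      · linarith
      · linarith
      · linarith

/-- No linear function of the logarithm with positive slope is bounded. -/
lemma unbounded (c B : ℝ) (hc : 0 < c)
    (h : ∀ s ∈ Set.Ioc (1 : ℝ) 2, c * Real.log (1 / (s - 1)) ≤ B) : False := by
  set x : ℝ := max 0 ((B + 1) / c) with hx
  have hx0 : 0 ≤ x := le_max_left _ _
  have hx1 : (B + 1) / c ≤ x := le_max_right _ _
  have h1 : 1 + Real.exp (-x) ∈ Set.Ioc (1 : ℝ) 2 := by
    refine ⟨by linarith [Real.exp_pos (-x)], ?_⟩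
    have h2 : Real.exp (-x) ≤ 1 := Real.exp_le_one_iff.2 (by linarith)
    linarith
  have h2 := h _ h1
  have h3 : Real.log (1 / (1 + Real.exp (-x) - 1)) = x := by
    rw [add_sub_cancel_left, one_div, Real.log_inv, Real.log_exp, neg_neg]
  rw [h3] at h2
  rw [div_le_iff₀ hc] at hx1
  linarith

end IKl

theorem pr_Kl (hEx : StEx.{u}) (hNv : StNv.{u}) (hD2 : StD2.{u}) (hSp : StSp.{u})
    (hD1 : StD1.{u}) (hSi : StSi.{u}) : StKl.{u} := by
  intro F L _ _ _ _ _ _ hcomm E₁ E₂ hl hE χ hχ₁ hχ₂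
  by_contra hχ
  have hab : IsMulCommutative Gal(L/F) := ⟨⟨hcomm⟩⟩
  have hAG : IsAbelianGalois F L := { }
  have hfl : FiniteDimensional F L := inferInstance
  -- degrees
  have hinf : E₁ ⊓ E₂ = ⊥ := by
    have hdvd : Module.finrank F ↥(E₁ ⊓ E₂) ∣ Module.finrank F E₁ :=
      IntermediateField.finrank_dvd_of_le_right inf_le_left
    rcases (Nat.dvd_prime hl).1 hdvd with h | h
    · exact IntermediateField.finrank_eq_one_iff.1 h
    · exfalso
      apply hE
      have h2 : E₁ ⊓ E₂ = E₁ := IntermediateField.eq_of_le_of_finrank_eq inf_le_left h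
      rw [← h2]
      exact inf_le_right
  have hsup : Module.finrank F ↥(E₁ ⊔ E₂) = Module.finrank F E₁ * Module.finrank F E₂ :=
    (IntermediateField.LinearDisjoint.of_inf_eq_bot hinf).finrank_sup
  -- the order of the character
  have hord : Nat.card (Subgroup.zpowers χ) = Module.finrank F E₁ := by
    rw [Nat.card_zpowers]
    have : Fact (Module.finrank F E₁).Prime := ⟨hl⟩
    exact orderOf_eq_prime (hEx.1 F E₁ χ hχ₁) hχ
  obtain ⟨B₁, hB₁⟩ := hD2 F E₁
  obtain ⟨B₂, hB₂⟩ := hD2 F E₂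
  obtain ⟨B₃, hB₃⟩ := hD2 F ↥(E₁ ⊔ E₂)
  obtain ⟨B₄, hB₄⟩ := hD1 F (Subgroup.zpowers χ)
  set T : Set (HeightOneSpectrum (𝓞 F)) :=
    {v | ∀ ψ ∈ Subgroup.zpowers χ, ψ (cls F v.asIdeal) = 1} with hT
  have hsub : ∀ v, χ (cls F v.asIdeal) = 1 → v ∈ T := by
    intro v hv ψ hψ
    obtain ⟨k, rfl⟩ := Subgroup.mem_zpowers_iff.1 hψ
    rw [MonoidHom.zpow_apply, hv, one_zpow]
  have hA : Spl F E₁ ⊆ T := fun v hv => hsub v (hNv F E₁ χ hχ₁ v hv)
  have hB : Spl F E₂ ⊆ T := fun v hv => hsub v (hNv F E₂ χ hχ₂ v hv)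
  have hC : Spl F E₁ ∩ Spl F E₂ ⊆ Spl F ↥(E₁ ⊔ E₂) := hSp F L hcomm E₁ E₂
  have hl1 : (1 : ℝ) < (Module.finrank F E₁ : ℝ) := by exact_mod_cast hl.one_lt
  have he1 : (0 : ℝ) < (Module.finrank F E₂ : ℝ) := by
    exact_mod_cast (Module.finrank_pos : 0 < Module.finrank F E₂)
  set l : ℝ := (Module.finrank F E₁ : ℝ) with hldef
  set e : ℝ := (Module.finrank F E₂ : ℝ) with hedef
  have hc : 0 < 1 / e - 1 / (l * e) := by
    rw [sub_pos]
    apply one_div_lt_one_div_of_lt he1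
    nlinarith
  refine IKl.unbounded (1 / e - 1 / (l * e)) (B₁ + B₂ + B₃ + B₄) hc ?_
  intro s hs
  have h1 := IKl.incl hSi F s hs.1 _ _ _ T hA hB hC
  have h2 := (abs_le.1 (hB₁ s hs)).1
  have h3 := (abs_le.1 (hB₂ s hs)).1
  have h4 := (abs_le.1 (hB₃ s hs)).2
  have h5 := hB₄ s hs
  rw [hord] at h5
  rw [hsup] at h4
  push_cast at h4
  rw [← hldef, ← hedef] at h4
  rw [← hldef] at h5
  have h6 : (1 / e - 1 / (l * e)) * Real.log (1 / (s - 1)) =
      1 / e * Real.log (1 / (s - 1)) - 1 / (l * e) * Real.log (1 / (s - 1)) := by ring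
  rw [h6]
  linarith

end Pool.Agent.Work.MP_59f3ad_nt.UCF
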