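import Mathlib
import Pool.Agent.Work.MP_59f3ad_nt.UCF.Stmts

/-!
UCF, item Lg: logarithm of the Euler product.
-/

open NumberField IsDedekindDomain Filter Topology
open scoped Pointwise nonZeroDivisors

namespace Pool.Agent.Work.MP_59f3ad_nt.UCF

universe u

namespace ILg

variable (K : Type u) [Field K] [NumberField K]

theorem norm_psi (ψ : ClassGroup (𝓞 K) →* ℂˣ) (c : ClassGroup (𝓞 K)) : ‖((ψ c : ℂˣ) : ℂ)‖ = 1 := by
  have h1 : c ^ Nat.card (ClassGroup (𝓞 K)) = 1 := pow_card_eq_one'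
  have h2 : ((ψ c : ℂˣ) : ℂ) ^ Nat.card (ClassGroup (𝓞 K)) = 1 := by
    rw [← Units.val_pow_eq_pow_val, ← map_pow, h1, map_one, Units.val_one]
  have h3 : ‖((ψ c : ℂˣ) : ℂ)‖ ^ Nat.card (ClassGroup (𝓞 K)) = 1 := by
    rw [← norm_pow, h2, norm_one]
  exact (pow_eq_one_iff_of_nonneg (norm_nonneg _) Nat.card_pos.ne').1 h3

theorem norm_lt (ψ : ClassGroup (𝓞 K) →* ℂˣ) (s : ℝ) (I : Ideal (𝓞 K)) (hI : I ≠ ⊥) :
    ‖lt K ψ s I‖ = (I.absNorm : ℝ) ^ (-s) := by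
  unfold lt
  rw [if_pos hI, norm_mul, norm_psi, one_mul, Complex.norm_real, Real.norm_eq_abs,
    abs_of_nonneg (Real.rpow_nonneg (Nat.cast_nonneg _) _)]

theorem lt_bot (ψ : ClassGroup (𝓞 K) →* ℂˣ) (s : ℝ) : lt K ψ s ⊥ = 0 := by
  unfold lt
  rw [if_neg (by simp)]

theorem norm_lt_le (ψ : ClassGroup (𝓞 K) →* ℂˣ) (s : ℝ) (I : Ideal (𝓞 K)) :
    ‖lt K ψ s I‖ ≤ (I.absNorm : ℝ) ^ (-s) := by
  by_cases h : I = ⊥
  · rw [h, lt_bot, norm_zero]
    positivity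
  · exact (norm_lt K ψ s I h).le

theorem cls_mul {I J : Ideal (𝓞 K)} (hI : I ≠ ⊥) (hJ : J ≠ ⊥) :
    cls K (I * J) = cls K I * cls K J := by
  have hIJ : I * J ≠ ⊥ := by
    intro h
    rcases mul_eq_zero.1 (show I * J = 0 from h) with h | h
    · exact hI h
    · exact hJ h
  unfold cls
  rw [dif_neg hI, dif_neg hJ, dif_neg hIJ, ← map_mul]
  rfl

theorem cls_one : cls K 1 = 1 := by
  have h1 : (1 : Ideal (𝓞 K)) ≠ ⊥ := one_ne_zero
  unfold cls
  rw [dif_neg h1]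
  exact map_one _

/-- `lt` as a homomorphism. -/
noncomputable def fh (ψ : ClassGroup (𝓞 K) →* ℂˣ) (s : ℝ) : Ideal (𝓞 K) →*₀ ℂ where
  toFun := lt K ψ s
  map_zero' := lt_bot K ψ s
  map_one' := by
    have h1 : (1 : Ideal (𝓞 K)) ≠ ⊥ := one_ne_zero
    unfold lt
    rw [if_pos h1, cls_one, map_one, map_one]
    simp
  map_mul' := by
    intro I J
    by_cases hI : I = ⊥
    · subst hI
      rw [lt_bot, zero_mul, Ideal.bot_mul, lt_bot]
    by_cases hJ : J = ⊥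
    · subst hJ
      rw [lt_bot, mul_zero, Ideal.mul_bot, lt_bot]
    have hIJ : I * J ≠ ⊥ := by
      intro h
      rcases mul_eq_zero.1 (show I * J = 0 from h) with h | h
      · exact hI h
      · exact hJ h
    unfold lt
    rw [if_pos hI, if_pos hJ, if_pos hIJ, cls_mul K hI hJ, map_mul, map_mul, Nat.cast_mul,
      Real.mul_rpow (Nat.cast_nonneg _) (Nat.cast_nonneg _)]
    push_cast
    ring

theorem two_le (v : HeightOneSpectrum (𝓞 K)) : (2 : ℝ) ≤ (v.asIdeal.absNorm : ℝ) := by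
  have h1 : v.asIdeal.absNorm ≠ 1 := by
    intro h
    exact v.isPrime.ne_top (Ideal.absNorm_eq_one_iff.1 h)
  have h0 : v.asIdeal.absNorm ≠ 0 := by
    intro h
    exact v.ne_bot (Ideal.absNorm_eq_zero_iff.1 h)
  exact_mod_cast (by omega : 2 ≤ v.asIdeal.absNorm)

theorem log_bound {z : ℂ} (hz : ‖z‖ ≤ 1 / 2) : |z.re - -Real.log ‖1 - z‖| ≤ ‖z‖ ^ 2 := by
  have h1 : ‖-z‖ < 1 := by rw [norm_neg]; linarith
  have h2 := Complex.norm_log_one_add_sub_self_le h1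
  have h3 : (Complex.log (1 + -z) - -z).re = z.re - -Real.log ‖1 - z‖ := by
    rw [Complex.sub_re, Complex.log_re, Complex.neg_re, ← sub_eq_add_neg]
    ring
  rw [← h3]
  refine (Complex.abs_re_le_norm _).trans (h2.trans ?_)
  rw [norm_neg]
  have h4 : (1 - ‖z‖)⁻¹ ≤ 2 := by
    rw [inv_le_comm₀ (by linarith) (by norm_num)]
    linarith
  have h5 : 0 ≤ ‖z‖ ^ 2 := by positivity
  nlinarith

omit [NumberField K] in
theorem inj : Function.Injective (fun v : HeightOneSpectrum (𝓞 K) => v.asIdeal) :=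
  fun _ _ h => HeightOneSpectrum.ext h

end ILg

open ILg in
theorem pr_Lg (hEp : StEp.{u}) (hSi : StSi.{u}) : StLg.{u} := by
  intro K _ _ ψ
  have hS2 : Summable (fun v : HeightOneSpectrum (𝓞 K) => (v.asIdeal.absNorm : ℝ) ^ (-2 : ℝ)) :=
    (hSi K 2 (by norm_num)).comp_injective (inj K)
  refine ⟨∑' v : HeightOneSpectrum (𝓞 K), (v.asIdeal.absNorm : ℝ) ^ (-2 : ℝ), fun s hs => ?_⟩
  have hs1 : 1 < s := hs.1
  have hN : Summable (fun v : HeightOneSpectrum (𝓞 K) => (v.asIdeal.absNorm : ℝ) ^ (-s)) :=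
    (hSi K s hs1).comp_injective (inj K)
  have hsum : Summable (fun I : Ideal (𝓞 K) => ‖fh K ψ s I‖) :=
    Summable.of_nonneg_of_le (fun _ => norm_nonneg _) (fun I => norm_lt_le K ψ s I) (hSi K s hs1)
  have hE := hEp (𝓞 K) (fh K ψ s) hsum
  have hz : ∀ v : HeightOneSpectrum (𝓞 K),
      ‖lt K ψ s v.asIdeal‖ = (v.asIdeal.absNorm : ℝ) ^ (-s) := fun v => norm_lt K ψ s _ v.ne_bot
  have hhalf : ∀ v : HeightOneSpectrum (𝓞 K), ‖lt K ψ s v.asIdeal‖ ≤ 1 / 2 := by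
    intro v
    rw [hz]
    have h2 := two_le K v
    have h3 : (v.asIdeal.absNorm : ℝ) ^ (-s) ≤ (v.asIdeal.absNorm : ℝ) ^ (-1 : ℝ) :=
      Real.rpow_le_rpow_of_exponent_le (by linarith) (by linarith)
    refine h3.trans ?_
    rw [Real.rpow_neg_one, one_div]
    exact inv_anti₀ (by norm_num) h2
  have hsq : ∀ v : HeightOneSpectrum (𝓞 K), ‖lt K ψ s v.asIdeal‖ ^ 2 ≤
      (v.asIdeal.absNorm : ℝ) ^ (-2 : ℝ) := by
    intro v
    rw [hz]
    have h2 := two_le K v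
    rw [← Real.rpow_natCast, ← Real.rpow_mul (by linarith)]
    exact Real.rpow_le_rpow_of_exponent_le (by linarith) (by push_cast; linarith)
  have hb : ∀ v : HeightOneSpectrum (𝓞 K),
      |(lt K ψ s v.asIdeal).re - -Real.log ‖1 - lt K ψ s v.asIdeal‖| ≤
        (v.asIdeal.absNorm : ℝ) ^ (-2 : ℝ) := fun v => (log_bound (hhalf v)).trans (hsq v)
  have hre : Summable (fun v : HeightOneSpectrum (𝓞 K) => (lt K ψ s v.asIdeal).re) := by
    refine Summable.of_norm_bounded hN (fun v => ?_)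
    rw [← hz v, Real.norm_eq_abs]
    exact Complex.abs_re_le_norm _
  have hd : Summable (fun v : HeightOneSpectrum (𝓞 K) =>
      (lt K ψ s v.asIdeal).re - -Real.log ‖1 - lt K ψ s v.asIdeal‖) :=
    Summable.of_norm_bounded hS2 (fun v => hb v)
  have ha : Summable (fun v : HeightOneSpectrum (𝓞 K) =>
      -Real.log ‖1 - lt K ψ s v.asIdeal‖) := by
    have := hre.sub hd
    refine this.congr (fun v => ?_)
    ring
  obtain ⟨S, hSdef⟩ : ∃ S : ℝ, S = ∑' v : HeightOneSpectrum (𝓞 K),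
      -Real.log ‖1 - lt K ψ s v.asIdeal‖ := ⟨_, rfl⟩
  have hprod : ∀ F : Finset (HeightOneSpectrum (𝓞 K)),
      ‖∏ v ∈ F, (1 - fh K ψ s v.asIdeal)⁻¹‖ =
        Real.exp (∑ v ∈ F, -Real.log ‖1 - lt K ψ s v.asIdeal‖) := by
    intro F
    rw [norm_prod, Real.exp_sum]
    refine Finset.prod_congr rfl (fun v _ => ?_)
    have h1 : 0 < ‖1 - lt K ψ s v.asIdeal‖ := by
      rw [norm_pos_iff, sub_ne_zero]
      intro h
      have := hhalf v
      rw [← h, norm_one] at this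
      norm_num at this
    rw [Real.exp_neg, Real.exp_log h1, norm_inv]
    rfl
  have hlim1 : Tendsto (fun F : Finset (HeightOneSpectrum (𝓞 K)) =>
      Real.exp (∑ v ∈ F, -Real.log ‖1 - lt K ψ s v.asIdeal‖)) atTop (𝓝 (Real.exp S)) := by
    rw [hSdef]
    exact (Real.continuous_exp.tendsto _).comp ha.hasSum
  have hlim2 : Tendsto (fun F : Finset (HeightOneSpectrum (𝓞 K)) =>
      Real.exp (∑ v ∈ F, -Real.log ‖1 - lt K ψ s v.asIdeal‖)) atTop (𝓝 ‖LL K ψ s‖) :=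
    hE.norm.congr hprod
  have hL : ‖LL K ψ s‖ = Real.exp S := tendsto_nhds_unique hlim2 hlim1
  refine ⟨?_, ?_⟩
  · rw [← norm_pos_iff, hL]
    exact Real.exp_pos _
  · rw [hL, Real.log_exp, hSdef, ← hre.tsum_sub ha]
    have h1 : |∑' v : HeightOneSpectrum (𝓞 K),
        ((lt K ψ s v.asIdeal).re - -Real.log ‖1 - lt K ψ s v.asIdeal‖)| ≤
        ∑' v : HeightOneSpectrum (𝓞 K),
          |(lt K ψ s v.asIdeal).re - -Real.log ‖1 - lt K ψ s v.asIdeal‖| := by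
      have := norm_tsum_le_tsum_norm (f := fun v : HeightOneSpectrum (𝓞 K) =>
        ((lt K ψ s v.asIdeal).re - -Real.log ‖1 - lt K ψ s v.asIdeal‖)) hd.norm
      simpa [Real.norm_eq_abs] using this
    exact h1.trans (hd.abs.tsum_le_tsum hb hS2)

end Pool.Agent.Work.MP_59f3ad_nt.UCF
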