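import Mathlib
import Pool.Agent.Work.MP_59f3ad_nt.UCF.Stmts

/-!
Library UCF, item Mi: the characters in `X(M/K)` are trivial on the classes extended from `F`.
-/

set_option autoImplicit false

open NumberField IsDedekindDomain Filter Topology
open scoped Pointwise nonZeroDivisors

namespace Pool.Agent.Work.MP_59f3ad_nt.UCF

universe u

namespace IMi

open Classical in
/-- the terms of `PS` -/
noncomputable def tm {K : Type u} [Field K] [NumberField K] (S : Set (HeightOneSpectrum (𝓞 K)))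
    (s : ℝ) (v : HeightOneSpectrum (𝓞 K)) : ℝ :=
  if v ∈ S then (v.asIdeal.absNorm : ℝ) ^ (-s) else 0

theorem PS_eq {K : Type u} [Field K] [NumberField K] (S : Set (HeightOneSpectrum (𝓞 K)))
    (s : ℝ) : PS K S s = ∑' v, tm S s v := rfl

theorem nonneg {K : Type u} [Field K] [NumberField K] (S : Set (HeightOneSpectrum (𝓞 K)))
    (s : ℝ) (v : HeightOneSpectrum (𝓞 K)) : 0 ≤ tm S s v := by
  unfold tm
  split_ifs
  · positivity
  · exact le_rfl

theorem summ (hSi : StSi.{u}) {K : Type u} [Field K] [NumberField K]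
    (S : Set (HeightOneSpectrum (𝓞 K))) (s : ℝ) (hs : 1 < s) : Summable (tm S s) := by
  have h1 := (hSi K s hs).comp_injective
    (i := fun v : HeightOneSpectrum (𝓞 K) => v.asIdeal) (fun v w h => HeightOneSpectrum.ext h)
  refine Summable.of_nonneg_of_le (nonneg S s) (fun v => ?_) h1
  unfold tm
  split_ifs
  · exact le_rfl
  · show (0 : ℝ) ≤ (v.asIdeal.absNorm : ℝ) ^ (-s)
    positivity

theorem le_one {K : Type u} [Field K] [NumberField K] (S : Set (HeightOneSpectrum (𝓞 K)))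
    (s : ℝ) (hs : 1 < s) (v : HeightOneSpectrum (𝓞 K)) : tm S s v ≤ 1 := by
  unfold tm
  split_ifs
  · apply Real.rpow_le_one_of_one_le_of_nonpos
    · have h1 : v.asIdeal.absNorm ≠ 0 := by
        intro h
        exact v.ne_bot (Ideal.absNorm_eq_zero_iff.1 h)
      exact_mod_cast Nat.one_le_iff_ne_zero.2 h1
    · linarith
  · exact zero_le_one

theorem fin_bd {K : Type u} [Field K] [NumberField K] (S : Set (HeightOneSpectrum (𝓞 K)))
    (hS : S.Finite) : ∃ C : ℝ, ∀ s : ℝ, 1 < s → PS K S s ≤ C := by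
  refine ⟨hS.toFinset.card, fun s hs => ?_⟩
  rw [PS_eq, tsum_eq_sum (s := hS.toFinset) (fun v hv => by
    have h1 : v ∉ S := fun h => hv (hS.mem_toFinset.2 h)
    unfold tm
    rw [if_neg h1])]
  calc ∑ v ∈ hS.toFinset, tm S s v ≤ ∑ v ∈ hS.toFinset, (1 : ℝ) :=
        Finset.sum_le_sum fun v _ => le_one S s hs v
    _ = hS.toFinset.card := by simp

theorem cover (hSi : StSi.{u}) {K : Type u} [Field K] [NumberField K]
    (A B C : Set (HeightOneSpectrum (𝓞 K))) (h : ∀ v, v ∈ A ∨ v ∈ B ∨ v ∈ C) (s : ℝ)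
    (hs : 1 < s) : PS K Set.univ s ≤ PS K A s + PS K B s + PS K C s := by
  rw [PS_eq, PS_eq, PS_eq, PS_eq, ← (summ hSi A s hs).tsum_add (summ hSi B s hs),
    ← ((summ hSi A s hs).add (summ hSi B s hs)).tsum_add (summ hSi C s hs)]
  refine (summ hSi Set.univ s hs).tsum_le_tsum (fun v => ?_)
    (((summ hSi A s hs).add (summ hSi B s hs)).add (summ hSi C s hs))
  have hA := nonneg A s v
  have hB := nonneg B s v
  have hC := nonneg C s v
  have hU : tm Set.univ s v = (v.asIdeal.absNorm : ℝ) ^ (-s) := by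
    unfold tm
    rw [if_pos (Set.mem_univ _)]
  show tm Set.univ s v ≤ tm A s v + tm B s v + tm C s v
  rcases h v with h1 | h1 | h1
  · have : tm A s v = (v.asIdeal.absNorm : ℝ) ^ (-s) := by
      unfold tm
      rw [if_pos h1]
    linarith
  · have : tm B s v = (v.asIdeal.absNorm : ℝ) ^ (-s) := by
      unfold tm
      rw [if_pos h1]
    linarith
  · have : tm C s v = (v.asIdeal.absNorm : ℝ) ^ (-s) := by
      unfold tm
      rw [if_pos h1]
    linarith

/-- inert primes of a quadratic extension -/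
theorem inert (F K : Type u) [Field F] [NumberField F] [Field K] [NumberField K] [Algebra F K]
    [IsGalois F K] (h2 : Module.finrank F K = 2) (v : HeightOneSpectrum (𝓞 F))
    (hv : v ∉ Spl F K) (P : Ideal (𝓞 K)) [hP : P.IsPrime] [hl : P.LiesOver v.asIdeal]
    (he : P.ramificationIdx (𝓞 F) = 1) :
    P.inertiaDeg (𝓞 F) = 2 ∧ v.asIdeal.map (algebraMap (𝓞 F) (𝓞 K)) = P := by
  have gal1 : IsGaloisGroup Gal(K/F) (𝓞 F) (𝓞 K) := .of_isFractionRing _ _ _ F K
  have hvm : v.asIdeal.IsMaximal := v.isMaximal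
  have h1 := Ideal.ncard_primesOver_mul_ramificationIdxIn_mul_inertiaDegIn v.asIdeal (𝓞 K)
    Gal(K/F)
  rw [Ideal.ramificationIdxIn_eq_ramificationIdx v.asIdeal P Gal(K/F),
    Ideal.inertiaDegIn_eq_inertiaDeg v.asIdeal P Gal(K/F), he, one_mul,
    IsGalois.card_aut_eq_finrank, h2] at h1
  have h3 : P.inertiaDeg (𝓞 F) ≠ 1 := fun h => hv ⟨P, hP, hl, he, h⟩
  have h4 : P.inertiaDeg (𝓞 F) = 2 := by
    have h5 : P.inertiaDeg (𝓞 F) ∣ 2 := ⟨_, by rw [← h1]; ring⟩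
    rcases (Nat.dvd_prime Nat.prime_two).1 h5 with h | h
    · exact absurd h h3
    · exact h
  refine ⟨h4, ?_⟩
  rw [h4] at h1
  have h5 : (v.asIdeal.primesOver (𝓞 K)).ncard = 1 := by omega
  obtain ⟨Q, hQ⟩ := Set.ncard_eq_one.1 h5
  have h6 : P ∈ v.asIdeal.primesOver (𝓞 K) := ⟨hP, hl⟩
  rw [hQ, Set.mem_singleton_iff] at h6
  rw [Ideal.map_algebraMap_eq_finsetProd_pow (p := v.asIdeal) v.ne_bot]
  have h7 : (v.asIdeal.primesOver (𝓞 K)).toFinset = {P} := by
    ext Q'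
    rw [Set.mem_toFinset, hQ, h6, Finset.mem_singleton, Set.mem_singleton_iff]
  rw [h7, Finset.prod_singleton, he, pow_one]

/-- the final inequality -/
theorem final (m : ℕ) (hm : 0 < m) (B : ℝ) (h : ∀ s ∈ Set.Ioc (1 : ℝ) 2,
    Real.log (1 / (s - 1)) ≤ (1 / 2) * Real.log (1 / (s - 1)) +
      (1 / (m : ℝ)) * Real.log (1 / (s - 1)) + B) : m ≤ 2 := by
  by_contra hcon
  push Not at hcon
  have hm3 : (3 : ℝ) ≤ m := by exact_mod_cast hcon
  have h1 : 1 / (m : ℝ) ≤ 1 / 3 := one_div_le_one_div_of_le (by norm_num) hm3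
  -- take `log (1/(s-1)) = max 0 (6 B + 6)`
  set T : ℝ := max 0 (6 * B + 6) with hT
  have hT0 : 0 ≤ T := le_max_left _ _
  have hTB : 6 * B + 6 ≤ T := le_max_right _ _
  have h2 := h (1 + Real.exp (-T)) ⟨by linarith [Real.exp_pos (-T)], by
    have : Real.exp (-T) ≤ 1 := Real.exp_le_one_iff.2 (by linarith)
    linarith⟩
  have h3 : Real.log (1 / (1 + Real.exp (-T) - 1)) = T := by
    rw [add_sub_cancel_left, one_div, ← Real.exp_neg, neg_neg, Real.log_exp]
  rw [h3] at h2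
  have h4 : 1 / (m : ℝ) * T ≤ 1 / 3 * T := mul_le_mul_of_nonneg_right h1 hT0
  linarith

end IMi

theorem pr_Mi (hFr : StFr.{u}) (hEx : StEx.{u}) (hNv : StNv.{u}) (hNm : StNm.{u})
    (hP0 : StP0.{u}) (hD2 : StD2.{u}) (hD1 : StD1.{u}) (hFi : StFi.{u}) (hSi : StSi.{u}) :
    StMi.{u} := by
  intro F K M _ _ _ _ _ _ _ _ _ _ _ _ h2 hodd hinv hun ψ hψ
  have hquad : Algebra.IsQuadraticExtension F K := { finrank_eq_two' := h2 }
  have hgal : IsGalois F K := inferInstance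
  obtain ⟨-, ⟨J, hJ⟩, -⟩ := hNm F K
  set ψ' : ClassGroup (𝓞 F) →* ℂˣ := ψ.comp J with hψ'
  suffices h1 : ψ' = 1 by
    intro I hI
    rw [← hJ I hI]
    have h3 := congrArg (fun f : ClassGroup (𝓞 F) →* ℂˣ => f (cls F I)) h1
    exact h3
  -- the order
  have hpow : ψ' ^ Module.finrank K M = 1 := by
    have h3 := hEx.1 K M ψ hψ
    ext x
    have h4 := congrArg (fun f : ClassGroup (𝓞 K) →* ℂˣ => f (J x)) h3
    have h5 : (ψ (J x)) ^ Module.finrank K M = 1 := h4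
    show (((ψ' x) ^ Module.finrank K M : ℂˣ) : ℂ) = ((1 : ℂˣ) : ℂ)
    exact congrArg (fun u : ℂˣ => (u : ℂ)) h5
  have hdvd : orderOf ψ' ∣ Module.finrank K M := orderOf_dvd_of_pow_eq_one hpow
  have hmodd : Odd (orderOf ψ') := hodd.of_dvd_nat hdvd
  have hmpos : 0 < orderOf ψ' := hmodd.pos
  -- the sets of primes
  let Y : Subgroup (ClassGroup (𝓞 F) →* ℂˣ) := Subgroup.zpowers ψ'
  have hY : Nat.card Y = orderOf ψ' := Nat.card_zpowers ψ'
  let R : Set (HeightOneSpectrum (𝓞 F)) :=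
    {v | ∃ P : HeightOneSpectrum (𝓞 K), P.asIdeal.LiesOver v.asIdeal ∧
      P.asIdeal.ramificationIdx (𝓞 F) ≠ 1}
  have hR : R.Finite := by
    have h3 := (hFi F K).image (fun P : HeightOneSpectrum (𝓞 K) =>
      P.asIdeal.comap (algebraMap (𝓞 F) (𝓞 K)))
    refine (h3.preimage (f := fun v : HeightOneSpectrum (𝓞 F) => v.asIdeal)
      (fun v _ w _ h => HeightOneSpectrum.ext h)).subset ?_
    rintro v ⟨P, hP, he⟩
    exact ⟨P, he, hP.over.symm⟩
  have hcov : ∀ v : HeightOneSpectrum (𝓞 F), v ∈ Spl F K ∨ v ∈ R ∨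
      v ∈ {v : HeightOneSpectrum (𝓞 F) | ∀ φ ∈ Y, φ (cls F v.asIdeal) = 1} := by
    intro v
    by_cases hv : v ∈ Spl F K
    · exact Or.inl hv
    by_cases hvR : v ∈ R
    · exact Or.inr (Or.inl hvR)
    refine Or.inr (Or.inr ?_)
    have hvm : v.asIdeal.IsMaximal := v.isMaximal
    obtain ⟨P, hPm, hl⟩ := Ideal.exists_maximal_ideal_liesOver_of_isIntegral (S := 𝓞 K) v.asIdeal
    have hP : P.IsPrime := hPm.isPrime
    have hPb : P ≠ ⊥ := Ideal.ne_bot_of_liesOver_of_ne_bot v.ne_bot P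
    let PP : HeightOneSpectrum (𝓞 K) := ⟨P, hP, hPb⟩
    have he : P.ramificationIdx (𝓞 F) = 1 := by
      by_contra hne
      exact hvR ⟨PP, hl, hne⟩
    obtain ⟨hf, hmap⟩ := IMi.inert F K h2 v hv P he
    have h3 : PP ∈ Spl K M := hFr F K M h2 hodd hinv hun v PP hl he hf
    have h4 : ψ (cls K P) = 1 := hNv K M ψ hψ PP h3
    have h5 : ψ' (cls F v.asIdeal) = 1 := by
      show ψ (J (cls F v.asIdeal)) = 1
      rw [hJ _ v.ne_bot, hmap, h4]
    intro φ hφ
    obtain ⟨k, rfl⟩ := Subgroup.mem_zpowers_iff.1 hφ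
    show (ψ' (cls F v.asIdeal)) ^ k = 1
    rw [h5, one_zpow]
  obtain ⟨B0, hB0⟩ := hP0 F
  obtain ⟨B1, hB1⟩ := hD1 F Y
  obtain ⟨B2, hB2⟩ := hD2 F K
  obtain ⟨B3, hB3⟩ := IMi.fin_bd R hR
  have hle : orderOf ψ' ≤ 2 := by
    refine IMi.final (orderOf ψ') hmpos (B0 + B1 + B2 + B3) (fun s hs => ?_)
    have h3 := (abs_le.1 (hB0 s hs)).1
    have h4 := hB1 s hs
    have h5 := (abs_le.1 (hB2 s hs)).2
    have h6 := hB3 s hs.1
    have h7 := IMi.cover hSi (Spl F K) R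
      {v : HeightOneSpectrum (𝓞 F) | ∀ φ ∈ Y, φ (cls F v.asIdeal) = 1} hcov s hs.1
    rw [hY] at h4
    rw [h2] at h5
    push_cast at h5
    linarith
  have hone : orderOf ψ' = 1 := by
    obtain ⟨k, hk⟩ := hmodd
    omega
  exact orderOf_eq_one_iff.1 hone

end Pool.Agent.Work.MP_59f3ad_nt.UCF
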