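import Mathlib
import Pool.Agent.Work.MP_59f3ad_nt.UCF.Stmts

/-!
# Item Nm of the library UCF: norm, extension and Galois action on class groups
-/

set_option autoImplicit false

open NumberField IsDedekindDomain
open scoped Pointwise nonZeroDivisors

namespace Pool.Agent.Work.MP_59f3ad_nt.UCF

universe u

namespace INm

/-- A homomorphism of ideals which sends nonzero ideals to nonzero ideals, restricted to them. -/
noncomputable def rst {A B : Type u} [CommRing A] [IsDedekindDomain A] [CommRing B]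
    [IsDedekindDomain B] (f : Ideal A →* Ideal B) (h : ∀ I : Ideal A, I ≠ ⊥ → f I ≠ ⊥) :
    (Ideal A)⁰ →* (Ideal B)⁰ where
  toFun I := ⟨f I, mem_nonZeroDivisors_iff_ne_zero.2
    (h I (mem_nonZeroDivisors_iff_ne_zero.1 I.2))⟩
  map_one' := by
    apply Subtype.ext
    exact f.map_one
  map_mul' := by
    intro x y
    apply Subtype.ext
    exact f.map_mul x y

theorem cls_eq (K : Type u) [Field K] [NumberField K] (I : Ideal (𝓞 K)) (h : I ≠ ⊥) :
    cls K I = ClassGroup.mk0 ⟨I, mem_nonZeroDivisors_iff_ne_zero.mpr h⟩ := by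
  unfold cls
  rw [dif_neg h]

theorem key (hCg : StCg.{u}) (K M : Type u) [Field K] [NumberField K] [Field M] [NumberField M]
    (f : Ideal (𝓞 K) →* Ideal (𝓞 M)) (h : ∀ I : Ideal (𝓞 K), I ≠ ⊥ → f I ≠ ⊥)
    (hp : ∀ x : 𝓞 K, (f (Ideal.span {x})).IsPrincipal) :
    ∃ F : ClassGroup (𝓞 K) →* ClassGroup (𝓞 M), ∀ I : Ideal (𝓞 K), I ≠ ⊥ →
      F (cls K I) = cls M (f I) := by
  obtain ⟨F, hF⟩ := hCg (𝓞 K) (𝓞 M) (rst f h) (by
    intro I hI
    obtain ⟨x, hx⟩ := hI
    change (f I).IsPrincipal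
    rw [hx]
    exact hp x)
  refine ⟨F, ?_⟩
  intro I hI
  rw [cls_eq K I hI, cls_eq M (f I) (h I hI), hF]
  rfl

end INm

open INm in
/-- Item Nm. -/
theorem pr_Nm (hCg : StCg.{u}) : StNm.{u} := by
  intro K M _ _ _ _ _
  refine ⟨?_, ?_, ?_⟩
  · refine key hCg M K ((Ideal.relNorm (𝓞 K) : Ideal (𝓞 M) →*₀ Ideal (𝓞 K)) :
      Ideal (𝓞 M) →* Ideal (𝓞 K)) ?_ ?_
    · intro I hI
      change Ideal.relNorm (𝓞 K) I ≠ ⊥
      rw [Ne, Ideal.relNorm_eq_bot_iff]
      exact hI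
    · intro x
      change (Ideal.relNorm (𝓞 K) (Ideal.span {x})).IsPrincipal
      rw [Ideal.relNorm_singleton]
      exact ⟨⟨_, rfl⟩⟩
  · refine key hCg K M ((Ideal.mapHom (algebraMap (𝓞 K) (𝓞 M)) :
      Ideal (𝓞 K) →+* Ideal (𝓞 M)) : Ideal (𝓞 K) →* Ideal (𝓞 M)) ?_ ?_
    · intro I hI
      change I.map (algebraMap (𝓞 K) (𝓞 M)) ≠ ⊥
      rw [Ne, Ideal.map_eq_bot_iff_of_injective (FaithfulSMul.algebraMap_injective (𝓞 K) (𝓞 M))]
      exact hI
    · intro x
      change ((Ideal.span {x}).map (algebraMap (𝓞 K) (𝓞 M))).IsPrincipal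
      rw [Ideal.map_span, Set.image_singleton]
      exact ⟨⟨_, rfl⟩⟩
  · intro g
    refine key hCg M M ((MulSemiringAction.toRingHom Gal(M/K) (Ideal (𝓞 M)) g :
      Ideal (𝓞 M) →+* Ideal (𝓞 M)) : Ideal (𝓞 M) →* Ideal (𝓞 M)) ?_ ?_
    · intro I hI
      change g • I ≠ ⊥
      intro h
      apply hI
      have h2 := congrArg (fun J => g⁻¹ • J) h
      simp only [inv_smul_smul, Ideal.smul_bot] at h2
      exact h2
    · intro x
      change (g • (Ideal.span {x})).IsPrincipal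
      rw [Ideal.smul_closure, Set.smul_set_singleton]
      exact ⟨⟨_, rfl⟩⟩

end Pool.Agent.Work.MP_59f3ad_nt.UCF
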