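import Mathlib
import Pool.Agent.Work.MP_59f3ad_nt.UCF.Stmts

open NumberField IsDedekindDomain
open scoped nonZeroDivisors

namespace Pool.Agent.Work.MP_59f3ad_nt.UCF

universe u

theorem pr_Nv : StNv.{u} := by
  intro K M _ _ _ _ _ ψ hψ v hv
  obtain ⟨P, hP, hPv, -, hf⟩ := hv
  have hv0 : v.asIdeal ≠ ⊥ := v.ne_bot
  have hP0 : P ≠ ⊥ := by
    rintro rfl
    apply hv0
    have := hPv.over
    rw [this]
    exact Ideal.under_bot (𝓞 K) (𝓞 M)
  have hPm : P.IsMaximal := hP.isMaximal hP0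
  have hvm : v.asIdeal.IsMaximal := v.isMaximal
  have h1 : Ideal.relNorm (𝓞 K) P = v.asIdeal := by
    rw [Ideal.relNorm_eq_pow_of_isMaximal P v.asIdeal]
    rw [hf, pow_one]
  have := hψ P hP0
  rwa [h1] at this

end Pool.Agent.Work.MP_59f3ad_nt.UCF
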