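import Mathlib
import Pool.Agent.Work.MP_59f3ad_nt.UCF.Stmts

/-!
Item P0 of the library UCF: the sum over all primes.
-/

open NumberField IsDedekindDomain Filter Topology
open scoped Pointwise nonZeroDivisors

namespace Pool.Agent.Work.MP_59f3ad_nt.UCF

universe u

namespace IP0

variable (K : Type u) [Field K] [NumberField K]

theorem lt_one (s : ℝ) (I : Ideal (𝓞 K)) :
    lt K 1 s I = (((if I ≠ ⊥ then (I.absNorm : ℝ) ^ (-s) else 0 : ℝ)) : ℂ) := by
  unfold lt
  split_ifs with h
  · simp
  · simp

theorem LL_one (s : ℝ) : LL K 1 s = ((zK K s : ℝ) : ℂ) := by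
  unfold LL zK
  rw [Complex.ofReal_tsum]
  exact tsum_congr fun I => lt_one K s I

theorem PS_univ (s : ℝ) : PS K Set.univ s =
    ∑' v : HeightOneSpectrum (𝓞 K), (lt K 1 s v.asIdeal).re := by
  unfold PS
  refine tsum_congr fun v => ?_
  rw [lt_one, Complex.ofReal_re, if_pos (Set.mem_univ v), if_pos v.ne_bot]

end IP0

theorem pr_P0 (hLg : StLg.{u}) (hRs : StRs.{u}) : StP0.{u} := by
  intro K _ _
  obtain ⟨B₀, hB₀⟩ := hLg K 1
  obtain ⟨a, b, ha, hab⟩ := hRs K
  have hb : 0 < b := by
    have h := hab 2 ⟨by norm_num, le_refl _⟩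
    have h2 := h.1.trans h.2
    have e : ((2 : ℝ) - 1) = 1 := by norm_num
    rw [e, div_one, div_one] at h2
    linarith
  refine ⟨B₀ + (|Real.log a| + |Real.log b|), fun s hs => ?_⟩
  have hs0 : 0 < s - 1 := by linarith [hs.1]
  have h1 := (hB₀ s hs).2
  rw [← IP0.PS_univ, IP0.LL_one, Complex.norm_real] at h1
  obtain ⟨h2, h3⟩ := hab s hs
  have hz : 0 < zK K s := lt_of_lt_of_le (by positivity) h2
  rw [Real.norm_of_nonneg hz.le] at h1
  have h4 : Real.log a + Real.log (1 / (s - 1)) ≤ Real.log (zK K s) := by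
    rw [← Real.log_mul ha.ne' (by positivity)]
    refine Real.log_le_log (by positivity) ?_
    rw [mul_one_div]
    exact h2
  have h5 : Real.log (zK K s) ≤ Real.log b + Real.log (1 / (s - 1)) := by
    rw [← Real.log_mul hb.ne' (by positivity)]
    refine Real.log_le_log hz ?_
    rw [mul_one_div]
    exact h3
  have h6 : |Real.log (zK K s) - Real.log (1 / (s - 1))| ≤ |Real.log a| + |Real.log b| := by
    rw [abs_le]
    constructor
    · have := neg_abs_le (Real.log a)
      have := abs_nonneg (Real.log b)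
      linarith
    · have := le_abs_self (Real.log b)
      have := abs_nonneg (Real.log a)
      linarith
  calc |PS K Set.univ s - Real.log (1 / (s - 1))|
      = |(PS K Set.univ s - Real.log (zK K s)) +
          (Real.log (zK K s) - Real.log (1 / (s - 1)))| := by
        congr 1
        ring
    _ ≤ |PS K Set.univ s - Real.log (zK K s)| +
          |Real.log (zK K s) - Real.log (1 / (s - 1))| := abs_add_le _ _
    _ ≤ B₀ + (|Real.log a| + |Real.log b|) := add_le_add h1 h6

end Pool.Agent.Work.MP_59f3ad_nt.UCF
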