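import Mathlib
import Pool.Agent.Work.MP_59f3ad_nt.UCF.Stmts

/-! Library UCF, item Pm: free permutation modules are cohomologically trivial. -/

set_option autoImplicit false

open NumberField IsDedekindDomain Filter Topology
open scoped Pointwise nonZeroDivisors

namespace Pool.Agent.Work.MP_59f3ad_nt.UCF

universe u

namespace IPm

theorem nn_apply {A : Type u} [AddCommGroup A] (n : ℕ) (σ : AddMonoid.End A) (f : A) :
    (nn n σ : A →+ A) f = ∑ i ∈ Finset.range n, (σ ^ i : AddMonoid.End A) f := by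
  unfold nn
  induction n with
  | zero => rfl
  | succ n ih =>
    rw [Finset.sum_range_succ, Finset.sum_range_succ, ← ih]
    rfl

theorem dd_apply {A : Type u} [AddCommGroup A] (σ : AddMonoid.End A) (f : A) :
    (dd σ : A →+ A) f = f - σ f := rfl

theorem pow_succ_apply {A : Type u} [AddCommGroup A] (i : ℕ) (σ : AddMonoid.End A) (f : A) :
    (σ ^ (i + 1) : AddMonoid.End A) f = σ ((σ ^ i : AddMonoid.End A) f) := by
  rw [pow_succ']
  rfl

section

variable {X : Type u} (n : ℕ) (π : Equiv.Perm X)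

/-- the representative of the orbit -/
noncomputable def rp (x : X) : X :=
  (Quotient.mk (Equiv.Perm.SameCycle.setoid π) x).out

theorem rp_same (x : X) : π.SameCycle (rp π x) x :=
  Quotient.exact (s := Equiv.Perm.SameCycle.setoid π) (Quotient.out_eq _)

theorem rp_eq {x y : X} (h : π.SameCycle x y) : rp π x = rp π y := by
  unfold rp
  rw [Quotient.sound (s := Equiv.Perm.SameCycle.setoid π) h]

theorem rp_pow (i : ℕ) (x : X) : rp π ((π ^ i) x) = rp π x :=
  (rp_eq π ⟨(i : ℤ), by rw [zpow_natCast]⟩).symm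

theorem rp_rp (x : X) : rp π (rp π x) = rp π x := rp_eq π (rp_same π x)

variable {n π}

theorem ex_pow (hn : 0 < n) (hπ : π ^ n = 1) (x : X) : ∃ i < n, (π ^ i) (rp π x) = x := by
  obtain ⟨i, hi⟩ := rp_same π x
  have h0 : 0 ≤ i % (n : ℤ) := Int.emod_nonneg _ (by omega)
  have h1 : i % (n : ℤ) < n := Int.emod_lt_of_pos _ (by omega)
  refine ⟨(i % (n : ℤ)).toNat, by omega, ?_⟩
  rw [← zpow_natCast, Int.toNat_of_nonneg h0, ← zpow_eq_zpow_emod' i hπ]
  exact hi

theorem sig_pow (σ : AddMonoid.End (X → ℤ)) (hσ : ∀ (f : X → ℤ) (x : X), σ f x = f (π.symm x))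
    (f : X → ℤ) (i m : ℕ) (x : X) :
    ((σ ^ i : AddMonoid.End (X → ℤ)) f) ((π ^ (i + m)) x) = f ((π ^ m) x) := by
  induction i with
  | zero =>
    rw [zero_add, pow_zero]
    rfl
  | succ i ih =>
    rw [pow_succ_apply, hσ, show i + 1 + m = (i + m) + 1 by ring, pow_succ' π (i + m),
      Equiv.Perm.mul_apply, Equiv.symm_apply_apply, ih]

theorem main0 (hn : 0 < n) (hπ : π ^ n = 1)
    (hfree : ∀ i : ℕ, 0 < i → i < n → ∀ x : X, (π ^ i) x ≠ x)
    (σ : AddMonoid.End (X → ℤ)) (hσ : ∀ (f : X → ℤ) (x : X), σ f x = f (π.symm x))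
    (f : X → ℤ) (hf : σ f = f) : ∃ g : X → ℤ, (nn n σ : (X → ℤ) →+ (X → ℤ)) g = f := by
  classical
  have hf1 : ∀ x, f (π x) = f x := by
    intro x
    have h := congrFun hf (π x)
    rw [hσ, Equiv.symm_apply_apply] at h
    exact h.symm
  have hf2 : ∀ (i : ℕ) (x : X), f ((π ^ i) x) = f x := by
    intro i x
    induction i with
    | zero => rw [pow_zero]; rfl
    | succ i ih => rw [pow_succ', Equiv.Perm.mul_apply, hf1, ih]
  refine ⟨fun x => if rp π x = x then f x else 0, ?_⟩
  funext x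
  obtain ⟨k, hk, hkx⟩ := ex_pow hn hπ x
  rw [nn_apply, Finset.sum_apply]
  have hr : rp π (rp π x) = rp π x := rp_rp π x
  generalize rp π x = r at hkx hr
  subst hkx
  have hnk : (π ^ k) r = (π ^ (n + k)) r := by rw [pow_add, hπ, one_mul]
  have key : ∀ i ∈ Finset.range n,
      ((σ ^ i : AddMonoid.End (X → ℤ)) (fun x => if rp π x = x then f x else 0)) ((π ^ k) r) =
        if (π ^ (n + k - i)) r = r then f r else 0 := by
    intro i hi
    have hi' := Finset.mem_range.1 hi
    have h1 : n + k = i + (n + k - i) := by omega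
    rw [hnk]
    conv_lhs => rw [h1]
    rw [sig_pow σ hσ, rp_pow, hr]
    by_cases h : (π ^ (n + k - i)) r = r
    · rw [if_pos h, if_pos h.symm, h]
    · rw [if_neg h, if_neg (fun h' => h h'.symm)]
  rw [Finset.sum_congr rfl key, Finset.sum_eq_single k]
  · rw [Nat.add_sub_cancel, hπ, Equiv.Perm.one_apply, if_pos rfl, hf2]
  · intro i hi hik
    have hi' := Finset.mem_range.1 hi
    rw [if_neg]
    rcases lt_or_gt_of_ne hik with h | h
    · rw [show n + k - i = n + (k - i) by omega, pow_add, hπ, one_mul]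
      exact hfree (k - i) (by omega) (by omega) r
    · exact hfree (n + k - i) (by omega) (by omega) r
  · intro h
    exact absurd (Finset.mem_range.2 hk) h

theorem main1 (hn : 0 < n) (hπ : π ^ n = 1)
    (hfree : ∀ i : ℕ, 0 < i → i < n → ∀ x : X, (π ^ i) x ≠ x)
    (σ : AddMonoid.End (X → ℤ)) (hσ : ∀ (f : X → ℤ) (x : X), σ f x = f (π.symm x))
    (f : X → ℤ) (hf : (nn n σ : (X → ℤ) →+ (X → ℤ)) f = 0) :
    ∃ g : X → ℤ, (dd σ : (X → ℤ) →+ (X → ℤ)) g = f := by
  classical
  choose k hk hkx using fun x => ex_pow hn hπ x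
  have huniq : ∀ (i j : ℕ) (x : X), i < n → j < n → (π ^ i) x = (π ^ j) x → i = j := by
    have hlt : ∀ (i j : ℕ) (x : X), i < j → j < n → (π ^ i) x ≠ (π ^ j) x := by
      intro i j x hij hj h
      rw [show j = (j - i) + i by omega, pow_add, Equiv.Perm.mul_apply] at h
      exact hfree (j - i) (by omega) (by omega) ((π ^ i) x) h.symm
    intro i j x hi hj h
    rcases lt_trichotomy i j with h' | h' | h'
    · exact absurd h (hlt i j x h' hj)
    · exact h'
    · exact absurd h.symm (hlt j i x h' hi)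
  refine ⟨fun y => ∑ j ∈ Finset.range (k y + 1), f ((π ^ j) (rp π y)), ?_⟩
  funext y
  obtain ⟨x, rfl⟩ := π.surjective y
  rw [dd_apply, Pi.sub_apply, hσ, Equiv.symm_apply_apply]
  have hr : rp π (π x) = rp π x := by
    have := rp_pow π 1 x
    rwa [pow_one] at this
  have h1 := hkx (π x)
  have h2 := hkx x
  rw [hr] at h1 ⊢
  have h3 : (π ^ (k x + 1)) (rp π x) = π x := by
    rw [pow_succ', Equiv.Perm.mul_apply, h2]
  rcases (show k x + 1 < n ∨ k x + 1 = n by have := hk x; omega) with h | h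
  · have h4 : k (π x) = k x + 1 := huniq _ _ (rp π x) (hk _) h (h1.trans h3.symm)
    rw [h4, Finset.sum_range_succ, add_sub_cancel_left, h3]
  · rw [h, hπ] at h3
    have h4 : k (π x) = 0 := huniq _ _ (rp π x) (hk _) hn (by
      rw [h1, ← h3, pow_zero])
    rw [h4, h, zero_add, Finset.sum_range_one, pow_zero]
    have h5 : ∑ j ∈ Finset.range n, f ((π ^ j) (rp π x)) = 0 := by
      have h6 := congrFun hf ((π ^ (n - 1)) (rp π x))
      rw [nn_apply, Finset.sum_apply, Pi.zero_apply] at h6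
      rw [← h6, ← Finset.sum_range_reflect]
      refine Finset.sum_congr rfl fun i hi => ?_
      have hi' := Finset.mem_range.1 hi
      have h7 : n - 1 = i + (n - 1 - i) := by omega
      conv_rhs => rw [h7]
      rw [sig_pow σ hσ]
    rw [h5, sub_zero, ← h3]

end

end IPm

theorem pr_Pm : StPm.{u} := by
  intro X _ n π hn hπ hfree σ hσ
  constructor
  · unfold h0
    rw [AddSubgroup.relIndex_eq_one]
    intro f hf
    have hf' : f - σ f = 0 := hf
    obtain ⟨g, hg⟩ := IPm.main0 hn hπ hfree σ hσ f (sub_eq_zero.1 hf').symm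
    exact ⟨g, hg⟩
  · unfold h1
    rw [AddSubgroup.relIndex_eq_one]
    intro f hf
    obtain ⟨g, hg⟩ := IPm.main1 hn hπ hfree σ hσ f hf
    exact ⟨g, hg⟩

end Pool.Agent.Work.MP_59f3ad_nt.UCF
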