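import Mathlib
import Pool.Agent.Work.MP_59f3ad_nt.UCF.Stmts

/-!
Item Rk of the library UCF: a Minkowski family of units, indexed by all infinite places, generates
a subgroup of finite index and has exactly one relation, with positive coefficients.
-/

open NumberField IsDedekindDomain

namespace Pool.Agent.Work.MP_59f3ad_nt.UCF

universe u

namespace IRk

/-- The linear algebra: a matrix with negative entries off the diagonal and zero row sums. -/
theorem sign_aux {V : Type*} [Fintype V] (A : V → V → ℝ) (hneg : ∀ v w, w ≠ v → A v w < 0)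
    (hsum : ∀ v, ∑ w, A v w = 0) (y : V → ℝ) (hy : ∀ w, ∑ v, y v * A v w = 0) :
    (∀ v, y v ≤ 0) ∨ (∀ v, 0 < y v) := by
  classical
  by_contra hcon
  push Not at hcon
  obtain ⟨⟨a, ha⟩, ⟨b, hb⟩⟩ := hcon
  let P : Finset V := Finset.univ.filter (fun v => 0 < y v)
  have h1 : ∑ w ∈ P, ∑ v, y v * A v w = 0 := Finset.sum_eq_zero fun w _ => hy w
  rw [Finset.sum_comm] at h1
  have h2 : ∀ v, ∑ w ∈ P, y v * A v w = y v * ∑ w ∈ P, A v w := fun v => by
    rw [Finset.mul_sum]
  simp_rw [h2] at h1
  have h3 : ∀ v, 0 < y v → 0 < ∑ w ∈ P, A v w := by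
    intro v hv
    have h4 : ∑ w ∈ P, A v w + ∑ w ∈ Pᶜ, A v w = 0 := by
      rw [Finset.sum_add_sum_compl, hsum]
    have h5 : ∑ w ∈ Pᶜ, A v w < 0 := by
      refine Finset.sum_neg (fun w hw => hneg v w ?_) ⟨b, ?_⟩
      · rintro rfl
        simp only [P, Finset.mem_compl, Finset.mem_filter, Finset.mem_univ, true_and] at hw
        exact hw hv
      · simp only [P, Finset.mem_compl, Finset.mem_filter, Finset.mem_univ, true_and]
        exact not_lt.mpr hb
    linarith
  have h6 : ∀ v, 0 ≤ y v * ∑ w ∈ P, A v w := by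
    intro v
    rcases lt_or_ge 0 (y v) with hv | hv
    · exact (mul_pos hv (h3 v hv)).le
    · refine mul_nonneg_of_nonpos_of_nonpos hv (Finset.sum_nonpos fun w hw => ?_)
      refine (hneg v w ?_).le
      rintro rfl
      simp only [P, Finset.mem_filter, Finset.mem_univ, true_and] at hw
      exact absurd hw (not_lt.mpr hv)
  have h7 : 0 < ∑ v, y v * ∑ w ∈ P, A v w :=
    Finset.sum_pos' (fun v _ => h6 v) ⟨a, Finset.mem_univ a, mul_pos ha (h3 a ha)⟩
  linarith

theorem sign {V : Type*} [Fintype V] (A : V → V → ℝ) (hneg : ∀ v w, w ≠ v → A v w < 0)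
    (hsum : ∀ v, ∑ w, A v w = 0) (y : V → ℝ) (hy : ∀ w, ∑ v, y v * A v w = 0) (hne : y ≠ 0) :
    (∀ v, y v < 0) ∨ (∀ v, 0 < y v) := by
  rcases sign_aux A hneg hsum y hy with h | h
  · left
    rcases sign_aux A hneg hsum (-y) (fun w => by simp [hy w]) with h' | h'
    · exact absurd (funext fun v => le_antisymm (h v) (by simpa using h' v)) hne
    · intro v
      simpa using h' v
  · exact Or.inr h

/-- The weighted logarithm of a unit at an infinite place. -/
noncomputable def lg (M : Type u) [Field M] [NumberField M] (w : InfinitePlace M) :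
    Additive (𝓞 M)ˣ →+ ℝ :=
  AddMonoidHom.mk' (fun u => (w.mult : ℝ) * Real.log (w (((Additive.toMul u : (𝓞 M)ˣ) : 𝓞 M) : M)))
    (by
      intro a b
      have ha : w (((Additive.toMul a : (𝓞 M)ˣ) : 𝓞 M) : M) ≠ 0 :=
        (Units.pos_at_place (Additive.toMul a) w).ne'
      have hb : w (((Additive.toMul b : (𝓞 M)ˣ) : 𝓞 M) : M) ≠ 0 :=
        (Units.pos_at_place (Additive.toMul b) w).ne'
      simp only [toMul_add, Units.val_mul, map_mul]
      rw [Real.log_mul ha hb]
      ring)

theorem lg_apply (M : Type u) [Field M] [NumberField M] (w : InfinitePlace M) (u : (𝓞 M)ˣ) :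
    lg M w (Additive.ofMul u) = (w.mult : ℝ) * Real.log (w ((u : 𝓞 M) : M)) := rfl

end IRk

open IRk in
theorem pr_Rk : StRk.{u} := by
  intro M _ _ e he Φ hΦ
  classical
  let A : InfinitePlace M → InfinitePlace M → ℝ := fun v w => lg M w (Additive.ofMul (e v))
  have hneg : ∀ v w, w ≠ v → A v w < 0 := by
    intro v w h
    refine mul_neg_of_pos_of_neg ?_ (he v w h)
    exact_mod_cast w.mult_pos
  have hsum : ∀ v, ∑ w, A v w = 0 := fun v => Units.sum_mult_mul_log (e v)
  have hker : ∀ x : InfinitePlace M → ℤ, Φ x = 0 → x ≠ 0 → (∀ v, x v < 0) ∨ (∀ v, 0 < x v) := by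
    intro x hx hne
    have h1 : ∀ w, ∑ v, (x v : ℝ) * A v w = 0 := by
      intro w
      have h2 : lg M w (Φ x) = 0 := by rw [hx, map_zero]
      rw [hΦ, map_sum] at h2
      simp_rw [map_zsmul, zsmul_eq_mul] at h2
      exact h2
    have h3 : (fun v => (x v : ℝ)) ≠ 0 := by
      intro h
      apply hne
      funext v
      have := congrFun h v
      simpa using this
    rcases sign A hneg hsum (fun v => (x v : ℝ)) h1 h3 with h | h
    · left
      intro v
      exact_mod_cast h v
    · right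
      intro v
      exact_mod_cast h v
  obtain ⟨v₀⟩ : Nonempty (InfinitePlace M) := inferInstance
  -- linear versions
  let Ψ : (InfinitePlace M → ℤ) →ₗ[ℤ] Additive (𝓞 M)ˣ := Φ.toIntLinearMap
  let ev : LinearMap.ker Ψ →ₗ[ℤ] ℤ := (LinearMap.proj v₀).comp (LinearMap.ker Ψ).subtype
  have hev : Function.Injective ev := by
    rw [← LinearMap.ker_eq_bot, LinearMap.ker_eq_bot']
    intro x hx
    by_contra hne
    have h1 : Φ (x : InfinitePlace M → ℤ) = 0 := x.2
    have h2 : (x : InfinitePlace M → ℤ) ≠ 0 := fun h => hne (Subtype.ext h)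
    have h3 : (x : InfinitePlace M → ℤ) v₀ = 0 := hx
    rcases hker _ h1 h2 with h | h
    · have := h v₀
      omega
    · have := h v₀
      omega
  have hk1 : Module.finrank ℤ (LinearMap.ker Ψ) ≤ 1 := by
    have := LinearMap.finrank_le_finrank_of_injective hev
    rwa [Module.finrank_self] at this
  have hr : Module.finrank ℤ (LinearMap.range Ψ) + Module.finrank ℤ (LinearMap.ker Ψ) =
      Fintype.card (InfinitePlace M) := by
    have h1 := Submodule.finrank_quotient_add_finrank (LinearMap.ker Ψ)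
    rw [LinearEquiv.finrank_eq Ψ.quotKerEquivRange, Module.finrank_pi] at h1
    exact h1
  have hq : Module.finrank ℤ (Additive (𝓞 M)ˣ ⧸ LinearMap.range Ψ) +
      Module.finrank ℤ (LinearMap.range Ψ) = Module.finrank ℤ (Additive (𝓞 M)ˣ) :=
    Submodule.finrank_quotient_add_finrank _
  have hE : Module.finrank ℤ (Additive (𝓞 M)ˣ) = Fintype.card (InfinitePlace M) - 1 :=
    Units.finrank_eq M
  have hpos : 0 < Fintype.card (InfinitePlace M) := Fintype.card_pos
  constructor
  · have h0 : Module.finrank ℤ (Additive (𝓞 M)ˣ ⧸ LinearMap.range Ψ) = 0 := by omega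
    have h1 : Module.IsTorsion ℤ (Additive (𝓞 M)ˣ ⧸ LinearMap.range Ψ) :=
      Module.finrank_eq_zero_iff_isTorsion.mp h0
    have h2 : Finite (Additive (𝓞 M)ˣ ⧸ LinearMap.range Ψ) := Module.finite_of_fg_torsion _ h1
    have h3 : Φ.range = (LinearMap.range Ψ).toAddSubgroup := by
      ext x
      rfl
    rw [h3]
    have h4 : Finite (Additive (𝓞 M)ˣ ⧸ (LinearMap.range Ψ).toAddSubgroup) := h2
    exact AddSubgroup.index_ne_zero_of_finite
  · have hk2 : LinearMap.ker Ψ ≠ ⊥ := by
      intro h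
      rw [h, finrank_bot] at hr
      omega
    obtain ⟨d, hd⟩ := (IsPrincipalIdealRing.principal (LinearMap.range ev)).principal
    have hdmem : d ∈ LinearMap.range ev := by
      rw [hd]
      exact Submodule.mem_span_singleton_self d
    obtain ⟨x₁, hx₁⟩ := hdmem
    have hd0 : d ≠ 0 := by
      rintro rfl
      rw [Submodule.span_zero_singleton] at hd
      apply hk2
      rw [eq_bot_iff]
      intro x hx
      have h1 : ev ⟨x, hx⟩ = 0 := by
        have : ev ⟨x, hx⟩ ∈ LinearMap.range ev := ⟨_, rfl⟩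
        rw [hd] at this
        simpa using this
      have h2 : (⟨x, hx⟩ : LinearMap.ker Ψ) = 0 := hev (by rw [h1, map_zero])
      have h3 := congrArg Subtype.val h2
      exact h3
    have hgen : ∀ y : LinearMap.ker Ψ, ∃ k : ℤ, y = k • x₁ := by
      intro y
      have h1 : ev y ∈ LinearMap.range ev := ⟨_, rfl⟩
      rw [hd, Submodule.mem_span_singleton] at h1
      obtain ⟨k, hk⟩ := h1
      refine ⟨k, hev ?_⟩
      rw [map_zsmul, hx₁, hk]
    have hmain : ∀ x₀ : InfinitePlace M → ℤ, Φ x₀ = 0 → 0 < x₀ v₀ →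
        (∀ y : LinearMap.ker Ψ, ∃ k : ℤ, (y : InfinitePlace M → ℤ) = k • x₀) →
        ∃ x₀ : InfinitePlace M → ℤ, (∀ v, 0 < x₀ v) ∧ Φ.ker = AddSubgroup.zmultiples x₀ := by
      intro x₀ h0 h1 h2
      refine ⟨x₀, ?_, ?_⟩
      · have hne : x₀ ≠ 0 := by
          rintro rfl
          simp at h1
        rcases hker x₀ h0 hne with h | h
        · have := h v₀
          omega
        · exact h
      · ext y
        rw [AddMonoidHom.mem_ker, AddSubgroup.mem_zmultiples_iff]
        constructor
        · intro hy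
          obtain ⟨k, hk⟩ := h2 ⟨y, hy⟩
          exact ⟨k, hk.symm⟩
        · rintro ⟨k, rfl⟩
          rw [map_zsmul, h0, smul_zero]
    have hx₁v : (x₁ : InfinitePlace M → ℤ) v₀ = d := hx₁
    have hx₁k : Φ (x₁ : InfinitePlace M → ℤ) = 0 := x₁.2
    rcases lt_or_gt_of_ne hd0 with hneg' | hpos'
    · refine hmain (-(x₁ : InfinitePlace M → ℤ)) (by rw [map_neg, hx₁k, neg_zero]) ?_ ?_
      · rw [Pi.neg_apply, hx₁v]
        omega
      · intro y
        obtain ⟨k, hk⟩ := hgen y
        refine ⟨-k, ?_⟩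
        rw [hk]
        simp
    · refine hmain (x₁ : InfinitePlace M → ℤ) hx₁k (by rw [hx₁v]; exact hpos') ?_
      intro y
      obtain ⟨k, hk⟩ := hgen y
      exact ⟨k, by rw [hk]; simp⟩

end Pool.Agent.Work.MP_59f3ad_nt.UCF
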