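import Mathlib
import Pool.Agent.Work.MP_59f3ad_nt.UCF.Stmts

/-!
Library UCF, item Rs: the residue of the zeta function over the ideals.
-/

set_option autoImplicit false

open NumberField IsDedekindDomain Filter Topology
open scoped Pointwise nonZeroDivisors

namespace Pool.Agent.Work.MP_59f3ad_nt.UCF

universe u

namespace IRs

variable (K : Type u) [Field K] [NumberField K]

theorem zK_eq (s : ℝ) (hs : 1 < s) : zK K s = ∑' I : Ideal (𝓞 K), (I.absNorm : ℝ) ^ (-s) := by
  unfold zK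
  refine tsum_congr fun I => ?_
  split_ifs with h
  · rfl
  · have h1 : I = ⊥ := not_not.1 h
    rw [h1, Ideal.absNorm_bot, Nat.cast_zero, Real.zero_rpow (by linarith)]

theorem anti (h : StSi.{u}) (s t : ℝ) (hs : 1 < s) (hst : s ≤ t) : zK K t ≤ zK K s := by
  rw [zK_eq K s hs, zK_eq K t (by linarith)]
  refine Summable.tsum_le_tsum (fun I => ?_) (h K t (by linarith)) (h K s hs)
  rcases Nat.eq_zero_or_pos I.absNorm with h0 | h0
  · rw [h0, Nat.cast_zero, Real.zero_rpow (by linarith), Real.zero_rpow (by linarith)]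
  · exact Real.rpow_le_rpow_of_exponent_le (by exact_mod_cast h0) (by linarith)

theorem one_le (h : StSi.{u}) (s : ℝ) (hs : 1 < s) : 1 ≤ zK K s := by
  rw [zK_eq K s hs]
  have h1 := (h K s hs).le_tsum (⊤ : Ideal (𝓞 K)) (fun I _ => Real.rpow_nonneg (Nat.cast_nonneg _) _)
  rw [Ideal.absNorm_top, Nat.cast_one, Real.one_rpow] at h1
  exact h1

theorem fiber (h : StSi.{u}) (s : ℝ) (hs : 1 < s) :
    zK K s = ∑' n : ℕ, (Nat.card {I : Ideal (𝓞 K) // Ideal.absNorm I = n} : ℝ) * (n : ℝ) ^ (-s) := by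
  rw [zK_eq K s hs]
  have h1 := h K s hs
  have h2 : Summable fun p : (n : ℕ) × {I : Ideal (𝓞 K) // Ideal.absNorm I = n} =>
      ((p.2.1).absNorm : ℝ) ^ (-s) :=
    h1.comp_injective (i := fun p : (n : ℕ) × {I : Ideal (𝓞 K) // Ideal.absNorm I = n} => p.2.1)
      (Equiv.sigmaFiberEquiv fun I : Ideal (𝓞 K) => Ideal.absNorm I).injective
  have h3 : ∑' I : Ideal (𝓞 K), (I.absNorm : ℝ) ^ (-s) =
      ∑' p : (n : ℕ) × {I : Ideal (𝓞 K) // Ideal.absNorm I = n}, ((p.2.1).absNorm : ℝ) ^ (-s) :=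
    ((Equiv.sigmaFiberEquiv fun I : Ideal (𝓞 K) => Ideal.absNorm I).tsum_eq
      (fun I : Ideal (𝓞 K) => (I.absNorm : ℝ) ^ (-s))).symm
  rw [h3, h2.tsum_sigma]
  refine tsum_congr fun n => ?_
  have h4 : ∀ I : {I : Ideal (𝓞 K) // Ideal.absNorm I = n},
      ((I.1).absNorm : ℝ) ^ (-s) = (n : ℝ) ^ (-s) := fun I => by rw [I.2]
  simp only [h4]
  rw [tsum_const, nsmul_eq_mul]

theorem dz (h : StSi.{u}) (s : ℝ) (hs : 1 < s) :
    dedekindZeta K (s : ℂ) = ((zK K s : ℝ) : ℂ) := by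
  rw [fiber K h s hs, Complex.ofReal_tsum]
  unfold dedekindZeta LSeries
  refine tsum_congr fun n => ?_
  rcases Nat.eq_zero_or_pos n with h0 | h0
  · rw [h0, LSeries.term_zero, Nat.cast_zero, Real.zero_rpow (by linarith), mul_zero,
      Complex.ofReal_zero]
  · rw [LSeries.term_of_ne_zero h0.ne', Real.rpow_neg (Nat.cast_nonneg _)]
    push_cast
    rw [Complex.ofReal_cpow (Nat.cast_nonneg _), div_eq_mul_inv]
    push_cast
    rfl

theorem lim (h : StSi.{u}) :
    Tendsto (fun s : ℝ => (s - 1) * zK K s) (𝓝[>] 1) (𝓝 (dedekindZeta_residue K)) := by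
  have h1 := tendsto_sub_one_mul_dedekindZeta_nhdsGT K
  have h2 := (Complex.continuous_re.tendsto _).comp h1
  rw [Complex.ofReal_re] at h2
  refine h2.congr' ?_
  filter_upwards [self_mem_nhdsWithin] with s hs
  simp only [Function.comp_apply]
  rw [dz K h s hs]
  norm_cast

end IRs

theorem pr_Rs (h : StSi.{u}) : StRs.{u} := by
  intro K _ _
  have hρ := dedekindZeta_residue_pos K
  have h1 := IRs.lim K h
  have h2 : ∀ᶠ s in 𝓝[>] (1 : ℝ), dedekindZeta_residue K / 2 ≤ (s - 1) * zK K s :=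
    h1.eventually_const_le (by linarith)
  have h3 : ∀ᶠ s in 𝓝[>] (1 : ℝ), (s - 1) * zK K s ≤ 2 * dedekindZeta_residue K :=
    h1.eventually_le_const (by linarith)
  obtain ⟨t, ht1, ht⟩ := (mem_nhdsGT_iff_exists_Ioo_subset).1 (h2.and h3)
  have ht1' : (1 : ℝ) < t := ht1
  set δ : ℝ := (t - 1) / 2 with hδ
  have hδ0 : 0 < δ := by rw [hδ]; linarith
  refine ⟨min (dedekindZeta_residue K / 2) δ, max (2 * dedekindZeta_residue K) (zK K (1 + δ)),
    lt_min (by linarith) hδ0, fun s hs => ?_⟩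
  have hs1 : 0 < s - 1 := by linarith [hs.1]
  rw [div_le_iff₀ hs1, le_div_iff₀ hs1]
  rcases lt_or_ge s (1 + δ) with h4 | h4
  · have h5 := ht ⟨hs.1, by rw [hδ] at h4; linarith⟩
    constructor
    · refine (min_le_left _ _).trans ?_
      rw [mul_comm]
      exact h5.1
    · refine le_trans ?_ (le_max_left _ _)
      rw [mul_comm]
      exact h5.2
  · have h5 := IRs.one_le K h s hs.1
    have h6 := IRs.anti K h (1 + δ) s (by linarith) h4
    constructor
    · refine (min_le_right _ _).trans ?_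
      calc δ ≤ 1 * (s - 1) := by linarith
        _ ≤ zK K s * (s - 1) := mul_le_mul_of_nonneg_right h5 hs1.le
    · refine le_trans ?_ (le_max_right _ _)
      calc zK K s * (s - 1) ≤ zK K s * 1 :=
            mul_le_mul_of_nonneg_left (by linarith [hs.2]) (by linarith)
        _ ≤ zK K (1 + δ) := by linarith

end Pool.Agent.Work.MP_59f3ad_nt.UCF
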