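import Mathlib
import Pool.Agent.Work.MP_59f3ad_nt.UCF.Stmts

/-!
Library UCF, item Si: summability of the norms over the ideals.
-/

open NumberField IsDedekindDomain Filter Topology
open scoped Pointwise nonZeroDivisors

namespace Pool.Agent.Work.MP_59f3ad_nt.UCF

universe u

namespace ISi

variable (K : Type u) [Field K] [NumberField K]

/-- the number of ideals of norm `n` -/
noncomputable def cn (n : ℕ) : ℝ := (Nat.card {I : Ideal (𝓞 K) // Ideal.absNorm I = n} : ℝ)

theorem cn_tendsto : ∃ l : ℝ, Tendsto (fun n : ℕ => (∑ k ∈ Finset.Icc 1 n, cn K k) / n) atTop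
    (𝓝 l) := by
  refine ⟨_, ((Ideal.tendsto_norm_le_div_atTop₀ K).comp tendsto_natCast_atTop_atTop).congr
    fun n ↦ ?_⟩
  simp only [Function.comp_apply, Nat.cast_le, cn, ← Nat.cast_sum]
  congr
  rw [← add_left_inj 1, ← Ideal.card_norm_le_eq_card_norm_le_add_one,
    show Finset.Icc 1 n = Finset.Ioc 0 n from Finset.Icc_succ_left_eq_Ioc _ _,
    show 1 = Nat.card {I : Ideal (𝓞 K) // Ideal.absNorm I = 0} by
      simp [Ideal.absNorm_eq_zero_iff],
    Finset.sum_Ioc_add_eq_sum_Icc (n.zero_le),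
    ← Finset.card_preimage_eq_sum_card_image_eq (fun k _ ↦ Ideal.finite_setOfPred_absNorm_eq k)]
  simp [Set.coe_eq_subtype]

theorem cn_bigO : (fun n : ℕ => ∑ k ∈ Finset.Icc 1 n, cn K k) =O[atTop]
    fun n : ℕ => (n : ℝ) ^ (1 : ℝ) := by
  obtain ⟨l, hl⟩ := cn_tendsto K
  have h1 := hl.isBigO_one ℝ
  have h2 := h1.mul (Asymptotics.isBigO_refl (fun n : ℕ => (n : ℝ)) atTop)
  refine (h2.congr' ?_ ?_)
  · filter_upwards [eventually_gt_atTop 0] with n hn
    have : (n : ℝ) ≠ 0 := by positivity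
    field_simp
  · filter_upwards with n
    rw [one_mul, Real.rpow_one]

theorem cn_summable {s : ℝ} (hs : 1 < s) : Summable fun n : ℕ => cn K n * (n : ℝ) ^ (-s) := by
  have h1 := LSeriesSummable_of_sum_norm_bigO_and_nonneg (s := (s : ℂ)) (cn_bigO K)
    (fun n => Nat.cast_nonneg _) zero_le_one (by simpa using hs)
  have h2 := h1.norm
  refine h2.congr fun n => ?_
  rcases Nat.eq_zero_or_pos n with h | h
  · subst h
    rw [LSeries.term_zero, norm_zero, Nat.cast_zero, Real.zero_rpow (by linarith), mul_zero]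
  · rw [LSeries.term_of_ne_zero h.ne', norm_div, Complex.norm_natCast_cpow_of_pos h,
      Complex.ofReal_re, Complex.norm_real,
      Real.norm_of_nonneg (show 0 ≤ cn K n from Nat.cast_nonneg _),
      Real.rpow_neg (Nat.cast_nonneg _), div_eq_mul_inv]

end ISi

open ISi in
theorem pr_Si : StSi.{u} := by
  intro K _ _ s hs
  rw [← (Equiv.sigmaFiberEquiv (Ideal.absNorm : Ideal (𝓞 K) → ℕ)).summable_iff]
  have hfin : ∀ n : ℕ, Finite {I : Ideal (𝓞 K) // Ideal.absNorm I = n} := fun n =>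
    (Ideal.finite_setOfPred_absNorm_eq (S := 𝓞 K) n).to_subtype
  refine (summable_sigma_of_nonneg (f := (fun I : Ideal (𝓞 K) =>
    ((Ideal.absNorm I : ℕ) : ℝ) ^ (-s)) ∘
      (Equiv.sigmaFiberEquiv (Ideal.absNorm : Ideal (𝓞 K) → ℕ)))
    (fun x => Real.rpow_nonneg (Nat.cast_nonneg _) _)).2 ⟨?_, ?_⟩
  · intro n
    have := hfin n
    exact Summable.of_finite
  · refine (cn_summable K hs).congr fun n => ?_
    have e : ∀ y : {I : Ideal (𝓞 K) // Ideal.absNorm I = n},
        ((fun I : Ideal (𝓞 K) => ((Ideal.absNorm I : ℕ) : ℝ) ^ (-s)) ∘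
          (Equiv.sigmaFiberEquiv (Ideal.absNorm : Ideal (𝓞 K) → ℕ))) ⟨n, y⟩ =
        (n : ℝ) ^ (-s) := by
      intro y
      change ((Ideal.absNorm y.1 : ℕ) : ℝ) ^ (-s) = _
      rw [y.2]
    rw [tsum_congr e, tsum_const, nsmul_eq_mul]
    rfl

end Pool.Agent.Work.MP_59f3ad_nt.UCF
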