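import Mathlib
import Pool.Agent.Work.MP_59f3ad_nt.UCF.Stmts

/-!
# Library UCF, item Sp: complete splitting in a compositum
-/

set_option autoImplicit false

open NumberField IsDedekindDomain
open scoped Pointwise nonZeroDivisors

namespace Pool.Agent.Work.MP_59f3ad_nt.UCF

universe u

namespace ISp

variable {F L : Type u} [Field F] [NumberField F] [Field L] [NumberField L] [Algebra F L]
  [IsGalois F L]

/-- The order of the decomposition group in a tower. -/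
theorem card_tower (E : IntermediateField F L) (v : Ideal (𝓞 F)) (p : Ideal (𝓞 E))
    (P : Ideal (𝓞 L)) [v.IsPrime] [p.IsPrime] [P.IsPrime] [p.LiesOver v] [P.LiesOver p] :
    Nat.card (MulAction.stabilizer Gal(L/F) P) =
      (p.ramificationIdx (𝓞 F) * p.inertiaDeg (𝓞 F)) *
        Nat.card (MulAction.stabilizer Gal(L/E) P) := by
  have : P.LiesOver v := Ideal.LiesOver.trans P p v
  rw [Ideal.card_stabilizer_eq v P, Ideal.card_stabilizer_eq p P,
    Ideal.ramificationIdxIn_eq_ramificationIdx v P Gal(L/F),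
    Ideal.inertiaDegIn_eq_inertiaDeg v P Gal(L/F),
    Ideal.ramificationIdxIn_eq_ramificationIdx p P Gal(L/E),
    Ideal.inertiaDegIn_eq_inertiaDeg p P Gal(L/E),
    Ideal.ramificationIdx_tower (R := 𝓞 F) p P, Ideal.inertiaDeg_tower (R := 𝓞 F) p P]
  ring

/-- Restriction of scalars does not change the action on ideals. -/
theorem smul_rs (E : IntermediateField F L) (σ : Gal(L/E)) (P : Ideal (𝓞 L)) :
    (AlgEquiv.restrictScalars F σ : Gal(L/F)) • P = σ • P := rfl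

/-- The map between the decomposition groups. -/
noncomputable def rs (E : IntermediateField F L) (P : Ideal (𝓞 L)) :
    MulAction.stabilizer Gal(L/E) P → MulAction.stabilizer Gal(L/F) P :=
  fun σ => ⟨AlgEquiv.restrictScalars F σ.1, by
    rw [MulAction.mem_stabilizer_iff, smul_rs]
    exact σ.2⟩

theorem rs_inj (E : IntermediateField F L) (P : Ideal (𝓞 L)) : Function.Injective (rs E P) := by
  intro σ τ h
  have h1 : AlgEquiv.restrictScalars F σ.1 = AlgEquiv.restrictScalars F τ.1 :=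
    congrArg Subtype.val h
  apply Subtype.ext
  exact AlgEquiv.restrictScalars_injective F h1

/-- If the prime of `E` has `e f = 1` then the decomposition group fixes `E`. -/
theorem fix_of_one (E : IntermediateField F L) (v : Ideal (𝓞 F)) (p : Ideal (𝓞 E))
    (P : Ideal (𝓞 L)) [v.IsPrime] [p.IsPrime] [P.IsPrime] [p.LiesOver v] [P.LiesOver p]
    (he : p.ramificationIdx (𝓞 F) = 1) (hf : p.inertiaDeg (𝓞 F) = 1) :
    MulAction.stabilizer Gal(L/F) P ≤ E.fixingSubgroup := by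
  have h1 := card_tower E v p P
  rw [he, hf, mul_one, one_mul] at h1
  have hbij : Function.Bijective (rs E P) :=
    (Nat.bijective_iff_injective_and_card (rs E P)).2 ⟨rs_inj E P, h1.symm⟩
  intro σ hσ
  obtain ⟨τ, hτ⟩ := hbij.2 ⟨σ, hσ⟩
  rw [IntermediateField.mem_fixingSubgroup_iff]
  intro x hx
  have h2 : σ = AlgEquiv.restrictScalars F τ.1 := (congrArg Subtype.val hτ).symm
  rw [h2]
  exact τ.1.commutes ⟨x, hx⟩

/-- If the decomposition group fixes `E` then `e f = 1` in `E`. -/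
theorem one_of_fix (E : IntermediateField F L) (v : Ideal (𝓞 F)) (p : Ideal (𝓞 E))
    (P : Ideal (𝓞 L)) [v.IsPrime] [p.IsPrime] [P.IsPrime] [p.LiesOver v] [P.LiesOver p]
    (h : MulAction.stabilizer Gal(L/F) P ≤ E.fixingSubgroup) :
    p.ramificationIdx (𝓞 F) = 1 ∧ p.inertiaDeg (𝓞 F) = 1 := by
  have hsur : Function.Surjective (rs E P) := by
    rintro ⟨σ, hσ⟩
    have h2 := h hσ
    refine ⟨⟨E.fixingSubgroupEquiv ⟨σ, h2⟩, ?_⟩, ?_⟩
    · rw [MulAction.mem_stabilizer_iff, ← smul_rs]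
      exact hσ
    · rfl
  have h1 := card_tower E v p P
  have h3 : Nat.card (MulAction.stabilizer Gal(L/E) P) =
      Nat.card (MulAction.stabilizer Gal(L/F) P) :=
    Nat.card_eq_of_bijective _ ⟨rs_inj E P, hsur⟩
  rw [h3] at h1
  have h4 : 0 < Nat.card (MulAction.stabilizer Gal(L/F) P) := Nat.card_pos
  have h5 : p.ramificationIdx (𝓞 F) * p.inertiaDeg (𝓞 F) = 1 := by
    have h6 : (p.ramificationIdx (𝓞 F) * p.inertiaDeg (𝓞 F)) *
        Nat.card (MulAction.stabilizer Gal(L/F) P) =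
        1 * Nat.card (MulAction.stabilizer Gal(L/F) P) := by
      rw [one_mul]
      exact h1.symm
    exact Nat.eq_of_mul_eq_mul_right h4 h6
  exact ⟨Nat.eq_one_of_mul_eq_one_right h5, Nat.eq_one_of_mul_eq_one_left h5⟩

end ISp

theorem pr_Sp : StSp.{u} := by
  intro F L _ _ _ _ _ _ hab E₁ E₂ v hv
  obtain ⟨⟨p₁, hp₁, hl₁, he₁, hf₁⟩, p₂, hp₂, hl₂, he₂, hf₂⟩ := hv
  obtain ⟨P₁, hP₁, hL₁⟩ := (inferInstance : Nonempty (p₁.primesOver (𝓞 L)))
  obtain ⟨P₂, hP₂, hL₂⟩ := (inferInstance : Nonempty (p₂.primesOver (𝓞 L)))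
  have hvP : v.asIdeal.IsPrime := v.isPrime
  have hPv₁ : P₁.LiesOver v.asIdeal := Ideal.LiesOver.trans P₁ p₁ v.asIdeal
  have hPv₂ : P₂.LiesOver v.asIdeal := Ideal.LiesOver.trans P₂ p₂ v.asIdeal
  have h1 := ISp.fix_of_one E₁ v.asIdeal p₁ P₁ he₁ hf₁
  have h2 := ISp.fix_of_one E₂ v.asIdeal p₂ P₂ he₂ hf₂
  obtain ⟨σ, hσ⟩ := Ideal.exists_smul_eq_of_isGaloisGroup v.asIdeal P₂ P₁ Gal(L/F)
  have h3 : MulAction.stabilizer Gal(L/F) P₁ ≤ E₂.fixingSubgroup := by
    intro τ hτ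
    apply h2
    rw [MulAction.mem_stabilizer_iff] at hτ ⊢
    have h4 : τ • σ • P₂ = σ • P₂ := by
      rw [hσ]
      exact hτ
    rw [← mul_smul, hab τ σ, mul_smul] at h4
    exact smul_left_cancel σ h4
  have h5 : MulAction.stabilizer Gal(L/F) P₁ ≤ (E₁ ⊔ E₂).fixingSubgroup := by
    rw [IntermediateField.fixingSubgroup_sup]
    exact le_inf h1 h3
  have hpr : (P₁.under (𝓞 ↥(E₁ ⊔ E₂))).IsPrime := inferInstance
  have hlo : (P₁.under (𝓞 ↥(E₁ ⊔ E₂))).LiesOver v.asIdeal :=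
    Ideal.LiesOver.tower_bot P₁ (P₁.under (𝓞 ↥(E₁ ⊔ E₂))) v.asIdeal
  obtain ⟨h6, h7⟩ := ISp.one_of_fix (E₁ ⊔ E₂) v.asIdeal (P₁.under (𝓞 ↥(E₁ ⊔ E₂))) P₁ h5
  exact ⟨P₁.under (𝓞 ↥(E₁ ⊔ E₂)), hpr, hlo, h6, h7⟩

end Pool.Agent.Work.MP_59f3ad_nt.UCF
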