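import Mathlib
import Pool.Agent.Work.MP_59f3ad_nt.UCF.Stmts

/-!
Item Tw of the library UCF: two intermediate fields of an abelian extension with trivial
intersection have no common class character (descent along a tower of prime degree steps).
-/

open NumberField IsDedekindDomain

namespace Pool.Agent.Work.MP_59f3ad_nt.UCF

universe u

namespace ITw

theorem relIndex_aux {G Q : Type*} [Group G] [Group Q] (f : G →* Q) (hf : Function.Surjective f)
    (H : Subgroup G) (hH : f.ker = H) (Z : Subgroup Q) :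
    H.relIndex (Z.comap f) = Nat.card Z := by
  subst hH
  rw [← MonoidHom.comap_bot, Subgroup.relIndex_comap, Subgroup.map_comap_eq_self_of_surjective hf,
    Subgroup.relIndex_bot_left]

/-- In a finite commutative group every proper subgroup has prime index in a larger one. -/
theorem exists_prime_over {G : Type*} [Group G] [Finite G] (hc : ∀ a b : G, a * b = b * a)
    (H : Subgroup G) (hH : H ≠ ⊤) : ∃ H' : Subgroup G, H ≤ H' ∧ (H.relIndex H').Prime := by
  have hnor : H.Normal := ⟨fun a ha g => by rwa [hc g a, mul_assoc, mul_inv_cancel, mul_one]⟩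
  have hne : Nat.card (G ⧸ H) ≠ 1 := by
    intro h
    exact hH (Subgroup.index_eq_one.mp h)
  obtain ⟨p, hp, hpd⟩ := Nat.exists_prime_and_dvd hne
  have hfp : Fact p.Prime := ⟨hp⟩
  obtain ⟨x, hx⟩ := exists_prime_orderOf_dvd_card' (G := G ⧸ H) p hpd
  refine ⟨(Subgroup.zpowers x).comap (QuotientGroup.mk' H), ?_, ?_⟩
  · intro a ha
    rw [Subgroup.mem_comap]
    have : (QuotientGroup.mk' H) a = 1 := by
      rw [QuotientGroup.mk'_apply, QuotientGroup.eq_one_iff]
      exact ha
    rw [this]
    exact one_mem _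
  · rw [relIndex_aux (QuotientGroup.mk' H) (QuotientGroup.mk'_surjective H) H
      (QuotientGroup.ker_mk' H), Nat.card_zpowers, hx]
    exact hp

/-- The subgroup argument: `H₁ ≤ H'` of prime index, `H₁ ⊔ H₂ = ⊤` in a commutative group, then
`H' ⊓ H₂` is not contained in `H₁`. -/
theorem not_inf_le {G : Type*} [Group G] (hc : ∀ a b : G, a * b = b * a)
    (H₁ H' H₂ : Subgroup G) (hle : H₁ ≤ H') (hp : (H₁.relIndex H').Prime) (hsup : H₁ ⊔ H₂ = ⊤) :
    ¬ H' ⊓ H₂ ≤ H₁ := by
  intro hcon
  have hnor : H₁.Normal := ⟨fun a ha g => by rwa [hc g a, mul_assoc, mul_inv_cancel, mul_one]⟩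
  have : H' ≤ H₁ := by
    intro x hx
    have hxt : x ∈ H₁ ⊔ H₂ := by rw [hsup]; trivial
    obtain ⟨a, ha, b, hb, rfl⟩ := Subgroup.mem_sup_of_normal_left.mp hxt
    have hb' : b ∈ H' := by
      have := H'.mul_mem (H'.inv_mem (hle ha)) hx
      rwa [inv_mul_cancel_left] at this
    exact H₁.mul_mem ha (hcon ⟨hb', hb⟩)
  have h1 : H₁.relIndex H' = 1 := Subgroup.relIndex_eq_one.mpr this
  rw [h1] at hp
  exact Nat.not_prime_one hp

end ITw

theorem pr_Tw (hNm : StNm.{u}) (hBc : StBc.{u}) (hEx : StEx.{u}) (hKl : StKl.{u}) : StTw.{u} := by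
  intro K L _ _ _ _ _ _ hc K₁ K₂ hK χ hχ₁ hχ₂
  induction' hd : Module.finrank K K₁ using Nat.strong_induction_on with d ih generalizing K₁
  by_cases hbot : K₁ = ⊥
  · subst hbot
    have := hEx.1 K (⊥ : IntermediateField K L) χ hχ₁
    rw [IntermediateField.finrank_bot] at this
    refine MonoidHom.ext fun c => ?_
    have h := DFunLike.congr_fun this c
    rw [MonoidHom.pow_apply, pow_one] at h
    exact h
  have hne : K₁.fixingSubgroup ≠ ⊤ := by
    intro h
    apply hbot
    rw [← IsGalois.fixedField_fixingSubgroup K₁, h, IsGalois.fixedField_top]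
  obtain ⟨H', hle, hprime⟩ := ITw.exists_prime_over hc K₁.fixingSubgroup hne
  let F : IntermediateField K L := IntermediateField.fixedField H'
  have hF : F.fixingSubgroup = H' := IntermediateField.fixingSubgroup_fixedField H'
  have hFK : F ≤ K₁ := by
    rw [← IsGalois.fixedField_fixingSubgroup K₁]
    exact IntermediateField.fixedField_le hle
  let E₁ : IntermediateField F L := IntermediateField.extendScalars hFK
  let E₂ : IntermediateField F L := IntermediateField.extendScalars (le_sup_left : F ≤ F ⊔ K₂)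
  have hnF : NumberField F := NumberField.of_intermediateField F
  have hnE₁ : NumberField E₁ := NumberField.of_intermediateField E₁
  have hnE₂ : NumberField E₂ := NumberField.of_intermediateField E₂
  have hcF : ∀ σ τ : Gal(L/F), σ * τ = τ * σ := by
    intro σ τ
    have h := hc (σ.restrictScalars K) (τ.restrictScalars K)
    ext x
    exact DFunLike.congr_fun h x
  -- degrees
  have hdeg : Module.finrank F E₁ = K₁.fixingSubgroup.relIndex H' := by
    have h1 : Module.finrank K F * Module.finrank F E₁ = Module.finrank K E₁ :=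
      Module.finrank_mul_finrank K F E₁
    have h2 : Module.finrank K E₁ = K₁.fixingSubgroup.index :=
      IntermediateField.finrank_eq_fixingSubgroup_index L K₁
    have h3 : Module.finrank K F = H'.index := by
      rw [← hF]
      exact IntermediateField.finrank_eq_fixingSubgroup_index L F
    have h4 : K₁.fixingSubgroup.relIndex H' * H'.index = K₁.fixingSubgroup.index :=
      Subgroup.relIndex_mul_index hle
    have h5 : 0 < H'.index := Nat.pos_of_ne_zero Subgroup.index_ne_zero_of_finite
    rw [h2, h3, ← h4, mul_comm] at h1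
    exact Nat.eq_of_mul_eq_mul_right h5 h1
  have hE₁ : (Module.finrank F E₁).Prime := by rw [hdeg]; exact hprime
  have hnot : ¬ E₁ ≤ E₂ := by
    intro h
    have h1 : K₁ ≤ F ⊔ K₂ := h
    have hsup : K₁.fixingSubgroup ⊔ K₂.fixingSubgroup = ⊤ := by
      have hb : IntermediateField.fixedField (K₁.fixingSubgroup ⊔ K₂.fixingSubgroup) = ⊥ := by
        rw [eq_bot_iff, ← hK]
        refine le_inf ?_ ?_
        · conv_rhs => rw [← IsGalois.fixedField_fixingSubgroup K₁]
          exact IntermediateField.fixedField_le le_sup_left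
        · conv_rhs => rw [← IsGalois.fixedField_fixingSubgroup K₂]
          exact IntermediateField.fixedField_le le_sup_right
      rw [← IntermediateField.fixingSubgroup_fixedField
        (K₁.fixingSubgroup ⊔ K₂.fixingSubgroup), hb, IntermediateField.fixingSubgroup_bot]
    refine ITw.not_inf_le hc K₁.fixingSubgroup H' K₂.fixingSubgroup hle hprime hsup ?_
    have h2 := IntermediateField.fixingSubgroup_le h1
    rw [IntermediateField.fixingSubgroup_sup, hF] at h2
    exact h2
  obtain ⟨⟨N, hN⟩, -, -⟩ := hNm K F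
  have hf₁ : ↥K₁ →ₐ[K] ↥E₁ := AlgHom.id K K₁
  have hf₂ : ↥K₂ →ₐ[K] ↥E₂ := IntermediateField.inclusion (le_sup_right : K₂ ≤ F ⊔ K₂)
  have g₁ := hEx.2 K ↥K₁ ↥E₁ hf₁
  have g₂ := hEx.2 K ↥K₂ ↥E₂ hf₂
  have hχE₁ := g₁ hχ₁
  have hχE₂ := g₂ hχ₂
  have h1 := (hBc K F E₁ N hN χ).1 hχE₁
  have h2 := (hBc K F E₂ N hN χ).1 hχE₂
  have h3 := hKl F L hcF E₁ E₂ hE₁ hnot _ h1 h2
  have h4 := (hBc K F E₁ N hN χ).2 h3
  have hlt : Module.finrank K F < d := by
    have h1 : Module.finrank K F * Module.finrank F E₁ = Module.finrank K K₁ :=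
      Module.finrank_mul_finrank K F E₁
    rw [← hd, ← h1]
    exact lt_mul_of_one_lt_right Module.finrank_pos hE₁.one_lt
  refine ih _ hlt F ?_ h4 rfl
  rw [eq_bot_iff, ← hK]
  exact inf_le_inf_right K₂ hFK

end Pool.Agent.Work.MP_59f3ad_nt.UCF
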