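import Mathlib
import Pool.Agent.Work.MP_59f3ad_nt.UCF.Stmts

/-!
Block UCF, item UCF: the theorem from the first inequality and the densities.
-/

set_option autoImplicit false

open NumberField IsDedekindDomain
open scoped Pointwise nonZeroDivisors

namespace Pool.Agent.Work.MP_59f3ad_nt.UCF

universe u

namespace IUCF

theorem PS_mono (hSi : StSi.{u}) (K : Type u) [Field K] [NumberField K]
    (S T : Set (HeightOneSpectrum (𝓞 K))) (h : S ⊆ T) (s : ℝ) (hs : 1 < s) :
    PS K S s ≤ PS K T s := by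
  have hsum : Summable (fun v : HeightOneSpectrum (𝓞 K) => (v.asIdeal.absNorm : ℝ) ^ (-s)) :=
    (hSi K s hs).comp_injective (i := fun v : HeightOneSpectrum (𝓞 K) => v.asIdeal)
      (fun v w hvw => HeightOneSpectrum.ext hvw)
  unfold PS
  refine Summable.tsum_le_tsum (fun v => ?_) ?_ ?_
  · by_cases hv : v ∈ S
    · rw [if_pos hv, if_pos (h hv)]
    · rw [if_neg hv]
      split_ifs
      · positivity
      · exact le_rfl
  · refine Summable.of_nonneg_of_le (fun v => ?_) (fun v => ?_) hsum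
    · split_ifs
      · positivity
      · exact le_rfl
    · split_ifs
      · exact le_rfl
      · positivity
  · refine Summable.of_nonneg_of_le (fun v => ?_) (fun v => ?_) hsum
    · split_ifs
      · positivity
      · exact le_rfl
    · split_ifs
      · exact le_rfl
      · positivity

theorem limit (a b B : ℝ) (h : ∀ s ∈ Set.Ioc (1 : ℝ) 2,
    a * Real.log (1 / (s - 1)) ≤ b * Real.log (1 / (s - 1)) + B) : a ≤ b := by
  by_contra hcon
  rw [not_le] at hcon
  set T : ℝ := (|B| + 1) / (a - b) with hT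
  have hab : 0 < a - b := by linarith
  have hT0 : 0 < T := by positivity
  have h1 := h (1 + Real.exp (-T)) ⟨by have := Real.exp_pos (-T); linarith, by
    have : Real.exp (-T) ≤ 1 := Real.exp_le_one_iff.2 (by linarith)
    linarith⟩
  have h2 : Real.log (1 / (1 + Real.exp (-T) - 1)) = T := by
    rw [add_sub_cancel_left, one_div, Real.log_inv, Real.log_exp, neg_neg]
  rw [h2] at h1
  have h3 : (a - b) * T = |B| + 1 := by
    rw [hT]
    field_simp
  have h4 := le_abs_self B
  nlinarith

end IUCF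

/-- Item UCF. -/
theorem pr_UCF (hAb : StAb.{u}) (hNv : StNv.{u}) (hD1 : StD1.{u}) (hD2 : StD2.{u})
    (hSi : StSi.{u}) : StUCF.{u} := by
  intro K M _ _ _ _ _ _ hc ho hu
  have h1 := hAb K M hc ho hu
  have hn0 : 0 < Module.finrank K M := ho.pos
  have hm0 : 0 < Nat.card (XX K M) := lt_of_lt_of_le hn0 h1
  obtain ⟨B1, hB1⟩ := hD1 K (XX K M)
  obtain ⟨B2, hB2⟩ := hD2 K M
  have hsub : Spl K M ⊆ {v | ∀ ψ ∈ XX K M, ψ (cls K v.asIdeal) = 1} :=
    fun v hv ψ hψ => hNv K M ψ hψ v hv
  have h2 : (1 : ℝ) / (Module.finrank K M : ℝ) ≤ 1 / (Nat.card (XX K M) : ℝ) := by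
    refine IUCF.limit _ _ (B1 + B2) fun s hs => ?_
    have h3 := hB1 s hs
    have h4 := (abs_le.1 (hB2 s hs)).1
    have h5 := IUCF.PS_mono hSi K _ _ hsub s hs.1
    linarith
  have h6 : Nat.card (XX K M) ≤ Module.finrank K M := by
    rw [one_div_le_one_div (by exact_mod_cast hn0) (by exact_mod_cast hm0)] at h2
    exact_mod_cast h2
  have h7 : Nat.card (XX K M) = Module.finrank K M := le_antisymm h6 h1
  refine ⟨h7, ?_⟩
  rw [← h7]
  have h8 : Nat.card (ClassGroup (𝓞 K) →* ℂˣ) = Nat.card (ClassGroup (𝓞 K)) :=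
    CommGroup.card_monoidHom_of_hasEnoughRootsOfUnity (ClassGroup (𝓞 K)) ℂ
  have h9 : classNumber K = Nat.card (ClassGroup (𝓞 K)) := by
    unfold classNumber
    rw [Nat.card_eq_fintype_card]
  rw [h9, ← h8]
  exact Subgroup.card_subgroup_dvd_card _

end Pool.Agent.Work.MP_59f3ad_nt.UCF
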