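import Mathlib
import Pool.Agent.Work.MP_59f3ad_nt.UCF.Stmts

/-!
Library UCF, item Uf: unfolding of the sum over the elements of an ideal.
-/

open NumberField IsDedekindDomain Filter Topology
open scoped Pointwise nonZeroDivisors

namespace Pool.Agent.Work.MP_59f3ad_nt.UCF

universe u

namespace IUf

variable {K : Type u} [Field K] [NumberField K]

lemma cls_eq {I : Ideal (𝓞 K)} (hI : I ≠ ⊥) :
    cls K I = ClassGroup.mk0 ⟨I, mem_nonZeroDivisors_iff_ne_zero.mpr hI⟩ := by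
  unfold cls
  rw [dif_neg hI]

lemma cls_mul {I J : Ideal (𝓞 K)} (hI : I ≠ ⊥) (hJ : J ≠ ⊥) :
    cls K (I * J) = cls K I * cls K J := by
  have hIJ : I * J ≠ ⊥ := mul_ne_zero hI hJ
  rw [cls_eq hI, cls_eq hJ, cls_eq hIJ, ← map_mul]
  rfl

lemma cls_one_iff {I : Ideal (𝓞 K)} (hI : I ≠ ⊥) : cls K I = 1 ↔ I.IsPrincipal := by
  rw [cls_eq hI]
  exact ClassGroup.mk0_eq_one_iff _

lemma wt_nonneg (x : 𝓞 K) : 0 ≤ wt K x := by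
  unfold wt
  exact Finset.prod_nonneg fun i _ => le_max_left _ _

/-- the nonzero elements of `J` -/
def Sx (J : Ideal (𝓞 K)) : Set (𝓞 K) := {x | x ∈ J ∧ x ≠ 0}

/-- the ideals of a class -/
def Px (C : ClassGroup (𝓞 K)) : Set (Ideal (𝓞 K)) := {I | I ≠ ⊥ ∧ cls K I = C}

lemma SJ_eq (J : Ideal (𝓞 K)) (s : ℝ) :
    SJ K J s = ∑' x : Sx J, wt K (x : 𝓞 K) * nrm K (x : 𝓞 K) ^ (-s) := by
  rw [tsum_subtype (Sx J) (fun x => wt K x * nrm K x ^ (-s))]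
  unfold SJ
  refine tsum_congr fun x => ?_
  by_cases h : x ∈ J ∧ x ≠ 0
  · rw [if_pos h, Set.indicator_of_mem (show x ∈ Sx J from h)]
  · rw [if_neg h, Set.indicator_of_notMem (show x ∉ Sx J from h)]

lemma zc_eq (C : ClassGroup (𝓞 K)) (s : ℝ) :
    zc K C s = ∑' I : Px C, ((I : Ideal (𝓞 K)).absNorm : ℝ) ^ (-s) := by
  rw [tsum_subtype (Px C) (fun I => (I.absNorm : ℝ) ^ (-s))]
  unfold zc
  refine tsum_congr fun I => ?_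
  by_cases h : I ≠ ⊥ ∧ cls K I = C
  · rw [if_pos h, Set.indicator_of_mem (show I ∈ Px C from h)]
  · rw [if_neg h, Set.indicator_of_notMem (show I ∉ Px C from h)]

lemma gen {J : Ideal (𝓞 K)} (hJ : J ≠ ⊥) (I : Px (cls K J)⁻¹) :
    ∃ g : 𝓞 K, Ideal.span {g} = J * I.1 ∧ g ≠ 0 := by
  obtain ⟨I, hI, hcl⟩ := I
  have hJI : J * I ≠ ⊥ := mul_ne_zero hJ hI
  have h1 : cls K (J * I) = 1 := by
    rw [cls_mul hJ hI, hcl, mul_inv_cancel]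
  obtain ⟨g, hg⟩ := (cls_one_iff hJI).mp h1
  have hg' : Ideal.span {g} = J * I := hg.symm
  refine ⟨g, hg', ?_⟩
  intro h
  apply hJI
  rw [← hg', h]
  exact Ideal.span_singleton_eq_bot.mpr rfl

/-- the generator -/
noncomputable def gn {J : Ideal (𝓞 K)} (hJ : J ≠ ⊥) (I : Px (cls K J)⁻¹) : 𝓞 K :=
  (gen hJ I).choose

lemma gn_span {J : Ideal (𝓞 K)} (hJ : J ≠ ⊥) (I : Px (cls K J)⁻¹) :
    Ideal.span {gn hJ I} = J * I.1 := (gen hJ I).choose_spec.1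

lemma gn_ne {J : Ideal (𝓞 K)} (hJ : J ≠ ⊥) (I : Px (cls K J)⁻¹) : gn hJ I ≠ 0 :=
  (gen hJ I).choose_spec.2

lemma span_unit_mul (x : 𝓞 K) (v : (𝓞 K)ˣ) :
    Ideal.span {(v : 𝓞 K) * x} = Ideal.span {x} := by
  rw [Ideal.span_singleton_eq_span_singleton]
  refine ⟨v⁻¹, ?_⟩
  rw [mul_comm (v : 𝓞 K), mul_assoc, Units.mul_inv, mul_one]

lemma unit_mul_ne (v : (𝓞 K)ˣ) (x : 𝓞 K) (hx : x ≠ 0) : (v : 𝓞 K) * x ≠ 0 := by
  intro h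
  rcases mul_eq_zero.mp h with h1 | h1
  · exact v.ne_zero h1
  · exact hx h1

lemma gn_mem {J : Ideal (𝓞 K)} (hJ : J ≠ ⊥) (I : Px (cls K J)⁻¹) (v : (𝓞 K)ˣ) :
    (v : 𝓞 K) * gn hJ I ∈ J := by
  have h1 : Ideal.span {gn hJ I} ≤ J := (gn_span hJ I).le.trans Ideal.mul_le_left
  have h2 : gn hJ I ∈ J := h1 (Ideal.mem_span_singleton_self (gn hJ I))
  exact J.mul_mem_left (v : 𝓞 K) h2

/-- the parametrization of the nonzero elements -/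
noncomputable def ph {J : Ideal (𝓞 K)} (hJ : J ≠ ⊥) (p : Px (cls K J)⁻¹ × (𝓞 K)ˣ) : Sx J :=
  ⟨(p.2 : 𝓞 K) * gn hJ p.1, gn_mem hJ p.1 p.2, unit_mul_ne p.2 _ (gn_ne hJ p.1)⟩

lemma ph_val {J : Ideal (𝓞 K)} (hJ : J ≠ ⊥) (p : Px (cls K J)⁻¹ × (𝓞 K)ˣ) :
    (ph hJ p : 𝓞 K) = (p.2 : 𝓞 K) * gn hJ p.1 := rfl

lemma ph_span {J : Ideal (𝓞 K)} (hJ : J ≠ ⊥) (p : Px (cls K J)⁻¹ × (𝓞 K)ˣ) :
    Ideal.span {(ph hJ p : 𝓞 K)} = J * p.1.1 := by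
  rw [ph_val, span_unit_mul, gn_span]

lemma ph_inj {J : Ideal (𝓞 K)} (hJ : J ≠ ⊥) : Function.Injective (ph hJ) := by
  rintro ⟨I, v⟩ ⟨I', v'⟩ h
  have h1 : J * I.1 = J * I'.1 := by
    have h2 := ph_span hJ (I, v)
    have h3 := ph_span hJ (I', v')
    rw [h] at h2
    exact h2.symm.trans h3
  have h2 : I = I' := Subtype.ext (mul_left_cancel₀ hJ h1)
  subst h2
  have h3 : (v : 𝓞 K) * gn hJ I = (v' : 𝓞 K) * gn hJ I := congrArg Subtype.val h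
  have h4 : (v : 𝓞 K) = v' := mul_right_cancel₀ (gn_ne hJ I) h3
  rw [Units.ext h4]

lemma ph_surj {J : Ideal (𝓞 K)} (hJ : J ≠ ⊥) : Function.Surjective (ph hJ) := by
  rintro ⟨x, hxJ, hx0⟩
  have hdvd : J ∣ Ideal.span {x} := by
    rw [Ideal.dvd_iff_le, Ideal.span_singleton_le_iff_mem]
    exact hxJ
  obtain ⟨I, hI⟩ := hdvd
  have hsp0 : Ideal.span {x} ≠ (⊥ : Ideal (𝓞 K)) := by
    rw [Ne, Ideal.span_singleton_eq_bot]
    exact hx0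
  have hI0 : I ≠ ⊥ := by
    intro h0
    apply hsp0
    rw [hI, h0]
    exact Ideal.mul_bot J
  have hcl : cls K I = (cls K J)⁻¹ := by
    rw [eq_inv_iff_mul_eq_one, mul_comm, ← cls_mul hJ hI0, ← hI]
    rw [cls_one_iff hsp0]
    exact ⟨x, rfl⟩
  have h4 : Ideal.span {gn hJ ⟨I, hI0, hcl⟩} = Ideal.span {x} := by
    rw [gn_span, hI]
  rw [Ideal.span_singleton_eq_span_singleton] at h4
  obtain ⟨v, hv⟩ := h4
  refine ⟨(⟨I, hI0, hcl⟩, v), ?_⟩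
  apply Subtype.ext
  rw [ph_val]
  show (v : 𝓞 K) * gn hJ ⟨I, hI0, hcl⟩ = x
  rw [mul_comm]
  exact hv

lemma term_eq {J : Ideal (𝓞 K)} (hJ : J ≠ ⊥) (s : ℝ) (p : Px (cls K J)⁻¹ × (𝓞 K)ˣ) :
    wt K (ph hJ p : 𝓞 K) * nrm K (ph hJ p : 𝓞 K) ^ (-s) =
      wt K ((p.2 : 𝓞 K) * gn hJ p.1) *
        ((J.absNorm : ℝ) ^ (-s) * ((p.1 : Ideal (𝓞 K)).absNorm : ℝ) ^ (-s)) := by
  rw [ph_val]
  congr 1
  rw [← ph_val]
  unfold nrm
  rw [ph_span, map_mul, Nat.cast_mul, Real.mul_rpow (by positivity) (by positivity)]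

end IUf

open IUf in
theorem pr_Uf (hWu : StWu.{u}) (hSi : StSi.{u}) : StUf.{u} := by
  intro K _ _ J hJ s hs
  rw [SJ_eq, zc_eq]
  rw [← (Equiv.ofBijective (ph hJ) ⟨ph_inj hJ, ph_surj hJ⟩).tsum_eq
    (fun x : Sx J => wt K (x : 𝓞 K) * nrm K (x : 𝓞 K) ^ (-s))]
  have hterm : ∀ p : Px (cls K J)⁻¹ × (𝓞 K)ˣ,
      (fun x : Sx J => wt K (x : 𝓞 K) * nrm K (x : 𝓞 K) ^ (-s))
        (Equiv.ofBijective (ph hJ) ⟨ph_inj hJ, ph_surj hJ⟩ p) =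
      wt K ((p.2 : 𝓞 K) * gn hJ p.1) *
        ((J.absNorm : ℝ) ^ (-s) * ((p.1 : Ideal (𝓞 K)).absNorm : ℝ) ^ (-s)) :=
    fun p => term_eq hJ s p
  rw [tsum_congr hterm]
  have hfib : ∀ I : Px (cls K J)⁻¹,
      HasSum (fun v : (𝓞 K)ˣ => wt K ((v : 𝓞 K) * gn hJ I) *
        ((J.absNorm : ℝ) ^ (-s) * ((I : Ideal (𝓞 K)).absNorm : ℝ) ^ (-s)))
        ((Units.torsionOrder K : ℝ) *
          ((J.absNorm : ℝ) ^ (-s) * ((I : Ideal (𝓞 K)).absNorm : ℝ) ^ (-s))) := fun I =>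
    (hWu K (gn hJ I) (gn_ne hJ I)).mul_right _
  have hsumI : Summable (fun I : Px (cls K J)⁻¹ =>
      (Units.torsionOrder K : ℝ) *
        ((J.absNorm : ℝ) ^ (-s) * ((I : Ideal (𝓞 K)).absNorm : ℝ) ^ (-s))) :=
    (((hSi K s hs).comp_injective Subtype.val_injective).mul_left _).mul_left _
  have hsum : Summable (fun p : Px (cls K J)⁻¹ × (𝓞 K)ˣ =>
      wt K ((p.2 : 𝓞 K) * gn hJ p.1) *
        ((J.absNorm : ℝ) ^ (-s) * ((p.1 : Ideal (𝓞 K)).absNorm : ℝ) ^ (-s))) := by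
    rw [summable_prod_of_nonneg]
    · refine ⟨fun I => (hfib I).summable, ?_⟩
      refine hsumI.congr fun I => ?_
      exact (hfib I).tsum_eq.symm
    · intro p
      exact mul_nonneg (wt_nonneg _) (by positivity)
  rw [hsum.tsum_prod]
  have h2 : ∀ I : Px (cls K J)⁻¹,
      ∑' v : (𝓞 K)ˣ, wt K ((v : 𝓞 K) * gn hJ I) *
        ((J.absNorm : ℝ) ^ (-s) * ((I : Ideal (𝓞 K)).absNorm : ℝ) ^ (-s)) =
      (Units.torsionOrder K : ℝ) * (J.absNorm : ℝ) ^ (-s) *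
        ((I : Ideal (𝓞 K)).absNorm : ℝ) ^ (-s) := by
    intro I
    rw [(hfib I).tsum_eq]
    ring
  rw [tsum_congr h2, tsum_mul_left]

end Pool.Agent.Work.MP_59f3ad_nt.UCF
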