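import Mathlib
import Pool.Agent.Work.MP_59f3ad_nt.UCF.Stmts

/-!
Item Un of the library UCF: an equivariant family of Minkowski units.
-/

open NumberField IsDedekindDomain
open scoped Pointwise nonZeroDivisors

namespace Pool.Agent.Work.MP_59f3ad_nt.UCF

universe u

namespace IUn

variable {K M : Type u} [Field K] [Field M] [Algebra K M]

theorem ug_coe (g : Gal(M/K)) (u : (𝓞 M)ˣ) :
    ((ug g u : 𝓞 M) : M) = g ((u : 𝓞 M) : M) := rfl

theorem ug_mul (g h : Gal(M/K)) (u : (𝓞 M)ˣ) : ug (g * h) u = ug g (ug h u) := by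
  ext
  simp only [ug_coe]
  rfl

theorem w_ug (g : Gal(M/K)) (u : (𝓞 M)ˣ) (w : InfinitePlace M) :
    w ((ug g⁻¹ u : 𝓞 M) : M) = (g • w) ((u : 𝓞 M) : M) := by
  rw [ug_coe, InfinitePlace.smul_apply]
  rfl

end IUn

theorem pr_Un : StUn.{u} := by
  intro K M _ _ _ _ _
  classical
  have : Module.Finite K M := Module.Finite.of_restrictScalars_finite ℚ K M
  have : Fintype Gal(M/K) := Fintype.ofFinite _
  choose ε hε using fun v : InfinitePlace M => Units.dirichletUnitTheorem.exists_unit M v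
  refine ⟨fun v => ∏ σ : Gal(M/K), ug σ⁻¹ (ε (σ • v)), ?_, ?_⟩
  · intro τ v
    simp only
    rw [map_prod, ← Equiv.prod_comp (Equiv.mulRight τ⁻¹)]
    refine Finset.prod_congr rfl fun σ _ => ?_
    rw [← IUn.ug_mul]
    congr 2
    simp only [Equiv.coe_mulRight, smul_smul, inv_mul_cancel_right]
  · intro v w hwv
    simp only
    have h1 : w (((∏ σ : Gal(M/K), ug σ⁻¹ (ε (σ • v)) : (𝓞 M)ˣ) : 𝓞 M) : M) =
        ∏ σ : Gal(M/K), (σ • w) ((ε (σ • v) : 𝓞 M) : M) := by
      rw [Units.coe_prod]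
      change w (algebraMap (𝓞 M) M (∏ σ : Gal(M/K), ((ug σ⁻¹ (ε (σ • v)) : (𝓞 M)ˣ) : 𝓞 M))) = _
      rw [map_prod, map_prod]
      exact Finset.prod_congr rfl fun σ _ => IUn.w_ug σ _ w
    rw [h1, Real.log_prod]
    · refine Finset.sum_neg (fun σ _ => hε (σ • v) (σ • w) ?_) ⟨1, Finset.mem_univ _⟩
      intro h
      exact hwv (MulAction.injective σ h)
    · intro σ _
      exact (map_ne_zero _).2 (by simp)

end Pool.Agent.Work.MP_59f3ad_nt.UCF
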