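import Mathlib
import Pool.Agent.Work.MP_59f3ad_nt.UCF.Stmts

/-!
Item Ut of the library UCF: unramifiedness passes to an intermediate extension.
-/

open NumberField IsDedekindDomain
open scoped Pointwise nonZeroDivisors

namespace Pool.Agent.Work.MP_59f3ad_nt.UCF

universe u

theorem pr_Ut : StUt.{u} := by
  intro K M _ _ _ _ _ hU E P hP hP0
  haveI := hP
  obtain ⟨⟨Q, hQ1, hQ2⟩⟩ := (inferInstance : Nonempty (Ideal.primesOver P (𝓞 M)))
  haveI := hQ1
  haveI := hQ2
  have hQ0 : Q ≠ ⊥ := by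
    intro h
    apply hP0
    rw [Ideal.over_def Q P, h, Ideal.under_bot]
  have h1 : P.ramificationIdx (𝓞 K) ∣ Q.ramificationIdx (𝓞 K) :=
    Ideal.ramificationIdx_below_dvd P Q
  rw [hU Q hQ1 hQ0] at h1
  exact Nat.dvd_one.1 h1

end Pool.Agent.Work.MP_59f3ad_nt.UCF
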