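import Mathlib
import Pool.Agent.Work.MP_59f3ad_nt.UCF.Stmts

set_option autoImplicit false

/-! Library UCF, item We (helper71): the difference bound, uniform version. -/

open NumberField IsDedekindDomain Filter Topology
open scoped Pointwise nonZeroDivisors

namespace Pool.Agent.Work.MP_59f3ad_nt.UCF

universe u

namespace IWe

/-! ### real numbers -/

theorem exp_sub_one (t : ℝ) : |Real.exp t - 1| ≤ |t| * Real.exp |t| := by
  have h1 : Real.exp t - 1 ≤ t * Real.exp t := by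
    have h2 := Real.add_one_le_exp (-t)
    have h3 := mul_le_mul_of_nonneg_right h2 (Real.exp_pos t).le
    rw [← Real.exp_add, neg_add_cancel, Real.exp_zero] at h3
    linarith
  have h2 : t ≤ Real.exp t - 1 := by linarith [Real.add_one_le_exp t]
  have h3 : Real.exp t ≤ Real.exp |t| := Real.exp_le_exp.2 (le_abs_self t)
  have h4 : 1 ≤ Real.exp |t| := Real.one_le_exp (abs_nonneg t)
  rw [abs_le]
  constructor
  · have h5 : |t| * 1 ≤ |t| * Real.exp |t| := mul_le_mul_of_nonneg_left h4 (abs_nonneg t)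
    linarith [neg_abs_le t]
  · refine h1.trans ?_
    calc t * Real.exp t ≤ |t| * Real.exp t :=
          mul_le_mul_of_nonneg_right (le_abs_self t) (Real.exp_pos t).le
      _ ≤ |t| * Real.exp |t| := mul_le_mul_of_nonneg_left h3 (abs_nonneg t)

theorem core {wu wv Lu Lv s δ n B : ℝ} (hn : 0 ≤ n) (hB : 0 ≤ B) (hδ : 0 ≤ δ) (hδ1 : δ ≤ 1)
    (hs : s ∈ Set.Icc (1 : ℝ) 2) (hu : 0 ≤ wu ∧ wu ≤ 1) (hL : |Lv - Lu| ≤ n * δ)
    (hw : |wv - wu| ≤ B * δ) :
    |wv * Real.exp (Lv * -s) - wu * Real.exp (Lu * -s)| ≤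
      (B + 2 * n) * Real.exp (2 * n) * δ * Real.exp (Lu * -s) := by
  obtain ⟨t, ht⟩ : ∃ t : ℝ, t = (Lv - Lu) * -s := ⟨_, rfl⟩
  have hta : |t| ≤ 2 * n * δ := by
    have hs0 : 0 ≤ s := by linarith [hs.1]
    rw [ht, abs_mul, abs_neg, abs_of_nonneg hs0]
    calc |Lv - Lu| * s ≤ (n * δ) * 2 :=
          mul_le_mul hL hs.2 (by linarith [hs.1]) (by positivity)
      _ = 2 * n * δ := by ring
  have hta' : |t| ≤ 2 * n := hta.trans (by nlinarith)
  have e1 : Real.exp (Lv * -s) = Real.exp (Lu * -s) * Real.exp t := by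
    rw [← Real.exp_add, ht]
    congr 1
    ring
  have e2 : wv * Real.exp (Lv * -s) - wu * Real.exp (Lu * -s) =
      ((wv - wu) * Real.exp t + wu * (Real.exp t - 1)) * Real.exp (Lu * -s) := by
    rw [e1]
    ring
  rw [e2, abs_mul, abs_of_pos (Real.exp_pos (Lu * -s))]
  refine mul_le_mul_of_nonneg_right ?_ (Real.exp_pos _).le
  have h1 : Real.exp t ≤ Real.exp (2 * n) := Real.exp_le_exp.2 ((le_abs_self t).trans hta')
  have h2 : |Real.exp t - 1| ≤ 2 * n * δ * Real.exp (2 * n) :=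
    (exp_sub_one t).trans (mul_le_mul hta (Real.exp_le_exp.2 hta') (Real.exp_pos _).le
      (by positivity))
  calc |(wv - wu) * Real.exp t + wu * (Real.exp t - 1)|
      ≤ |(wv - wu) * Real.exp t| + |wu * (Real.exp t - 1)| := abs_add_le _ _
    _ ≤ B * δ * Real.exp (2 * n) + 1 * (2 * n * δ * Real.exp (2 * n)) := by
        rw [abs_mul, abs_mul, abs_of_pos (Real.exp_pos t), abs_of_nonneg hu.1]
        exact add_le_add (mul_le_mul hw h1 (Real.exp_pos t).le (by positivity))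
          (mul_le_mul hu.2 h2 (abs_nonneg _) zero_le_one)
    _ = (B + 2 * n) * Real.exp (2 * n) * δ := by ring

theorem prod_diff {ι : Type*} (s : Finset ι) (a b : ι → ℝ) (ha : ∀ i, 0 ≤ a i ∧ a i ≤ 1)
    (hb : ∀ i, 0 ≤ b i ∧ b i ≤ 1) :
    |∏ i ∈ s, a i - ∏ i ∈ s, b i| ≤ ∑ i ∈ s, |a i - b i| := by
  classical
  induction s using Finset.induction_on with
  | empty => simp
  | insert i s hi ih =>
    rw [Finset.prod_insert hi, Finset.prod_insert hi, Finset.sum_insert hi]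
    have h1 : 0 ≤ ∏ j ∈ s, a j := Finset.prod_nonneg fun j _ => (ha j).1
    have h2 : ∏ j ∈ s, a j ≤ 1 := Finset.prod_le_one (fun j _ => (ha j).1) fun j _ => (ha j).2
    have e : a i * ∏ j ∈ s, a j - b i * ∏ j ∈ s, b j =
        (a i - b i) * ∏ j ∈ s, a j + b i * (∏ j ∈ s, a j - ∏ j ∈ s, b j) := by ring
    rw [e]
    refine (abs_add_le _ _).trans ?_
    rw [abs_mul, abs_mul, abs_of_nonneg h1, abs_of_nonneg (hb i).1]
    exact add_le_add (mul_le_of_le_one_right (abs_nonneg _) h2)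
      ((mul_le_of_le_one_left (abs_nonneg _) (hb i).2).trans ih)

theorem tent_diff (p q : ℝ) : |max 0 (1 - |p|) - max 0 (1 - |q|)| ≤ |p - q| := by
  rw [max_comm 0, max_comm 0]
  refine (abs_max_sub_max_le_abs _ _ _).trans ?_
  rw [show 1 - |p| - (1 - |q|) = |q| - |p| by ring, abs_sub_comm p q]
  exact abs_abs_sub_abs_le _ _

theorem log_diff {a b e : ℝ} (ha : 0 < a) (h1 : b ≤ a + e) (h2 : a ≤ b + e) (h3 : e ≤ a / 2)
    (_he : 0 ≤ e) : |Real.log b - Real.log a| ≤ 2 * e / a := by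
  have hb : a / 2 ≤ b := by linarith
  have hb0 : 0 < b := by linarith
  rw [abs_le]
  constructor
  · have h4 := Real.log_le_sub_one_of_pos (div_pos ha hb0)
    rw [Real.log_div ha.ne' hb0.ne'] at h4
    have h5 : a / b - 1 ≤ 2 * e / a := by
      rw [div_sub_one hb0.ne', div_le_div_iff₀ hb0 ha]
      nlinarith
    linarith
  · have h4 := Real.log_le_sub_one_of_pos (div_pos hb0 ha)
    rw [Real.log_div hb0.ne' ha.ne'] at h4
    have h5 : b / a - 1 ≤ 2 * e / a := by
      rw [div_sub_one ha.ne', div_le_div_iff_of_pos_right ha]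
      linarith
    linarith

/-! ### number fields -/

open NumberField.Units NumberField.Units.dirichletUnitTheorem NumberField.InfinitePlace
  NumberField.mixedEmbedding Module

variable (K : Type u) [Field K] [NumberField K]

theorem nrm_eq (x : 𝓞 K) : nrm K x = mixedEmbedding.norm (mixedEmbedding K (x : K)) := by
  rw [norm_eq_norm, ← Algebra.coe_norm_int, nrm, Ideal.absNorm_span_singleton]
  rw [Nat.cast_natAbs]
  push_cast
  rfl

theorem log_norm (x : K) (hx : x ≠ 0) :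
    Real.log (mixedEmbedding.norm (mixedEmbedding K x)) =
      ∑ w : InfinitePlace K, (mult w : ℝ) * Real.log (w x) := by
  rw [mixedEmbedding.norm_apply, Real.log_prod]
  · refine Finset.sum_congr rfl fun w _ => ?_
    rw [Real.log_pow, normAtPlace_apply]
  · intro w _
    rw [normAtPlace_apply]
    exact pow_ne_zero _ ((map_ne_zero w).2 hx)

variable {K}

theorem one_le_nrm {x : 𝓞 K} (hx : x ≠ 0) : 1 ≤ nrm K x := by
  have h : Ideal.absNorm (Ideal.span {x}) ≠ 0 := by
    rw [Ne, Ideal.absNorm_eq_zero_iff, Ideal.span_singleton_eq_bot]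
    exact hx
  unfold nrm
  exact_mod_cast Nat.one_le_iff_ne_zero.2 h

theorem place_le (w : InfinitePlace K) (x : 𝓞 K) : w (x : K) ≤ sz K x := by
  classical
  unfold sz
  rw [norm_eq_sup'_normAtPlace, ← normAtPlace_apply]
  exact Finset.le_sup' (fun w => normAtPlace w (mixedEmbedding K (x : K))) (Finset.mem_univ w)

theorem place_pos (w : InfinitePlace K) {x : 𝓞 K} (hx : x ≠ 0) : 0 < w (x : K) := by
  have hx' : (x : K) ≠ 0 := fun h => hx (by exact_mod_cast h)
  exact lt_of_le_of_ne (apply_nonneg w _) (Ne.symm ((map_ne_zero w).2 hx'))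

theorem sz_nonneg (x : 𝓞 K) : 0 ≤ sz K x := by
  obtain ⟨w⟩ : Nonempty (InfinitePlace K) := inferInstance
  exact (apply_nonneg w _).trans (place_le w x)

theorem sz_pos {x : 𝓞 K} (hx : x ≠ 0) : 0 < sz K x := by
  obtain ⟨w⟩ : Nonempty (InfinitePlace K) := inferInstance
  exact (place_pos w hx).trans_le (place_le w x)

theorem sz_comm (x y : 𝓞 K) : sz K (x - y) = sz K (y - x) := by
  classical
  unfold sz
  rw [show ((x - y : 𝓞 K) : K) = -((y - x : 𝓞 K) : K) by push_cast; ring, map_neg, norm_neg]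

theorem sz_tri (x y : 𝓞 K) : sz K x ≤ sz K y + sz K (y - x) := by
  classical
  rw [sz_comm y x]
  unfold sz
  have h : mixedEmbedding K (x : K) = mixedEmbedding K (y : K) +
      mixedEmbedding K ((x - y : 𝓞 K) : K) := by
    rw [← map_add]
    congr 1
    push_cast
    ring
  rw [h]
  exact norm_add_le _ _

theorem place_tri (w : InfinitePlace K) (x y : 𝓞 K) :
    w (x : K) ≤ w (y : K) + w ((y - x : 𝓞 K) : K) := by
  rw [← norm_embedding_eq, ← norm_embedding_eq, ← norm_embedding_eq]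
  have h : w.embedding (x : K) = w.embedding (y : K) - w.embedding ((y - x : 𝓞 K) : K) := by
    rw [← map_sub]
    congr 1
    push_cast
    ring
  rw [h]
  exact norm_sub_le _ _

theorem place_comm (w : InfinitePlace K) (x y : 𝓞 K) :
    w ((x - y : 𝓞 K) : K) = w ((y - x : 𝓞 K) : K) := by
  rw [← norm_embedding_eq, ← norm_embedding_eq,
    show ((x - y : 𝓞 K) : K) = -((y - x : 𝓞 K) : K) by push_cast; ring, map_neg, norm_neg]

theorem wt_mem (x : 𝓞 K) : 0 ≤ wt K x ∧ wt K x ≤ 1 := by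
  have h : ∀ i : Fin (Units.rank K), 0 ≤ max 0 (1 - |lc K x i|) ∧ max 0 (1 - |lc K x i|) ≤ 1 :=
    fun i => ⟨le_max_left _ _, max_le zero_le_one (by linarith [abs_nonneg (lc K x i)])⟩
  exact ⟨Finset.prod_nonneg fun i _ => (h i).1, Finset.prod_le_one (fun i _ => (h i).1)
    fun i _ => (h i).2⟩

theorem log_nrm_diff {x y : 𝓞 K} (hx : x ≠ 0) (hy : y ≠ 0) {δ : ℝ}
    (h : ∀ w : InfinitePlace K, |Real.log (w (y : K)) - Real.log (w (x : K))| ≤ δ) :
    |Real.log (nrm K y) - Real.log (nrm K x)| ≤ (finrank ℚ K : ℝ) * δ := by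
  have hx' : (x : K) ≠ 0 := fun h => hx (by exact_mod_cast h)
  have hy' : (y : K) ≠ 0 := fun h => hy (by exact_mod_cast h)
  rw [nrm_eq, nrm_eq, log_norm K _ hx', log_norm K _ hy', ← Finset.sum_sub_distrib]
  refine (Finset.abs_sum_le_sum_abs _ _).trans ?_
  have h2 : (finrank ℚ K : ℝ) = (∑ w : InfinitePlace K, (mult w : ℝ)) := by
    exact_mod_cast congrArg (fun n : ℕ => (n : ℝ)) (sum_mult_eq (K := K)).symm
  rw [h2, Finset.sum_mul]
  refine Finset.sum_le_sum fun w _ => ?_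
  rw [← mul_sub, abs_mul, abs_of_nonneg (zero_le_one.trans (one_le_mult (w := w)))]
  exact mul_le_mul_of_nonneg_left (h w) (zero_le_one.trans (one_le_mult (w := w)))

open Classical in
theorem logMap_diff {x y : 𝓞 K} (hx : x ≠ 0) (hy : y ≠ 0) {δ : ℝ} (hδ : 0 ≤ δ)
    (h : ∀ w : InfinitePlace K, |Real.log (w (y : K)) - Real.log (w (x : K))| ≤ δ) :
    ‖logMap (mixedEmbedding K (y : K)) - logMap (mixedEmbedding K (x : K))‖ ≤ 4 * δ := by
  rw [pi_norm_le_iff_of_nonneg (by positivity)]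
  intro w
  have hn : (0 : ℝ) < (finrank ℚ K : ℝ) := Nat.cast_pos.2 finrank_pos
  have h1 := log_nrm_diff hx hy h
  rw [Pi.sub_apply, logMap_apply, logMap_apply, normAtPlace_apply, normAtPlace_apply, ← nrm_eq,
    ← nrm_eq, Real.norm_eq_abs]
  have e : (mult w.1 : ℝ) * (Real.log (w.1 (y : K)) - Real.log (nrm K y) * (finrank ℚ K : ℝ)⁻¹) -
      (mult w.1 : ℝ) * (Real.log (w.1 (x : K)) - Real.log (nrm K x) * (finrank ℚ K : ℝ)⁻¹) =
      (mult w.1 : ℝ) * ((Real.log (w.1 (y : K)) - Real.log (w.1 (x : K))) -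
        (Real.log (nrm K y) - Real.log (nrm K x)) * (finrank ℚ K : ℝ)⁻¹) := by ring
  rw [e, abs_mul, abs_of_nonneg (zero_le_one.trans (one_le_mult (w := w.1)))]
  have h2 : (mult w.1 : ℝ) ≤ 2 := by
    unfold mult
    split_ifs <;> norm_num
  have h3 : |(Real.log (nrm K y) - Real.log (nrm K x)) * (finrank ℚ K : ℝ)⁻¹| ≤ δ := by
    rw [abs_mul, abs_of_pos (inv_pos.2 hn), ← div_eq_mul_inv, div_le_iff₀ hn, mul_comm δ]
    exact h1
  calc (mult w.1 : ℝ) * |(Real.log (w.1 (y : K)) - Real.log (w.1 (x : K))) -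
        (Real.log (nrm K y) - Real.log (nrm K x)) * (finrank ℚ K : ℝ)⁻¹| ≤ 2 * (δ + δ) := by
        refine mul_le_mul h2 ?_ (abs_nonneg _) (by norm_num)
        exact (abs_sub _ _).trans (add_le_add (h w.1) h3)
    _ = 4 * δ := by ring

variable (K)

open Classical in
theorem lc_bd : ∃ B : ℝ, 0 ≤ B ∧ ∀ (x y : 𝓞 K) (i : Fin (Units.rank K)),
    |lc K y i - lc K x i| ≤
      B * ‖logMap (mixedEmbedding K (y : K)) - logMap (mixedEmbedding K (x : K))‖ := by
  refine ⟨∑ i, ‖LinearMap.toContinuousLinearMap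
    (((Units.basisUnitLattice K).ofZLatticeBasis ℝ (Units.unitLattice K)).coord i)‖,
    Finset.sum_nonneg fun _ _ => norm_nonneg _, fun x y i => ?_⟩
  have h1 := (LinearMap.toContinuousLinearMap
    (((Units.basisUnitLattice K).ofZLatticeBasis ℝ (Units.unitLattice K)).coord i)).le_opNorm
    (logMap (mixedEmbedding K (y : K)) - logMap (mixedEmbedding K (x : K)))
  rw [map_sub] at h1
  refine (le_trans (le_of_eq ?_) h1).trans (mul_le_mul_of_nonneg_right ?_ (norm_nonneg _))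
  · rfl
  · exact Finset.single_le_sum (f := fun i => ‖LinearMap.toContinuousLinearMap
      (((Units.basisUnitLattice K).ofZLatticeBasis ℝ (Units.unitLattice K)).coord i)‖)
      (fun _ _ => norm_nonneg _) (Finset.mem_univ i)

variable {K}

open Classical in
/-- The bound, one of the weights is not zero. -/
theorem main {c B : ℝ} (hc : 0 < c) (hB0 : 0 ≤ B)
    (hB : ∀ (x y : 𝓞 K) (i : Fin (Units.rank K)), |lc K y i - lc K x i| ≤
      B * ‖logMap (mixedEmbedding K (y : K)) - logMap (mixedEmbedding K (x : K))‖)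
    {x y : 𝓞 K} (hx : x ≠ 0) (hy : y ≠ 0) {s : ℝ} (hs : s ∈ Set.Icc (1 : ℝ) 2)
    (h1 : ∀ w : InfinitePlace K, c * sz K x ≤ w (x : K))
    (h2 : c * sz K x ^ (Module.finrank ℚ K) ≤ nrm K x)
    (hd : sz K (y - x) ≤ c / 2 * sz K x) :
    |wt K y * nrm K y ^ (-s) - wt K x * nrm K x ^ (-s)| ≤
      (((Units.rank K : ℝ) * (4 * B) + 2 * (finrank ℚ K : ℝ)) * Real.exp (2 * (finrank ℚ K : ℝ)) *
        (2 / c) / c) * sz K (y - x) * (sz K x ^ (Module.finrank ℚ K + 1))⁻¹ := by
  classical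
  have hsx : 0 < sz K x := sz_pos hx
  have hd0 : 0 ≤ sz K (y - x) := sz_nonneg _
  obtain ⟨δ, hδ⟩ : ∃ δ : ℝ, δ = 2 * sz K (y - x) / (c * sz K x) := ⟨_, rfl⟩
  have hcs : 0 < c * sz K x := mul_pos hc hsx
  have hδ0 : 0 ≤ δ := by rw [hδ]; positivity
  have hδ1 : δ ≤ 1 := by
    rw [hδ, div_le_one hcs]
    linarith
  have hpl : ∀ w : InfinitePlace K, |Real.log (w (y : K)) - Real.log (w (x : K))| ≤ δ := by
    intro w
    have hwx := place_pos w hx
    have e1 := place_le w (y - x)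
    have e2 := h1 w
    refine (log_diff (e := w ((y - x : 𝓞 K) : K)) hwx ?_ (place_tri w x y) (by linarith)
      (apply_nonneg w _)).trans ?_
    · have := place_tri w y x
      rwa [place_comm] at this
    · rw [hδ]
      exact div_le_div₀ (by positivity) (by linarith) hcs e2
  have hL := log_nrm_diff hx hy hpl
  have hM := logMap_diff hx hy hδ0 hpl
  have hw : |wt K y - wt K x| ≤ (Units.rank K : ℝ) * (4 * B) * δ := by
    have h3 : ∀ (z : 𝓞 K) (i : Fin (Units.rank K)),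
        0 ≤ max 0 (1 - |lc K z i|) ∧ max 0 (1 - |lc K z i|) ≤ 1 :=
      fun z i => ⟨le_max_left _ _, max_le zero_le_one (by linarith [abs_nonneg (lc K z i)])⟩
    refine (prod_diff Finset.univ _ _ (h3 y) (h3 x)).trans ?_
    have h4 : ∀ i ∈ (Finset.univ : Finset (Fin (Units.rank K))),
        |max 0 (1 - |lc K y i|) - max 0 (1 - |lc K x i|)| ≤ 4 * B * δ := by
      intro i _
      refine (tent_diff _ _).trans ((hB x y i).trans ?_)
      calc B * ‖logMap (mixedEmbedding K (y : K)) - logMap (mixedEmbedding K (x : K))‖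
          ≤ B * (4 * δ) := mul_le_mul_of_nonneg_left hM hB0
        _ = 4 * B * δ := by ring
    refine (Finset.sum_le_sum h4).trans (le_of_eq ?_)
    rw [Finset.sum_const, Finset.card_univ, Fintype.card_fin, nsmul_eq_mul]
    ring
  have hnx := one_le_nrm hx
  have hny := one_le_nrm hy
  have hnx0 : 0 < nrm K x := by linarith
  have hny0 : 0 < nrm K y := by linarith
  have hcore := core (n := (finrank ℚ K : ℝ)) (Nat.cast_nonneg _) (by positivity) hδ0 hδ1 hs
    (wt_mem x) hL hw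
  rw [← Real.rpow_def_of_pos hnx0, ← Real.rpow_def_of_pos hny0] at hcore
  refine hcore.trans ?_
  have h5 : nrm K x ^ (-s) ≤ (c * sz K x ^ (Module.finrank ℚ K))⁻¹ := by
    calc nrm K x ^ (-s) ≤ nrm K x ^ (-1 : ℝ) :=
          Real.rpow_le_rpow_of_exponent_le hnx (by linarith [hs.1])
      _ = (nrm K x)⁻¹ := Real.rpow_neg_one _
      _ ≤ _ := inv_anti₀ (by positivity) h2
  calc _ ≤ ((Units.rank K : ℝ) * (4 * B) + 2 * (finrank ℚ K : ℝ)) *
        Real.exp (2 * (finrank ℚ K : ℝ)) * δ * (c * sz K x ^ (Module.finrank ℚ K))⁻¹ :=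
        mul_le_mul_of_nonneg_left h5 (by positivity)
    _ = _ := by
        rw [hδ, pow_succ]
        field_simp

end IWe

open IWe in
theorem pr_We (hWz : StWz.{u}) : StWe.{u} := by
  intro K _ _
  obtain ⟨c, hc, hz⟩ := hWz K
  obtain ⟨B, hB0, hB⟩ := IWe.lc_bd K
  obtain ⟨n, hn⟩ : ∃ n : ℕ, n = Module.finrank ℚ K := ⟨_, rfl⟩
  obtain ⟨M, hM⟩ : ∃ M : ℝ, M = ((Units.rank K : ℝ) * (4 * B) + 2 * (Module.finrank ℚ K : ℝ)) *
    Real.exp (2 * (Module.finrank ℚ K : ℝ)) * (2 / c) / c := ⟨_, rfl⟩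
  have hM0 : 0 ≤ M := by rw [hM]; positivity
  refine ⟨2 + 4 / c, (M + 1) * 2 ^ (n + 1), by positivity, by positivity,
    fun s hs x y hx hy hA => ?_⟩
  have hsx : 0 < sz K x := sz_pos hx
  have hsy : 0 < sz K y := sz_pos hy
  have hd0 : 0 ≤ sz K (y - x) := sz_nonneg _
  have h4 : 0 ≤ 4 / c := by positivity
  have hd2 : 2 * sz K (y - x) ≤ sz K x := by nlinarith
  have hd4 : 4 / c * sz K (y - x) ≤ sz K x := by nlinarith
  have hd5 : sz K (y - x) ≤ c / 4 * sz K x := by
    have := mul_le_mul_of_nonneg_left hd4 (show 0 ≤ c / 4 by positivity)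
    rwa [← mul_assoc, show c / 4 * (4 / c) = 1 by field_simp, one_mul] at this
  have epow : sz K x ^ (-(Module.finrank ℚ K : ℝ) - 1) = (sz K x ^ (n + 1))⁻¹ := by
    rw [← hn, show (-(n : ℝ) - 1) = -((n + 1 : ℕ) : ℝ) by push_cast; ring, Real.rpow_neg hsx.le,
      Real.rpow_natCast]
  rw [epow]
  have hinv : 0 ≤ (sz K x ^ (n + 1))⁻¹ := by positivity
  have h2n : (1 : ℝ) ≤ 2 ^ (n + 1) := one_le_pow₀ (by norm_num)
  by_cases hwx : wt K x = 0
  · by_cases hwy : wt K y = 0
    · rw [hwx, hwy, zero_mul, zero_mul, sub_zero, abs_zero]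
      positivity
    · have htri := sz_tri x y
      have hyx : sz K x ≤ 2 * sz K y := by linarith
      have h6 := main hc hB0 hB hy hx hs (hz y hy hwy).1 (hz y hy hwy).2 (by
        rw [sz_comm]
        have : c / 4 * sz K x ≤ c / 4 * (2 * sz K y) :=
          mul_le_mul_of_nonneg_left hyx (by positivity)
        linarith)
      rw [abs_sub_comm, sz_comm x y, ← hM, ← hn] at h6
      refine h6.trans ?_
      have h7 : (sz K y ^ (n + 1))⁻¹ ≤ 2 ^ (n + 1) * (sz K x ^ (n + 1))⁻¹ := by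
        rw [← div_eq_mul_inv, ← one_div, div_le_div_iff₀ (by positivity) (by positivity), one_mul,
          ← mul_pow]
        exact pow_le_pow_left₀ hsx.le hyx _
      calc M * sz K (y - x) * (sz K y ^ (n + 1))⁻¹
          ≤ M * sz K (y - x) * (2 ^ (n + 1) * (sz K x ^ (n + 1))⁻¹) :=
            mul_le_mul_of_nonneg_left h7 (by positivity)
        _ = M * (2 ^ (n + 1) * sz K (y - x) * (sz K x ^ (n + 1))⁻¹) := by ring
        _ ≤ (M + 1) * (2 ^ (n + 1) * sz K (y - x) * (sz K x ^ (n + 1))⁻¹) :=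
            mul_le_mul_of_nonneg_right (by linarith) (by positivity)
        _ = _ := by ring
  · have h6 := main hc hB0 hB hx hy hs (hz x hx hwx).1 (hz x hx hwx).2 (by
      have : 0 ≤ c * sz K x := by positivity
      linarith)
    rw [← hM, ← hn] at h6
    refine h6.trans ?_
    calc M * sz K (y - x) * (sz K x ^ (n + 1))⁻¹
        = M * (1 * sz K (y - x) * (sz K x ^ (n + 1))⁻¹) := by ring
      _ ≤ (M + 1) * (2 ^ (n + 1) * sz K (y - x) * (sz K x ^ (n + 1))⁻¹) := by
          refine mul_le_mul (by linarith) ?_ (by positivity) (by linarith)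
          exact mul_le_mul_of_nonneg_right (mul_le_mul_of_nonneg_right h2n hd0) hinv
      _ = _ := by ring

open IWe in
theorem pr_Wd_of_We (h : StWe.{u}) : StWd.{u} := by
  intro K _ _ r
  obtain ⟨A, C, hA, hC, H⟩ := h K
  obtain ⟨n, hn⟩ : ∃ n : ℕ, n = Module.finrank ℚ K := ⟨_, rfl⟩
  have hr0 : 0 ≤ sz K r := sz_nonneg r
  refine ⟨C * sz K r + (A * sz K r) ^ (n + 1), fun s hs x hx hxr => ?_⟩
  have hsx : 0 < sz K x := sz_pos hx
  have epow : sz K x ^ (-(Module.finrank ℚ K : ℝ) - 1) = (sz K x ^ (n + 1))⁻¹ := by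
    rw [← hn, show (-(n : ℝ) - 1) = -((n + 1 : ℕ) : ℝ) by push_cast; ring, Real.rpow_neg hsx.le,
      Real.rpow_natCast]
  have hinv : 0 < (sz K x ^ (n + 1))⁻¹ := by positivity
  by_cases hc : A * sz K r ≤ sz K x
  · have h1 := H s hs x (x + r) hx hxr (by rwa [add_sub_cancel_left])
    rw [add_sub_cancel_left] at h1
    refine h1.trans ?_
    rw [epow]
    refine mul_le_mul_of_nonneg_right ?_ hinv.le
    have : 0 ≤ (A * sz K r) ^ (n + 1) := by positivity
    linarith
  · push Not at hc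
    have hb : ∀ z : 𝓞 K, z ≠ 0 → 0 ≤ wt K z * nrm K z ^ (-s) ∧ wt K z * nrm K z ^ (-s) ≤ 1 := by
      intro z hz
      have h1 := one_le_nrm hz
      have h2 : nrm K z ^ (-s) ≤ 1 := Real.rpow_le_one_of_one_le_of_nonpos h1 (by linarith [hs.1])
      have h3 : 0 ≤ nrm K z ^ (-s) := Real.rpow_nonneg (by linarith) _
      exact ⟨mul_nonneg (wt_mem z).1 h3, mul_le_one₀ (wt_mem z).2 h3 h2⟩
    have h4 : |wt K (x + r) * nrm K (x + r) ^ (-s) - wt K x * nrm K x ^ (-s)| ≤ 1 := by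
      have e1 := hb (x + r) hxr
      have e2 := hb x hx
      rw [abs_le]
      constructor <;> linarith [e1.1, e1.2, e2.1, e2.2]
    refine h4.trans ?_
    rw [epow, ← div_eq_mul_inv, le_div_iff₀ (by positivity), one_mul]
    have h5 : sz K x ^ (n + 1) ≤ (A * sz K r) ^ (n + 1) := pow_le_pow_left₀ hsx.le hc.le _
    have h6 : 0 ≤ C * sz K r := by positivity
    linarith

end Pool.Agent.Work.MP_59f3ad_nt.UCF
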