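import Mathlib
import Pool.Agent.Work.MP_59f3ad_nt.UCF.Stmts

/-! Item Wu of the library UCF: the weight is a partition of unity. -/

open NumberField IsDedekindDomain Filter Topology
open scoped Pointwise nonZeroDivisors

namespace Pool.Agent.Work.MP_59f3ad_nt.UCF

universe u

namespace IWu

/-- The tent function. -/
noncomputable def tent (t : ℝ) : ℝ := max 0 (1 - |t|)

/-- The two integers where the shifted tent does not vanish. -/
noncomputable def two (c : ℝ) : Finset ℤ := {-⌊c⌋, -⌊c⌋ - 1}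

lemma tent_eq_zero (c : ℝ) (m : ℤ) (hm : m ∉ two c) : tent ((m : ℝ) + c) = 0 := by
  unfold two at hm
  simp only [Finset.mem_insert, Finset.mem_singleton, not_or] at hm
  unfold tent
  apply max_eq_left
  have h1 := Int.floor_le c
  have h2 := Int.lt_floor_add_one c
  rcases lt_trichotomy m (-⌊c⌋ - 1) with h | h | h
  · have h3 : m ≤ -⌊c⌋ - 2 := by omega
    have h4 : (m : ℝ) ≤ -(⌊c⌋ : ℝ) - 2 := by exact_mod_cast h3
    have h5 : (m : ℝ) + c ≤ -1 := by linarith
    rw [abs_of_nonpos (by linarith)]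
    linarith
  · exact absurd h hm.2
  · have h3 : -⌊c⌋ + 1 ≤ m := by
      have := hm.1
      omega
    have h4 : -(⌊c⌋ : ℝ) + 1 ≤ (m : ℝ) := by exact_mod_cast h3
    have h5 : 1 ≤ (m : ℝ) + c := by linarith
    rw [abs_of_nonneg (by linarith)]
    linarith

lemma sum_two (c : ℝ) : ∑ m ∈ two c, tent ((m : ℝ) + c) = 1 := by
  unfold two
  rw [Finset.sum_pair (by omega)]
  unfold tent
  have h1 := Int.floor_le c
  have h2 := Int.lt_floor_add_one c
  push_cast
  rw [abs_of_nonneg (by linarith : (0 : ℝ) ≤ -(⌊c⌋ : ℝ) + c),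
    abs_of_nonpos (by linarith : -(⌊c⌋ : ℝ) - 1 + c ≤ 0),
    max_eq_right (by linarith), max_eq_right (by linarith)]
  ring

lemma sum_box {r : ℕ} (c : Fin r → ℝ) :
    ∑ m ∈ Fintype.piFinset (fun i => two (c i)), ∏ i, tent ((m i : ℝ) + c i) = 1 := by
  have h := Finset.prod_univ_sum (fun i => two (c i)) (fun i (m : ℤ) => tent ((m : ℝ) + c i))
  rw [← h]
  simp only [sum_two, Finset.prod_const_one]

lemma box_zero {r : ℕ} (c : Fin r → ℝ) (m : Fin r → ℤ)
    (hm : m ∉ Fintype.piFinset (fun i => two (c i))) : ∏ i, tent ((m i : ℝ) + c i) = 0 := by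
  rw [Fintype.mem_piFinset] at hm
  push Not at hm
  obtain ⟨i, hi⟩ := hm
  exact Finset.prod_eq_zero (Finset.mem_univ i) (tent_eq_zero (c i) (m i) hi)

lemma hasSum_box (T : Type*) [Fintype T] {r : ℕ} (c : Fin r → ℝ) :
    HasSum (fun p : T × (Fin r → ℤ) => ∏ i, tent ((p.2 i : ℝ) + c i)) (Fintype.card T : ℝ) := by
  have h := hasSum_sum_of_ne_finset_zero
    (f := fun p : T × (Fin r → ℤ) => ∏ i, tent ((p.2 i : ℝ) + c i))
    (s := (Finset.univ : Finset T) ×ˢ Fintype.piFinset (fun i => two (c i)))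
    (L := SummationFilter.unconditional _) (by
      intro p hp
      apply box_zero
      intro h1
      exact hp (Finset.mem_product.2 ⟨Finset.mem_univ _, h1⟩))
  rw [Finset.sum_product] at h
  simp only [sum_box, Finset.sum_const, Finset.card_univ, nsmul_eq_mul, mul_one] at h
  exact h

section field

variable (K : Type u) [Field K] [NumberField K]

open Units Units.dirichletUnitTheorem

/-- The unit with given torsion part and exponents. -/
noncomputable def un (p : torsion K × (Fin (rank K) → ℤ)) : (𝓞 K)ˣ :=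
  (p.1 : (𝓞 K)ˣ) * ∏ i, (fundSystem K i) ^ (p.2 i)

lemma un_bij : Function.Bijective (un K) := by
  rw [Function.bijective_iff_existsUnique]
  intro x
  obtain ⟨p, hp, hu⟩ := exist_unique_eq_mul_prod K x
  exact ⟨p, hp.symm, fun q hq => hu q hq.symm⟩

open Classical in
lemma log_un (p : torsion K × (Fin (rank K) → ℤ)) :
    logEmbedding K (Additive.ofMul (un K p)) =
      ∑ i, (p.2 i : ℝ) • (basisUnitLattice K).ofZLatticeBasis ℝ (unitLattice K) i := by
  unfold un
  rw [ofMul_mul, map_add, logEmbedding_eq_zero_iff.2 p.1.2, zero_add, ofMul_prod, map_sum]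
  refine Finset.sum_congr rfl fun i _ => ?_
  rw [ofMul_zpow, map_zsmul, logEmbedding_fundSystem, Module.Basis.ofZLatticeBasis_apply,
    Int.cast_smul_eq_zsmul]

lemma lc_un (p : torsion K × (Fin (rank K) → ℤ)) (x : 𝓞 K) (hx : x ≠ 0) (i : Fin (rank K)) :
    lc K ((un K p : 𝓞 K) * x) i = (p.2 i : ℝ) + lc K x i := by
  have hn : mixedEmbedding.norm (mixedEmbedding K (x : K)) ≠ 0 := by
    rw [mixedEmbedding.norm_eq_norm]
    simp only [ne_eq, Rat.cast_eq_zero, abs_eq_zero]
    rw [Algebra.norm_eq_zero_iff]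
    intro h
    exact hx (by exact_mod_cast h)
  have h1 : mixedEmbedding K (((un K p : 𝓞 K) * x : 𝓞 K) : K) =
      (un K p) • mixedEmbedding K (x : K) := by
    rw [mixedEmbedding.unitSMul_smul, ← map_mul]
    exact congrArg (mixedEmbedding K) (map_mul (algebraMap (𝓞 K) K) _ _)
  unfold lc
  rw [h1, mixedEmbedding.logMap_unit_smul _ hn, log_un, map_add, Finsupp.add_apply]
  congr 1
  rw [map_sum, Finsupp.finsetSum_apply]
  rw [Finset.sum_eq_single i]
  · rw [map_smul, Finsupp.smul_apply, Module.Basis.repr_self, Finsupp.single_eq_same, _root_.smul_eq_mul,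
      mul_one]
  · intro j _ hj
    rw [map_smul, Finsupp.smul_apply, Module.Basis.repr_self, Finsupp.single_eq_of_ne hj.symm,
      smul_zero]
  · intro h
    exact absurd (Finset.mem_univ i) h

end field

end IWu

theorem pr_Wu : StWu.{u} := by
  intro K _ _ x hx
  classical
  let _ : Fintype (Units.torsion K) := Fintype.ofFinite _
  have h := IWu.hasSum_box (Units.torsion K) (fun i => lc K x i)
  have h2 : (fun p : Units.torsion K × (Fin (Units.rank K) → ℤ) =>
      ∏ i, IWu.tent ((p.2 i : ℝ) + lc K x i)) =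
      (fun u : (𝓞 K)ˣ => wt K ((u : 𝓞 K) * x)) ∘ (Equiv.ofBijective _ (IWu.un_bij K)) := by
    funext p
    simp only [Function.comp_apply, Equiv.ofBijective_apply]
    unfold wt
    refine Finset.prod_congr rfl fun i _ => ?_
    rw [IWu.lc_un K p x hx i]
    rfl
  rw [h2, Equiv.hasSum_iff] at h
  unfold Units.torsionOrder
  rw [Nat.card_eq_fintype_card]
  exact h

end Pool.Agent.Work.MP_59f3ad_nt.UCF
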