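import Mathlib
import Pool.Agent.Work.MP_59f3ad_nt.UCF.Stmts

set_option autoImplicit false

/-! Library UCF, item Wz (helper21): where the weight is not zero, the norm is comparable with the
size. -/

open NumberField IsDedekindDomain Filter Topology
open scoped Pointwise nonZeroDivisors

namespace Pool.Agent.Work.MP_59f3ad_nt.UCF

universe u

namespace IWz

open NumberField.Units NumberField.Units.dirichletUnitTheorem NumberField.InfinitePlace
  NumberField.mixedEmbedding Module

variable (K : Type u) [Field K] [NumberField K]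

/-- the norm is the product over the infinite places -/
theorem nrm_eq (x : 𝓞 K) : nrm K x = mixedEmbedding.norm (mixedEmbedding K (x : K)) := by
  rw [norm_eq_norm, ← Algebra.coe_norm_int, nrm, Ideal.absNorm_span_singleton]
  rw [Nat.cast_natAbs]
  push_cast
  rfl

/-- the logarithm of the norm -/
theorem log_norm (x : K) (hx : x ≠ 0) :
    Real.log (mixedEmbedding.norm (mixedEmbedding K x)) =
      ∑ w : InfinitePlace K, (mult w : ℝ) * Real.log (w x) := by
  rw [mixedEmbedding.norm_apply, Real.log_prod]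
  · refine Finset.sum_congr rfl fun w _ => ?_
    rw [Real.log_pow, normAtPlace_apply]
  · intro w _
    rw [normAtPlace_apply]
    exact pow_ne_zero _ ((map_ne_zero w).2 hx)

open Classical in
/-- a bound for the logarithmic coordinates -/
theorem bd : ∃ B : ℝ, 0 ≤ B ∧ ∀ x : 𝓞 K, wt K x ≠ 0 →
    ‖logMap (mixedEmbedding K (x : K))‖ ≤ B := by
  refine ⟨∑ i : Fin (Units.rank K),
    ‖((Units.basisUnitLattice K).ofZLatticeBasis ℝ (Units.unitLattice K)) i‖,
    Finset.sum_nonneg fun _ _ => norm_nonneg _, fun x hx => ?_⟩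
  have h1 : ∀ i : Fin (Units.rank K), |lc K x i| ≤ 1 := by
    intro i
    have h2 : max 0 (1 - |lc K x i|) ≠ 0 := fun h => hx (Finset.prod_eq_zero (Finset.mem_univ i) h)
    by_contra h3
    push Not at h3
    exact h2 (max_eq_left (by linarith))
  have h2 := ((Units.basisUnitLattice K).ofZLatticeBasis ℝ (Units.unitLattice K)).sum_repr
    (logMap (mixedEmbedding K (x : K)))
  rw [← h2]
  refine (norm_sum_le _ _).trans (Finset.sum_le_sum fun i _ => ?_)
  rw [_root_.norm_smul, Real.norm_eq_abs]
  exact mul_le_of_le_one_left (norm_nonneg _) (h1 i)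

/-- the deviations of the logarithms -/
theorem dev : ∃ B : ℝ, 0 ≤ B ∧ ∀ x : 𝓞 K, x ≠ 0 → wt K x ≠ 0 → ∀ w : InfinitePlace K,
    |Real.log (w (x : K)) - Real.log (nrm K x) * (finrank ℚ K : ℝ)⁻¹| ≤ B := by
  classical
  obtain ⟨B, hB, H⟩ := bd K
  refine ⟨(Fintype.card (InfinitePlace K) + 1) * B, by positivity, fun x hx hw w => ?_⟩
  have hx' : (x : K) ≠ 0 := fun h => hx (by exact_mod_cast h)
  set LN : ℝ := Real.log (nrm K x) with hLN
  set D : InfinitePlace K → ℝ := fun w =>
    (mult w : ℝ) * (Real.log (w (x : K)) - LN * (finrank ℚ K : ℝ)⁻¹) with hD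
  have hn : (finrank ℚ K : ℝ) ≠ 0 := Nat.cast_ne_zero.2 finrank_pos.ne'
  have hsum : ∑ w, D w = 0 := by
    have h1 : ∑ w, D w = ∑ w : InfinitePlace K, (mult w : ℝ) * Real.log (w (x : K)) -
        (∑ w : InfinitePlace K, (mult w : ℝ)) * (LN * (finrank ℚ K : ℝ)⁻¹) := by
      rw [Finset.sum_mul, ← Finset.sum_sub_distrib]
      refine Finset.sum_congr rfl fun w _ => ?_
      rw [hD]
      ring
    have h2 : (∑ w : InfinitePlace K, (mult w : ℝ)) = (finrank ℚ K : ℝ) := by
      exact_mod_cast congrArg (fun n : ℕ => (n : ℝ)) (sum_mult_eq (K := K))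
    rw [h1, h2, ← log_norm K (x : K) hx', ← nrm_eq, ← hLN]
    field_simp
    ring
  have hle : ∀ w : InfinitePlace K, w ≠ w₀ → |D w| ≤ B := by
    intro w hw0
    have h1 := (norm_le_pi_norm (logMap (mixedEmbedding K (x : K))) ⟨w, hw0⟩).trans (H x hw)
    rw [logMap_apply, normAtPlace_apply, ← nrm_eq, Real.norm_eq_abs] at h1
    exact h1
  have hall : ∀ w : InfinitePlace K, |D w| ≤ (Fintype.card (InfinitePlace K) + 1) * B := by
    intro w
    by_cases hw0 : w = w₀
    · have h1 : D w = -∑ v ∈ Finset.univ.erase w, D v := by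
        rw [← Finset.add_sum_erase _ _ (Finset.mem_univ w)] at hsum
        linarith
      rw [h1, abs_neg]
      refine (Finset.abs_sum_le_sum_abs _ _).trans ?_
      have h2 : ∑ v ∈ Finset.univ.erase w, |D v| ≤ ∑ v ∈ Finset.univ.erase w, B := by
        refine Finset.sum_le_sum fun v hv => hle v ?_
        rw [← hw0]
        exact Finset.ne_of_mem_erase hv
      refine h2.trans ?_
      rw [Finset.sum_const, nsmul_eq_mul]
      refine mul_le_mul_of_nonneg_right ?_ hB
      have h3 : (Finset.univ.erase w).card ≤ Fintype.card (InfinitePlace K) :=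
        Finset.card_le_univ _
      have h4 : ((Finset.univ.erase w).card : ℝ) ≤ Fintype.card (InfinitePlace K) := by
        exact_mod_cast h3
      linarith
    · refine (hle w hw0).trans ?_
      have : (0 : ℝ) ≤ Fintype.card (InfinitePlace K) := Nat.cast_nonneg _
      nlinarith
  refine le_trans ?_ (hall w)
  rw [hD]
  simp only [abs_mul]
  rw [abs_of_nonneg (zero_le_one.trans (one_le_mult (w := w)))]
  exact le_mul_of_one_le_left (abs_nonneg _) one_le_mult

end IWz

open NumberField.InfinitePlace NumberField.mixedEmbedding Module in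
theorem pr_Wz : StWz.{u} := by
  intro K _ _
  classical
  obtain ⟨B, hB, H⟩ := IWz.dev K
  set n : ℕ := finrank ℚ K with hn
  have hn0 : 0 < n := finrank_pos
  have hn1 : (0 : ℝ) < n := by exact_mod_cast hn0
  refine ⟨Real.exp (-(2 * B + n * B)), Real.exp_pos _, fun x hx hwt => ?_⟩
  have hx' : (x : K) ≠ 0 := fun h => hx (by exact_mod_cast h)
  obtain ⟨w1, hw1⟩ : ∃ w : InfinitePlace K, sz K x = w (x : K) := by
    obtain ⟨w, -, hw⟩ := Finset.exists_mem_eq_sup' (Finset.univ_nonempty (α := InfinitePlace K))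
      (fun w => normAtPlace w (mixedEmbedding K (x : K)))
    refine ⟨w, ?_⟩
    unfold sz
    rw [norm_eq_sup'_normAtPlace, hw, normAtPlace_apply]
  have hp : ∀ w : InfinitePlace K, 0 < w (x : K) := fun w =>
    lt_of_le_of_ne (apply_nonneg w _) (Ne.symm ((map_ne_zero w).2 hx'))
  have hN : 0 < nrm K x := by
    rw [IWz.nrm_eq]
    refine lt_of_le_of_ne (mixedEmbedding.norm_nonneg _) (Ne.symm ?_)
    rw [mixedEmbedding.norm_ne_zero_iff]
    intro w
    rw [normAtPlace_apply]
    exact (hp w).ne'
  have hb : ∀ w : InfinitePlace K,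
      Real.log (nrm K x) * (n : ℝ)⁻¹ - B ≤ Real.log (w (x : K)) ∧
        Real.log (w (x : K)) ≤ Real.log (nrm K x) * (n : ℝ)⁻¹ + B := by
    intro w
    have h1 := abs_le.1 (H x hx hwt w)
    constructor <;> linarith [h1.1, h1.2]
  have hnB : 0 ≤ n * B := by positivity
  rw [hw1]
  constructor
  · intro w
    have h1 : Real.exp (-(2 * B + n * B)) * w1 (x : K) =
        Real.exp (-(2 * B + n * B) + Real.log (w1 (x : K))) := by
      rw [Real.exp_add, Real.exp_log (hp w1)]
    rw [h1, ← Real.exp_log (hp w), Real.exp_log (hp w)]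
    refine (Real.exp_le_exp.2 ?_).trans (le_of_eq (Real.exp_log (hp w)))
    linarith [(hb w).1, (hb w1).2]
  · have h1 : Real.exp (-(2 * B + n * B)) * w1 (x : K) ^ n =
        Real.exp (-(2 * B + n * B) + n * Real.log (w1 (x : K))) := by
      rw [Real.exp_add, ← Real.log_pow, Real.exp_log (pow_pos (hp w1) n)]
    rw [h1]
    refine (Real.exp_le_exp.2 ?_).trans (le_of_eq (Real.exp_log hN))
    have h2 := mul_le_mul_of_nonneg_left (hb w1).2 hn1.le
    have h3 : (n : ℝ) * (Real.log (nrm K x) * (n : ℝ)⁻¹ + B) = Real.log (nrm K x) + n * B := by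
      field_simp
    rw [h3] at h2
    linarith

end Pool.Agent.Work.MP_59f3ad_nt.UCF
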