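import Mathlib
import Pool.Agent.Work.MP_59f3ad_nt.UCF.I_Ab
import Pool.Agent.Work.MP_59f3ad_nt.UCF.I_Am
import Pool.Agent.Work.MP_59f3ad_nt.UCF.I_Bc
import Pool.Agent.Work.MP_59f3ad_nt.UCF.I_Cg
import Pool.Agent.Work.MP_59f3ad_nt.UCF.I_Cp
import Pool.Agent.Work.MP_59f3ad_nt.UCF.I_Cy
import Pool.Agent.Work.MP_59f3ad_nt.UCF.I_D1
import Pool.Agent.Work.MP_59f3ad_nt.UCF.I_D2
import Pool.Agent.Work.MP_59f3ad_nt.UCF.I_Ep
import Pool.Agent.Work.MP_59f3ad_nt.UCF.I_Ex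
import Pool.Agent.Work.MP_59f3ad_nt.UCF.I_Fi
import Pool.Agent.Work.MP_59f3ad_nt.UCF.I_Fr
import Pool.Agent.Work.MP_59f3ad_nt.UCF.I_Hi
import Pool.Agent.Work.MP_59f3ad_nt.UCF.I_Hk
import Pool.Agent.Work.MP_59f3ad_nt.UCF.I_Hu
import Pool.Agent.Work.MP_59f3ad_nt.UCF.I_Iv
import Pool.Agent.Work.MP_59f3ad_nt.UCF.I_Ix
import Pool.Agent.Work.MP_59f3ad_nt.UCF.I_Kj
import Pool.Agent.Work.MP_59f3ad_nt.UCF.I_Kl
import Pool.Agent.Work.MP_59f3ad_nt.UCF.I_Lb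
import Pool.Agent.Work.MP_59f3ad_nt.UCF.I_Lg
import Pool.Agent.Work.MP_59f3ad_nt.UCF.I_Mi
import Pool.Agent.Work.MP_59f3ad_nt.UCF.I_Nm
import Pool.Agent.Work.MP_59f3ad_nt.UCF.I_Nv
import Pool.Agent.Work.MP_59f3ad_nt.UCF.I_P0
import Pool.Agent.Work.MP_59f3ad_nt.UCF.I_Pm
import Pool.Agent.Work.MP_59f3ad_nt.UCF.I_Rk
import Pool.Agent.Work.MP_59f3ad_nt.UCF.I_Rs
import Pool.Agent.Work.MP_59f3ad_nt.UCF.I_Si
import Pool.Agent.Work.MP_59f3ad_nt.UCF.I_Sm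
import Pool.Agent.Work.MP_59f3ad_nt.UCF.I_Sp
import Pool.Agent.Work.MP_59f3ad_nt.UCF.I_Tw
import Pool.Agent.Work.MP_59f3ad_nt.UCF.I_UCF
import Pool.Agent.Work.MP_59f3ad_nt.UCF.I_Uf
import Pool.Agent.Work.MP_59f3ad_nt.UCF.I_Un
import Pool.Agent.Work.MP_59f3ad_nt.UCF.I_Ut
import Pool.Agent.Work.MP_59f3ad_nt.UCF.I_We
import Pool.Agent.Work.MP_59f3ad_nt.UCF.I_Wu
import Pool.Agent.Work.MP_59f3ad_nt.UCF.I_Wz
import Pool.Agent.Work.MP_59f3ad_nt.UCF.I_Zc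

/-!
Library UCF: assembly. A finite abelian extension `M/K` of number fields of odd degree, unramified
at all finite places, has `[M : K] = |X(M/K)|`, and `[M : K]` divides the class number of `K`.
-/

open NumberField IsDedekindDomain

namespace Pool.Agent.Work.MP_59f3ad_nt.UCF

universe u

theorem all_Sm : StSm.{u} := pr_Sm

theorem all_We : StWe.{u} := pr_We pr_Wz

theorem all_Uf : StUf.{u} := pr_Uf pr_Wu pr_Si

theorem all_Rs : StRs.{u} := pr_Rs pr_Si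

theorem all_Lg : StLg.{u} := pr_Lg pr_Ep pr_Si

theorem all_Cp : StCp.{u} := pr_Cp pr_Sm pr_Wz (pr_Wd_of_We all_We)

/-- The zeta functions of two ideal classes differ by a bounded function. -/
theorem all_Zc : StZc.{u} := pr_Zc all_Cp all_Uf all_Rs pr_Si

/-- `L(s, ψ)` is bounded near `1` for a nontrivial class character. -/
theorem all_Lb : StLb.{u} := pr_Lb all_Zc pr_Si

/-- Upper density of the primes killed by a group of class characters. -/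
theorem all_D1 : StD1.{u} := pr_D1 all_Lg all_Lb all_Rs pr_Si

theorem all_P0 : StP0.{u} := pr_P0 all_Lg all_Rs

/-- Density of the primes that split completely. -/
theorem all_D2 : StD2.{u} := pr_D2 all_P0 pr_Fi pr_Si

theorem all_Nm : StNm.{u} := pr_Nm pr_Cg

/-- Herbrand quotient of the units. -/
theorem all_Hu : StHu.{u} := pr_Hu pr_Un pr_Rk pr_Pm pr_Hk pr_Hi

/-- The cyclic case. -/
theorem all_Cy : StCy.{u} := pr_Cy all_Nm all_Hu (pr_Kj pr_Iv) (pr_Am pr_Iv)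

theorem all_Kl : StKl.{u} := pr_Kl pr_Ex pr_Nv all_D2 pr_Sp all_D1 pr_Si

theorem all_Tw : StTw.{u} := pr_Tw all_Nm pr_Bc pr_Ex all_Kl

theorem all_Ab : StAb.{u} := pr_Ab all_Cy pr_Ut pr_Ex all_Tw

/-- `M/K` abelian of odd degree, unramified at all finite places: `|X(M/K)| = [M : K]`, and
`[M : K]` divides the class number of `K`. -/
theorem ucf : StUCF.{u} := pr_UCF all_Ab pr_Nv all_D1 all_D2 pr_Si

/-- The minus part. -/
theorem all_Mi : StMi.{u} :=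
  pr_Mi pr_Fr pr_Ex pr_Nv all_Nm all_P0 all_D2 all_D1 pr_Fi pr_Si

theorem all_Ix : StIx.{u} := pr_Ix

end Pool.Agent.Work.MP_59f3ad_nt.UCF
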