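import Mathlib
import Pool.Agent.Work.MP_59f3ad_nt.UCF.Stmts

/-!
Item Ex of the library UCF: exponent and monotonicity of the groups `X(M/K)`.
-/

open NumberField IsDedekindDomain
open scoped Pointwise nonZeroDivisors

namespace Pool.Agent.Work.MP_59f3ad_nt.UCF

universe u

namespace IEx

theorem cls_ne {K : Type u} [Field K] [NumberField K] {I : Ideal (𝓞 K)} (h : I ≠ ⊥) :
    cls K I = ClassGroup.mk0 ⟨I, mem_nonZeroDivisors_iff_ne_zero.mpr h⟩ := by
  unfold cls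
  rw [dif_neg h]

theorem cls_pow {K : Type u} [Field K] [NumberField K] {I : Ideal (𝓞 K)} (h : I ≠ ⊥) (n : ℕ) :
    cls K (I ^ n) = cls K I ^ n := by
  have hn : I ^ n ≠ ⊥ := by
    rw [← Ideal.zero_eq_bot] at h ⊢
    exact pow_ne_zero n h
  rw [cls_ne h, cls_ne hn, ← map_pow]
  rfl

theorem surj {K : Type u} [Field K] [NumberField K] (c : ClassGroup (𝓞 K)) :
    ∃ I : Ideal (𝓞 K), I ≠ ⊥ ∧ cls K I = c := by
  obtain ⟨J, rfl⟩ := ClassGroup.mk0_surjective c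
  have h : (J : Ideal (𝓞 K)) ≠ ⊥ := mem_nonZeroDivisors_iff_ne_zero.1 J.2
  exact ⟨J, h, cls_ne h⟩

end IEx

theorem pr_Ex : StEx.{u} := by
  refine ⟨?_, ?_⟩
  · intro K M _ _ _ _ _ ψ hψ
    ext c
    obtain ⟨I, hI, rfl⟩ := IEx.surj c
    have hmap : I.map (algebraMap (𝓞 K) (𝓞 M)) ≠ ⊥ := by
      intro h
      exact hI ((Ideal.map_eq_bot_iff_of_injective
        (FaithfulSMul.algebraMap_injective (𝓞 K) (𝓞 M))).1 h)
    have h1 := hψ _ hmap
    have hfr : Module.finrank (𝓞 K) (𝓞 M) = Module.finrank K M :=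
      (IsFractionRing.finrank_eq (𝓞 K) K (𝓞 M) M).symm
    rw [Ideal.relNorm_algebraMap, IEx.cls_pow hI, map_pow, hfr] at h1
    rw [MonoidHom.pow_apply, h1, MonoidHom.one_apply]
  · intro K E E' _ _ _ _ _ _ _ _ f ψ hψ I hI
    letI : Algebra E E' := f.toRingHom.toAlgebra
    haveI : IsScalarTower K E E' := IsScalarTower.of_algebraMap_eq' f.comp_algebraMap.symm
    have h1 : Ideal.relNorm (𝓞 K) (Ideal.relNorm (𝓞 E) I) = Ideal.relNorm (𝓞 K) I :=
      Ideal.relNorm_relNorm (𝓞 K) (𝓞 E) I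
    rw [← h1]
    exact hψ _ (fun h => hI (Ideal.relNorm_eq_bot_iff.1 h))

end Pool.Agent.Work.MP_59f3ad_nt.UCF
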