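import Mathlib
import Pool.Agent.Work.MP_59f3ad_nt.UCF.Stmts

set_option autoImplicit false

/-!
# Library UCF, item Lb: the L-series of a nontrivial character of the class group is bounded
-/

open NumberField IsDedekindDomain Filter Topology
open scoped Pointwise nonZeroDivisors

namespace Pool.Agent.Work.MP_59f3ad_nt.UCF

universe u

namespace ILb

variable (K : Type u) [Field K] [NumberField K]

open Classical in
/-- the part of the term at `I` which belongs to the class `C` -/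
noncomputable def pt (s : ℝ) (C : ClassGroup (𝓞 K)) (I : Ideal (𝓞 K)) : ℝ :=
  if I ≠ ⊥ ∧ cls K I = C then (I.absNorm : ℝ) ^ (-s) else 0

theorem pt_summable (hSi : StSi.{u}) (s : ℝ) (hs : 1 < s) (C : ClassGroup (𝓞 K)) :
    Summable (pt K s C) := by
  classical
  refine Summable.of_nonneg_of_le (fun I => ?_) (fun I => ?_) (hSi K s hs)
  · unfold pt
    split_ifs
    · positivity
    · exact le_rfl
  · unfold pt
    split_ifs
    · exact le_rfl
    · positivity

theorem lt_eq (ψ : ClassGroup (𝓞 K) →* ℂˣ) (s : ℝ) (I : Ideal (𝓞 K)) :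
    lt K ψ s I = ∑ C : ClassGroup (𝓞 K), ((ψ C : ℂˣ) : ℂ) * ((pt K s C I : ℝ) : ℂ) := by
  classical
  unfold lt
  by_cases hI : I = ⊥
  · rw [if_neg (by simpa using hI)]
    symm
    apply Finset.sum_eq_zero
    intro C _
    unfold pt
    rw [if_neg (fun h => h.1 hI)]
    simp
  · rw [if_pos hI, Finset.sum_eq_single (cls K I)]
    · unfold pt
      rw [if_pos ⟨hI, rfl⟩]
    · intro C _ hC
      unfold pt
      rw [if_neg (fun h => hC h.2.symm)]
      simp
    · intro h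
      exact absurd (Finset.mem_univ _) h

theorem LL_eq (hSi : StSi.{u}) (ψ : ClassGroup (𝓞 K) →* ℂˣ) (s : ℝ) (hs : 1 < s) :
    LL K ψ s = ∑ C : ClassGroup (𝓞 K), ((ψ C : ℂˣ) : ℂ) * ((zc K C s : ℝ) : ℂ) := by
  classical
  have h1 : ∀ C : ClassGroup (𝓞 K), Summable (fun I => ((ψ C : ℂˣ) : ℂ) * ((pt K s C I : ℝ) : ℂ)) :=
    fun C => (Complex.ofRealCLM.summable (pt_summable K hSi s hs C)).mul_left _
  unfold LL
  rw [tsum_congr (lt_eq K ψ s), Summable.tsum_finsetSum (fun C _ => h1 C)]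
  refine Finset.sum_congr rfl fun C _ => ?_
  rw [tsum_mul_left, ← Complex.ofReal_tsum]
  rfl

theorem sum_zero (ψ : ClassGroup (𝓞 K) →* ℂˣ) (h : ψ ≠ 1) :
    ∑ C : ClassGroup (𝓞 K), ((ψ C : ℂˣ) : ℂ) = 0 := by
  have h1 : (Units.coeHom ℂ).comp ψ ≠ 1 := by
    intro h2
    apply h
    ext C
    have := DFunLike.congr_fun h2 C
    simpa using this
  exact sum_hom_units_eq_zero _ h1

end ILb

open ILb

theorem pr_Lb (hZc : StZc.{u}) (hSi : StSi.{u}) : StLb.{u} := by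
  intro K _ _ ψ hψ
  classical
  choose B hB using fun C : ClassGroup (𝓞 K) => hZc K C 1
  refine ⟨∑ C : ClassGroup (𝓞 K), ‖((ψ C : ℂˣ) : ℂ)‖ * B C, fun s hs => ?_⟩
  have h1 : LL K ψ s = ∑ C : ClassGroup (𝓞 K), ((ψ C : ℂˣ) : ℂ) *
      (((zc K C s - zc K 1 s : ℝ)) : ℂ) := by
    rw [LL_eq K hSi ψ s hs.1]
    have h2 : ∑ C : ClassGroup (𝓞 K), ((ψ C : ℂˣ) : ℂ) * ((zc K 1 s : ℝ) : ℂ) = 0 := by
      rw [← Finset.sum_mul, sum_zero K ψ hψ, zero_mul]
    rw [← sub_zero (∑ C : ClassGroup (𝓞 K), ((ψ C : ℂˣ) : ℂ) * ((zc K C s : ℝ) : ℂ)), ← h2,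
      ← Finset.sum_sub_distrib]
    refine Finset.sum_congr rfl fun C _ => ?_
    push_cast
    ring
  rw [h1]
  refine (norm_sum_le _ _).trans (Finset.sum_le_sum fun C _ => ?_)
  rw [norm_mul, Complex.norm_real]
  exact mul_le_mul_of_nonneg_left (hB C s hs) (norm_nonneg _)

end Pool.Agent.Work.MP_59f3ad_nt.UCF
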