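import Mathlib
import Pool.Agent.Work.MP_59f3ad_nt.UCF.Stmts

/-!
Item Sm of the library UCF: summability over the ring of integers.
-/

open NumberField

namespace Pool.Agent.Work.MP_59f3ad_nt.UCF
universe u
namespace ISm
open Classical in
theorem rk (K : Type u) [Field K] [NumberField K] :
    Module.finrank ℤ (mixedEmbedding.integerLattice K) = Module.finrank ℚ K := by
  rw [ZLattice.rank ℝ, mixedEmbedding.finrank]

open Classical in
theorem sm (K : Type u) [Field K] [NumberField K] (t : ℝ) (ht : (Module.finrank ℚ K : ℝ) < t) :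
    Summable (fun z : mixedEmbedding.integerLattice K => ‖z‖ ^ (-t)) :=
  ZLattice.summable_norm_rpow (mixedEmbedding.integerLattice K) (-t) (by
    rw [rk]
    linarith)

/-- The element of the lattice. -/
noncomputable def el (K : Type u) [Field K] [NumberField K] (x : 𝓞 K) :
    mixedEmbedding.integerLattice K :=
  ⟨mixedEmbedding K (x : K), ⟨x, rfl⟩⟩

theorem el_inj (K : Type u) [Field K] [NumberField K] : Function.Injective (el K) := by
  intro x y hxy
  have h2 : mixedEmbedding K (x : K) = mixedEmbedding K (y : K) := congrArg Subtype.val hxy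
  exact RingOfIntegers.ext (mixedEmbedding_injective K h2)

open Classical in
theorem norm_el (K : Type u) [Field K] [NumberField K] (x : 𝓞 K) : ‖el K x‖ = sz K x := rfl
end ISm

open Classical in
theorem pr_Sm : StSm.{u} := by
  intro K _ _ t ht
  have h := (ISm.sm K t ht).comp_injective (ISm.el_inj K)
  refine h.congr (fun x => ?_)
  show sz K x ^ (-t) = ‖ISm.el K x‖ ^ (-t)
  rw [ISm.norm_el]
end Pool.Agent.Work.MP_59f3ad_nt.UCF
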