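import Mathlib
import Pool.Agent.Work.MP_59f3ad_nt.UCF.Stmts

/-!
# Library UCF, item Zc: the zeta functions of two ideal classes differ by a bounded function
-/

set_option autoImplicit false

open NumberField IsDedekindDomain Filter Topology
open scoped Pointwise nonZeroDivisors

namespace Pool.Agent.Work.MP_59f3ad_nt.UCF

universe u

namespace IZc

variable (K : Type u) [Field K] [NumberField K]

theorem cls_of_ne {I : Ideal (𝓞 K)} (h : I ≠ ⊥) :
    cls K I = ClassGroup.mk0 ⟨I, mem_nonZeroDivisors_iff_ne_zero.mpr h⟩ := by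
  unfold cls
  rw [dif_neg h]

theorem cls_top : cls K (⊤ : Ideal (𝓞 K)) = 1 := by
  rw [cls_of_ne K top_ne_bot]
  have : (⟨⊤, mem_nonZeroDivisors_iff_ne_zero.mpr top_ne_bot⟩ : (Ideal (𝓞 K))⁰) = 1 :=
    Subtype.ext Ideal.one_eq_top.symm
  rw [this, map_one]

theorem exists_cls (C : ClassGroup (𝓞 K)) : ∃ J : Ideal (𝓞 K), J ≠ ⊥ ∧ cls K J = C := by
  obtain ⟨J, hJ⟩ := ClassGroup.mk0_surjective C
  have h : (J : Ideal (𝓞 K)) ≠ ⊥ := mem_nonZeroDivisors_iff_ne_zero.mp J.2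
  refine ⟨J, h, ?_⟩
  rw [cls_of_ne K h]
  exact hJ

theorem term_nonneg (I : Ideal (𝓞 K)) (s : ℝ) : 0 ≤ (I.absNorm : ℝ) ^ (-s) :=
  Real.rpow_nonneg (Nat.cast_nonneg _) _

theorem sum_if (hSi : StSi.{u}) {s : ℝ} (hs : 1 < s) (p : Ideal (𝓞 K) → Prop)
    [DecidablePred p] :
    Summable (fun I : Ideal (𝓞 K) => if p I then (I.absNorm : ℝ) ^ (-s) else 0) := by
  refine Summable.of_nonneg_of_le (fun I => ?_) (fun I => ?_) (hSi K s hs)
  · split_ifs
    · exact term_nonneg K I s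
    · exact le_rfl
  · split_ifs
    · exact le_rfl
    · exact term_nonneg K I s

theorem zc_nonneg (C : ClassGroup (𝓞 K)) (s : ℝ) : 0 ≤ zc K C s := by
  unfold zc
  refine tsum_nonneg fun I => ?_
  split_ifs
  · exact term_nonneg K I s
  · exact le_rfl

theorem zc_le (hSi : StSi.{u}) (C : ClassGroup (𝓞 K)) {s : ℝ} (hs : 1 < s) :
    zc K C s ≤ zK K s := by
  classical
  unfold zc zK
  refine Summable.tsum_le_tsum (fun I => ?_) (sum_if K hSi hs _) (sum_if K hSi hs _)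
  by_cases h : I ≠ ⊥ ∧ cls K I = C
  · rw [if_pos h, if_pos h.1]
  · rw [if_neg h]
    split_ifs
    · exact term_nonneg K I s
    · exact le_rfl

theorem comp (hCp : StCp.{u}) (hUf : StUf.{u}) (hRs : StRs.{u}) (hSi : StSi.{u})
    (C : ClassGroup (𝓞 K)) :
    ∃ B : ℝ, ∀ s ∈ Set.Ioc (1 : ℝ) 2, |zc K 1 s - zc K C s| ≤ B := by
  obtain ⟨J, hJ, hJC⟩ := exists_cls K C⁻¹
  obtain ⟨B₀, hB₀⟩ := hCp K J hJ
  obtain ⟨a, b, -, hab⟩ := hRs K
  obtain ⟨m, hm⟩ : ∃ m : ℝ, m = (J.absNorm : ℝ) := ⟨_, rfl⟩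
  have hm1 : 1 ≤ m := by
    rw [hm]
    have : J.absNorm ≠ 0 := by
      rw [Ne, Ideal.absNorm_eq_zero_iff]
      exact hJ
    exact_mod_cast Nat.one_le_iff_ne_zero.2 this
  have hm0 : 0 < m := by linarith
  refine ⟨B₀ + b * Real.log m, fun s hs => ?_⟩
  have hs1 : 1 < s := hs.1
  obtain ⟨w, hw⟩ : ∃ w : ℝ, w = (Units.torsionOrder K : ℝ) := ⟨_, rfl⟩
  have hw1 : 1 ≤ w := by
    rw [hw]
    exact_mod_cast Nat.one_le_iff_ne_zero.2 (Units.torsionOrder_ne_zero K)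
  have h1 := hUf K ⊤ top_ne_bot s hs1
  have h2 := hUf K J hJ s hs1
  rw [cls_top, inv_one, Ideal.absNorm_top, Nat.cast_one, Real.one_rpow, mul_one, ← hw] at h1
  rw [hJC, inv_inv, ← hm, ← hw] at h2
  have h3 := hB₀ s hs
  rw [h1, h2, ← hm] at h3
  have e1 : m * m ^ (-s) = m ^ (1 - s) := by
    rw [sub_eq_add_neg, Real.rpow_add hm0, Real.rpow_one]
  have e2 : w * zc K 1 s - m * (w * m ^ (-s) * zc K C s) =
      w * (zc K 1 s - m ^ (1 - s) * zc K C s) := by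
    rw [← e1]
    ring
  rw [e2, abs_mul, abs_of_pos (by linarith : (0 : ℝ) < w)] at h3
  have h4 : |zc K 1 s - m ^ (1 - s) * zc K C s| ≤ B₀ :=
    (le_mul_of_one_le_left (abs_nonneg _) hw1).trans h3
  have h5 : m ^ (1 - s) ≤ 1 := Real.rpow_le_one_of_one_le_of_nonpos hm1 (by linarith)
  have h6 : 1 - m ^ (1 - s) ≤ (s - 1) * Real.log m := by
    have h7 := Real.add_one_le_exp (Real.log m * (1 - s))
    rw [← Real.rpow_def_of_pos hm0] at h7
    linarith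
  have h7 := zc_nonneg K C s
  have h8 := (zc_le K hSi C hs1).trans (hab s hs).2
  have hs0 : 0 < s - 1 := by linarith
  have h9 : (1 - m ^ (1 - s)) * zc K C s ≤ b * Real.log m := by
    have hlm : 0 ≤ Real.log m := Real.log_nonneg hm1
    calc (1 - m ^ (1 - s)) * zc K C s ≤ ((s - 1) * Real.log m) * (b / (s - 1)) :=
          mul_le_mul h6 h8 h7 (by positivity)
      _ = b * Real.log m := by
          field_simp
  have e3 : zc K 1 s - zc K C s =
      (zc K 1 s - m ^ (1 - s) * zc K C s) - (1 - m ^ (1 - s)) * zc K C s := by ring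
  rw [e3]
  refine (abs_sub _ _).trans ?_
  rw [abs_of_nonneg (mul_nonneg (by linarith : (0 : ℝ) ≤ 1 - m ^ (1 - s)) h7)]
  exact add_le_add h4 h9

end IZc

/-- Item Zc. -/
theorem pr_Zc (hCp : StCp.{u}) (hUf : StUf.{u}) (hRs : StRs.{u}) (hSi : StSi.{u}) :
    StZc.{u} := by
  intro K _ _ C₁ C₂
  obtain ⟨B₁, h₁⟩ := IZc.comp K hCp hUf hRs hSi C₁
  obtain ⟨B₂, h₂⟩ := IZc.comp K hCp hUf hRs hSi C₂
  refine ⟨B₁ + B₂, fun s hs => ?_⟩
  have e : zc K C₁ s - zc K C₂ s = -(zc K 1 s - zc K C₁ s) + (zc K 1 s - zc K C₂ s) := by ring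
  rw [e]
  refine (abs_add_le _ _).trans ?_
  rw [abs_neg]
  exact add_le_add (h₁ s hs) (h₂ s hs)

end Pool.Agent.Work.MP_59f3ad_nt.UCF
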